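import Mathlib

open MeasureTheory ProbabilityTheory Filter Topology
open scoped ENNReal NNReal

namespace Pool.Agent.Helper41

variable {Ω : Type*} [MeasurableSpace Ω] {P : Measure Ω} [IsProbabilityMeasure P]

/-- Paley–Zygmund at level zero. -/
lemma sq_lintegral_le {Z : Ω → ℝ≥0∞} (hZ : Measurable Z) :
    (∫⁻ ω, Z ω ∂P) ^ 2 ≤ (∫⁻ ω, Z ω ^ 2 ∂P) * P {ω | Z ω ≠ 0} := by
  have hS : MeasurableSet {ω | Z ω ≠ 0} := (hZ (measurableSet_singleton 0)).compl
  have hg : Measurable (({ω | Z ω ≠ 0} : Set Ω).indicator (fun _ => (1 : ℝ≥0∞))) :=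
    measurable_const.indicator hS
  have h1 := ENNReal.lintegral_mul_le_Lp_mul_Lq P Real.HolderConjugate.two_two hZ.aemeasurable
    hg.aemeasurable
  have h2 : ∫⁻ ω, (Z * ({ω | Z ω ≠ 0} : Set Ω).indicator (fun _ => (1 : ℝ≥0∞))) ω ∂P =
      ∫⁻ ω, Z ω ∂P := by
    apply lintegral_congr
    intro ω
    by_cases h : Z ω = 0
    · simp [h]
    · simp [Set.indicator_apply, h]
  have h3 : ∫⁻ ω, (({ω | Z ω ≠ 0} : Set Ω).indicator (fun _ => (1 : ℝ≥0∞))) ω ^ (2 : ℝ) ∂P =
      P {ω | Z ω ≠ 0} := by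
    rw [← lintegral_indicator_one hS]
    apply lintegral_congr
    intro ω
    by_cases h : Z ω = 0
    · simp [h]
    · simp [Set.indicator_apply, h]
  rw [h2, h3] at h1
  calc (∫⁻ ω, Z ω ∂P) ^ 2
      ≤ ((∫⁻ ω, Z ω ^ (2 : ℝ) ∂P) ^ (1 / 2 : ℝ) * (P {ω | Z ω ≠ 0}) ^ (1 / 2 : ℝ)) ^ 2 := by
        gcongr
    _ = (∫⁻ ω, Z ω ^ (2 : ℝ) ∂P) * P {ω | Z ω ≠ 0} := by
        rw [mul_pow, ← ENNReal.rpow_natCast, ← ENNReal.rpow_natCast, ← ENNReal.rpow_mul,
          ← ENNReal.rpow_mul]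
        norm_num
    _ = _ := by simp

/-- sum of inverse square roots -/
lemma sum_inv_sqrt_le (M : ℕ) : ∑ d ∈ Finset.range M, 1 / √((d : ℝ) + 1) ≤ 2 * √M := by
  induction M with
  | zero => simp
  | succ M ih =>
    rw [Finset.sum_range_succ]
    have h1 : 1 / √((M : ℝ) + 1) ≤ 2 * √((M : ℝ) + 1) - 2 * √M := by
      have ha : 0 < √((M : ℝ) + 1) := Real.sqrt_pos.2 (by positivity)
      have hb : 0 ≤ √(M : ℝ) := Real.sqrt_nonneg _
      have hab : √(M : ℝ) ≤ √((M : ℝ) + 1) := Real.sqrt_le_sqrt (by linarith)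
      have h2 : (√((M : ℝ) + 1)) ^ 2 = M + 1 := Real.sq_sqrt (by positivity)
      have h3 : (√(M : ℝ)) ^ 2 = M := Real.sq_sqrt (by positivity)
      rw [div_le_iff₀ ha]
      nlinarith
    push_cast
    linarith

lemma sum_dist_le (M : ℕ) (f : ℕ → ℝ) (hf : ∀ x, 0 ≤ f x) (j : ℕ) (hj : j < M) :
    ∑ j' ∈ Finset.range M, (if j' = j then 0 else f ((j - j') + (j' - j))) ≤
      2 * ∑ d ∈ Finset.range M, f (d + 1) := by
  have hsplit : ∑ j' ∈ Finset.range M, (if j' = j then 0 else f ((j - j') + (j' - j))) =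
      ∑ j' ∈ Finset.range j, f (j - j') + ∑ j' ∈ Finset.Ico (j + 1) M, f (j' - j) := by
    rw [← Finset.sum_range_add_sum_Ico _ hj.le, Finset.sum_eq_sum_Ico_succ_bot hj]
    rw [if_pos rfl, zero_add]
    congr 1
    · refine Finset.sum_congr rfl fun j' hj' => ?_
      rw [Finset.mem_range] at hj'
      rw [if_neg hj'.ne, Nat.sub_eq_zero_of_le hj'.le, add_zero]
    · refine Finset.sum_congr rfl fun j' hj' => ?_
      rw [Finset.mem_Ico] at hj'
      rw [if_neg (by omega), Nat.sub_eq_zero_of_le (by omega), zero_add]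
  rw [hsplit, two_mul]
  refine add_le_add ?_ ?_
  · rw [← Finset.sum_range_reflect]
    calc ∑ d ∈ Finset.range j, f (j - (j - 1 - d))
        = ∑ d ∈ Finset.range j, f (d + 1) := by
          refine Finset.sum_congr rfl fun d hd => ?_
          rw [Finset.mem_range] at hd
          congr 1
          omega
      _ ≤ _ := Finset.sum_le_sum_of_subset_of_nonneg
          (Finset.range_subset_range.2 hj.le) (fun _ _ _ => hf _)
  · rw [Finset.sum_Ico_eq_sum_range]
    calc ∑ d ∈ Finset.range (M - (j + 1)), f (j + 1 + d - j)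
        = ∑ d ∈ Finset.range (M - (j + 1)), f (d + 1) := by
          refine Finset.sum_congr rfl fun d hd => ?_
          congr 1
          omega
      _ ≤ _ := Finset.sum_le_sum_of_subset_of_nonneg
          (Finset.range_subset_range.2 (Nat.sub_le _ _)) (fun _ _ _ => hf _)

/-- Abstract second moment criterion. -/
theorem second_moment {M : ℕ} (hM : 1 ≤ M) (F : ℕ → Ω → ℝ≥0∞) (hF : ∀ j, Measurable (F j))
    {K : ℝ} (hK : 0 ≤ K)
    (h1 : ∀ j < M, 1 / 2 ≤ ∫⁻ ω, F j ω ∂P)
    (h2 : ∀ j < M, ∫⁻ ω, F j ω * F j ω ∂P ≤ M)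
    (h3 : ∀ j < M, ∀ j' < M, j' ≠ j → ∫⁻ ω, F j ω * F j' ω ∂P ≤
      ENNReal.ofReal (K * √((M : ℝ) / (((j - j') + (j' - j) : ℕ) : ℝ)))) :
    ENNReal.ofReal (1 / (4 * (1 + 4 * K))) ≤ P {ω | ∃ j < M, F j ω ≠ 0} := by
  have hM' : (0 : ℝ) < M := by exact_mod_cast hM
  set Z : Ω → ℝ≥0∞ := fun ω => ∑ j ∈ Finset.range M, F j ω with hZdef
  have hZ : Measurable Z := Finset.measurable_sum _ fun j _ => hF j
  have hFF : ∀ j j', Measurable (fun ω => F j ω * F j' ω) := fun j j' => (hF j).mul (hF j')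
  have hEZ : (M : ℝ≥0∞) * (1 / 2) ≤ ∫⁻ ω, Z ω ∂P := by
    rw [hZdef, lintegral_finset_sum _ fun j _ => hF j]
    calc (M : ℝ≥0∞) * (1 / 2) = ∑ _j ∈ Finset.range M, (1 / 2 : ℝ≥0∞) := by
          rw [Finset.sum_const, Finset.card_range, nsmul_eq_mul]
      _ ≤ _ := Finset.sum_le_sum fun j hj => h1 j (Finset.mem_range.1 hj)
  have hEZ2 : ∫⁻ ω, Z ω ^ 2 ∂P ≤ ENNReal.ofReal (M ^ 2 * (1 + 4 * K)) := by
    have e1 : ∀ ω, Z ω ^ 2 = ∑ j ∈ Finset.range M, ∑ j' ∈ Finset.range M, F j ω * F j' ω := by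
      intro ω
      rw [hZdef, sq, Finset.sum_mul_sum]
    simp_rw [e1]
    rw [lintegral_finset_sum _ fun j _ => Finset.measurable_sum _ fun j' _ => hFF j j']
    have e2 : ∀ j ∈ Finset.range M, ∫⁻ ω, ∑ j' ∈ Finset.range M, F j ω * F j' ω ∂P ≤
        ENNReal.ofReal (M * (1 + 4 * K)) := by
      intro j hj
      rw [Finset.mem_range] at hj
      rw [lintegral_finset_sum _ fun j' _ => hFF j j']
      set f : ℕ → ℝ := fun d => K * √((M : ℝ) / (d : ℝ)) with hf
      have hf0 : ∀ d, 0 ≤ f d := fun d => by simp only [hf]; positivity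
      calc ∑ j' ∈ Finset.range M, ∫⁻ ω, F j ω * F j' ω ∂P
          ≤ ∑ j' ∈ Finset.range M, ((if j' = j then (M : ℝ≥0∞) else 0) +
              ENNReal.ofReal (if j' = j then 0 else f ((j - j') + (j' - j)))) := by
            refine Finset.sum_le_sum fun j' hj' => ?_
            rw [Finset.mem_range] at hj'
            by_cases hjj : j' = j
            · subst hjj
              rw [if_pos rfl, if_pos rfl, ENNReal.ofReal_zero, add_zero]
              exact h2 j' hj'
            · rw [if_neg hjj, if_neg hjj, zero_add]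
              exact h3 j hj j' hj' hjj
        _ = M + ENNReal.ofReal (∑ j' ∈ Finset.range M,
              (if j' = j then 0 else f ((j - j') + (j' - j)))) := by
            rw [Finset.sum_add_distrib, Finset.sum_ite_eq' , if_pos (Finset.mem_range.2 hj),
              ENNReal.ofReal_sum_of_nonneg]
            intro j' _
            split_ifs
            · exact le_rfl
            · exact hf0 _
        _ ≤ M + ENNReal.ofReal (M * (4 * K)) := by
            gcongr
            refine (sum_dist_le M f hf0 j hj).trans ?_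
            have e3 : ∑ d ∈ Finset.range M, f (d + 1) =
                K * √M * ∑ d ∈ Finset.range M, 1 / √((d : ℝ) + 1) := by
              rw [Finset.mul_sum]
              refine Finset.sum_congr rfl fun d _ => ?_
              simp only [hf]
              rw [Real.sqrt_div hM'.le]
              push_cast
              ring
            rw [e3]
            have e4 := sum_inv_sqrt_le M
            have e5 : √(M : ℝ) * √M = M := Real.mul_self_sqrt hM'.le
            calc 2 * (K * √M * ∑ d ∈ Finset.range M, 1 / √((d : ℝ) + 1))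
                ≤ 2 * (K * √M * (2 * √M)) := by gcongr
              _ = 4 * K * (√M * √M) := by ring
              _ = M * (4 * K) := by rw [e5]; ring
        _ = ENNReal.ofReal (M * (1 + 4 * K)) := by
            rw [mul_add, mul_one, ENNReal.ofReal_add hM'.le (by positivity), ENNReal.ofReal_natCast]
    calc _ ≤ ∑ _j ∈ Finset.range M, ENNReal.ofReal (M * (1 + 4 * K)) := Finset.sum_le_sum e2
      _ = _ := by
          rw [Finset.sum_const, Finset.card_range, nsmul_eq_mul, ← ENNReal.ofReal_natCast,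
            ← ENNReal.ofReal_mul hM'.le]
          congr 1
          ring
  have hsub : {ω | Z ω ≠ 0} ⊆ {ω | ∃ j < M, F j ω ≠ 0} := by
    intro ω hω
    by_contra hcon
    apply hω
    simp only [Set.mem_setOf_eq, not_exists, not_and, not_not] at hcon
    simp only [hZdef]
    exact Finset.sum_eq_zero fun j hj => hcon j (Finset.mem_range.1 hj)
  have hmain : (M : ℝ≥0∞) ^ 2 * (1 / 4) ≤
      ENNReal.ofReal (M ^ 2 * (1 + 4 * K)) * P {ω | ∃ j < M, F j ω ≠ 0} := by
    calc (M : ℝ≥0∞) ^ 2 * (1 / 4) = ((M : ℝ≥0∞) * (1 / 2)) ^ 2 := by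
          rw [mul_pow]
          congr 1
          rw [one_div, one_div, ← ENNReal.inv_pow]
          norm_num
      _ ≤ (∫⁻ ω, Z ω ∂P) ^ 2 := by gcongr
      _ ≤ (∫⁻ ω, Z ω ^ 2 ∂P) * P {ω | Z ω ≠ 0} := sq_lintegral_le hZ
      _ ≤ _ := by
          gcongr
  have hpos : 0 < (M : ℝ) ^ 2 * (1 + 4 * K) := by positivity
  have e6 : ENNReal.ofReal (1 / (4 * (1 + 4 * K))) =
      ((M : ℝ≥0∞) ^ 2 * (1 / 4)) / ENNReal.ofReal (M ^ 2 * (1 + 4 * K)) := by
    have : ((M : ℝ≥0∞) ^ 2 * (1 / 4)) = ENNReal.ofReal (M ^ 2 * (1 / 4)) := by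
      rw [ENNReal.ofReal_mul (by positivity), ENNReal.ofReal_pow hM'.le, ENNReal.ofReal_natCast]
      congr 1
      rw [one_div, one_div, ENNReal.ofReal_inv_of_pos (by norm_num)]
      norm_num
    rw [this, ← ENNReal.ofReal_div_of_pos hpos]
    congr 1
    field_simp
  rw [e6]
  exact ENNReal.div_le_of_le_mul' hmain

/-- If events have probability at least `c`, then with probability at least `c` infinitely many
of them occur. -/
lemma limsup_ge {G : ℕ → Set Ω} {c : ℝ≥0∞} (hG : ∀ k, NullMeasurableSet (G k) P)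
    (h : ∀ k, c ≤ P (G k)) : c ≤ P {ω | ∀ K, ∃ k, K ≤ k ∧ ω ∈ G k} := by
  have e : {ω | ∀ K, ∃ k, K ≤ k ∧ ω ∈ G k} = ⋂ K, ⋃ k ≥ K, G k := by
    ext ω
    simp
  rw [e]
  have hanti : Antitone (fun K : ℕ => ⋃ k ≥ K, G k) := by
    intro a b hab
    exact Set.biUnion_mono (fun k hk => le_trans hab hk) fun _ _ => le_rfl
  have hlim := tendsto_measure_iInter_atTop (μ := P) (s := fun K : ℕ => ⋃ k ≥ K, G k)
    (fun K => NullMeasurableSet.iUnion fun k => NullMeasurableSet.iUnion fun _ => hG k) hanti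
    ⟨0, measure_ne_top _ _⟩
  refine ge_of_tendsto' hlim fun K => ?_
  refine (h K).trans (measure_mono ?_)
  exact Set.subset_biUnion_of_mem (u := fun k => G k) (le_refl K : K ≥ K)

end Pool.Agent.Helper41
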