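import Mathlib

open MeasureTheory ProbabilityTheory
open scoped ENNReal NNReal

namespace Pool.Agent.Helper41

variable {Ω : Type*} [MeasurableSpace Ω] {P : Measure Ω} [IsProbabilityMeasure P]

/-- `X` has the finite dimensional characteristic functions of a centred Gaussian process with
covariance kernel `K`. -/
def CharKernel {T : Type*} (X : T → Ω → ℝ) (P : Measure Ω) (K : T → T → ℝ) : Prop :=
  ∀ (n : ℕ) (q : Fin n → T) (a : Fin n → ℝ),
    ∫ ω, Complex.exp (Complex.I * ((∑ i, a i * X (q i) ω : ℝ) : ℂ)) ∂P =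
      Complex.exp (-(1 / 2 : ℂ) * ((∑ i, ∑ j, a i * a j * K (q i) (q j) : ℝ) : ℂ))

section
variable {T : Type*} {X : T → Ω → ℝ} {K : T → T → ℝ}

lemma CharKernel.quad_nonneg (h : CharKernel X P K) {n : ℕ} (q : Fin n → T) (a : Fin n → ℝ) :
    0 ≤ ∑ i, ∑ j, a i * a j * K (q i) (q j) := by
  have h1 := h n q a
  have h2 : ‖∫ ω, Complex.exp (Complex.I * ((∑ i, a i * X (q i) ω : ℝ) : ℂ)) ∂P‖ ≤ 1 := by
    calc _ ≤ ∫ ω, ‖Complex.exp (Complex.I * ((∑ i, a i * X (q i) ω : ℝ) : ℂ))‖ ∂P :=
          norm_integral_le_integral_norm _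
      _ = ∫ ω, (1 : ℝ) ∂P := by
          congr 1
          funext ω
          rw [mul_comm, Complex.norm_exp_ofReal_mul_I]
      _ = 1 := by simp
  rw [h1, Complex.norm_exp] at h2
  have h3 : (-(1 / 2 : ℂ) * ((∑ i, ∑ j, a i * a j * K (q i) (q j) : ℝ) : ℂ)).re =
      -(1 / 2) * (∑ i, ∑ j, a i * a j * K (q i) (q j)) := by
    rw [Complex.re_mul_ofReal]
    norm_num
  rw [h3] at h2
  have := Real.exp_le_one_iff.1 h2
  linarith

lemma CharKernel.map_eq (h : CharKernel X P K) (hX : ∀ t, Measurable (X t))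
    {n : ℕ} (q : Fin n → T) (a : Fin n → ℝ) :
    P.map (fun ω => ∑ i, a i * X (q i) ω) =
      gaussianReal 0 (∑ i, ∑ j, a i * a j * K (q i) (q j)).toNNReal := by
  have hm : Measurable (fun ω => ∑ i, a i * X (q i) ω) := by fun_prop
  have : IsProbabilityMeasure (P.map (fun ω => ∑ i, a i * X (q i) ω)) :=
    Measure.isProbabilityMeasure_map hm.aemeasurable
  apply Measure.ext_of_charFun
  ext t
  rw [charFun_gaussianReal, charFun_apply_real, integral_map hm.aemeasurable (by fun_prop)]
  have h1 := h n q (fun i => t * a i)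
  have e1 : ∀ ω, ((∑ i, t * a i * X (q i) ω : ℝ) : ℂ) = (t : ℂ) * ((∑ i, a i * X (q i) ω : ℝ) : ℂ) := by
    intro ω
    rw [← Complex.ofReal_mul, Finset.mul_sum]
    congr 1
    refine Finset.sum_congr rfl fun i _ => by ring
  have e2 : (∑ i, ∑ j, (t * a i) * (t * a j) * K (q i) (q j)) =
      t ^ 2 * (∑ i, ∑ j, a i * a j * K (q i) (q j)) := by
    rw [Finset.mul_sum]
    refine Finset.sum_congr rfl fun i _ => ?_
    rw [Finset.mul_sum]
    refine Finset.sum_congr rfl fun j _ => by ring
  rw [e2] at h1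
  simp_rw [e1] at h1
  have hnn := h.quad_nonneg q a
  have e3 : (((∑ i, ∑ j, a i * a j * K (q i) (q j)).toNNReal : ℝ) : ℂ) =
      ((∑ i, ∑ j, a i * a j * K (q i) (q j) : ℝ) : ℂ) := by
    rw [Real.coe_toNNReal _ hnn]
  calc ∫ ω, Complex.exp (t * ((∑ i, a i * X (q i) ω : ℝ) : ℂ) * Complex.I) ∂P
      = ∫ ω, Complex.exp (Complex.I * ((t : ℂ) * ((∑ i, a i * X (q i) ω : ℝ) : ℂ))) ∂P := by
        congr 1
        funext ω
        congr 1
        ring
    _ = _ := h1
    _ = _ := by
        congr 1
        rw [e3]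
        push_cast
        ring

lemma CharKernel.isGaussianProcess (h : CharKernel X P K) (hX : ∀ t, Measurable (X t)) :
    IsGaussianProcess X P where
  hasGaussianLaw I := by
    constructor
    refine isGaussian_of_map_eq_gaussianReal fun L => ?_
    classical
    have hm : Measurable (fun ω => I.restrict (X · ω)) := by
      refine measurable_pi_lambda _ fun i => ?_
      exact hX _
    rw [Measure.map_map (by fun_prop) hm]
    have e : (L ∘ fun ω => I.restrict (X · ω)) =
        fun ω => ∑ i : Fin (Fintype.card I),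
          L (Pi.single ((Fintype.equivFin I).symm i) 1) * X ((Fintype.equivFin I).symm i) ω := by
      funext ω
      simp only [Function.comp_apply]
      have h1 := L.toLinearMap.pi_apply_eq_sum_univ (I.restrict (X · ω))
      simp only [ContinuousLinearMap.coe_coe, smul_eq_mul] at h1
      rw [h1]
      rw [← (Fintype.equivFin I).symm.sum_comp]
      refine Finset.sum_congr rfl fun i _ => ?_
      rw [mul_comm]
      congr 2
      ext j
      simp [Pi.single_apply, eq_comm]
    rw [e]
    exact ⟨0, _, h.map_eq hX (fun i => ((Fintype.equivFin I).symm i : T)) _⟩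

lemma CharKernel.map_single (h : CharKernel X P K) (hX : ∀ t, Measurable (X t)) (t : T) :
    P.map (X t) = gaussianReal 0 (K t t).toNNReal := by
  have := h.map_eq hX (fun _ : Fin 1 => t) (fun _ => 1)
  simpa using this

lemma CharKernel.diag_nonneg (h : CharKernel X P K) (t : T) : 0 ≤ K t t := by
  have := h.quad_nonneg (fun _ : Fin 1 => t) (fun _ => 1)
  simpa using this

lemma CharKernel.mean (h : CharKernel X P K) (hX : ∀ t, Measurable (X t)) (t : T) :
    P[X t] = 0 := by
  have h1 : ∫ ω, X t ω ∂P = ∫ x, x ∂(P.map (X t)) :=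
    (integral_map (f := fun x : ℝ => x) (hX t).aemeasurable (by fun_prop)).symm
  rw [h1, h.map_single hX, integral_id_gaussianReal]

lemma CharKernel.memLp (h : CharKernel X P K) (hX : ∀ t, Measurable (X t)) (t : T) :
    MemLp (X t) 2 P :=
  ((h.isGaussianProcess hX).hasGaussianLaw_eval t).memLp_two

lemma CharKernel.variance (h : CharKernel X P K) (hX : ∀ t, Measurable (X t)) {n : ℕ}
    (q : Fin n → T) (a : Fin n → ℝ) :
    Var[fun ω => ∑ i, a i * X (q i) ω; P] = ∑ i, ∑ j, a i * a j * K (q i) (q j) := by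
  have hm : Measurable (fun ω => ∑ i, a i * X (q i) ω) := by fun_prop
  have h1 : Var[fun ω => ∑ i, a i * X (q i) ω; P] =
      Var[id; P.map (fun ω => ∑ i, a i * X (q i) ω)] := by
    rw [variance_map (by fun_prop) hm.aemeasurable]
    rfl
  rw [h1, h.map_eq hX, variance_id_gaussianReal, Real.coe_toNNReal _ (h.quad_nonneg q a)]

lemma CharKernel.cov (h : CharKernel X P K) (hX : ∀ t, Measurable (X t))
    (hK : ∀ s t, K s t = K t s) (s t : T) :
    cov[X s, X t; P] = K s t := by
  have h1 := h.variance hX (fun _ : Fin 1 => s) (fun _ => 1)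
  have h2 := h.variance hX (fun _ : Fin 1 => t) (fun _ => 1)
  have h3 := h.variance hX (![s, t]) (![1, 1])
  simp only [Finset.univ_unique, Finset.sum_singleton, one_mul, mul_one] at h1 h2
  simp only [Fin.sum_univ_two, Matrix.cons_val_zero, Matrix.cons_val_one, one_mul, mul_one] at h3
  have h4 : Var[fun ω => X s ω + X t ω; P] = Var[X s; P] + 2 * cov[X s, X t; P] + Var[X t; P] :=
    variance_add (h.memLp hX s) (h.memLp hX t)
  have h1' : Var[X s; P] = K s s := h1
  have h2' : Var[X t; P] = K t t := h2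
  rw [h3, h1', h2', hK t s] at h4
  linarith

end

end Pool.Agent.Helper41
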