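import Mathlib

open MeasureTheory ProbabilityTheory
open scoped ENNReal NNReal

namespace Pool.Agent.Helper41

variable {Ω : Type*} [MeasurableSpace Ω] {P : Measure Ω} [IsProbabilityMeasure P]
variable {ι : Type*} [Fintype ι]

/-- The largest probability that the points `Y (i l)` lie within `r` of prescribed targets. -/
noncomputable def Phi (P : Measure Ω) (Y : ℕ → Ω → (ι → ℝ)) (r : ℝ) {k : ℕ} (i : Fin k → ℕ) :
    ℝ≥0∞ :=
  ⨆ y : Fin k → (ι → ℝ), P {ω | ∀ l, ‖Y (i l) ω - y l‖ ≤ r}

lemma Phi_le_one (Y : ℕ → Ω → (ι → ℝ)) (r : ℝ) {k : ℕ} (i : Fin k → ℕ) :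
    Phi P Y r i ≤ 1 :=
  iSup_le fun _ => prob_le_one

lemma measurableSet_near {k : ℕ} {Y : ℕ → Ω → (ι → ℝ)} (hY : ∀ j, Measurable (Y j)) (r : ℝ)
    (i : Fin k → ℕ) (y : Fin k → (ι → ℝ)) :
    MeasurableSet {ω | ∀ l, ‖Y (i l) ω - y l‖ ≤ r} := by
  rw [Set.setOf_forall]
  refine MeasurableSet.iInter fun l => ?_
  exact measurableSet_le ((hY _).sub_const _).norm measurable_const

/-- Basic inequality: if `U` and `V` are independent then the probability of a joint event is at
most the probability of the `U` event times the supremum of the section probabilities. -/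
lemma measure_inter_le_of_indep {α β : Type*} [MeasurableSpace α] [MeasurableSpace β]
    {U : Ω → α} {V : Ω → β} (hU : Measurable U) (hV : Measurable V) (h : IndepFun U V P)
    {A : Set α} (hA : MeasurableSet A) {B : Set (α × β)} (hB : MeasurableSet B) {c : ℝ≥0∞}
    (hc : ∀ u, P {ω | (u, V ω) ∈ B} ≤ c) :
    P {ω | U ω ∈ A ∧ (U ω, V ω) ∈ B} ≤ P {ω | U ω ∈ A} * c := by
  have hmap := (indepFun_iff_map_prod_eq_prod_map_map hU.aemeasurable hV.aemeasurable).1 h
  have hC : MeasurableSet ((A ×ˢ (Set.univ : Set β)) ∩ B) := (hA.prod MeasurableSet.univ).inter hB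
  have h1 : P {ω | U ω ∈ A ∧ (U ω, V ω) ∈ B}
      = (P.map (fun ω => (U ω, V ω))) ((A ×ˢ (Set.univ : Set β)) ∩ B) := by
    rw [Measure.map_apply (hU.prodMk hV) hC]
    congr 1
    ext ω
    simp
  haveI : IsProbabilityMeasure (P.map V) := Measure.isProbabilityMeasure_map hV.aemeasurable
  haveI : IsProbabilityMeasure (P.map U) := Measure.isProbabilityMeasure_map hU.aemeasurable
  rw [h1, hmap, Measure.prod_apply hC]
  have h2 : ∀ u, (P.map V) (Prod.mk u ⁻¹' ((A ×ˢ (Set.univ : Set β)) ∩ B))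
      ≤ A.indicator (fun _ => c) u := by
    intro u
    by_cases hu : u ∈ A
    · rw [Set.indicator_of_mem hu]
      rw [Measure.map_apply hV (measurable_prodMk_left hC)]
      refine le_trans (measure_mono ?_) (hc u)
      intro ω hω
      simp only [Set.mem_preimage, Set.mem_inter_iff] at hω
      exact hω.2
    · rw [Set.indicator_of_notMem hu]
      have : Prod.mk u ⁻¹' ((A ×ˢ (Set.univ : Set β)) ∩ B) = ∅ := by
        ext v
        simp [hu]
      rw [this]
      simp
  calc ∫⁻ u, (P.map V) (Prod.mk u ⁻¹' ((A ×ˢ (Set.univ : Set β)) ∩ B)) ∂(P.map U)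
      ≤ ∫⁻ u, A.indicator (fun _ => c) u ∂(P.map U) := lintegral_mono h2
    _ = c * (P.map U) A := by rw [lintegral_indicator_const hA]
    _ = P {ω | U ω ∈ A} * c := by
        rw [Measure.map_apply hU hA, mul_comm]
        rfl

/-- One step of the chain: adding a latest time costs a factor `c`. -/
lemma Phi_insertNth_le {Y : ℕ → Ω → (ι → ℝ)} (hY : ∀ j, Measurable (Y j)) {r : ℝ} {k : ℕ}
    (i : Fin k → ℕ) (p : Fin (k + 1)) (a x : ℕ) (hi : ∀ l, i l ≤ a) {c : ℝ≥0∞}
    (hind : IndepFun (fun ω (j : Fin (a + 1)) => Y j ω) (fun ω => Y x ω - Y a ω) P)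
    (hc : ∀ z : ι → ℝ, P {ω | ‖Y x ω - Y a ω - z‖ ≤ r} ≤ c) :
    Phi P Y r (p.insertNth (α := fun _ => ℕ) x i) ≤ Phi P Y r i * c := by
  refine iSup_le fun y => ?_
  have hU : Measurable (fun ω (j : Fin (a + 1)) => Y j ω) := measurable_pi_lambda _ fun j => hY _
  have hV : Measurable (fun ω => Y x ω - Y a ω) := (hY x).sub (hY a)
  set A : Set (Fin (a + 1) → (ι → ℝ)) :=
    {u | ∀ l, ‖u ⟨i l, Nat.lt_succ_of_le (hi l)⟩ - y (p.succAbove l)‖ ≤ r} with hAdef
  set B : Set ((Fin (a + 1) → (ι → ℝ)) × (ι → ℝ)) :=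
    {w | ‖w.2 - (y p - w.1 ⟨a, Nat.lt_succ_self a⟩)‖ ≤ r} with hBdef
  have hA : MeasurableSet A := by
    rw [hAdef, Set.setOf_forall]
    refine MeasurableSet.iInter fun l => ?_
    exact measurableSet_le ((measurable_pi_apply _).sub_const _).norm measurable_const
  have hB : MeasurableSet B := by
    rw [hBdef]
    refine measurableSet_le ?_ measurable_const
    fun_prop
  have key := measure_inter_le_of_indep (P := P) hU hV hind hA hB (c := c) (by
    intro u
    have := hc (y p - u ⟨a, Nat.lt_succ_self a⟩)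
    simpa [hBdef] using this)
  calc P {ω | ∀ l, ‖Y (p.insertNth (α := fun _ => ℕ) x i l) ω - y l‖ ≤ r}
      ≤ P {ω | (fun j : Fin (a + 1) => Y j ω) ∈ A ∧
          ((fun j : Fin (a + 1) => Y j ω), Y x ω - Y a ω) ∈ B} := by
        refine measure_mono fun ω hω => ?_
        simp only [Set.mem_setOf_eq] at hω
        refine ⟨fun l => ?_, ?_⟩
        · have := hω (p.succAbove l)
          simpa using this
        · have := hω p
          simp only [Fin.insertNth_apply_same] at this
          simp only [hBdef, Set.mem_setOf_eq]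
          convert this using 2
          abel
    _ ≤ P {ω | (fun j : Fin (a + 1) => Y j ω) ∈ A} * c := key
    _ ≤ Phi P Y r i * c := by
        gcongr
        exact le_iSup (fun y : Fin k → (ι → ℝ) => P {ω | ∀ l, ‖Y (i l) ω - y l‖ ≤ r})
          (fun l => y (p.succAbove l))


/-- Hypotheses on a walk: increments are independent of the past and satisfy a small ball bound
with constant `h x ^ 2` for a gap of length `x`. -/
structure WalkBound (P : Measure Ω) (Y : ℕ → Ω → (ι → ℝ)) (r : ℝ) (m : ℕ) (h : ℕ → ℝ≥0∞) :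
    Prop where
  meas : ∀ j, Measurable (Y j)
  zero : ∀ ω, Y 0 ω = 0
  h0 : 1 ≤ h 0
  indep : ∀ a x, a < x → x < m →
    IndepFun (fun ω (j : Fin (a + 1)) => Y j ω) (fun ω => Y x ω - Y a ω) P
  small : ∀ a x, a < x → x < m → ∀ z : ι → ℝ, P {ω | ‖Y x ω - Y a ω - z‖ ≤ r} ≤ h (x - a) ^ 2

lemma Phi_insertNth_le' {Y : ℕ → Ω → (ι → ℝ)} {r : ℝ} {m : ℕ} {h : ℕ → ℝ≥0∞}
    (hW : WalkBound P Y r m h) {k : ℕ} (i : Fin k → ℕ) (p : Fin (k + 1)) (x : ℕ) (hx : x < m)
    (hi : ∀ l, i l ≤ x) :
    Phi P Y r (p.insertNth (α := fun _ => ℕ) x i) ≤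
      Phi P Y r i * h (x - Finset.univ.sup i) ^ 2 := by
  set a := Finset.univ.sup i with ha
  have hia : ∀ l, i l ≤ a := fun l => Finset.le_sup (Finset.mem_univ l)
  have hax : a ≤ x := Finset.sup_le fun l _ => hi l
  rcases hax.eq_or_lt with hax' | hax'
  · -- the gap is zero
    have h1 : Phi P Y r (p.insertNth (α := fun _ => ℕ) x i) ≤ Phi P Y r i := by
      refine iSup_le fun y => ?_
      refine le_trans (measure_mono ?_)
        (le_iSup (fun y : Fin k → (ι → ℝ) => P {ω | ∀ l, ‖Y (i l) ω - y l‖ ≤ r})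
          (fun l => y (p.succAbove l)))
      intro ω hω l
      have := hω (p.succAbove l)
      simpa using this
    have h2 : (1 : ℝ≥0∞) ≤ h (x - a) ^ 2 := by
      rw [hax', Nat.sub_self]
      exact one_le_pow₀ hW.h0
    calc _ ≤ Phi P Y r i * 1 := by rw [mul_one]; exact h1
      _ ≤ _ := by gcongr
  · exact Phi_insertNth_le hW.meas i p a x hia (hW.indep a x hax' hx) (hW.small a x hax' hx)

lemma sum_shift_le (h : ℕ → ℝ≥0∞) (a m : ℕ) :
    ∑ x : Fin m, (if a ≤ (x : ℕ) then h ((x : ℕ) - a) else 0) ≤ ∑ x ∈ Finset.range m, h x := by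
  rw [← Finset.sum_range (fun x => if a ≤ x then h (x - a) else 0), ← Finset.sum_filter]
  have hinj : Set.InjOn (fun x : ℕ => x - a) ((Finset.range m).filter (fun x => a ≤ x)) := by
    intro x hx y hy hxy
    simp only [Finset.coe_filter, Finset.mem_range, Set.mem_setOf_eq] at hx hy hxy
    omega
  rw [← Finset.sum_image (f := h) hinj]
  refine Finset.sum_le_sum_of_subset ?_
  intro y hy
  simp only [Finset.mem_image, Finset.mem_filter, Finset.mem_range] at hy ⊢
  obtain ⟨x, ⟨hx, hax⟩, rfl⟩ := hy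
  omega

/-- Summing the square roots of the hitting functionals over all tuples. -/
theorem sum_sqrt_Phi_le {Y : ℕ → Ω → (ι → ℝ)} {r : ℝ} {m : ℕ} {h : ℕ → ℝ≥0∞}
    (hW : WalkBound P Y r m h) (k : ℕ) :
    ∑ i : Fin k → Fin m, (Phi P Y r (fun l => (i l : ℕ))) ^ (1 / 2 : ℝ) ≤
      (k.factorial : ℝ≥0∞) * (∑ x ∈ Finset.range m, h x) ^ k := by
  induction k with
  | zero =>
    simp only [Finset.univ_unique, Finset.sum_singleton, Nat.factorial_zero, Nat.cast_one,
      pow_zero, mul_one]
    exact ENNReal.rpow_le_one (Phi_le_one _ _ _) (by norm_num)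
  | succ k ih =>
    classical
    set S := ∑ x ∈ Finset.range m, h x with hS
    -- every tuple has an index where it is maximal
    have step1 : ∀ i : Fin (k + 1) → Fin m,
        (Phi P Y r (fun l => (i l : ℕ))) ^ (1 / 2 : ℝ) ≤
          ∑ p : Fin (k + 1), if (∀ l, i l ≤ i p) then
            (Phi P Y r (fun l => (i l : ℕ))) ^ (1 / 2 : ℝ) else 0 := by
      intro i
      obtain ⟨p, -, hp⟩ := Finset.exists_max_image (Finset.univ : Finset (Fin (k + 1))) i
        ⟨0, Finset.mem_univ _⟩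
      have hp' : ∀ l, i l ≤ i p := fun l => hp l (Finset.mem_univ l)
      calc _ = (if (∀ l, i l ≤ i p) then
            (Phi P Y r (fun l => (i l : ℕ))) ^ (1 / 2 : ℝ) else 0) := by rw [if_pos hp']
        _ ≤ _ := Finset.single_le_sum (f := fun p => if (∀ l, i l ≤ i p) then
            (Phi P Y r (fun l => (i l : ℕ))) ^ (1 / 2 : ℝ) else 0)
            (fun _ _ => bot_le) (Finset.mem_univ p)
    have step2 : ∀ p : Fin (k + 1),
        ∑ i : Fin (k + 1) → Fin m, (if (∀ l, i l ≤ i p) then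
            (Phi P Y r (fun l => (i l : ℕ))) ^ (1 / 2 : ℝ) else 0) ≤
          ∑ i : Fin k → Fin m, (Phi P Y r (fun l => (i l : ℕ))) ^ (1 / 2 : ℝ) * S := by
      intro p
      rw [← (Fin.insertNthEquiv (fun _ => Fin m) p).sum_comp]
      rw [Fintype.sum_prod_type_right]
      refine Finset.sum_le_sum fun i _ => ?_
      have hterm : ∀ x : Fin m,
          (if (∀ l, (Fin.insertNthEquiv (fun _ => Fin m) p) (x, i) l ≤
              (Fin.insertNthEquiv (fun _ => Fin m) p) (x, i) p) then
            (Phi P Y r (fun l => ((Fin.insertNthEquiv (fun _ => Fin m) p) (x, i) l : ℕ)))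
              ^ (1 / 2 : ℝ) else 0) ≤
          (Phi P Y r (fun l => (i l : ℕ))) ^ (1 / 2 : ℝ) *
            (if Finset.univ.sup (fun l => (i l : ℕ)) ≤ x then
              h (x - Finset.univ.sup (fun l => (i l : ℕ))) else 0) := by
        intro x
        split_ifs with h1 h2 h2
        · have hfun : (fun l => ((Fin.insertNthEquiv (fun _ => Fin m) p) (x, i) l : ℕ)) =
              p.insertNth (α := fun _ => ℕ) (x : ℕ) (fun l => (i l : ℕ)) := by
            funext l
            refine Fin.succAboveCases p ?_ ?_ l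
            · simp [Fin.insertNthEquiv]
            · intro l'
              simp [Fin.insertNthEquiv]
          rw [hfun]
          have hle : ∀ l, (i l : ℕ) ≤ x := by
            intro l
            have := h1 (p.succAbove l)
            simpa [Fin.insertNthEquiv] using this
          have := Phi_insertNth_le' hW (fun l => (i l : ℕ)) p (x : ℕ) x.2 hle
          calc _ ≤ (Phi P Y r (fun l => (i l : ℕ)) *
                h (x - Finset.univ.sup (fun l => (i l : ℕ))) ^ 2) ^ (1 / 2 : ℝ) :=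
                ENNReal.rpow_le_rpow this (by norm_num)
            _ = _ := by
                rw [ENNReal.mul_rpow_of_nonneg _ _ (by norm_num)]
                congr 1
                rw [← ENNReal.rpow_natCast, ← ENNReal.rpow_mul]
                norm_num
        · exfalso
          apply h2
          refine Finset.sup_le fun l _ => ?_
          have := h1 (p.succAbove l)
          simpa [Fin.insertNthEquiv] using this
        · exact bot_le
        · exact bot_le
      calc _ ≤ ∑ x : Fin m, (Phi P Y r (fun l => (i l : ℕ))) ^ (1 / 2 : ℝ) *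
            (if Finset.univ.sup (fun l => (i l : ℕ)) ≤ x then
              h (x - Finset.univ.sup (fun l => (i l : ℕ))) else 0) :=
            Finset.sum_le_sum fun x _ => hterm x
        _ = (Phi P Y r (fun l => (i l : ℕ))) ^ (1 / 2 : ℝ) *
            ∑ x : Fin m, (if Finset.univ.sup (fun l => (i l : ℕ)) ≤ x then
              h (x - Finset.univ.sup (fun l => (i l : ℕ))) else 0) := by
            rw [Finset.mul_sum]
        _ ≤ _ := by
            gcongr
            set a := Finset.univ.sup (fun l => (i l : ℕ))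
            exact sum_shift_le h a m
    calc _ ≤ ∑ i : Fin (k + 1) → Fin m, ∑ p : Fin (k + 1), (if (∀ l, i l ≤ i p) then
            (Phi P Y r (fun l => (i l : ℕ))) ^ (1 / 2 : ℝ) else 0) :=
          Finset.sum_le_sum fun i _ => step1 i
      _ = ∑ p : Fin (k + 1), ∑ i : Fin (k + 1) → Fin m, (if (∀ l, i l ≤ i p) then
            (Phi P Y r (fun l => (i l : ℕ))) ^ (1 / 2 : ℝ) else 0) := Finset.sum_comm
      _ ≤ ∑ _p : Fin (k + 1),
          ∑ i : Fin k → Fin m, (Phi P Y r (fun l => (i l : ℕ))) ^ (1 / 2 : ℝ) * S :=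
          Finset.sum_le_sum fun p _ => step2 p
      _ = (k + 1 : ℕ) * ((∑ i : Fin k → Fin m,
            (Phi P Y r (fun l => (i l : ℕ))) ^ (1 / 2 : ℝ)) * S) := by
          rw [Finset.sum_const, Finset.card_univ, Fintype.card_fin, nsmul_eq_mul, Finset.sum_mul]
      _ ≤ (k + 1 : ℕ) * (((k.factorial : ℝ≥0∞) * S ^ k) * S) := by gcongr
      _ = _ := by
          rw [Nat.factorial_succ]
          push_cast
          ring


/-- The number of close pairs between two walks. -/
noncomputable def closeCount (U V : ℕ → Ω → (ι → ℝ)) (r : ℝ) (m m' : ℕ) (ω : Ω) : ℝ≥0∞ :=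
  ∑ q : Fin m × Fin m', if ‖U q.1 ω - V q.2 ω‖ ≤ r then 1 else 0

lemma measure_all_close_le {U V : ℕ → Ω → (ι → ℝ)} {r : ℝ}
    (hU : ∀ j, Measurable (U j)) (hV : ∀ j, Measurable (V j))
    (hUV : IndepFun (fun ω j => U j ω) (fun ω j => V j ω) P) {k : ℕ} (i j : Fin k → ℕ) :
    P {ω | ∀ l, ‖U (i l) ω - V (j l) ω‖ ≤ r} ≤
      Phi P U r i ^ (1 / 2 : ℝ) * Phi P V r j ^ (1 / 2 : ℝ) := by
  have hUi : Measurable (fun ω (l : Fin k) => U (i l) ω) := measurable_pi_lambda _ fun l => hU _
  have hVj : Measurable (fun ω (l : Fin k) => V (j l) ω) := measurable_pi_lambda _ fun l => hV _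
  have hind : IndepFun (fun ω (l : Fin k) => U (i l) ω) (fun ω (l : Fin k) => V (j l) ω) P :=
    hUV.comp (φ := fun (f : ℕ → (ι → ℝ)) (l : Fin k) => f (i l))
      (ψ := fun (f : ℕ → (ι → ℝ)) (l : Fin k) => f (j l))
      (measurable_pi_lambda _ fun l => measurable_pi_apply _)
      (measurable_pi_lambda _ fun l => measurable_pi_apply _)
  have hB : MeasurableSet {w : (Fin k → (ι → ℝ)) × (Fin k → (ι → ℝ)) |
      ∀ l, ‖w.1 l - w.2 l‖ ≤ r} := by
    rw [Set.setOf_forall]
    refine MeasurableSet.iInter fun l => measurableSet_le ?_ measurable_const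
    fun_prop
  have h1 : P {ω | ∀ l, ‖U (i l) ω - V (j l) ω‖ ≤ r} ≤ Phi P V r j := by
    have key := measure_inter_le_of_indep (P := P) hUi hVj hind MeasurableSet.univ hB
      (c := Phi P V r j) (by
        intro u
        refine le_trans (measure_mono ?_)
          (le_iSup (fun y : Fin k → (ι → ℝ) => P {ω | ∀ l, ‖V (j l) ω - y l‖ ≤ r}) u)
        intro ω hω l
        have := hω l
        rwa [norm_sub_rev] at this)
    simpa using key
  have h2 : P {ω | ∀ l, ‖U (i l) ω - V (j l) ω‖ ≤ r} ≤ Phi P U r i := by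
    have hB' : MeasurableSet {w : (Fin k → (ι → ℝ)) × (Fin k → (ι → ℝ)) |
      ∀ l, ‖w.2 l - w.1 l‖ ≤ r} := by
      rw [Set.setOf_forall]
      refine MeasurableSet.iInter fun l => measurableSet_le ?_ measurable_const
      fun_prop
    have key := measure_inter_le_of_indep (P := P) hVj hUi hind.symm MeasurableSet.univ hB'
      (c := Phi P U r i) (by
        intro u
        exact (le_iSup (fun y : Fin k → (ι → ℝ) => P {ω | ∀ l, ‖U (i l) ω - y l‖ ≤ r}) u))
    simpa using key
  set a := Phi P U r i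
  set b := Phi P V r j
  set p := P {ω | ∀ l, ‖U (i l) ω - V (j l) ω‖ ≤ r}
  calc p = p ^ (1 / 2 : ℝ) * p ^ (1 / 2 : ℝ) := by
        rw [← ENNReal.rpow_add_of_nonneg _ _ (by norm_num) (by norm_num)]
        norm_num
    _ ≤ a ^ (1 / 2 : ℝ) * b ^ (1 / 2 : ℝ) := by
        gcongr

/-- The moment bound for the number of close pairs of two independent walks. -/
theorem lintegral_closeCount_pow_le {U V : ℕ → Ω → (ι → ℝ)} {r : ℝ} {m m' : ℕ}
    {h h' : ℕ → ℝ≥0∞} (hU : WalkBound P U r m h) (hV : WalkBound P V r m' h')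
    (hUV : IndepFun (fun ω j => U j ω) (fun ω j => V j ω) P) (k : ℕ) :
    ∫⁻ ω, closeCount U V r m m' ω ^ k ∂P ≤
      ((k.factorial : ℝ≥0∞) * (∑ x ∈ Finset.range m, h x) ^ k) *
      ((k.factorial : ℝ≥0∞) * (∑ x ∈ Finset.range m', h' x) ^ k) := by
  classical
  have hexp : ∀ ω, closeCount U V r m m' ω ^ k =
      ∑ q : Fin k → Fin m × Fin m',
        ({ω | ∀ l, ‖U (q l).1 ω - V (q l).2 ω‖ ≤ r}).indicator (fun _ => (1 : ℝ≥0∞)) ω := by
    intro ω
    unfold closeCount
    rw [Fintype.sum_pow]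
    refine Finset.sum_congr rfl fun q _ => ?_
    rw [Finset.prod_ite_zero]
    simp [Set.indicator_apply]
  have hmeas : ∀ q : Fin k → Fin m × Fin m',
      MeasurableSet {ω | ∀ l, ‖U (q l).1 ω - V (q l).2 ω‖ ≤ r} := by
    intro q
    rw [Set.setOf_forall]
    exact MeasurableSet.iInter fun l =>
      measurableSet_le ((hU.meas _).sub (hV.meas _)).norm measurable_const
  calc ∫⁻ ω, closeCount U V r m m' ω ^ k ∂P
      = ∑ q : Fin k → Fin m × Fin m', P {ω | ∀ l, ‖U (q l).1 ω - V (q l).2 ω‖ ≤ r} := by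
        simp_rw [hexp]
        rw [lintegral_finset_sum _ fun q _ => measurable_const.indicator (hmeas q)]
        refine Finset.sum_congr rfl fun q _ => ?_
        rw [lintegral_indicator_const (hmeas q), one_mul]
    _ ≤ ∑ q : Fin k → Fin m × Fin m', Phi P U r (fun l => ((q l).1 : ℕ)) ^ (1 / 2 : ℝ) *
          Phi P V r (fun l => ((q l).2 : ℕ)) ^ (1 / 2 : ℝ) :=
        Finset.sum_le_sum fun q _ => measure_all_close_le hU.meas hV.meas hUV _ _
    _ = ∑ q : (Fin k → Fin m) × (Fin k → Fin m'),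
          Phi P U r (fun l => (q.1 l : ℕ)) ^ (1 / 2 : ℝ) *
          Phi P V r (fun l => (q.2 l : ℕ)) ^ (1 / 2 : ℝ) := by
        rw [← (Equiv.arrowProdEquivProdArrow (Fin k) (fun _ => Fin m) (fun _ => Fin m')).symm.sum_comp]
        rfl
    _ = (∑ i : Fin k → Fin m, Phi P U r (fun l => (i l : ℕ)) ^ (1 / 2 : ℝ)) *
          (∑ j : Fin k → Fin m', Phi P V r (fun l => (j l : ℕ)) ^ (1 / 2 : ℝ)) := by
        rw [Fintype.sum_mul_sum, Fintype.sum_prod_type]
    _ ≤ _ := by
        gcongr
        · exact sum_sqrt_Phi_le hU k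
        · exact sum_sqrt_Phi_le hV k

end Pool.Agent.Helper41
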