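import Mathlib
import Pool.Agent.Helper41.Gauss
import Pool.Agent.Helper41.Walk

open MeasureTheory ProbabilityTheory
open scoped ENNReal NNReal

namespace Pool.Agent.Helper41

variable {Ω : Type*} [MeasurableSpace Ω] {P : Measure Ω} [IsProbabilityMeasure P]

lemma gaussianReal_ball_le {v : ℝ≥0} (hv : v ≠ 0) (z : ℝ) {r : ℝ} (hr : 0 ≤ r) :
    gaussianReal 0 v {x | |x - z| ≤ r} ≤ ENNReal.ofReal (r / √v) := by
  have hv' : (0 : ℝ) < v := NNReal.coe_pos.2 (pos_iff_ne_zero.2 hv)
  have hs : {x : ℝ | |x - z| ≤ r} = Metric.closedBall z r := by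
    ext x
    simp [Metric.mem_closedBall, Real.dist_eq]
  rw [gaussianReal_apply _ hv]
  calc ∫⁻ x in {x : ℝ | |x - z| ≤ r}, gaussianPDF 0 v x
      ≤ ∫⁻ _x in {x : ℝ | |x - z| ≤ r}, ENNReal.ofReal ((√(2 * Real.pi * v))⁻¹) := by
        refine lintegral_mono fun x => ?_
        unfold gaussianPDF gaussianPDFReal
        refine ENNReal.ofReal_le_ofReal ?_
        have : Real.exp (-(x - 0) ^ 2 / (2 * v)) ≤ 1 := by
          rw [Real.exp_le_one_iff]
          have : 0 ≤ (x - 0) ^ 2 / (2 * (v : ℝ)) := by positivity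
          rw [neg_div]
          linarith
        calc _ ≤ (√(2 * Real.pi * v))⁻¹ * 1 := by gcongr
          _ = _ := mul_one _
    _ = ENNReal.ofReal ((√(2 * Real.pi * v))⁻¹) * ENNReal.ofReal (2 * r) := by
        rw [lintegral_const, Measure.restrict_apply_univ, hs, Real.volume_closedBall]
    _ = ENNReal.ofReal ((√(2 * Real.pi * v))⁻¹ * (2 * r)) := by
        rw [← ENNReal.ofReal_mul (by positivity)]
    _ ≤ ENNReal.ofReal (r / √v) := by
        refine ENNReal.ofReal_le_ofReal ?_
        have h1 : √(4 * (v : ℝ)) ≤ √(2 * Real.pi * v) := by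
          apply Real.sqrt_le_sqrt
          have := Real.pi_gt_three
          nlinarith
        have h2 : √(4 * (v : ℝ)) = 2 * √(v : ℝ) := by
          rw [Real.sqrt_mul (by norm_num)]
          congr 1
          rw [show (4 : ℝ) = 2 ^ 2 by norm_num, Real.sqrt_sq (by norm_num)]
        have h3 : 0 < √(v : ℝ) := Real.sqrt_pos.2 hv'
        rw [h2] at h1
        calc (√(2 * Real.pi * v))⁻¹ * (2 * r) ≤ (2 * √(v : ℝ))⁻¹ * (2 * r) := by gcongr
          _ = r / √v := by
              field_simp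

/-- Covariance kernel of a family of independent Brownian sheets. -/
noncomputable def sheetK {ι : Type*} [DecidableEq ι] (p q : ι × ℝ≥0 × ℝ≥0) : ℝ :=
  if p.1 = q.1 then ((min p.2.1 q.2.1 : ℝ≥0) : ℝ) * ((min p.2.2 q.2.2 : ℝ≥0) : ℝ) else 0

lemma sheetK_symm {ι : Type*} [DecidableEq ι] (p q : ι × ℝ≥0 × ℝ≥0) :
    sheetK p q = sheetK q p := by
  unfold sheetK
  by_cases h : p.1 = q.1
  · rw [if_pos h, if_pos h.symm, min_comm p.2.1, min_comm p.2.2]
  · rw [if_neg h, if_neg (fun h' => h h'.symm)]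

/-- A family of independent (pre-)Brownian sheets. -/
structure IsSheet {ι : Type*} [DecidableEq ι] (X : ι × ℝ≥0 × ℝ≥0 → Ω → ℝ) (P : Measure Ω) :
    Prop where
  meas : ∀ q, Measurable (X q)
  char : CharKernel X P sheetK

section
variable {ι : Type*} [DecidableEq ι] {X : ι × ℝ≥0 × ℝ≥0 → Ω → ℝ}

lemma IsSheet.cov (h : IsSheet X P) (p q : ι × ℝ≥0 × ℝ≥0) : cov[X p, X q; P] = sheetK p q :=
  h.char.cov h.meas sheetK_symm p q

lemma IsSheet.memLp (h : IsSheet X P) (q : ι × ℝ≥0 × ℝ≥0) : MemLp (X q) 2 P :=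
  h.char.memLp h.meas q

lemma IsSheet.gauss (h : IsSheet X P) : IsGaussianProcess X P := h.char.isGaussianProcess h.meas

/-- Covariance of two increments. -/
lemma IsSheet.cov_incr (h : IsSheet X P) (p p' q q' : ι × ℝ≥0 × ℝ≥0) :
    cov[fun ω => X p ω - X p' ω, fun ω => X q ω - X q' ω; P] =
      sheetK p q - sheetK p q' - sheetK p' q + sheetK p' q' := by
  rw [covariance_fun_sub_fun_sub (h.memLp _) (h.memLp _) (h.memLp _) (h.memLp _)]
  have e : ∀ a b, cov[fun ω => X a ω, fun ω => X b ω; P] = sheetK a b := fun a b => h.cov a b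
  rw [e, e, e, e]

/-- Increments in `t` over disjoint intervals at the same `s` are uncorrelated. -/
lemma IsSheet.cov_incr_eq_zero (h : IsSheet X P) (c c' : ι) (s t1 t2 t3 t4 : ℝ≥0)
    (h12 : t1 ≤ t2) (h23 : t2 ≤ t3) (h34 : t3 ≤ t4) :
    cov[fun ω => X (c, s, t2) ω - X (c, s, t1) ω, fun ω => X (c', s, t4) ω - X (c', s, t3) ω; P]
      = 0 := by
  rw [h.cov_incr]
  unfold sheetK
  by_cases hc : c = c'
  · simp only [hc, if_true]
    rw [min_eq_left (h23.trans h34), min_eq_left h23, min_eq_left ((h12.trans h23).trans h34),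
      min_eq_left (h12.trans h23)]
    ring
  · simp [hc]

lemma IsSheet.law_incr (h : IsSheet X P) (c : ι) (s t t' : ℝ≥0) (ht : t ≤ t') :
    P.map (fun ω => X (c, s, t') ω - X (c, s, t) ω) = gaussianReal 0 (s * (t' - t)) := by
  have h1 := h.char.map_eq h.meas (![(c, s, t'), (c, s, t)]) (![1, -1])
  have e1 : (fun ω => ∑ i : Fin 2, (![1, -1] : Fin 2 → ℝ) i * X ((![(c, s, t'), (c, s, t)] : Fin 2 → _) i) ω) =
      fun ω => X (c, s, t') ω - X (c, s, t) ω := by
    funext ω
    simp only [Fin.sum_univ_two, Matrix.cons_val_zero, Matrix.cons_val_one]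
    ring
  rw [e1] at h1
  rw [h1]
  congr 1
  simp only [Fin.sum_univ_two, Matrix.cons_val_zero, Matrix.cons_val_one]
  unfold sheetK
  simp only [if_true, min_self]
  rw [min_eq_right ht, min_eq_left ht]
  rw [← Real.toNNReal_coe (r := s * (t' - t))]
  congr 1
  rw [NNReal.coe_mul, NNReal.coe_sub ht]
  ring

lemma IsSheet.law_incr_s (h : IsSheet X P) (c : ι) (s s' t : ℝ≥0) (hs : s ≤ s') :
    P.map (fun ω => X (c, s', t) ω - X (c, s, t) ω) = gaussianReal 0 ((s' - s) * t) := by
  have h1 := h.char.map_eq h.meas (![(c, s', t), (c, s, t)]) (![1, -1])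
  have e1 : (fun ω => ∑ i : Fin 2, (![1, -1] : Fin 2 → ℝ) i * X ((![(c, s', t), (c, s, t)] : Fin 2 → _) i) ω) =
      fun ω => X (c, s', t) ω - X (c, s, t) ω := by
    funext ω
    simp only [Fin.sum_univ_two, Matrix.cons_val_zero, Matrix.cons_val_one]
    ring
  rw [e1] at h1
  rw [h1]
  congr 1
  simp only [Fin.sum_univ_two, Matrix.cons_val_zero, Matrix.cons_val_one]
  unfold sheetK
  simp only [if_true, min_self]
  rw [min_eq_right hs, min_eq_left hs]
  rw [← Real.toNNReal_coe (r := (s' - s) * t)]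
  congr 1
  rw [NNReal.coe_mul, NNReal.coe_sub hs]
  ring

/-- Two families of increments with zero cross covariances are independent. -/
lemma IsSheet.indep_incr (h : IsSheet X P) {S T : Type*}
    (p p' : S → ι × ℝ≥0 × ℝ≥0) (q q' : T → ι × ℝ≥0 × ℝ≥0)
    (hcov : ∀ i j, cov[fun ω => X (p i) ω - X (p' i) ω, fun ω => X (q j) ω - X (q' j) ω; P] = 0) :
    IndepFun (fun ω i => X (p i) ω - X (p' i) ω) (fun ω j => X (q j) ω - X (q' j) ω) P := by
  classical
  refine IsGaussianProcess.indepFun_of_covariance_eq_zero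
    (X := fun i ω => X (p i) ω - X (p' i) ω) (Y := fun j ω => X (q j) ω - X (q' j) ω) ?_
    (fun i => ((h.meas _).sub (h.meas _)).aemeasurable)
    (fun j => ((h.meas _).sub (h.meas _)).aemeasurable) hcov
  refine h.gauss.of_isGaussianProcess ?_
  rintro (i | j)
  · exact ⟨{p i, p' i},
        { toFun x := x ⟨p i, by simp⟩ - x ⟨p' i, by simp⟩
          map_add' x y := by simp; abel
          map_smul' c x := by simp; ring }, by simp⟩
  · exact ⟨{q j, q' j},
        { toFun x := x ⟨q j, by simp⟩ - x ⟨q' j, by simp⟩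
          map_add' x y := by simp; abel
          map_smul' c x := by simp; ring }, by simp⟩

/-- The coordinates of an increment are independent. -/
lemma IsSheet.iIndep_coord [Fintype ι] (h : IsSheet X P) (s t t' : ℝ≥0) :
    iIndepFun (fun (c : ι) ω => X (c, s, t') ω - X (c, s, t) ω) P := by
  classical
  have hg : IsGaussianProcess (fun (c : ι) ω => X (c, s, t') ω - X (c, s, t) ω) P := by
    refine h.gauss.of_isGaussianProcess fun c => ?_
    exact ⟨{(c, s, t'), (c, s, t)},
        { toFun x := x ⟨(c, s, t'), by simp⟩ - x ⟨(c, s, t), by simp⟩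
          map_add' x y := by simp; abel
          map_smul' c x := by simp; ring }, by simp⟩
  have hl : HasGaussianLaw (fun ω (c : ι) => X (c, s, t') ω - X (c, s, t) ω) P := by
    have hu := hg.hasGaussianLaw Finset.univ
    let L : (((Finset.univ : Finset ι) : Type _) → ℝ) →L[ℝ] (ι → ℝ) :=
      { toFun := fun x c => x ⟨c, Finset.mem_univ c⟩
        map_add' := fun x y => by ext; simp
        map_smul' := fun c x => by ext; simp }
    exact hu.map L
  refine hl.iIndepFun_of_covariance_eq_zero fun c c' hcc' => ?_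
  have := h.cov_incr (c, s, t') (c, s, t) (c', s, t') (c', s, t)
  rw [this]
  unfold sheetK
  simp [hcc']

/-- Small ball estimate for a vector increment. -/
lemma IsSheet.small_ball [Fintype ι] (h : IsSheet X P) (s t t' : ℝ≥0) (hs : 0 < s) (ht : t < t')
    {r : ℝ} (hr : 0 ≤ r) (z : ι → ℝ) :
    P {ω | ‖(fun c => X (c, s, t') ω - X (c, s, t) ω) - z‖ ≤ r} ≤
      ENNReal.ofReal (r / √((s * (t' - t) : ℝ≥0) : ℝ)) ^ Fintype.card ι := by
  have hset : {ω | ‖(fun c => X (c, s, t') ω - X (c, s, t) ω) - z‖ ≤ r} =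
      ⋂ c, (fun ω => X (c, s, t') ω - X (c, s, t) ω) ⁻¹' {x | |x - z c| ≤ r} := by
    ext ω
    simp only [Set.mem_setOf_eq, Set.mem_iInter, Set.mem_preimage]
    rw [pi_norm_le_iff_of_nonneg hr]
    simp [Real.norm_eq_abs]
  have hmeas : ∀ c : ι, MeasurableSet {x : ℝ | |x - z c| ≤ r} := fun c =>
    measurableSet_le (by fun_prop) measurable_const
  rw [hset]
  have hind := (h.iIndep_coord s t t').measure_inter_preimage_eq_mul Finset.univ
    (sets := fun c => {x : ℝ | |x - z c| ≤ r}) (fun c _ => hmeas c)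
  simp only [Finset.mem_univ, Set.iInter_true] at hind
  rw [hind]
  have hv : s * (t' - t) ≠ 0 := by
    refine mul_ne_zero hs.ne' ?_
    exact (tsub_pos_of_lt ht).ne'
  calc ∏ c : ι, P ((fun ω => X (c, s, t') ω - X (c, s, t) ω) ⁻¹' {x | |x - z c| ≤ r})
      ≤ ∏ _c : ι, ENNReal.ofReal (r / √((s * (t' - t) : ℝ≥0) : ℝ)) := by
        refine Finset.prod_le_prod' fun c _ => ?_
        have hm : Measurable (fun ω => X (c, s, t') ω - X (c, s, t) ω) :=
          (h.meas _).sub (h.meas _)
        rw [← Measure.map_apply hm (hmeas c), h.law_incr c s t t' ht.le]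
        exact gaussianReal_ball_le hv _ hr
    _ = _ := by rw [Finset.prod_const, Finset.card_univ]

end

end Pool.Agent.Helper41
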