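import Mathlib
import Pool.Agent.Helper41.Sheet

open MeasureTheory ProbabilityTheory
open scoped ENNReal NNReal

namespace Pool.Agent.Helper41

variable {Ω : Type*} [MeasurableSpace Ω] {P : Measure Ω} [IsProbabilityMeasure P]

/-- forward walk from time `b` with step `δ` along the slice at `s` -/
def walkV {ι : Type*} (X : ι × ℝ≥0 × ℝ≥0 → Ω → ℝ) (s b δ : ℝ≥0) (j : ℕ) (ω : Ω) : ι → ℝ :=
  fun c => X (c, s, b + j * δ) ω - X (c, s, b) ω

/-- backward walk from time `b` with step `δ` along the slice at `s` -/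
def walkU {ι : Type*} (X : ι × ℝ≥0 × ℝ≥0 → Ω → ℝ) (s b δ : ℝ≥0) (j : ℕ) (ω : Ω) : ι → ℝ :=
  fun c => X (c, s, b - j * δ) ω - X (c, s, b) ω

/-- gap bound for four coordinates -/
noncomputable def gapH (s δ : ℝ≥0) (r : ℝ) (x : ℕ) : ℝ≥0∞ :=
  if x = 0 then 1 else ENNReal.ofReal (r ^ 2 / (s * (x * δ)))

lemma gap_sq {s δ : ℝ≥0} {r : ℝ} (hr : 0 ≤ r) {x : ℕ} (hx : 0 < x) {w : ℝ≥0}
    (hw : w = x * δ) :
    ENNReal.ofReal (r / √((s * w : ℝ≥0) : ℝ)) ^ 4 = gapH s δ r x ^ 2 := by
  unfold gapH
  rw [if_neg hx.ne', ← ENNReal.ofReal_pow (by positivity), ← ENNReal.ofReal_pow (by positivity)]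
  congr 1
  have h1 : √((s * w : ℝ≥0) : ℝ) ^ 4 = (((s * w : ℝ≥0) : ℝ)) ^ 2 := by
    rw [show (4 : ℕ) = 2 * 2 by norm_num, pow_mul, Real.sq_sqrt (NNReal.coe_nonneg _)]
  rw [div_pow, h1, div_pow]
  subst hw
  push_cast
  ring

variable {X : Fin 4 × ℝ≥0 × ℝ≥0 → Ω → ℝ}

lemma walkV_bound (h : IsSheet X P) {s δ : ℝ≥0} (b : ℝ≥0) (hs : 0 < s) (hδ : 0 < δ) {r : ℝ}
    (hr : 0 ≤ r) (m : ℕ) :
    WalkBound P (walkV X s b δ) r m (gapH s δ r) where
  meas j := measurable_pi_lambda _ fun c => (h.meas _).sub (h.meas _)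
  zero ω := by
    funext c
    simp [walkV]
  h0 := by simp [gapH]
  indep a x hax _ := by
    have hind := h.indep_incr (S := Fin (a + 1) × Fin 4) (T := Fin 4)
      (p := fun i => (i.2, s, b + (i.1 : ℕ) * δ)) (p' := fun i => (i.2, s, b))
      (q := fun c => (c, s, b + x * δ)) (q' := fun c => (c, s, b + a * δ)) (by
        rintro ⟨j, c⟩ c'
        rw [h.cov_incr]
        have hj : (j : ℕ) ≤ a := Nat.lt_succ_iff.1 j.2
        have h1 : b + ((j : ℕ) : ℝ≥0) * δ ≤ b + (a : ℝ≥0) * δ := by gcongr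
        have h2 : b + (a : ℝ≥0) * δ ≤ b + (x : ℝ≥0) * δ := by gcongr
        have h3 : b ≤ b + (a : ℝ≥0) * δ := le_self_add
        unfold sheetK
        by_cases hc : c = c'
        · simp only [hc, if_true]
          rw [min_eq_left (h1.trans h2), min_eq_left h1, min_eq_left (h3.trans h2),
            min_eq_left h3]
          ring
        · simp [hc])
    have := hind.comp
      (φ := fun (f : Fin (a + 1) × Fin 4 → ℝ) (j : Fin (a + 1)) (c : Fin 4) => f (j, c))
      (ψ := fun f => f)
      (measurable_pi_lambda _ fun j => measurable_pi_lambda _ fun c => measurable_pi_apply _)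
      measurable_id
    have e : (fun ω => walkV X s b δ x ω - walkV X s b δ a ω) =
        (fun ω c => X (c, s, b + x * δ) ω - X (c, s, b + a * δ) ω) := by
      funext ω c
      simp [walkV]
    rw [e]
    exact this
  small a x hax _ z := by
    have e : ∀ ω, walkV X s b δ x ω - walkV X s b δ a ω =
        (fun c => X (c, s, b + x * δ) ω - X (c, s, b + a * δ) ω) := by
      intro ω
      funext c
      simp [walkV]
    simp_rw [e]
    have hlt : b + (a : ℝ≥0) * δ < b + (x : ℝ≥0) * δ := by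
      have : (a : ℝ≥0) < x := by exact_mod_cast hax
      gcongr
    refine (h.small_ball s _ _ hs hlt hr z).trans ?_
    rw [Fintype.card_fin]
    refine (gap_sq hr (Nat.sub_pos_of_lt hax) ?_).le
    rw [Nat.cast_tsub, tsub_mul, add_tsub_add_eq_tsub_left]

lemma walkU_bound (h : IsSheet X P) {s δ : ℝ≥0} (b : ℝ≥0) (hs : 0 < s) (hδ : 0 < δ) {r : ℝ}
    (hr : 0 ≤ r) (m : ℕ) (hm : ∀ x < m, (x : ℝ≥0) * δ ≤ b) :
    WalkBound P (walkU X s b δ) r m (gapH s δ r) where
  meas j := measurable_pi_lambda _ fun c => (h.meas _).sub (h.meas _)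
  zero ω := by
    funext c
    simp [walkU]
  h0 := by simp [gapH]
  indep a x hax hxm := by
    have hind := h.indep_incr (S := Fin (a + 1) × Fin 4) (T := Fin 4)
      (p := fun i => (i.2, s, b - (i.1 : ℕ) * δ)) (p' := fun i => (i.2, s, b))
      (q := fun c => (c, s, b - x * δ)) (q' := fun c => (c, s, b - a * δ)) (by
        rintro ⟨j, c⟩ c'
        rw [h.cov_incr]
        have hj : (j : ℕ) ≤ a := Nat.lt_succ_iff.1 j.2
        have h1 : b - (a : ℝ≥0) * δ ≤ b - ((j : ℕ) : ℝ≥0) * δ := by gcongr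
        have h2 : b - (x : ℝ≥0) * δ ≤ b - (a : ℝ≥0) * δ := by gcongr
        have h3 : b - (a : ℝ≥0) * δ ≤ b := tsub_le_self
        unfold sheetK
        by_cases hc : c = c'
        · simp only [hc, if_true]
          rw [min_eq_right (h2.trans h1), min_eq_right h1, min_eq_right (h2.trans h3),
            min_eq_right h3]
          ring
        · simp [hc])
    have := hind.comp
      (φ := fun (f : Fin (a + 1) × Fin 4 → ℝ) (j : Fin (a + 1)) (c : Fin 4) => f (j, c))
      (ψ := fun f => f)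
      (measurable_pi_lambda _ fun j => measurable_pi_lambda _ fun c => measurable_pi_apply _)
      measurable_id
    have e : (fun ω => walkU X s b δ x ω - walkU X s b δ a ω) =
        (fun ω c => X (c, s, b - x * δ) ω - X (c, s, b - a * δ) ω) := by
      funext ω c
      simp [walkU]
    rw [e]
    exact this
  small a x hax hxm z := by
    have hlt : b - (x : ℝ≥0) * δ < b - (a : ℝ≥0) * δ := by
      have h1 : (a : ℝ≥0) * δ < (x : ℝ≥0) * δ := by
        have : (a : ℝ≥0) < x := by exact_mod_cast hax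
        gcongr
      exact tsub_lt_tsub_left_of_le (hm x hxm) h1
    have key := h.small_ball s _ _ hs hlt hr (-z)
    rw [Fintype.card_fin] at key
    refine le_trans (le_of_eq ?_) (key.trans (gap_sq hr (Nat.sub_pos_of_lt hax) ?_).le)
    · congr 1
      ext ω
      simp only [Set.mem_setOf_eq]
      rw [← norm_neg]
      have : -(walkU X s b δ x ω - walkU X s b δ a ω - z) =
          (fun c => X (c, s, b - a * δ) ω - X (c, s, b - x * δ) ω) - -z := by
        funext c
        simp only [walkU, Pi.neg_apply, Pi.sub_apply]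
        ring
      rw [this]
    · rw [Nat.cast_tsub, tsub_mul, tsub_tsub_tsub_cancel_left (hm x hxm)]

lemma walk_indep (h : IsSheet X P) (s b δ : ℝ≥0) :
    IndepFun (fun ω j => walkU X s b δ j ω) (fun ω j => walkV X s b δ j ω) P := by
  have hind := h.indep_incr (S := ℕ × Fin 4) (T := ℕ × Fin 4)
      (p := fun i => (i.2, s, b - (i.1 : ℕ) * δ)) (p' := fun i => (i.2, s, b))
      (q := fun i => (i.2, s, b + (i.1 : ℕ) * δ)) (q' := fun i => (i.2, s, b)) (by
        rintro ⟨j, c⟩ ⟨i, c'⟩
        rw [h.cov_incr]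
        have h1 : b - (j : ℝ≥0) * δ ≤ b := tsub_le_self
        have h2 : b ≤ b + (i : ℝ≥0) * δ := le_self_add
        unfold sheetK
        by_cases hc : c = c'
        · simp only [hc, if_true]
          rw [min_eq_left (h1.trans h2), min_eq_left h1, min_eq_left h2, min_self, min_self]
          ring
        · simp [hc])
  have := hind.comp
      (φ := fun (f : ℕ × Fin 4 → ℝ) (j : ℕ) (c : Fin 4) => f (j, c))
      (ψ := fun (f : ℕ × Fin 4 → ℝ) (j : ℕ) (c : Fin 4) => f (j, c))
      (measurable_pi_lambda _ fun j => measurable_pi_lambda _ fun c => measurable_pi_apply _)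
      (measurable_pi_lambda _ fun j => measurable_pi_lambda _ fun c => measurable_pi_apply _)
  exact this

end Pool.Agent.Helper41
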