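import Mathlib

open MeasureTheory ProbabilityTheory Filter Topology
open scoped ENNReal NNReal

namespace Pool.Agent.Helper41

/-- dyadic floor at level `n` -/
noncomputable def fl (n : ℕ) (s : ℝ≥0) : ℝ≥0 := (⌊s * 2 ^ n⌋₊ : ℝ≥0) / 2 ^ n

/-- ratio `1/√2` -/
noncomputable def qq : ℝ := (√2)⁻¹

lemma qq_pos : 0 < qq := by unfold qq; positivity

lemma qq_sq : qq ^ 2 = 1 / 2 := by
  unfold qq
  rw [inv_pow, Real.sq_sqrt (by norm_num)]
  norm_num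

lemma qq_lt : qq < 71 / 100 := by
  have h := qq_sq
  have h0 := qq_pos
  nlinarith

/-- All level `n` edges in the box `[0,K]²` have increments at most `e`. -/
def EdgeBound (f : ℝ≥0 → ℝ≥0 → ℝ) (K n : ℕ) (e : ℝ) : Prop :=
  ∀ σ τ : ℕ, σ ≤ K * 2 ^ n → τ ≤ K * 2 ^ n →
    |f ((σ + 1 : ℕ) / 2 ^ n) (τ / 2 ^ n) - f (σ / 2 ^ n) (τ / 2 ^ n)| ≤ e ∧
    |f (σ / 2 ^ n) ((τ + 1 : ℕ) / 2 ^ n) - f (σ / 2 ^ n) (τ / 2 ^ n)| ≤ e

lemma floor_two_mul (x : ℝ≥0) : ⌊x * 2⌋₊ = 2 * ⌊x⌋₊ ∨ ⌊x * 2⌋₊ = 2 * ⌊x⌋₊ + 1 := by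
  have h1 : (⌊x⌋₊ : ℝ≥0) ≤ x := Nat.floor_le zero_le
  have h2 : x < ⌊x⌋₊ + 1 := Nat.lt_floor_add_one x
  have h3 : 2 * ⌊x⌋₊ ≤ ⌊x * 2⌋₊ := by
    apply Nat.le_floor
    push_cast
    calc (2 : ℝ≥0) * ⌊x⌋₊ ≤ 2 * x := by gcongr
      _ = x * 2 := mul_comm _ _
  have h4 : ⌊x * 2⌋₊ < 2 * ⌊x⌋₊ + 2 := by
    rw [Nat.floor_lt zero_le]
    push_cast
    calc x * 2 < (⌊x⌋₊ + 1) * 2 := by gcongr
      _ = 2 * ⌊x⌋₊ + 2 := by ring
  omega

lemma fl_succ (n : ℕ) (s : ℝ≥0) :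
    ∃ σ : ℕ, fl n s = σ / 2 ^ (n + 1) ∧ σ ≤ ⌊s * 2 ^ (n + 1)⌋₊ ∧
      (fl (n + 1) s = σ / 2 ^ (n + 1) ∨ fl (n + 1) s = (σ + 1 : ℕ) / 2 ^ (n + 1)) := by
  refine ⟨2 * ⌊s * 2 ^ n⌋₊, ?_, ?_, ?_⟩
  · unfold fl
    rw [pow_succ]
    push_cast
    field_simp
  · have := floor_two_mul (s * 2 ^ n)
    rw [pow_succ, ← mul_assoc]
    omega
  · have := floor_two_mul (s * 2 ^ n)
    unfold fl
    rw [pow_succ, ← mul_assoc] at *
    rcases this with h | h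
    · left; rw [h]
    · right; rw [h]

lemma fl_step {f : ℝ≥0 → ℝ≥0 → ℝ} {K n : ℕ} {e : ℝ} (he : EdgeBound f K (n + 1) e)
    {s t : ℝ≥0} (hs : s ≤ K) (ht : t ≤ K) :
    |f (fl (n + 1) s) (fl (n + 1) t) - f (fl n s) (fl n t)| ≤ 2 * e := by
  have hfloor : ∀ x : ℝ≥0, x ≤ K → ⌊x * 2 ^ (n + 1)⌋₊ ≤ K * 2 ^ (n + 1) := by
    intro x hx
    apply Nat.floor_le_of_le
    push_cast
    gcongr
  obtain ⟨σ, hσ, hσ1, hσ2⟩ := fl_succ n s
  obtain ⟨τ, hτ, hτ1, hτ2⟩ := fl_succ n t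
  have hσK := hσ1.trans (hfloor s hs)
  have hτK := hτ1.trans (hfloor t ht)
  have hflt : ∃ τ' : ℕ, τ' ≤ K * 2 ^ (n + 1) ∧ fl (n + 1) t = τ' / 2 ^ (n + 1) :=
    ⟨⌊t * 2 ^ (n + 1)⌋₊, hfloor t ht, rfl⟩
  have hflsK : ∃ σ' : ℕ, σ' ≤ K * 2 ^ (n + 1) ∧ fl (n + 1) s = σ' / 2 ^ (n + 1) :=
    ⟨⌊s * 2 ^ (n + 1)⌋₊, hfloor s hs, rfl⟩
  obtain ⟨τ', hτ'K, hτ'⟩ := hflt
  have he0 : 0 ≤ e := (abs_nonneg _).trans (he σ τ hσK hτK).1
  -- first move in s at fixed t-level `fl n t`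
  have step1 : |f (fl (n + 1) s) (fl n t) - f (fl n s) (fl n t)| ≤ e := by
    rw [hσ, hτ]
    rcases hσ2 with h | h
    · rw [h]; simpa using he0
    · rw [h]; exact (he σ τ hσK hτK).1
  have step2 : |f (fl (n + 1) s) (fl (n + 1) t) - f (fl (n + 1) s) (fl n t)| ≤ e := by
    obtain ⟨σ', hσ'K, hσ'⟩ := hflsK
    rw [hτ, hσ']
    rcases hτ2 with h | h
    · rw [h]; simpa using he0
    · rw [h]; exact (he σ' τ hσ'K hτK).2
  calc |f (fl (n + 1) s) (fl (n + 1) t) - f (fl n s) (fl n t)|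
      = |(f (fl (n + 1) s) (fl (n + 1) t) - f (fl (n + 1) s) (fl n t)) +
          (f (fl (n + 1) s) (fl n t) - f (fl n s) (fl n t))| := by congr 1; ring
    _ ≤ _ := abs_add_le _ _
    _ ≤ e + e := add_le_add step2 step1
    _ = 2 * e := by ring

lemma tendsto_fl (s : ℝ≥0) : Tendsto (fun n => fl n s) atTop (𝓝 s) := by
  have h1 : ∀ n, fl n s ≤ s := by
    intro n
    unfold fl
    rw [div_le_iff₀ (by positivity)]
    exact Nat.floor_le zero_le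
  have h2 : ∀ n, s ≤ fl n s + (1 / 2) ^ n := by
    intro n
    unfold fl
    rw [div_pow, one_pow, ← add_div, le_div_iff₀ (by positivity)]
    exact (Nat.lt_floor_add_one _).le
  have h3 : Tendsto (fun n : ℕ => s - (1 / 2 : ℝ≥0) ^ n) atTop (𝓝 (s - 0)) := by
    apply Tendsto.sub tendsto_const_nhds
    refine tendsto_pow_atTop_nhds_zero_of_lt_one ?_ ?_
    · positivity
    · rw [← NNReal.coe_lt_coe]; norm_num
  rw [tsub_zero] at h3
  exact tendsto_of_tendsto_of_tendsto_of_le_of_le h3 tendsto_const_nhds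
    (fun n => tsub_le_iff_right.2 (h2 n)) h1

/-- Chaining: control of a continuous function by its values on the level `n` grid. -/
theorem chain_bound {f : ℝ≥0 → ℝ≥0 → ℝ} {K n : ℕ} {c : ℝ} (hc : 0 ≤ c)
    (he : ∀ m, n ≤ m → EdgeBound f K m (c * (m + 1) * qq ^ m))
    {s t : ℝ≥0} (hs : s ≤ K) (ht : t ≤ K)
    (hf : Tendsto (fun m => f (fl m s) (fl m t)) atTop (𝓝 (f s t))) :
    |f s t - f (fl n s) (fl n t)| ≤ 7 * c * (n + 4) * qq ^ n := by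
  have hq0 := qq_pos
  have hq1 := qq_lt
  set D : ℕ → ℝ := fun m => 7 * c * (m + 4) * qq ^ m with hD
  have hDnn : ∀ m, 0 ≤ D m := fun m => by simp only [hD]; positivity
  have hstep : ∀ m, n ≤ m →
      |f (fl (m + 1) s) (fl (m + 1) t) - f (fl m s) (fl m t)| ≤ D m - D (m + 1) := by
    intro m hm
    refine (fl_step (he (m + 1) (by omega)) hs ht).trans ?_
    simp only [hD]
    push_cast
    have hqm : 0 ≤ c * qq ^ m := by positivity
    have key : 2 * ((m : ℝ) + 1 + 1) * qq ≤ 7 * ((m : ℝ) + 4) - 7 * ((m : ℝ) + 1 + 4) * qq := by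
      have hm0 : (0 : ℝ) ≤ m := Nat.cast_nonneg m
      nlinarith
    calc 2 * (c * ((m : ℝ) + 1 + 1) * qq ^ (m + 1))
        = (c * qq ^ m) * (2 * ((m : ℝ) + 1 + 1) * qq) := by rw [pow_succ]; ring
      _ ≤ (c * qq ^ m) * (7 * ((m : ℝ) + 4) - 7 * ((m : ℝ) + 1 + 4) * qq) := by gcongr
      _ = 7 * c * (m + 4) * qq ^ m - 7 * c * (m + 1 + 4) * qq ^ (m + 1) := by
          rw [pow_succ]; ring
  have hind : ∀ j, |f (fl (n + j) s) (fl (n + j) t) - f (fl n s) (fl n t)| ≤ D n - D (n + j) := by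
    intro j
    induction j with
    | zero => simp
    | succ j ih =>
      have h1 := hstep (n + j) (by omega)
      calc |f (fl (n + (j + 1)) s) (fl (n + (j + 1)) t) - f (fl n s) (fl n t)|
          = |(f (fl (n + j + 1) s) (fl (n + j + 1) t) - f (fl (n + j) s) (fl (n + j) t)) +
            (f (fl (n + j) s) (fl (n + j) t) - f (fl n s) (fl n t))| := by
              rw [← add_assoc]; congr 1; ring
        _ ≤ _ := abs_add_le _ _
        _ ≤ (D (n + j) - D (n + j + 1)) + (D n - D (n + j)) := add_le_add h1 ih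
        _ = D n - D (n + (j + 1)) := by rw [← add_assoc]; ring
  have hlim : Tendsto (fun j => |f (fl (n + j) s) (fl (n + j) t) - f (fl n s) (fl n t)|) atTop
      (𝓝 |f s t - f (fl n s) (fl n t)|) := by
    apply Tendsto.abs
    apply Tendsto.sub _ tendsto_const_nhds
    have := (tendsto_add_atTop_iff_nat n).2 hf
    simpa [add_comm] using this
  refine le_of_tendsto' hlim fun j => (hind j).trans ?_
  have := hDnn (n + j)
  simp only [hD] at this ⊢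
  linarith

end Pool.Agent.Helper41
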