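import Mathlib
import Pool.Agent.Helper41.Sheet
import Pool.Agent.Helper41.Chain

open MeasureTheory ProbabilityTheory Filter Topology
open scoped ENNReal NNReal

namespace Pool.Agent.Helper41

lemma gaussian_tail_one {v w : ℝ≥0} (hvw : v ≤ w) (hw : 0 < w) {a : ℝ} (ha : 0 ≤ a) :
    (gaussianReal 0 v).real {x | a ≤ x} ≤ Real.exp (-(a ^ 2) / (2 * w)) := by
  have hw' : (0 : ℝ) < w := NNReal.coe_pos.2 hw
  have h := measure_ge_le_exp_mul_mgf (μ := gaussianReal 0 v) (X := id) (t := a / w) a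
    (by positivity) (integrable_exp_mul_gaussianReal _)
  rw [mgf_id_gaussianReal] at h
  refine h.trans ?_
  rw [← Real.exp_add]
  apply Real.exp_le_exp.2
  have hv : (v : ℝ) ≤ w := NNReal.coe_le_coe.2 hvw
  have h1 : (v : ℝ) * (a / w) ^ 2 / 2 ≤ (w : ℝ) * (a / w) ^ 2 / 2 := by gcongr
  have h2 : (w : ℝ) * (a / w) ^ 2 / 2 = a ^ 2 / (2 * w) := by
    field_simp
  have h3 : -(a / w) * a = - (2 * (a ^ 2 / (2 * w))) := by
    field_simp
  rw [h3, neg_div]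
  simp only [zero_mul, zero_add]
  linarith

lemma gaussian_tail {v w : ℝ≥0} (hvw : v ≤ w) (hw : 0 < w) {a : ℝ} (ha : 0 ≤ a) :
    gaussianReal 0 v {x | a < |x|} ≤ ENNReal.ofReal (2 * Real.exp (-(a ^ 2) / (2 * w))) := by
  have h1 := gaussian_tail_one hvw hw ha
  have h2 : (gaussianReal 0 v) {x | a ≤ x} ≤ ENNReal.ofReal (Real.exp (-(a ^ 2) / (2 * w))) := by
    rw [← ENNReal.ofReal_toReal (measure_ne_top (gaussianReal 0 v) {x | a ≤ x})]
    exact ENNReal.ofReal_le_ofReal h1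
  have h3 : (gaussianReal 0 v) {x | a ≤ -x} ≤ ENNReal.ofReal (Real.exp (-(a ^ 2) / (2 * w))) := by
    have : (gaussianReal 0 v).map (fun x => -x) = gaussianReal 0 v := by
      rw [gaussianReal_map_neg, neg_zero]
    have h4 : (gaussianReal 0 v) {x | a ≤ -x} = ((gaussianReal 0 v).map (fun x => -x)) {x | a ≤ x} := by
      rw [Measure.map_apply (f := fun x : ℝ => -x) (by fun_prop) (s := {x | a ≤ x})
        measurableSet_Ici]
      rfl
    rw [h4, this]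
    exact h2
  calc gaussianReal 0 v {x | a < |x|} ≤ gaussianReal 0 v ({x | a ≤ x} ∪ {x | a ≤ -x}) := by
        refine measure_mono fun x hx => ?_
        have hx' : a < |x| := hx
        rcases lt_abs.1 hx' with h | h
        · exact Or.inl h.le
        · exact Or.inr h.le
    _ ≤ _ := measure_union_le _ _
    _ ≤ _ := add_le_add h2 h3
    _ = _ := by
        rw [← ENNReal.ofReal_add (by positivity) (by positivity)]
        congr 1
        ring


variable {Ω : Type*} [MeasurableSpace Ω] {P : Measure Ω} [IsProbabilityMeasure P]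

/-- The edge bound used at level `n`. -/
noncomputable def edgeE (K n : ℕ) : ℝ := √K * (n + 1) * qq ^ n

lemma edge_tail_summable (K : ℕ) :
    Summable (fun n : ℕ => ((K : ℝ) * 2 ^ n + 1) ^ 2 * (4 * Real.exp (-((n : ℝ) + 1) ^ 2 / 2))) := by
  have h1 : Summable (fun n : ℕ => (1 / 2 : ℝ) ^ n) := summable_geometric_two
  refine Summable.of_nonneg_of_le (fun n => by positivity) (fun n => ?_)
    (h1.mul_left (((K : ℝ) + 1) ^ 2 * 4 * Real.exp 2))
  have h2 : ((K : ℝ) * 2 ^ n + 1) ^ 2 ≤ ((K : ℝ) + 1) ^ 2 * 4 ^ n := by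
    have : (K : ℝ) * 2 ^ n + 1 ≤ (K + 1) * 2 ^ n := by
      have : (1 : ℝ) ≤ 2 ^ n := one_le_pow₀ (by norm_num)
      nlinarith
    calc ((K : ℝ) * 2 ^ n + 1) ^ 2 ≤ ((K + 1) * 2 ^ n) ^ 2 := by gcongr
      _ = _ := by rw [mul_pow, ← pow_mul, mul_comm n 2, pow_mul]; norm_num
  have h3 : Real.exp (-((n : ℝ) + 1) ^ 2 / 2) ≤ Real.exp 2 * (1 / 8) ^ n := by
    have h4 : (1 / 8 : ℝ) ^ n ≥ Real.exp (-(3 * n)) := by
      have : Real.exp (-3) ≤ 1 / 8 := by
        rw [Real.exp_neg, inv_le_comm₀ (Real.exp_pos _) (by norm_num)]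
        have h5 : (2 : ℝ) < Real.exp 1 := by
          have := Real.exp_one_gt_d9
          linarith
        calc (1 / 8 : ℝ)⁻¹ = 2 ^ 3 := by norm_num
          _ ≤ (Real.exp 1) ^ 3 := by gcongr
          _ = Real.exp 3 := by rw [← Real.exp_nat_mul]; norm_num
      calc Real.exp (-(3 * n)) = (Real.exp (-3)) ^ n := by
            rw [← Real.exp_nat_mul]; congr 1; ring
        _ ≤ (1 / 8) ^ n := by gcongr
    calc Real.exp (-((n : ℝ) + 1) ^ 2 / 2) ≤ Real.exp (2 + (-(3 * n))) := by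
          apply Real.exp_le_exp.2
          nlinarith [sq_nonneg ((n : ℝ) - 2)]
      _ = Real.exp 2 * Real.exp (-(3 * n)) := Real.exp_add _ _
      _ ≤ _ := by gcongr
  calc ((K : ℝ) * 2 ^ n + 1) ^ 2 * (4 * Real.exp (-((n : ℝ) + 1) ^ 2 / 2))
      ≤ (((K : ℝ) + 1) ^ 2 * 4 ^ n) * (4 * (Real.exp 2 * (1 / 8) ^ n)) := by gcongr
    _ = ((K : ℝ) + 1) ^ 2 * 4 * Real.exp 2 * (4 ^ n * (1 / 8) ^ n) := by ring
    _ = _ := by
        rw [← mul_pow]
        norm_num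

lemma edge_prob {v : ℝ≥0} {K n : ℕ} (hK : 1 ≤ K) (hv : (v : ℝ) ≤ K / 2 ^ n) {Y : Ω → ℝ}
    (hY : Measurable Y) (hlaw : P.map Y = gaussianReal 0 v) :
    P {ω | edgeE K n < |Y ω|} ≤ ENNReal.ofReal (2 * Real.exp (-((n : ℝ) + 1) ^ 2 / 2)) := by
  have hK' : (0 : ℝ) < K := by exact_mod_cast hK
  have hms : MeasurableSet {x : ℝ | edgeE K n < |x|} :=
    measurableSet_lt measurable_const (by fun_prop)
  have h1 : P {ω | edgeE K n < |Y ω|} = gaussianReal 0 v {x | edgeE K n < |x|} := by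
    rw [← hlaw, Measure.map_apply hY hms]
    rfl
  rw [h1]
  have hw : (0 : ℝ≥0) < (K : ℝ≥0) / 2 ^ n := by
    have : (0 : ℝ≥0) < K := by exact_mod_cast hK
    positivity
  have hvw : v ≤ (K : ℝ≥0) / 2 ^ n := by
    rw [← NNReal.coe_le_coe]
    push_cast
    exact hv
  have hE : 0 ≤ edgeE K n := by
    unfold edgeE
    have := qq_pos
    positivity
  refine (gaussian_tail hvw hw hE).trans (le_of_eq ?_)
  congr 3
  unfold edgeE
  have h2 : (qq ^ n) ^ 2 = 1 / 2 ^ n := by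
    rw [← pow_mul, mul_comm n 2, pow_mul, qq_sq]
    rw [div_pow, one_pow]
  have h3 : (√(K : ℝ)) ^ 2 = K := Real.sq_sqrt hK'.le
  push_cast
  have h4 : (√(K : ℝ) * ((n : ℝ) + 1) * qq ^ n) ^ 2 = K * ((n : ℝ) + 1) ^ 2 * (1 / 2 ^ n) := by
    rw [mul_pow, mul_pow, h2, h3]
  rw [h4]
  field_simp

theorem IsSheet.ae_edgeBound {ι : Type*} [DecidableEq ι] {X : ι × ℝ≥0 × ℝ≥0 → Ω → ℝ}
    (h : IsSheet X P) (c : ι) (K : ℕ) (hK : 1 ≤ K) :
    ∀ᵐ ω ∂P, ∀ᶠ n : ℕ in atTop, EdgeBound (fun s t => X (c, s, t) ω) K n (edgeE K n) := by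
  let A : ℕ → ℕ × ℕ → Set Ω := fun n p =>
    {ω | edgeE K n < |X (c, (p.1 + 1 : ℕ) / 2 ^ n, p.2 / 2 ^ n) ω - X (c, p.1 / 2 ^ n, p.2 / 2 ^ n) ω|}
  let A' : ℕ → ℕ × ℕ → Set Ω := fun n p =>
    {ω | edgeE K n < |X (c, p.1 / 2 ^ n, (p.2 + 1 : ℕ) / 2 ^ n) ω - X (c, p.1 / 2 ^ n, p.2 / 2 ^ n) ω|}
  let G : ℕ → Finset (ℕ × ℕ) := fun n =>
    Finset.range (K * 2 ^ n + 1) ×ˢ Finset.range (K * 2 ^ n + 1)
  let Bad : ℕ → Set Ω := fun n => ⋃ p ∈ G n, (A n p ∪ A' n p)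
  have hbound : ∀ n, ∀ p ∈ G n, P (A n p ∪ A' n p) ≤
      ENNReal.ofReal (4 * Real.exp (-((n : ℝ) + 1) ^ 2 / 2)) := by
    intro n p hp
    simp only [G, Finset.mem_product, Finset.mem_range, Nat.lt_succ_iff] at hp
    have h2n : (0 : ℝ≥0) < 2 ^ n := by positivity
    have hgap : ∀ k : ℕ, ((k + 1 : ℕ) : ℝ≥0) / 2 ^ n - (k : ℝ≥0) / 2 ^ n = 1 / 2 ^ n := by
      intro k
      rw [← tsub_div]
      push_cast
      rw [add_tsub_cancel_left]
    have hle : ∀ k : ℕ, (k : ℝ≥0) / 2 ^ n ≤ ((k + 1 : ℕ) : ℝ≥0) / 2 ^ n := by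
      intro k
      gcongr
      omega
    have hKb : ∀ k : ℕ, k ≤ K * 2 ^ n → ((k : ℝ) / 2 ^ n) ≤ K := by
      intro k hk
      rw [div_le_iff₀ (by positivity)]
      exact_mod_cast hk
    have hA : P (A n p) ≤ ENNReal.ofReal (2 * Real.exp (-((n : ℝ) + 1) ^ 2 / 2)) := by
      refine edge_prob hK (v := (((p.1 + 1 : ℕ) : ℝ≥0) / 2 ^ n - (p.1 : ℝ≥0) / 2 ^ n) * (p.2 / 2 ^ n))
        ?_ ((h.meas _).sub (h.meas _)) (h.law_incr_s c _ _ _ (hle p.1))
      rw [hgap]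
      push_cast
      have := hKb p.2 hp.2
      calc (1 : ℝ) / 2 ^ n * (p.2 / 2 ^ n) ≤ 1 / 2 ^ n * K := by gcongr
        _ = _ := by ring
    have hA' : P (A' n p) ≤ ENNReal.ofReal (2 * Real.exp (-((n : ℝ) + 1) ^ 2 / 2)) := by
      refine edge_prob hK (v := (p.1 / 2 ^ n) * (((p.2 + 1 : ℕ) : ℝ≥0) / 2 ^ n - (p.2 : ℝ≥0) / 2 ^ n))
        ?_ ((h.meas _).sub (h.meas _)) (h.law_incr c _ _ _ (hle p.2))
      rw [hgap]
      push_cast
      have := hKb p.1 hp.1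
      calc ((p.1 : ℝ) / 2 ^ n) * (1 / 2 ^ n) ≤ K * (1 / 2 ^ n) := by gcongr
        _ = _ := by ring
    calc P (A n p ∪ A' n p) ≤ P (A n p) + P (A' n p) := measure_union_le _ _
      _ ≤ _ := add_le_add hA hA'
      _ = _ := by
          rw [← ENNReal.ofReal_add (by positivity) (by positivity)]
          congr 1
          ring
  have hBad : ∀ n, P (Bad n) ≤
      ENNReal.ofReal (((K : ℝ) * 2 ^ n + 1) ^ 2 * (4 * Real.exp (-((n : ℝ) + 1) ^ 2 / 2))) := by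
    intro n
    calc P (Bad n) ≤ ∑ p ∈ G n, P (A n p ∪ A' n p) := measure_biUnion_finset_le _ _
      _ ≤ ∑ _p ∈ G n, ENNReal.ofReal (4 * Real.exp (-((n : ℝ) + 1) ^ 2 / 2)) :=
          Finset.sum_le_sum (hbound n)
      _ = _ := by
          rw [Finset.sum_const, Finset.card_product, Finset.card_range, nsmul_eq_mul,
            ← ENNReal.ofReal_natCast, ← ENNReal.ofReal_mul (by positivity)]
          congr 1
          push_cast
          ring
  have hsum : ∑' n, P (Bad n) ≠ ∞ := by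
    refine ne_top_of_le_ne_top (edge_tail_summable K).tsum_ofReal_ne_top ?_
    exact ENNReal.tsum_le_tsum hBad
  filter_upwards [ae_eventually_notMem hsum] with ω hω
  filter_upwards [hω] with n hn
  intro σ τ hσ hτ
  have hmem : (σ, τ) ∈ G n := by
    simp only [G, Finset.mem_product, Finset.mem_range, Nat.lt_succ_iff]
    exact ⟨hσ, hτ⟩
  simp only [Bad, Set.mem_iUnion, not_exists] at hn
  have := hn (σ, τ) hmem
  simp only [A, A', Set.mem_union, Set.mem_setOf_eq, not_or, not_lt] at this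
  exact this

end Pool.Agent.Helper41
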