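import Mathlib
import Pool.Agent.Helper41.SheetWalk
import Pool.Agent.Helper41.Tail

open MeasureTheory ProbabilityTheory Filter Topology
open scoped ENNReal NNReal

namespace Pool.Agent.Helper41

variable {Ω : Type*} [MeasurableSpace Ω] {P : Measure Ω} [IsProbabilityMeasure P]

/-- closeness radius at level `n` -/
noncomputable def rad (K n : ℕ) : ℝ := 14 * √K * (n + 4) * qq ^ n

lemma rad_nonneg (K n : ℕ) : 0 ≤ rad K n := by
  unfold rad
  have := qq_pos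
  positivity

lemma rad_sq (K n : ℕ) : rad K n ^ 2 = 196 * K * (n + 4) ^ 2 * (1 / 2 ^ n) := by
  unfold rad
  have h2 : (qq ^ n) ^ 2 = 1 / 2 ^ n := by
    rw [← pow_mul, mul_comm n 2, pow_mul, qq_sq]
    rw [div_pow, one_pow]
  have h3 : (√(K : ℝ)) ^ 2 = K := Real.sq_sqrt (Nat.cast_nonneg K)
  calc (14 * √K * ((n : ℝ) + 4) * qq ^ n) ^ 2
      = 196 * (√(K : ℝ)) ^ 2 * ((n : ℝ) + 4) ^ 2 * (qq ^ n) ^ 2 := by ring
    _ = _ := by rw [h2, h3]

/-- grid step at level `n` -/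
noncomputable def stp (n : ℕ) : ℝ≥0 := 1 / 2 ^ n

lemma stp_pos (n : ℕ) : 0 < stp n := by unfold stp; positivity

lemma stp_coe (n : ℕ) : (stp n : ℝ) = 1 / 2 ^ n := by
  unfold stp
  push_cast
  rfl

lemma sum_gapH_le {K n m : ℕ} (hK : 1 ≤ K) {s : ℝ≥0} (hs : 1 ≤ K * s) (hm : m ≤ K * 2 ^ n) :
    ∑ x ∈ Finset.range (m + 1), gapH s (stp n) (rad K n) x ≤
      ENNReal.ofReal (197 * K ^ 2 * (K + 1) * (n + 4) ^ 3) := by
  have hK' : (1 : ℝ) ≤ K := by exact_mod_cast hK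
  have hs' : (1 : ℝ) ≤ K * s := by exact_mod_cast hs
  have hs0 : (0 : ℝ) < s := by
    by_contra hcon
    have : (s : ℝ) = 0 := le_antisymm (not_lt.1 hcon) s.2
    rw [this, mul_zero] at hs'
    linarith
  rw [Finset.sum_range_succ']
  have h1 : gapH s (stp n) (rad K n) 0 = ENNReal.ofReal 1 := by simp [gapH]
  have h2 : ∀ x ∈ Finset.range m, gapH s (stp n) (rad K n) (x + 1) ≤
      ENNReal.ofReal (196 * K ^ 2 * (n + 4) ^ 2 * (((x + 1 : ℕ) : ℝ))⁻¹) := by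
    intro x _
    unfold gapH
    rw [if_neg (Nat.succ_ne_zero x), rad_sq, stp_coe]
    apply ENNReal.ofReal_le_ofReal
    have hx : (0 : ℝ) < ((x + 1 : ℕ) : ℝ) := by positivity
    rw [div_le_iff₀ (by positivity)]
    have e : 196 * (K : ℝ) ^ 2 * ((n : ℝ) + 4) ^ 2 * (((x + 1 : ℕ) : ℝ))⁻¹ *
        (s * (((x + 1 : ℕ) : ℝ) * (1 / 2 ^ n))) =
        (196 * K * (n + 4) ^ 2 * (1 / 2 ^ n)) * (K * s) := by
      field_simp
    rw [e]
    have : 0 ≤ 196 * (K : ℝ) * (n + 4) ^ 2 * (1 / 2 ^ n) := by positivity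
    nlinarith
  have h3 : ∑ x ∈ Finset.range m, (((x + 1 : ℕ) : ℝ))⁻¹ ≤ 1 + (K + n) := by
    have h4 := harmonic_le_one_add_log m
    have h5 : (harmonic m : ℝ) = ∑ x ∈ Finset.range m, (((x + 1 : ℕ) : ℝ))⁻¹ := by
      unfold harmonic
      push_cast
      rfl
    rw [h5] at h4
    refine h4.trans ?_
    have h6 : Real.log m ≤ K + n := by
      rcases Nat.eq_zero_or_pos m with hm0 | hm0
      · rw [hm0]
        simp
        positivity
      have h7 : Real.log m ≤ Real.log (K * 2 ^ n) := by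
        apply Real.log_le_log (by exact_mod_cast hm0)
        exact_mod_cast hm
      rw [Real.log_mul (by positivity) (by positivity), Real.log_pow] at h7
      have h8 : Real.log K ≤ K := by
        have := Real.log_le_sub_one_of_pos (show (0 : ℝ) < K by linarith)
        linarith
      have h9 : (n : ℝ) * Real.log 2 ≤ n := by
        have h10 : Real.log 2 ≤ 1 := by
          have := Real.log_two_lt_d9
          linarith
        have : (0 : ℝ) ≤ n := Nat.cast_nonneg n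
        nlinarith
      linarith
    linarith
  calc ∑ x ∈ Finset.range m, gapH s (stp n) (rad K n) (x + 1) + gapH s (stp n) (rad K n) 0
      ≤ ∑ x ∈ Finset.range m, ENNReal.ofReal (196 * K ^ 2 * (n + 4) ^ 2 * (((x + 1 : ℕ) : ℝ))⁻¹)
        + ENNReal.ofReal 1 := by
        rw [h1]
        gcongr with x hx
        exact h2 x hx
    _ = ENNReal.ofReal (196 * K ^ 2 * (n + 4) ^ 2 * (∑ x ∈ Finset.range m, (((x + 1 : ℕ) : ℝ))⁻¹)
        + 1) := by
        rw [← ENNReal.ofReal_sum_of_nonneg (fun x _ => by positivity), ← ENNReal.ofReal_add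
          (Finset.sum_nonneg fun x _ => by positivity) (by norm_num), Finset.mul_sum]
    _ ≤ _ := by
        apply ENNReal.ofReal_le_ofReal
        have hn : (0 : ℝ) ≤ n := Nat.cast_nonneg n
        have h11 : (1 : ℝ) + (K + n) ≤ (K + 1) * (n + 4) - 1 := by nlinarith
        have h12 : 196 * (K : ℝ) ^ 2 * ((n : ℝ) + 4) ^ 2 *
            (∑ x ∈ Finset.range m, (((x + 1 : ℕ) : ℝ))⁻¹) ≤
            196 * K ^ 2 * (n + 4) ^ 2 * ((K + 1) * (n + 4) - 1) := by
          gcongr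
          linarith
        have h13 : (1 : ℝ) ≤ K ^ 2 * (n + 4) ^ 2 := by
          have : (1 : ℝ) ≤ K ^ 2 := one_le_pow₀ hK'
          have : (1 : ℝ) ≤ (n + 4) ^ 2 := one_le_pow₀ (by linarith)
          nlinarith
        have h14 : 0 ≤ (K : ℝ) ^ 2 * (K + 1) * (n + 4) ^ 3 := by positivity
        nlinarith

lemma measurable_closeCount {ι : Type*} [Fintype ι] {U V : ℕ → Ω → (ι → ℝ)} {r : ℝ}
    (hU : ∀ j, Measurable (U j)) (hV : ∀ j, Measurable (V j)) (m m' : ℕ) :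
    Measurable (closeCount U V r m m') := by
  unfold closeCount
  refine Finset.measurable_sum _ fun q _ => ?_
  refine Measurable.ite ?_ measurable_const measurable_const
  exact measurableSet_le ((hU _).sub (hV _)).norm measurable_const

variable {X : Fin 4 × ℝ≥0 × ℝ≥0 → Ω → ℝ}

/-- the close pair count at level `n` -/
noncomputable def NN (X : Fin 4 × ℝ≥0 × ℝ≥0 → Ω → ℝ) (K : ℕ) (b : ℝ≥0) (n : ℕ) (s : ℝ≥0)
    (ω : Ω) : ℝ≥0∞ :=
  closeCount (walkU X s b (stp n)) (walkV X s b (stp n)) (rad K n) (⌊b * 2 ^ n⌋₊ + 1)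
    (K * 2 ^ n + 1) ω

lemma moment_NN (h : IsSheet X P) {K n : ℕ} (hK : 1 ≤ K) {b s : ℝ≥0} (hb : b ≤ K)
    (hs : 1 ≤ K * s) (k : ℕ) :
    ∫⁻ ω, NN X K b n s ω ^ k ∂P ≤
      ENNReal.ofReal (((k.factorial : ℝ) * (197 * K ^ 2 * (K + 1) * (n + 4) ^ 3) ^ k) ^ 2) := by
  have hs0 : 0 < s := by
    rcases eq_or_ne s 0 with h0 | h0
    · rw [h0] at hs; simp at hs
    · exact pos_iff_ne_zero.2 h0
  have hfl : ⌊b * 2 ^ n⌋₊ ≤ K * 2 ^ n := by
    apply Nat.floor_le_of_le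
    push_cast
    gcongr
  have hU := walkU_bound h b hs0 (stp_pos n) (rad_nonneg K n) (⌊b * 2 ^ n⌋₊ + 1) (by
    intro x hx
    have h1 : (x : ℝ≥0) ≤ b * 2 ^ n := by
      have h2 : (x : ℝ≥0) ≤ ⌊b * 2 ^ n⌋₊ := by exact_mod_cast Nat.lt_succ_iff.1 hx
      exact h2.trans (Nat.floor_le zero_le)
    unfold stp
    rw [mul_one_div, div_le_iff₀ (by positivity)]
    exact h1)
  have hV := walkV_bound h b hs0 (stp_pos n) (rad_nonneg K n) (K * 2 ^ n + 1)
  have hUV := walk_indep h s b (stp n)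
  refine (lintegral_closeCount_pow_le hU hV hUV k).trans ?_
  have h1 := sum_gapH_le hK hs (m := ⌊b * 2 ^ n⌋₊) (n := n) hfl
  have h2 := sum_gapH_le hK hs (m := K * 2 ^ n) (n := n) le_rfl
  have hnn : (0 : ℝ) ≤ 197 * K ^ 2 * (K + 1) * (n + 4) ^ 3 := by positivity
  have h3 : ENNReal.ofReal (((k.factorial : ℝ) * (197 * K ^ 2 * (K + 1) * (n + 4) ^ 3) ^ k) ^ 2) =
      ((k.factorial : ℝ≥0∞) * (ENNReal.ofReal (197 * K ^ 2 * (K + 1) * (n + 4) ^ 3)) ^ k) *
      ((k.factorial : ℝ≥0∞) * (ENNReal.ofReal (197 * K ^ 2 * (K + 1) * (n + 4) ^ 3)) ^ k) := by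
    rw [ENNReal.ofReal_pow (by positivity), ENNReal.ofReal_mul (by positivity),
      ENNReal.ofReal_pow hnn, ENNReal.ofReal_natCast, sq]
  rw [h3]
  gcongr

lemma poly_summable (K L : ℕ) (D : ℝ) :
    Summable (fun n : ℕ => ((K : ℝ) * 2 ^ n + 1) * (D * ((n : ℝ) + 4) ^ L) * (1 / 8) ^ n) := by
  have h1 : Summable (fun n : ℕ => (n : ℝ) ^ L * (1 / 4 : ℝ) ^ n) :=
    summable_pow_mul_geometric_of_norm_lt_one L (by norm_num)
  have h2 : Summable (fun n : ℕ => ((n : ℝ) + 4) ^ L * (1 / 4 : ℝ) ^ n) := by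
    have := (summable_nat_add_iff 4).2 h1
    have h3 := this.mul_left (4 ^ 4 : ℝ)
    refine h3.congr fun n => ?_
    push_cast
    rw [pow_add (1 / 4 : ℝ) n 4]
    ring
  refine Summable.of_norm_bounded (h2.mul_left (((K : ℝ) + 1) * |D|)) fun n => ?_
  rw [Real.norm_eq_abs, abs_mul, abs_mul, abs_mul, abs_of_nonneg (by positivity : 0 ≤ (K : ℝ) * 2 ^ n + 1),
    abs_of_nonneg (by positivity : 0 ≤ ((n : ℝ) + 4) ^ L), abs_of_nonneg (by positivity : 0 ≤ (1 / 8 : ℝ) ^ n)]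
  have h4 : (K : ℝ) * 2 ^ n + 1 ≤ (K + 1) * 2 ^ n := by
    have : (1 : ℝ) ≤ 2 ^ n := one_le_pow₀ (by norm_num)
    nlinarith
  calc ((K : ℝ) * 2 ^ n + 1) * (|D| * ((n : ℝ) + 4) ^ L) * (1 / 8) ^ n
      ≤ ((K + 1) * 2 ^ n) * (|D| * ((n : ℝ) + 4) ^ L) * (1 / 8) ^ n := by gcongr
    _ = (K + 1) * |D| * (((n : ℝ) + 4) ^ L * (2 ^ n * (1 / 8) ^ n)) := by ring
    _ = _ := by
        rw [← mul_pow]
        norm_num

/-- Almost surely, at all large levels all grid slices have few close pairs. -/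
theorem ae_few_close (h : IsSheet X P) {K : ℕ} (hK : 1 ≤ K) {b : ℝ≥0} (hb : b ≤ K)
    {L : ℕ} (hL : 1 ≤ L) :
    ∀ᵐ ω ∂P, ∀ᶠ n : ℕ in atTop, ∀ σ : ℕ, σ ≤ K * 2 ^ n → 2 ^ n ≤ K * σ →
      NN X K b n (σ / 2 ^ n) ω < ENNReal.ofReal ((2 : ℝ) ^ ((n : ℝ) / L)) := by
  let k := 3 * L
  let D : ℝ := ((k.factorial : ℝ) * (197 * K ^ 2 * (K + 1)) ^ k) ^ 2
  let Bad : ℕ → Set Ω := fun n => ⋃ σ ∈ (Finset.range (K * 2 ^ n + 1)).filter
    (fun σ => 2 ^ n ≤ K * σ), {ω | ENNReal.ofReal ((2 : ℝ) ^ ((n : ℝ) / L)) ≤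
      NN X K b n (σ / 2 ^ n) ω}
  have hL' : (0 : ℝ) < L := by exact_mod_cast hL
  have hone : ∀ n : ℕ, ∀ σ ∈ (Finset.range (K * 2 ^ n + 1)).filter (fun σ => 2 ^ n ≤ K * σ),
      P {ω | ENNReal.ofReal ((2 : ℝ) ^ ((n : ℝ) / L)) ≤ NN X K b n (σ / 2 ^ n) ω} ≤
        ENNReal.ofReal ((D * ((n : ℝ) + 4) ^ (6 * k)) * (1 / 8) ^ n) := by
    intro n σ hσ
    rw [Finset.mem_filter] at hσ
    have hs : 1 ≤ (K : ℝ≥0) * ((σ : ℝ≥0) / 2 ^ n) := by
      rw [← mul_div_assoc, le_div_iff₀ (by positivity), one_mul]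
      exact_mod_cast hσ.2
    have hmeas : Measurable (NN X K b n (σ / 2 ^ n)) := by
      apply measurable_closeCount
      · intro j; exact measurable_pi_lambda _ fun c => (h.meas _).sub (h.meas _)
      · intro j; exact measurable_pi_lambda _ fun c => (h.meas _).sub (h.meas _)
    have hpos : 0 < (2 : ℝ) ^ ((n : ℝ) / L) := by positivity
    have hpow : (((2 : ℝ) ^ ((n : ℝ) / L)) ^ k) = 8 ^ n := by
      rw [← Real.rpow_natCast, ← Real.rpow_mul (by norm_num)]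
      have : (n : ℝ) / L * ((k : ℕ) : ℝ) = ((3 * n : ℕ) : ℝ) := by
        simp only [k]
        push_cast
        field_simp
      rw [this, Real.rpow_natCast, pow_mul]
      norm_num
    calc P {ω | ENNReal.ofReal ((2 : ℝ) ^ ((n : ℝ) / L)) ≤ NN X K b n (σ / 2 ^ n) ω}
        ≤ P {ω | ENNReal.ofReal (8 ^ n) ≤ NN X K b n (σ / 2 ^ n) ω ^ k} := by
          refine measure_mono fun ω hω => ?_
          have hω' : ENNReal.ofReal ((2 : ℝ) ^ ((n : ℝ) / L)) ≤ NN X K b n (σ / 2 ^ n) ω := hω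
          show ENNReal.ofReal (8 ^ n) ≤ NN X K b n (σ / 2 ^ n) ω ^ k
          rw [← hpow, ENNReal.ofReal_pow hpos.le]
          gcongr
      _ ≤ (∫⁻ ω, NN X K b n (σ / 2 ^ n) ω ^ k ∂P) / ENNReal.ofReal (8 ^ n) :=
          meas_ge_le_lintegral_div (hmeas.pow_const k).aemeasurable
            (by simp) ENNReal.ofReal_ne_top
      _ ≤ ENNReal.ofReal (((k.factorial : ℝ) * (197 * K ^ 2 * (K + 1) * (n + 4) ^ 3) ^ k) ^ 2) /
            ENNReal.ofReal (8 ^ n) := by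
          gcongr
          exact moment_NN h hK hb hs k
      _ = _ := by
          rw [← ENNReal.ofReal_div_of_pos (by positivity)]
          congr 1
          simp only [D]
          rw [one_div, inv_pow, div_eq_mul_inv]
          congr 1
          rw [mul_pow _ (((n : ℝ) + 4) ^ 3) k, ← pow_mul, mul_pow, mul_pow, mul_pow]
          rw [← pow_mul ((n : ℝ) + 4)]
          have : 3 * k * 2 = 6 * k := by ring
          rw [this]
          ring
  have hBad : ∀ n, P (Bad n) ≤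
      ENNReal.ofReal (((K : ℝ) * 2 ^ n + 1) * (D * ((n : ℝ) + 4) ^ (6 * k)) * (1 / 8) ^ n) := by
    intro n
    have hDnn : 0 ≤ D := by simp only [D]; positivity
    calc P (Bad n) ≤ ∑ σ ∈ (Finset.range (K * 2 ^ n + 1)).filter (fun σ => 2 ^ n ≤ K * σ),
          P {ω | ENNReal.ofReal ((2 : ℝ) ^ ((n : ℝ) / L)) ≤ NN X K b n (σ / 2 ^ n) ω} :=
          measure_biUnion_finset_le _ _
      _ ≤ ∑ σ ∈ (Finset.range (K * 2 ^ n + 1)).filter (fun σ => 2 ^ n ≤ K * σ),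
          ENNReal.ofReal ((D * ((n : ℝ) + 4) ^ (6 * k)) * (1 / 8) ^ n) :=
          Finset.sum_le_sum (hone n)
      _ ≤ ∑ σ ∈ (Finset.range (K * 2 ^ n + 1)),
          ENNReal.ofReal ((D * ((n : ℝ) + 4) ^ (6 * k)) * (1 / 8) ^ n) :=
          Finset.sum_le_sum_of_subset (Finset.filter_subset _ _)
      _ = _ := by
          rw [Finset.sum_const, Finset.card_range, nsmul_eq_mul, ← ENNReal.ofReal_natCast,
            ← ENNReal.ofReal_mul (by positivity)]
          congr 1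
          push_cast
          ring
  have hsum : ∑' n, P (Bad n) ≠ ∞ := by
    refine ne_top_of_le_ne_top (poly_summable K (6 * k) D).tsum_ofReal_ne_top ?_
    exact ENNReal.tsum_le_tsum hBad
  filter_upwards [ae_eventually_notMem hsum] with ω hω
  filter_upwards [hω] with n hn σ hσ1 hσ2
  simp only [Bad, Set.mem_iUnion, not_exists] at hn
  have := hn σ (Finset.mem_filter.2 ⟨Finset.mem_range.2 (Nat.lt_succ_of_le hσ1), hσ2⟩)
  exact not_le.1 this

end Pool.Agent.Helper41
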