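import Mathlib
import Pool.Agent.Helper41.Sheet

open MeasureTheory ProbabilityTheory Filter Topology
open scoped ENNReal NNReal

namespace Pool.Agent.Helper41

variable {Ω : Type*} [MeasurableSpace Ω] {P : Measure Ω} [IsProbabilityMeasure P]
variable {ι : Type*}

/-- increment of coordinate `q.1` along the slice at `q.2.1`, from time `q.2.2.1` to `q.2.2.2` -/
def incr (X : ι × ℝ≥0 × ℝ≥0 → Ω → ℝ) (q : ι × ℝ≥0 × ℝ≥0 × ℝ≥0) (ω : Ω) : ℝ :=
  X (q.1, q.2.1, q.2.2.2) ω - X (q.1, q.2.1, q.2.2.1) ω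

/-- covariance of the indicator functions of two time intervals -/
noncomputable def ov (t t' τ τ' : ℝ≥0) : ℝ :=
  (min t' τ' : ℝ≥0) - (min t' τ : ℝ≥0) - (min t τ' : ℝ≥0) + (min t τ : ℝ≥0)

lemma ov_disjoint {t t' τ τ' : ℝ≥0} (h1 : t ≤ t') (h2 : t' ≤ τ) (h3 : τ ≤ τ') :
    ov t t' τ τ' = 0 := by
  unfold ov
  rw [min_eq_left (h2.trans h3), min_eq_left h2, min_eq_left ((h1.trans h2).trans h3),
    min_eq_left (h1.trans h2)]
  ring

lemma ov_symm (t t' τ τ' : ℝ≥0) : ov t t' τ τ' = ov τ τ' t t' := by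
  unfold ov
  rw [min_comm t' τ', min_comm t' τ, min_comm t τ', min_comm t τ]
  ring

lemma ov_self {t t' : ℝ≥0} (h : t ≤ t') : ov t t' t t' = t' - t := by
  unfold ov
  rw [min_self, min_eq_right h, min_eq_left h, min_self]
  ring

section
variable [DecidableEq ι] {X : ι × ℝ≥0 × ℝ≥0 → Ω → ℝ}

lemma IsSheet.meas_incr (h : IsSheet X P) (q) : Measurable (incr X q) :=
  (h.meas _).sub (h.meas _)

lemma IsSheet.gauss_incr (h : IsSheet X P) : IsGaussianProcess (incr X) P := by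
  classical
  refine h.gauss.of_isGaussianProcess fun q => ?_
  exact ⟨{(q.1, q.2.1, q.2.2.2), (q.1, q.2.1, q.2.2.1)},
        { toFun x := x ⟨(q.1, q.2.1, q.2.2.2), by simp⟩ - x ⟨(q.1, q.2.1, q.2.2.1), by simp⟩
          map_add' x y := by simp; abel
          map_smul' c x := by simp; ring }, by intro ω; simp [incr]⟩

lemma IsSheet.mean_incr (h : IsSheet X P) (q) : P[incr X q] = 0 := by
  have h1 : Integrable (X (q.1, q.2.1, q.2.2.2)) P := (h.memLp _).integrable (by norm_num)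
  have h2 : Integrable (X (q.1, q.2.1, q.2.2.1)) P := (h.memLp _).integrable (by norm_num)
  show ∫ ω, (X (q.1, q.2.1, q.2.2.2) ω - X (q.1, q.2.1, q.2.2.1) ω) ∂P = 0
  rw [integral_sub h1 h2, h.char.mean h.meas, h.char.mean h.meas, sub_zero]

lemma IsSheet.cov_incr' (h : IsSheet X P) (p q : ι × ℝ≥0 × ℝ≥0 × ℝ≥0) :
    cov[incr X p, incr X q; P] =
      if p.1 = q.1 then ((min p.2.1 q.2.1 : ℝ≥0) : ℝ) * ov p.2.2.1 p.2.2.2 q.2.2.1 q.2.2.2
      else 0 := by
  have h1 := h.cov_incr (p.1, p.2.1, p.2.2.2) (p.1, p.2.1, p.2.2.1)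
    (q.1, q.2.1, q.2.2.2) (q.1, q.2.1, q.2.2.1)
  have h2 : cov[incr X p, incr X q; P] = cov[fun ω => X (p.1, p.2.1, p.2.2.2) ω -
    X (p.1, p.2.1, p.2.2.1) ω, fun ω => X (q.1, q.2.1, q.2.2.2) ω - X (q.1, q.2.1, q.2.2.1) ω; P] :=
    rfl
  rw [h2, h1]
  unfold sheetK ov
  by_cases hc : p.1 = q.1
  · simp only [hc, if_true]
    ring
  · simp [hc]

lemma IsSheet.law_incr' (h : IsSheet X P) (c : ι) (s t t' : ℝ≥0) (ht : t ≤ t') :
    P.map (incr X (c, s, t, t')) = gaussianReal 0 (s * (t' - t)) :=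
  h.law_incr c s t t' ht

end

/-- Two point small ball bound for a nondegenerate centred Gaussian pair. -/
lemma gaussian_pair_bound {Y₁ Y₂ : Ω → ℝ} (hm₁ : Measurable Y₁) (hm₂ : Measurable Y₂)
    (hg : HasGaussianLaw (fun ω => (Y₁ ω, Y₂ ω)) P) (h1 : P[Y₁] = 0) (h2 : P[Y₂] = 0)
    {v₁ v₂ ρ : ℝ} (hv₁ : Var[Y₁; P] = v₁) (hv₂ : Var[Y₂; P] = v₂) (hρ : cov[Y₁, Y₂; P] = ρ)
    (hv₁pos : 0 < v₁) (hdet : 0 < v₁ * v₂ - ρ ^ 2) (z₁ z₂ : ℝ) {r : ℝ} (hr : 0 ≤ r) :
    P {ω | |Y₁ ω - z₁| ≤ r ∧ |Y₂ ω - z₂| ≤ r} ≤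
      ENNReal.ofReal (r ^ 2 / √(v₁ * v₂ - ρ ^ 2)) := by
  set β := ρ / v₁ with hβ
  set G : Ω → ℝ := fun ω => Y₂ ω - β * Y₁ ω with hG
  have hGm : Measurable G := hm₂.sub (hm₁.const_mul β)
  have hL1 : MemLp Y₁ 2 P := hg.fst.memLp_two
  have hL2 : MemLp Y₂ 2 P := hg.snd.memLp_two
  have hgG : HasGaussianLaw (fun ω => (Y₁ ω, G ω)) P := by
    let L : ℝ × ℝ →L[ℝ] ℝ × ℝ :=
      (ContinuousLinearMap.fst ℝ ℝ ℝ).prod
        (ContinuousLinearMap.snd ℝ ℝ ℝ - β • ContinuousLinearMap.fst ℝ ℝ ℝ)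
    exact hg.map L
  have hcov : cov[Y₁, G; P] = 0 := by
    have e : G = Y₂ - fun ω => β * Y₁ ω := rfl
    rw [e, covariance_sub_right hL1 hL2 (hL1.const_mul β), covariance_const_mul_right,
      covariance_self hm₁.aemeasurable, hρ, hv₁, hβ]
    field_simp
    ring
  have hind : IndepFun Y₁ G P := hgG.indepFun_of_covariance_eq_zero hcov
  have hvarG : Var[G; P] = (v₁ * v₂ - ρ ^ 2) / v₁ := by
    have e : G = Y₂ - fun ω => β * Y₁ ω := rfl
    rw [e, variance_sub hL2 (hL1.const_mul β), covariance_const_mul_right,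
      variance_const_mul, covariance_comm, hρ, hv₁, hv₂, hβ]
    field_simp
    ring
  have hmeanG : P[G] = 0 := by
    have : ∫ ω, (Y₂ ω - β * Y₁ ω) ∂P = 0 := by
      rw [integral_sub (hL2.integrable (by norm_num)) ((hL1.integrable (by norm_num)).const_mul β),
        integral_const_mul, h2, h1]
      ring
    exact this
  have hlawG : P.map G = gaussianReal 0 ((v₁ * v₂ - ρ ^ 2) / v₁).toNNReal := by
    have := hgG.snd.map_eq_gaussianReal
    rw [hmeanG, hvarG] at this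
    exact this
  have hlaw1 : P.map Y₁ = gaussianReal 0 v₁.toNNReal := by
    have := hgG.fst.map_eq_gaussianReal
    rw [h1, hv₁] at this
    exact this
  have hA : MeasurableSet {x : ℝ | |x - z₁| ≤ r} := measurableSet_le (by fun_prop) measurable_const
  have hB : MeasurableSet {w : ℝ × ℝ | |w.2 - (z₂ - β * w.1)| ≤ r} :=
    measurableSet_le (by fun_prop) measurable_const
  have hvG : 0 < (v₁ * v₂ - ρ ^ 2) / v₁ := by positivity
  have key := measure_inter_le_of_indep (P := P) hm₁ hGm hind hA hB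
    (c := ENNReal.ofReal (r / √((v₁ * v₂ - ρ ^ 2) / v₁))) (by
      intro u
      have h3 := gaussianReal_ball_le (v := ((v₁ * v₂ - ρ ^ 2) / v₁).toNNReal)
        (Real.toNNReal_pos.2 hvG).ne' (z₂ - β * u) hr
      rw [← hlawG, Measure.map_apply hGm (measurableSet_le (by fun_prop) measurable_const),
        Real.coe_toNNReal _ hvG.le] at h3
      exact h3)
  calc P {ω | |Y₁ ω - z₁| ≤ r ∧ |Y₂ ω - z₂| ≤ r}
      = P {ω | Y₁ ω ∈ {x : ℝ | |x - z₁| ≤ r} ∧
          (Y₁ ω, G ω) ∈ {w : ℝ × ℝ | |w.2 - (z₂ - β * w.1)| ≤ r}} := by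
        congr 1
        ext ω
        simp only [Set.mem_setOf_eq, hG]
        have : Y₂ ω - β * Y₁ ω - (z₂ - β * Y₁ ω) = Y₂ ω - z₂ := by ring
        rw [this]
    _ ≤ _ := key
    _ ≤ ENNReal.ofReal (r / √v₁) * ENNReal.ofReal (r / √((v₁ * v₂ - ρ ^ 2) / v₁)) := by
        gcongr
        have h3 := gaussianReal_ball_le (v := v₁.toNNReal) (Real.toNNReal_pos.2 hv₁pos).ne' z₁ hr
        rw [← hlaw1, Measure.map_apply hm₁ hA, Real.coe_toNNReal _ hv₁pos.le] at h3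
        exact h3
    _ = _ := by
        rw [← ENNReal.ofReal_mul (by positivity)]
        congr 1
        rw [div_mul_div_comm, ← Real.sqrt_mul hv₁pos.le]
        congr 1
        · ring
        · congr 1
          field_simp

end Pool.Agent.Helper41
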