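import Mathlib
import Pool.Agent.Helper41.Incr

open MeasureTheory ProbabilityTheory Filter Topology
open scoped ENNReal NNReal

namespace Pool.Agent.Helper41

variable {Ω : Type*} [MeasurableSpace Ω] {P : Measure Ω} [IsProbabilityMeasure P]
variable {ι : Type*}

/-- vector increment along a slice -/
def vinc (X : ι × ℝ≥0 × ℝ≥0 → Ω → ℝ) (s t t' : ℝ≥0) (ω : Ω) : ι → ℝ :=
  fun c => incr X (c, s, t, t') ω

/-- lower bound for the mass of a small centred ball -/
lemma gaussianReal_ball_ge {v : ℝ≥0} (hv1 : 1 ≤ v) (hv6 : v ≤ 6) {r : ℝ} (hr : 0 ≤ r)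
    (hr1 : r ≤ 1) :
    ENNReal.ofReal (r / 7) ≤ gaussianReal 0 v {x | |x| ≤ r} := by
  have hv : v ≠ 0 := by
    intro h
    rw [h] at hv1
    exact absurd hv1 (by simp)
  have hv1' : (1 : ℝ) ≤ v := by exact_mod_cast hv1
  have hv6' : (v : ℝ) ≤ 6 := by exact_mod_cast hv6
  have hs : {x : ℝ | |x| ≤ r} = Metric.closedBall 0 r := by
    ext x
    simp [Metric.mem_closedBall, Real.dist_eq]
  have hms : MeasurableSet {x : ℝ | |x| ≤ r} := by
    rw [hs]; exact Metric.isClosed_closedBall.measurableSet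
  rw [gaussianReal_apply _ hv]
  calc ENNReal.ofReal (r / 7) ≤ ENNReal.ofReal (1 / 14) * ENNReal.ofReal (2 * r) := by
        rw [← ENNReal.ofReal_mul (by norm_num)]
        apply ENNReal.ofReal_le_ofReal
        linarith
    _ = ∫⁻ _x in {x : ℝ | |x| ≤ r}, ENNReal.ofReal (1 / 14) := by
        rw [lintegral_const, Measure.restrict_apply_univ, hs, Real.volume_closedBall]
    _ ≤ ∫⁻ x in {x : ℝ | |x| ≤ r}, gaussianPDF 0 v x := by
        refine setLIntegral_mono' hms fun x hx => ?_
        unfold gaussianPDF gaussianPDFReal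
        refine ENNReal.ofReal_le_ofReal ?_
        have hx' : |x| ≤ r := hx
        have hx2 : x ^ 2 ≤ 1 := by
          rw [← sq_abs]
          have := abs_nonneg x
          nlinarith
        have h1 : Real.exp (-(1 / 2)) ≤ Real.exp (-(x - 0) ^ 2 / (2 * v)) := by
          apply Real.exp_le_exp.2
          rw [neg_div, neg_le_neg_iff, sub_zero]
          rw [div_le_iff₀ (by positivity)]
          nlinarith
        have h2 : (1 / 2 : ℝ) ≤ Real.exp (-(1 / 2)) := by
          have := Real.add_one_le_exp (-(1 / 2) : ℝ)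
          linarith
        have h3 : √(2 * Real.pi * v) ≤ 7 := by
          rw [show (7 : ℝ) = √(49) by
            rw [show (49 : ℝ) = 7 ^ 2 by norm_num, Real.sqrt_sq (by norm_num)]]
          apply Real.sqrt_le_sqrt
          have := Real.pi_lt_d2
          have := Real.pi_pos
          nlinarith
        have h4 : (0 : ℝ) < √(2 * Real.pi * v) := by positivity
        calc (1 / 14 : ℝ) = 7⁻¹ * (1 / 2) := by norm_num
          _ ≤ (√(2 * Real.pi * v))⁻¹ * Real.exp (-(x - 0) ^ 2 / (2 * v)) := by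
              gcongr
              exact h2.trans h1

section
variable [DecidableEq ι] [Fintype ι] {X : ι × ℝ≥0 × ℝ≥0 → Ω → ℝ}

lemma IsSheet.meas_vinc (h : IsSheet X P) (s t t' : ℝ≥0) : Measurable (vinc X s t t') :=
  measurable_pi_lambda _ fun c => h.meas_incr _

/-- The pairs of coordinates of two vector increments are independent across coordinates. -/
lemma IsSheet.iIndep_pairs (h : IsSheet X P) (s t t' s' τ τ' : ℝ≥0) :
    iIndepFun (fun (c : ι) ω (i : Bool) =>
      incr X (c, if i then (s', τ, τ') else (s, t, t')) ω) P := by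
  refine IsGaussianProcess.iIndepFun_of_covariance_eq_zero
    (S := fun _ : ι => Bool)
    (X := fun (c : ι) (i : Bool) ω => incr X (c, if i then (s', τ, τ') else (s, t, t')) ω)
    ?_ (fun c i => (h.meas_incr _).aemeasurable) ?_
  · exact h.gauss_incr.comp_right
      (fun p : (_ : ι) × Bool => (p.1, if p.2 then (s', τ, τ') else (s, t, t')))
  · intro c c' hcc' i j
    have := h.cov_incr' (c, if i then (s', τ, τ') else (s, t, t'))
      (c', if j then (s', τ, τ') else (s, t, t'))
    rw [if_neg hcc'] at this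
    exact this

/-- Two point small ball bound for the vector increments. -/
lemma IsSheet.pair_bound (h : IsSheet X P) {s t t' s' τ τ' : ℝ≥0} (hs : 0 < s) (ht : t < t')
    (hτ : τ ≤ τ') {D : ℝ} (hD : 0 < D)
    (hdet : D ≤ ((s : ℝ) * (t' - t)) * ((s' : ℝ) * (τ' - τ)) -
      (((min s s' : ℝ≥0) : ℝ) * ov t t' τ τ') ^ 2)
    {r : ℝ} (hr : 0 ≤ r) (z z' : ι → ℝ) :
    P {ω | ‖vinc X s t t' ω - z‖ ≤ r ∧ ‖vinc X s' τ τ' ω - z'‖ ≤ r} ≤
      ENNReal.ofReal (r ^ 2 / √D) ^ Fintype.card ι := by
  have hset : {ω | ‖vinc X s t t' ω - z‖ ≤ r ∧ ‖vinc X s' τ τ' ω - z'‖ ≤ r} =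
      ⋂ c, (fun ω (i : Bool) => incr X (c, if i then (s', τ, τ') else (s, t, t')) ω) ⁻¹'
        {f | |f false - z c| ≤ r ∧ |f true - z' c| ≤ r} := by
    ext ω
    simp only [Set.mem_setOf_eq, Set.mem_iInter, Set.mem_preimage]
    rw [pi_norm_le_iff_of_nonneg hr, pi_norm_le_iff_of_nonneg hr]
    simp only [Pi.sub_apply, Real.norm_eq_abs, vinc]
    exact ⟨fun hh c => ⟨by simpa using hh.1 c, by simpa using hh.2 c⟩,
      fun hh => ⟨fun c => by simpa using (hh c).1, fun c => by simpa using (hh c).2⟩⟩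
  have hmeas : ∀ c : ι, MeasurableSet {f : Bool → ℝ | |f false - z c| ≤ r ∧ |f true - z' c| ≤ r} := by
    intro c
    have m1 : Measurable (fun f : Bool → ℝ => |f false - z c|) := by fun_prop
    have m2 : Measurable (fun f : Bool → ℝ => |f true - z' c|) := by fun_prop
    exact (measurableSet_le m1 measurable_const).inter (measurableSet_le m2 measurable_const)
  rw [hset]
  have hind := (h.iIndep_pairs s t t' s' τ τ').measure_inter_preimage_eq_mul Finset.univ
    (sets := fun c => {f : Bool → ℝ | |f false - z c| ≤ r ∧ |f true - z' c| ≤ r})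
    (fun c _ => hmeas c)
  simp only [Finset.mem_univ, Set.iInter_true] at hind
  rw [hind]
  calc ∏ c : ι, P ((fun ω (i : Bool) => incr X (c, if i then (s', τ, τ') else (s, t, t')) ω) ⁻¹'
        {f | |f false - z c| ≤ r ∧ |f true - z' c| ≤ r})
      ≤ ∏ _c : ι, ENNReal.ofReal (r ^ 2 / √D) := by
        refine Finset.prod_le_prod' fun c _ => ?_
        set Y₁ := incr X (c, s, t, t') with hY₁
        set Y₂ := incr X (c, s', τ, τ') with hY₂
        have hv₁ : Var[Y₁; P] = (s : ℝ) * (t' - t) := by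
          rw [← covariance_self (h.meas_incr _).aemeasurable, h.cov_incr']
          simp only [if_true, min_self]
          rw [ov_self ht.le]
        have hv₂ : Var[Y₂; P] = (s' : ℝ) * (τ' - τ) := by
          rw [← covariance_self (h.meas_incr _).aemeasurable, h.cov_incr']
          simp only [if_true, min_self]
          rw [ov_self hτ]
        have hρ : cov[Y₁, Y₂; P] = ((min s s' : ℝ≥0) : ℝ) * ov t t' τ τ' := by
          rw [h.cov_incr']
          simp
        have hg : HasGaussianLaw (fun ω => (Y₁ ω, Y₂ ω)) P := h.gauss_incr.hasGaussianLaw_prodMk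
        have hv₁pos : 0 < (s : ℝ) * (t' - t) := by
          have h1 : (0 : ℝ) < s := hs
          have h2 : (t : ℝ) < t' := ht
          have : (0 : ℝ) < t' - t := by linarith
          positivity
        have hb := gaussian_pair_bound (h.meas_incr _) (h.meas_incr _) hg (h.mean_incr _)
          (h.mean_incr _) hv₁ hv₂ hρ hv₁pos (hD.trans_le hdet) (z c) (z' c) hr
        refine le_trans (le_of_eq ?_) (hb.trans ?_)
        · congr 1
        · apply ENNReal.ofReal_le_ofReal
          have := Real.sqrt_le_sqrt hdet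
          have h3 : 0 < √D := Real.sqrt_pos.2 hD
          gcongr
    _ = _ := by rw [Finset.prod_const, Finset.card_univ]

lemma IsSheet.ball_ge (h : IsSheet X P) {s t t' : ℝ≥0} (ht : t ≤ t') (h1 : 1 ≤ s * (t' - t))
    (h6 : s * (t' - t) ≤ 6) {r : ℝ} (hr : 0 ≤ r) (hr1 : r ≤ 1) :
    ENNReal.ofReal (r / 7) ^ Fintype.card ι ≤ P {ω | ‖vinc X s t t' ω‖ ≤ r} := by
  have hset : {ω | ‖vinc X s t t' ω‖ ≤ r} =
      ⋂ c, (fun ω => X (c, s, t') ω - X (c, s, t) ω) ⁻¹' {x | |x| ≤ r} := by
    ext ω
    simp only [Set.mem_setOf_eq, Set.mem_iInter, Set.mem_preimage]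
    rw [pi_norm_le_iff_of_nonneg hr]
    simp [Real.norm_eq_abs, vinc, incr]
  have hmeas : MeasurableSet {x : ℝ | |x| ≤ r} := measurableSet_le (by fun_prop) measurable_const
  rw [hset]
  have hind := (h.iIndep_coord s t t').measure_inter_preimage_eq_mul Finset.univ
    (sets := fun _ => {x : ℝ | |x| ≤ r}) (fun c _ => hmeas)
  simp only [Finset.mem_univ, Set.iInter_true] at hind
  rw [hind, ← Finset.card_univ, ← Finset.prod_const]
  refine Finset.prod_le_prod' fun c _ => ?_
  have hm : Measurable (fun ω => X (c, s, t') ω - X (c, s, t) ω) := (h.meas _).sub (h.meas _)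
  rw [← Measure.map_apply hm hmeas, h.law_incr c s t t' ht]
  exact gaussianReal_ball_ge h1 h6 hr hr1

end

end Pool.Agent.Helper41
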