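import Mathlib
import Pool.Agent.Helper41.Pair
import Pool.Agent.Helper41.Abstract

open MeasureTheory ProbabilityTheory Filter Topology
open scoped ENNReal NNReal

namespace Pool.Agent.Helper41

/-- start time in block `(i,n)` -/
noncomputable def tb (i n : ℕ) (u : ℝ≥0) : ℝ≥0 := 4 * (Nat.pair i n : ℝ≥0) + min u 1

/-- end time in block `(i,n)` -/
noncomputable def te (i n : ℕ) (v : ℝ≥0) : ℝ≥0 := 4 * (Nat.pair i n : ℝ≥0) + 2 + min v 1

lemma tb_lt_te (i n : ℕ) (u v : ℝ≥0) : tb i n u < te i n v := by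
  unfold tb te
  rw [add_assoc]
  gcongr
  calc min u 1 ≤ 1 := min_le_right _ _
    _ < 2 := by norm_num
    _ ≤ 2 + min v 1 := le_self_add

lemma te_le_tb {i n i' n' : ℕ} (h : Nat.pair i n < Nat.pair i' n') (u v : ℝ≥0) :
    te i n v ≤ tb i' n' u := by
  unfold tb te
  have h1 : (Nat.pair i n : ℝ≥0) + 1 ≤ Nat.pair i' n' := by exact_mod_cast h
  calc 4 * (Nat.pair i n : ℝ≥0) + 2 + min v 1 ≤ 4 * (Nat.pair i n : ℝ≥0) + 2 + 1 := by
        gcongr
        exact min_le_right _ _
    _ ≤ 4 * ((Nat.pair i n : ℝ≥0) + 1) := by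
        rw [mul_add, mul_one, add_assoc]
        gcongr
        norm_num
    _ ≤ 4 * (Nat.pair i' n' : ℝ≥0) := by gcongr
    _ ≤ _ := le_self_add

lemma ov_blocks {i n i' n' : ℕ} (h : Nat.pair i n ≠ Nat.pair i' n') (u v u' v' : ℝ≥0) :
    ov (tb i n u) (te i n v) (tb i' n' u') (te i' n' v') = 0 := by
  rcases lt_or_gt_of_ne h with h | h
  · exact ov_disjoint (tb_lt_te _ _ _ _).le (te_le_tb h _ _) (tb_lt_te _ _ _ _).le
  · rw [ov_symm]
    exact ov_disjoint (tb_lt_te _ _ _ _).le (te_le_tb h _ _) (tb_lt_te _ _ _ _).le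

/-- determinant inequality for the real parameters -/
lemma det_ineq {s s' u u' v v' : ℝ} (hs : 1 ≤ s) (hs' : 1 ≤ s') (hu0 : 0 ≤ u) (hu : u ≤ 1)
    (hu0' : 0 ≤ u') (hu' : u' ≤ 1) (hv0 : 0 ≤ v) (hv : v ≤ 1) (hv0' : 0 ≤ v') (hv' : v' ≤ 1) :
    |s - s'| + |u - u'| + |v - v'| ≤
      (s * (2 + v - u)) * (s' * (2 + v' - u')) -
        (min s s' * (2 + min v v' - max u u')) ^ 2 := by
  set c := 2 + min v v' - max u u' with hc
  have hc1 : 1 ≤ c := by
    have h1 : 0 ≤ min v v' := le_min hv0 hv0'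
    have h2 : max u u' ≤ 1 := max_le hu hu'
    linarith
  set A := 2 + v - u with hA
  set B := 2 + v' - u' with hB
  have hAc : 0 ≤ A - c := by
    have h1 : min v v' ≤ v := min_le_left _ _
    have h2 : u ≤ max u u' := le_max_left _ _
    simp only [hA, hc]; linarith
  have hBc : 0 ≤ B - c := by
    have h1 : min v v' ≤ v' := min_le_right _ _
    have h2 : u' ≤ max u u' := le_max_right _ _
    simp only [hB, hc]; linarith
  have hsum : (A - c) + (B - c) = |u - u'| + |v - v'| := by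
    have h1 : |u - u'| = 2 * max u u' - u - u' := by
      rcases le_total u u' with h | h
      · rw [abs_of_nonpos (by linarith), max_eq_right h]; ring
      · rw [abs_of_nonneg (by linarith), max_eq_left h]; ring
    have h2 : |v - v'| = v + v' - 2 * min v v' := by
      rcases le_total v v' with h | h
      · rw [abs_of_nonpos (by linarith), min_eq_left h]; ring
      · rw [abs_of_nonneg (by linarith), min_eq_right h]; ring
    rw [h1, h2]
    simp only [hA, hB, hc]
    ring
  have hAB : (A - c) + (B - c) ≤ A * B - c ^ 2 := by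
    have h1 : A * B - c ^ 2 = c * ((A - c) + (B - c)) + (A - c) * (B - c) := by ring
    rw [h1]
    have h2 : 0 ≤ (A - c) * (B - c) := mul_nonneg hAc hBc
    have h3 : 0 ≤ (A - c) + (B - c) := add_nonneg hAc hBc
    nlinarith
  have hA1 : 1 ≤ A := by linarith
  have hB1 : 1 ≤ B := by linarith
  have hAB1 : 1 ≤ A * B := by nlinarith
  have hABc : 0 ≤ A * B - c ^ 2 := by
    have h3 : 0 ≤ (A - c) + (B - c) := add_nonneg hAc hBc
    linarith
  rcases le_total s s' with h | h
  · rw [min_eq_left h, abs_of_nonpos (by linarith)]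
    have e : (s * A) * (s' * B) - (s * c) ^ 2 = s * (s' - s) * (A * B) + s ^ 2 * (A * B - c ^ 2) := by
      ring
    rw [e]
    have h1 : (s' - s) ≤ s * (s' - s) * (A * B) := by
      have h2 : 0 ≤ s' - s := by linarith
      have h4 : 1 ≤ s * (A * B) := by nlinarith
      nlinarith
    have h2 : (A * B - c ^ 2) ≤ s ^ 2 * (A * B - c ^ 2) := by
      have : 1 ≤ s ^ 2 := one_le_pow₀ hs
      nlinarith
    linarith
  · rw [min_eq_right h, abs_of_nonneg (by linarith)]
    have e : (s * A) * (s' * B) - (s' * c) ^ 2 =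
        s' * (s - s') * (A * B) + s' ^ 2 * (A * B - c ^ 2) := by
      ring
    rw [e]
    have h1 : (s - s') ≤ s' * (s - s') * (A * B) := by
      have h2 : 0 ≤ s - s' := by linarith
      have h4 : 1 ≤ s' * (A * B) := by nlinarith
      nlinarith
    have h2 : (A * B - c ^ 2) ≤ s' ^ 2 * (A * B - c ^ 2) := by
      have : 1 ≤ s' ^ 2 := one_le_pow₀ hs'
      nlinarith
    linarith

lemma sum_diff_le (M : ℕ) (g : ℕ → ℝ) (hg : ∀ x, 0 ≤ g x) (b : ℕ) (hb : b < M) :
    ∑ b' ∈ Finset.range M, g ((b - b') + (b' - b)) ≤ 2 * ∑ y ∈ Finset.range M, g y := by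
  have hsplit : ∑ b' ∈ Finset.range M, g ((b - b') + (b' - b)) =
      ∑ b' ∈ Finset.range b, g (b - b') + ∑ b' ∈ Finset.Ico b M, g (b' - b) := by
    rw [← Finset.sum_range_add_sum_Ico _ hb.le]
    congr 1
    · refine Finset.sum_congr rfl fun j' hj' => ?_
      rw [Finset.mem_range] at hj'
      rw [Nat.sub_eq_zero_of_le hj'.le, add_zero]
    · refine Finset.sum_congr rfl fun j' hj' => ?_
      rw [Finset.mem_Ico] at hj'
      rw [Nat.sub_eq_zero_of_le (by omega), zero_add]
  rw [hsplit, two_mul]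
  refine add_le_add ?_ ?_
  · have hinj : Set.InjOn (fun x : ℕ => b - x) (Finset.range b) := by
      intro x hx y hy hxy
      simp only [Finset.coe_range, Set.mem_Iio] at hx hy hxy
      omega
    rw [← Finset.sum_image (f := g) hinj]
    refine Finset.sum_le_sum_of_subset_of_nonneg ?_ (fun _ _ _ => hg _)
    intro y hy
    simp only [Finset.mem_image, Finset.mem_range] at hy ⊢
    omega
  · rw [Finset.sum_Ico_eq_sum_range]
    calc ∑ d ∈ Finset.range (M - b), g (b + d - b)
        = ∑ d ∈ Finset.range (M - b), g d := by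
          refine Finset.sum_congr rfl fun d hd => ?_
          congr 1
          omega
      _ ≤ _ := Finset.sum_le_sum_of_subset_of_nonneg
          (Finset.range_subset_range.2 (Nat.sub_le _ _)) (fun _ _ _ => hg _)

lemma sum_inv_sq_le (z M : ℕ) (hz : 1 ≤ z) :
    ∑ y ∈ Finset.range M, 1 / ((z : ℝ) + y) ^ 2 ≤ 2 / (z : ℝ) := by
  have hz' : (1 : ℝ) ≤ z := by exact_mod_cast hz
  have h : ∀ M : ℕ, ∑ y ∈ Finset.range M, 1 / ((z : ℝ) + y) ^ 2 ≤
      2 * (1 / (z : ℝ) - 1 / ((z : ℝ) + M)) := by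
    intro M
    induction M with
    | zero => simp
    | succ M ih =>
      rw [Finset.sum_range_succ]
      have hM : (0 : ℝ) ≤ M := Nat.cast_nonneg M
      have h1 : 1 / ((z : ℝ) + M) ^ 2 ≤ 2 * (1 / (z + M) - 1 / (z + (M + 1))) := by
        have e : 2 * (1 / ((z : ℝ) + M) - 1 / (z + (M + 1))) = 2 / ((z + M) * (z + M + 1)) := by
          field_simp
          ring
        rw [e, div_le_div_iff₀ (by positivity) (by positivity)]
        nlinarith
      push_cast
      linarith
  refine (h M).trans ?_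
  have : 0 ≤ 1 / ((z : ℝ) + M) := by positivity
  have e : 2 / (z : ℝ) = 2 * (1 / z) := by ring
  rw [e]
  linarith

lemma sum_inv_le (d M : ℕ) (hd : 1 ≤ d) (hdM : d ≤ M) :
    ∑ x ∈ Finset.range M, 1 / ((d : ℝ) + x) ≤ 2 + Real.log (M / d) := by
  have hd' : (1 : ℝ) ≤ d := by exact_mod_cast hd
  have hdM' : (d : ℝ) ≤ M := by exact_mod_cast hdM
  have h : ∀ m : ℕ, ∑ x ∈ Finset.range (m + 1), 1 / ((d : ℝ) + x) ≤
      1 + (Real.log (d + m) - Real.log d) := by
    intro m
    induction m with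
    | zero =>
      simp only [zero_add, Finset.range_one, Finset.sum_singleton, Nat.cast_zero, add_zero, sub_self]
      rw [div_le_one (by linarith)]
      exact hd'
    | succ m ih =>
      rw [Finset.sum_range_succ]
      have hm : (0 : ℝ) ≤ m := Nat.cast_nonneg m
      have h1 : 1 / ((d : ℝ) + (m + 1)) ≤ Real.log (d + (m + 1)) - Real.log (d + m) := by
        rw [← Real.log_div (by positivity) (by positivity)]
        have h2 := Real.one_sub_inv_le_log_of_pos
          (show 0 < ((d : ℝ) + (m + 1)) / (d + m) by positivity)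
        refine le_trans (le_of_eq ?_) h2
        field_simp
        ring
      push_cast at h1 ⊢
      linarith
  have hM1 : 1 ≤ M := hd.trans hdM
  obtain ⟨m, rfl⟩ : ∃ m, M = m + 1 := ⟨M - 1, by omega⟩
  refine (h m).trans ?_
  have h2 : Real.log (d + m) ≤ Real.log (2 * ((m + 1 : ℕ) : ℝ)) := by
    apply Real.log_le_log (by positivity)
    push_cast at hdM' ⊢
    linarith
  rw [Real.log_mul (by norm_num) (by positivity)] at h2
  rw [Real.log_div (by positivity) (by positivity)]
  have h3 : Real.log 2 ≤ 1 := by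
    have := Real.log_two_lt_d9
    linarith
  linarith

/-- double sum estimate -/
lemma double_sum_le {d M a b : ℕ} (hd : 1 ≤ d) (hdM : d ≤ M) (ha : a < M) (hb : b < M) :
    ∑ a' ∈ Finset.range M, ∑ b' ∈ Finset.range M,
      1 / ((d + ((a - a') + (a' - a)) + ((b - b') + (b' - b)) : ℕ) : ℝ) ^ 2 ≤
      16 * (1 + Real.log (M / d)) := by
  have h1 : ∀ a' ∈ Finset.range M, ∑ b' ∈ Finset.range M,
      1 / ((d + ((a - a') + (a' - a)) + ((b - b') + (b' - b)) : ℕ) : ℝ) ^ 2 ≤
      4 * (1 / ((d : ℝ) + (((a - a') + (a' - a) : ℕ) : ℝ))) := by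
    intro a' _
    have := sum_diff_le M (fun y => 1 / ((d + ((a - a') + (a' - a)) + y : ℕ) : ℝ) ^ 2)
      (fun x => by positivity) b hb
    refine this.trans ?_
    have h2 := sum_inv_sq_le (d + ((a - a') + (a' - a))) M (by omega)
    push_cast at h2 ⊢
    calc _ ≤ 2 * (2 / ((d : ℝ) + (((a - a' : ℕ) : ℝ) + ((a' - a : ℕ) : ℝ)))) := by
          gcongr
      _ = _ := by ring
  refine (Finset.sum_le_sum h1).trans ?_
  rw [← Finset.mul_sum]
  have h2 := sum_diff_le M (fun y => 1 / ((d : ℝ) + (y : ℝ))) (fun x => by positivity) a ha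
  have h3 := sum_inv_le d M hd hdM
  have h4 : 0 ≤ Real.log (M / d) := by
    apply Real.log_nonneg
    rw [le_div_iff₀ (by exact_mod_cast hd), one_mul]
    exact_mod_cast hdM
  calc 4 * ∑ a' ∈ Finset.range M, 1 / ((d : ℝ) + (((a - a') + (a' - a) : ℕ) : ℝ))
      ≤ 4 * (2 * ∑ y ∈ Finset.range M, 1 / ((d : ℝ) + (y : ℝ))) := by gcongr
    _ ≤ 4 * (2 * (2 + Real.log (M / d))) := by gcongr
    _ ≤ _ := by linarith

end Pool.Agent.Helper41
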