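import Mathlib
import Pool.Agent.Helper41.Pair
import Pool.Agent.Helper41.Block

open MeasureTheory ProbabilityTheory Filter Topology
open scoped ENNReal NNReal

namespace Pool.Agent.Helper41

variable {Ω : Type*} [MeasurableSpace Ω] {P : Measure Ω} [IsProbabilityMeasure P]

/-- sharp upper bound for the mass of a ball -/
lemma gball_le {v : ℝ≥0} (hv : v ≠ 0) (z : ℝ) {r : ℝ} (hr : 0 ≤ r) :
    gaussianReal 0 v {x | |x - z| ≤ r} ≤ ENNReal.ofReal (2 * r / √(2 * Real.pi * v)) := by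
  have hs : {x : ℝ | |x - z| ≤ r} = Metric.closedBall z r := by
    ext x
    simp [Metric.mem_closedBall, Real.dist_eq]
  rw [gaussianReal_apply _ hv]
  calc ∫⁻ x in {x : ℝ | |x - z| ≤ r}, gaussianPDF 0 v x
      ≤ ∫⁻ _x in {x : ℝ | |x - z| ≤ r}, ENNReal.ofReal ((√(2 * Real.pi * v))⁻¹) := by
        refine lintegral_mono fun x => ?_
        unfold gaussianPDF gaussianPDFReal
        refine ENNReal.ofReal_le_ofReal ?_
        have : Real.exp (-(x - 0) ^ 2 / (2 * v)) ≤ 1 := by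
          rw [Real.exp_le_one_iff]
          have : 0 ≤ (x - 0) ^ 2 / (2 * (v : ℝ)) := by positivity
          rw [neg_div]
          linarith
        calc _ ≤ (√(2 * Real.pi * v))⁻¹ * 1 := by gcongr
          _ = _ := mul_one _
    _ = ENNReal.ofReal ((√(2 * Real.pi * v))⁻¹) * ENNReal.ofReal (2 * r) := by
        rw [lintegral_const, Measure.restrict_apply_univ, hs, Real.volume_closedBall]
    _ = ENNReal.ofReal (2 * r / √(2 * Real.pi * v)) := by
        rw [← ENNReal.ofReal_mul (by positivity)]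
        congr 1
        ring

/-- sharp lower bound for the mass of a ball -/
lemma gball_ge {v : ℝ≥0} (hv : v ≠ 0) {z : ℝ} {r : ℝ} (hr : 0 ≤ r) (hz : |z| ≤ r) :
    ENNReal.ofReal (2 * r / √(2 * Real.pi * v) * Real.exp (-(2 * r ^ 2 / v))) ≤
      gaussianReal 0 v {x | |x - z| ≤ r} := by
  have hv' : (0 : ℝ) < v := NNReal.coe_pos.2 (pos_iff_ne_zero.2 hv)
  have hs : {x : ℝ | |x - z| ≤ r} = Metric.closedBall z r := by
    ext x
    simp [Metric.mem_closedBall, Real.dist_eq]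
  have hms : MeasurableSet {x : ℝ | |x - z| ≤ r} := by
    rw [hs]; exact Metric.isClosed_closedBall.measurableSet
  rw [gaussianReal_apply _ hv]
  calc ENNReal.ofReal (2 * r / √(2 * Real.pi * v) * Real.exp (-(2 * r ^ 2 / v)))
      = ENNReal.ofReal ((√(2 * Real.pi * v))⁻¹ * Real.exp (-(2 * r ^ 2 / v))) *
          ENNReal.ofReal (2 * r) := by
        rw [← ENNReal.ofReal_mul (by positivity)]
        congr 1
        ring
    _ = ∫⁻ _x in {x : ℝ | |x - z| ≤ r},
          ENNReal.ofReal ((√(2 * Real.pi * v))⁻¹ * Real.exp (-(2 * r ^ 2 / v))) := by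
        rw [lintegral_const, Measure.restrict_apply_univ, hs, Real.volume_closedBall]
    _ ≤ ∫⁻ x in {x : ℝ | |x - z| ≤ r}, gaussianPDF 0 v x := by
        refine setLIntegral_mono' hms fun x hx => ?_
        unfold gaussianPDF gaussianPDFReal
        apply ENNReal.ofReal_le_ofReal
        have hx' : |x - z| ≤ r := hx
        rw [abs_le] at hx' hz
        have h1 : (x - 0) ^ 2 ≤ 4 * r ^ 2 := by nlinarith
        have h2 : -(2 * r ^ 2 / (v : ℝ)) ≤ -(x - 0) ^ 2 / (2 * v) := by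
          rw [neg_div, neg_le_neg_iff, div_le_div_iff₀ (by positivity) hv']
          nlinarith
        gcongr

section
variable {ι : Type*} [DecidableEq ι] [Fintype ι] {X : ι × ℝ≥0 × ℝ≥0 → Ω → ℝ}

lemma IsSheet.ball_eq (h : IsSheet X P) (s t t' : ℝ≥0) (ht : t ≤ t') {r : ℝ} (hr : 0 ≤ r)
    (z : ι → ℝ) :
    P {ω | ‖vinc X s t t' ω - z‖ ≤ r} =
      ∏ c : ι, gaussianReal 0 (s * (t' - t)) {x | |x - z c| ≤ r} := by
  have hset : {ω | ‖vinc X s t t' ω - z‖ ≤ r} =
      ⋂ c, (fun ω => X (c, s, t') ω - X (c, s, t) ω) ⁻¹' {x | |x - z c| ≤ r} := by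
    ext ω
    simp only [Set.mem_setOf_eq, Set.mem_iInter, Set.mem_preimage]
    rw [pi_norm_le_iff_of_nonneg hr]
    simp [Real.norm_eq_abs, vinc, incr]
  have hmeas : ∀ c : ι, MeasurableSet {x : ℝ | |x - z c| ≤ r} := fun c =>
    measurableSet_le (by fun_prop) measurable_const
  rw [hset]
  have hind := (h.iIndep_coord s t t').measure_inter_preimage_eq_mul Finset.univ
    (sets := fun c => {x : ℝ | |x - z c| ≤ r}) (fun c _ => hmeas c)
  simp only [Finset.mem_univ, Set.iInter_true] at hind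
  rw [hind]
  refine Finset.prod_congr rfl fun c _ => ?_
  have hm : Measurable (fun ω => X (c, s, t') ω - X (c, s, t) ω) := (h.meas _).sub (h.meas _)
  rw [← Measure.map_apply hm (hmeas c), h.law_incr c s t t' ht]

end

section
variable {X : Fin 2 × ℝ≥0 × ℝ≥0 → Ω → ℝ}

/-- planar small ball upper bound -/
lemma IsSheet.ball2_le (h : IsSheet X P) {s t t' : ℝ≥0} (hs : 0 < s) (ht : t < t') {r : ℝ}
    (hr : 0 ≤ r) (z : Fin 2 → ℝ) :
    P {ω | ‖vinc X s t t' ω - z‖ ≤ r} ≤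
      ENNReal.ofReal (2 * r ^ 2 / (Real.pi * (s * (t' - t)))) := by
  rw [h.ball_eq s t t' ht.le hr]
  have hv : s * (t' - t) ≠ 0 := mul_ne_zero hs.ne' (tsub_pos_of_lt ht).ne'
  have hs' : (0 : ℝ) < s := hs
  have ht' : (t : ℝ) < t' := ht
  have htt : (0 : ℝ) < t' - t := by linarith
  have hpi := Real.pi_pos
  calc ∏ c : Fin 2, gaussianReal 0 (s * (t' - t)) {x | |x - z c| ≤ r}
      ≤ ∏ _c : Fin 2, ENNReal.ofReal (2 * r / √(2 * Real.pi * (s * (t' - t) : ℝ≥0))) :=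
        Finset.prod_le_prod' fun c _ => gball_le hv _ hr
    _ = _ := by
        rw [Finset.prod_const, Finset.card_univ, Fintype.card_fin,
          ← ENNReal.ofReal_pow (by positivity)]
        congr 1
        rw [div_pow, Real.sq_sqrt (by positivity), NNReal.coe_mul, NNReal.coe_sub ht.le]
        field_simp

/-- planar small ball lower bound -/
lemma IsSheet.ball2_ge (h : IsSheet X P) {s t t' : ℝ≥0} (hs : 0 < s) (ht : t < t') {r : ℝ}
    (hr : 0 ≤ r) {z : Fin 2 → ℝ} (hz : ‖z‖ ≤ r) :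
    ENNReal.ofReal (2 * r ^ 2 / (Real.pi * (s * (t' - t))) *
      Real.exp (-(4 * r ^ 2 / (s * (t' - t))))) ≤ P {ω | ‖vinc X s t t' ω - z‖ ≤ r} := by
  rw [h.ball_eq s t t' ht.le hr]
  have hv : s * (t' - t) ≠ 0 := mul_ne_zero hs.ne' (tsub_pos_of_lt ht).ne'
  have hs' : (0 : ℝ) < s := hs
  have ht' : (t : ℝ) < t' := ht
  have htt : (0 : ℝ) < t' - t := by linarith
  have hpi := Real.pi_pos
  have hzc : ∀ c, |z c| ≤ r := fun c => by
    have := (pi_norm_le_iff_of_nonneg hr).1 hz c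
    rwa [Real.norm_eq_abs] at this
  calc ENNReal.ofReal (2 * r ^ 2 / (Real.pi * (s * (t' - t))) *
      Real.exp (-(4 * r ^ 2 / (s * (t' - t)))))
      = ∏ _c : Fin 2, ENNReal.ofReal (2 * r / √(2 * Real.pi * (s * (t' - t) : ℝ≥0)) *
        Real.exp (-(2 * r ^ 2 / (s * (t' - t) : ℝ≥0)))) := by
        rw [Finset.prod_const, Finset.card_univ, Fintype.card_fin,
          ← ENNReal.ofReal_pow (by positivity)]
        congr 1
        rw [mul_pow, div_pow, Real.sq_sqrt (by positivity), NNReal.coe_mul, NNReal.coe_sub ht.le,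
          ← Real.exp_nat_mul]
        congr 1
        · field_simp
        · congr 1
          push_cast
          ring
    _ ≤ ∏ c : Fin 2, gaussianReal 0 (s * (t' - t)) {x | |x - z c| ≤ r} :=
        Finset.prod_le_prod' fun c _ => gball_ge hv hr (hzc c)

end

/-- Peeling off an independent factor: upper bound. -/
lemma lintegral_mul_le_of_indep {α β : Type*} [MeasurableSpace α] [MeasurableSpace β]
    {U : Ω → α} {V : Ω → β} (hU : Measurable U) (hV : Measurable V) (h : IndepFun U V P)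
    {Ψ : α → ℝ≥0∞} (hΨ : Measurable Ψ) {Φ : α × β → ℝ≥0∞} (hΦ : Measurable Φ) {c : ℝ≥0∞}
    (hc : ∀ u, ∫⁻ ω, Φ (u, V ω) ∂P ≤ c) :
    ∫⁻ ω, Ψ (U ω) * Φ (U ω, V ω) ∂P ≤ (∫⁻ ω, Ψ (U ω) ∂P) * c := by
  have hmap := (indepFun_iff_map_prod_eq_prod_map_map hU.aemeasurable hV.aemeasurable).1 h
  haveI : IsProbabilityMeasure (P.map V) := Measure.isProbabilityMeasure_map hV.aemeasurable
  haveI : IsProbabilityMeasure (P.map U) := Measure.isProbabilityMeasure_map hU.aemeasurable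
  have hm : Measurable (fun p : α × β => Ψ p.1 * Φ p) := (hΨ.comp measurable_fst).mul hΦ
  calc ∫⁻ ω, Ψ (U ω) * Φ (U ω, V ω) ∂P
      = ∫⁻ p, Ψ p.1 * Φ p ∂(P.map (fun ω => (U ω, V ω))) := by
        rw [lintegral_map hm (hU.prodMk hV)]
    _ = ∫⁻ u, ∫⁻ v, Ψ u * Φ (u, v) ∂(P.map V) ∂(P.map U) := by
        rw [hmap, lintegral_prod _ hm.aemeasurable]
    _ ≤ ∫⁻ u, Ψ u * c ∂(P.map U) := by
        refine lintegral_mono fun u => ?_
        have hmu : Measurable (fun v => Φ (u, v)) := hΦ.comp measurable_prodMk_left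
        simp only
        rw [lintegral_const_mul _ hmu, lintegral_map hmu hV]
        gcongr
        exact hc u
    _ = _ := by
        rw [lintegral_mul_const _ hΨ, lintegral_map hΨ hU]

/-- Peeling off an independent factor: lower bound. -/
lemma lintegral_mul_ge_of_indep {α β : Type*} [MeasurableSpace α] [MeasurableSpace β]
    {U : Ω → α} {V : Ω → β} (hU : Measurable U) (hV : Measurable V) (h : IndepFun U V P)
    {Ψ : α → ℝ≥0∞} (hΨ : Measurable Ψ) {Φ : α × β → ℝ≥0∞} (hΦ : Measurable Φ) {c : ℝ≥0∞}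
    (hc : ∀ u, Ψ u ≠ 0 → c ≤ ∫⁻ ω, Φ (u, V ω) ∂P) :
    (∫⁻ ω, Ψ (U ω) ∂P) * c ≤ ∫⁻ ω, Ψ (U ω) * Φ (U ω, V ω) ∂P := by
  have hmap := (indepFun_iff_map_prod_eq_prod_map_map hU.aemeasurable hV.aemeasurable).1 h
  haveI : IsProbabilityMeasure (P.map V) := Measure.isProbabilityMeasure_map hV.aemeasurable
  haveI : IsProbabilityMeasure (P.map U) := Measure.isProbabilityMeasure_map hU.aemeasurable
  have hm : Measurable (fun p : α × β => Ψ p.1 * Φ p) := (hΨ.comp measurable_fst).mul hΦ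
  calc (∫⁻ ω, Ψ (U ω) ∂P) * c = ∫⁻ u, Ψ u * c ∂(P.map U) := by
        rw [lintegral_mul_const _ hΨ, lintegral_map hΨ hU]
    _ ≤ ∫⁻ u, ∫⁻ v, Ψ u * Φ (u, v) ∂(P.map V) ∂(P.map U) := by
        refine lintegral_mono fun u => ?_
        have hmu : Measurable (fun v => Φ (u, v)) := hΦ.comp measurable_prodMk_left
        simp only
        rw [lintegral_const_mul _ hmu, lintegral_map hmu hV]
        by_cases hu : Ψ u = 0
        · rw [hu, zero_mul, zero_mul]
        · gcongr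
          exact hc u hu
    _ = ∫⁻ p, Ψ p.1 * Φ p ∂(P.map (fun ω => (U ω, V ω))) := by
        rw [hmap, lintegral_prod _ hm.aemeasurable]
    _ = ∫⁻ ω, Ψ (U ω) * Φ (U ω, V ω) ∂P := by
        rw [lintegral_map hm (hU.prodMk hV)]

section
variable {ι : Type*} [DecidableEq ι] {X : ι × ℝ≥0 × ℝ≥0 → Ω → ℝ}

/-- the path of the sheet, recentred at time `0` -/
def pV (X : ι × ℝ≥0 × ℝ≥0 → Ω → ℝ) (ω : Ω) (q : ι × ℝ≥0 × ℝ≥0) : ℝ :=
  X q ω - X (q.1, q.2.1, 0) ω

/-- the path stopped at time `e` -/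
def pU (X : ι × ℝ≥0 × ℝ≥0 → Ω → ℝ) (e : ℝ≥0) (ω : Ω) (q : ι × ℝ≥0 × ℝ≥0) : ℝ :=
  X (q.1, q.2.1, min q.2.2 e) ω - X (q.1, q.2.1, 0) ω

/-- the increments of the path after time `e` -/
def pW (X : ι × ℝ≥0 × ℝ≥0 → Ω → ℝ) (e : ℝ≥0) (ω : Ω) (q : ι × ℝ≥0 × ℝ≥0) : ℝ :=
  X (q.1, q.2.1, max q.2.2 e) ω - X (q.1, q.2.1, e) ω

/-- recombination of the past at time `e` with the future increments -/
def comb (e : ℝ≥0) (u w : ι × ℝ≥0 × ℝ≥0 → ℝ) (q : ι × ℝ≥0 × ℝ≥0) : ℝ :=
  u (q.1, q.2.1, e) + w q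

lemma IsSheet.meas_pV (h : IsSheet X P) : Measurable (pV X) :=
  measurable_pi_lambda _ fun q => (h.meas _).sub (h.meas _)

lemma IsSheet.meas_pU (h : IsSheet X P) (e : ℝ≥0) : Measurable (pU X e) :=
  measurable_pi_lambda _ fun q => (h.meas _).sub (h.meas _)

lemma IsSheet.meas_pW (h : IsSheet X P) (e : ℝ≥0) : Measurable (pW X e) :=
  measurable_pi_lambda _ fun q => (h.meas _).sub (h.meas _)

lemma measurable_comb (e : ℝ≥0) :
    Measurable (fun p : (ι × ℝ≥0 × ℝ≥0 → ℝ) × (ι × ℝ≥0 × ℝ≥0 → ℝ) => comb e p.1 p.2) := by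
  refine measurable_pi_lambda _ fun q => ?_
  exact ((measurable_pi_apply _).comp measurable_fst).add
    ((measurable_pi_apply _).comp measurable_snd)

lemma IsSheet.indep_UW (h : IsSheet X P) (e : ℝ≥0) : IndepFun (pU X e) (pW X e) P := by
  refine h.indep_incr (S := ι × ℝ≥0 × ℝ≥0) (T := ι × ℝ≥0 × ℝ≥0)
    (fun q => (q.1, q.2.1, min q.2.2 e)) (fun q => (q.1, q.2.1, 0))
    (fun q => (q.1, q.2.1, max q.2.2 e)) (fun q => (q.1, q.2.1, e)) ?_
  intro p q
  rw [h.cov_incr]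
  unfold sheetK
  by_cases hc : p.1 = q.1
  · simp only [hc, if_true]
    have h1 : min (min p.2.2 e) (max q.2.2 e) = min p.2.2 e :=
      min_eq_left ((min_le_right _ _).trans (le_max_right _ _))
    have h2 : min (min p.2.2 e) e = min p.2.2 e := min_eq_left (min_le_right _ _)
    have h3 : min (0 : ℝ≥0) (max q.2.2 e) = 0 := min_eq_left zero_le
    have h4 : min (0 : ℝ≥0) e = 0 := min_eq_left zero_le
    rw [h1, h2, h3, h4]
    ring
  · simp [hc]

omit [DecidableEq ι] [MeasurableSpace Ω] in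
lemma pU_eq {e : ℝ≥0} {c : ι} {s t : ℝ≥0} (ht : t ≤ e) (ω : Ω) :
    pU X e ω (c, s, t) = pV X ω (c, s, t) := by
  simp only [pU, pV, min_eq_left ht]

omit [DecidableEq ι] [MeasurableSpace Ω] in
lemma comb_eq {e : ℝ≥0} {c : ι} {s t : ℝ≥0} (ht : e ≤ t) (ω : Ω) :
    comb e (pU X e ω) (pW X e ω) (c, s, t) = pV X ω (c, s, t) := by
  simp only [comb, pU, pW, pV, min_self, max_eq_left ht]
  ring

end

end Pool.Agent.Helper41
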