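import Mathlib
import Pool.Agent.Helper41.ZeroBasic
import Pool.Agent.Helper41.Count

open MeasureTheory ProbabilityTheory Filter Topology
open scoped ENNReal NNReal

namespace Pool.Agent.Helper41

variable {Ω : Type*} [MeasurableSpace Ω] {P : Measure Ω} [IsProbabilityMeasure P]

/-- Events with a conditional hitting bound depending on the gap to the past. -/
structure HitBound (P : Measure Ω) (E : ℕ → Set Ω) (m : ℕ) (h : ℕ → ℝ≥0∞) : Prop where
  meas : ∀ i, MeasurableSet (E i)
  h0 : 1 ≤ h 0
  step : ∀ (k : ℕ) (i : Fin k → ℕ) (a x : ℕ), (∀ l, i l ≤ a) → a < x → x < m →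
    P {ω | (∀ l, ω ∈ E (i l)) ∧ ω ∈ E x} ≤ P {ω | ∀ l, ω ∈ E (i l)} * h (x - a)

lemma HitBound.insertNth_le {E : ℕ → Set Ω} {m : ℕ} {h : ℕ → ℝ≥0∞} (hE : HitBound P E m h)
    {k : ℕ} (i : Fin k → ℕ) (p : Fin (k + 1)) (x : ℕ) (hx : x < m) (hi : ∀ l, i l ≤ x) :
    P {ω | ∀ l, ω ∈ E (p.insertNth (α := fun _ => ℕ) x i l)} ≤
      P {ω | ∀ l, ω ∈ E (i l)} * h (x - Finset.univ.sup i) := by
  set a := Finset.univ.sup i with ha
  have hia : ∀ l, i l ≤ a := fun l => Finset.le_sup (Finset.mem_univ l)
  have hax : a ≤ x := Finset.sup_le fun l _ => hi l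
  rcases hax.eq_or_lt with hax' | hax'
  · have h1 : P {ω | ∀ l, ω ∈ E (p.insertNth (α := fun _ => ℕ) x i l)} ≤
        P {ω | ∀ l, ω ∈ E (i l)} := by
      refine measure_mono ?_
      intro ω hω l
      have := hω (p.succAbove l)
      simpa using this
    calc _ ≤ P {ω | ∀ l, ω ∈ E (i l)} * 1 := by rw [mul_one]; exact h1
      _ ≤ _ := by
        gcongr
        rw [hax', Nat.sub_self]
        exact hE.h0
  · refine le_trans (measure_mono ?_) (hE.step k i a x hia hax' hx)
    intro ω hω
    refine ⟨fun l => ?_, ?_⟩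
    · have := hω (p.succAbove l)
      simpa using this
    · have := hω p
      simpa using this

/-- Summing the joint hitting probabilities over all tuples. -/
theorem HitBound.sum_le {E : ℕ → Set Ω} {m : ℕ} {h : ℕ → ℝ≥0∞} (hE : HitBound P E m h) (k : ℕ) :
    ∑ i : Fin k → Fin m, P {ω | ∀ l, ω ∈ E (i l : ℕ)} ≤
      (k.factorial : ℝ≥0∞) * (∑ x ∈ Finset.range m, h x) ^ k := by
  induction k with
  | zero =>
    simp only [Finset.univ_unique, Finset.sum_singleton, Nat.factorial_zero, Nat.cast_one,
      pow_zero, mul_one]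
    exact prob_le_one
  | succ k ih =>
    classical
    set S := ∑ x ∈ Finset.range m, h x with hS
    have step1 : ∀ i : Fin (k + 1) → Fin m,
        P {ω | ∀ l, ω ∈ E (i l : ℕ)} ≤
          ∑ p : Fin (k + 1), if (∀ l, i l ≤ i p) then
            P {ω | ∀ l, ω ∈ E (i l : ℕ)} else 0 := by
      intro i
      obtain ⟨p, -, hp⟩ := Finset.exists_max_image (Finset.univ : Finset (Fin (k + 1))) i
        ⟨0, Finset.mem_univ _⟩
      have hp' : ∀ l, i l ≤ i p := fun l => hp l (Finset.mem_univ l)
      calc _ = (if (∀ l, i l ≤ i p) then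
            P {ω | ∀ l, ω ∈ E (i l : ℕ)} else 0) := by rw [if_pos hp']
        _ ≤ _ := Finset.single_le_sum (f := fun p => if (∀ l, i l ≤ i p) then
            P {ω | ∀ l, ω ∈ E (i l : ℕ)} else 0)
            (fun _ _ => bot_le) (Finset.mem_univ p)
    have step2 : ∀ p : Fin (k + 1),
        ∑ i : Fin (k + 1) → Fin m, (if (∀ l, i l ≤ i p) then
            P {ω | ∀ l, ω ∈ E (i l : ℕ)} else 0) ≤
          ∑ i : Fin k → Fin m, P {ω | ∀ l, ω ∈ E (i l : ℕ)} * S := by
      intro p
      rw [← (Fin.insertNthEquiv (fun _ => Fin m) p).sum_comp]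
      rw [Fintype.sum_prod_type_right]
      refine Finset.sum_le_sum fun i _ => ?_
      have hterm : ∀ x : Fin m,
          (if (∀ l, (Fin.insertNthEquiv (fun _ => Fin m) p) (x, i) l ≤
              (Fin.insertNthEquiv (fun _ => Fin m) p) (x, i) p) then
            P {ω | ∀ l, ω ∈ E ((Fin.insertNthEquiv (fun _ => Fin m) p) (x, i) l : ℕ)} else 0) ≤
          P {ω | ∀ l, ω ∈ E (i l : ℕ)} *
            (if Finset.univ.sup (fun l => (i l : ℕ)) ≤ x then
              h (x - Finset.univ.sup (fun l => (i l : ℕ))) else 0) := by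
        intro x
        split_ifs with h1 h2 h2
        · have hfun : (fun l => ((Fin.insertNthEquiv (fun _ => Fin m) p) (x, i) l : ℕ)) =
              p.insertNth (α := fun _ => ℕ) (x : ℕ) (fun l => (i l : ℕ)) := by
            funext l
            refine Fin.succAboveCases p ?_ ?_ l
            · simp [Fin.insertNthEquiv]
            · intro l'
              simp [Fin.insertNthEquiv]
          have hset : {ω | ∀ l, ω ∈ E ((Fin.insertNthEquiv (fun _ => Fin m) p) (x, i) l : ℕ)} =
              {ω | ∀ l, ω ∈ E (p.insertNth (α := fun _ => ℕ) (x : ℕ) (fun l => (i l : ℕ)) l)} := by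
            rw [← hfun]
          rw [hset]
          have hle : ∀ l, (i l : ℕ) ≤ x := by
            intro l
            have := h1 (p.succAbove l)
            simpa [Fin.insertNthEquiv] using this
          exact hE.insertNth_le (fun l => (i l : ℕ)) p (x : ℕ) x.2 hle
        · exfalso
          apply h2
          refine Finset.sup_le fun l _ => ?_
          have := h1 (p.succAbove l)
          simpa [Fin.insertNthEquiv] using this
        · exact bot_le
        · exact bot_le
      calc _ ≤ ∑ x : Fin m, P {ω | ∀ l, ω ∈ E (i l : ℕ)} *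
            (if Finset.univ.sup (fun l => (i l : ℕ)) ≤ x then
              h (x - Finset.univ.sup (fun l => (i l : ℕ))) else 0) :=
            Finset.sum_le_sum fun x _ => hterm x
        _ = P {ω | ∀ l, ω ∈ E (i l : ℕ)} *
            ∑ x : Fin m, (if Finset.univ.sup (fun l => (i l : ℕ)) ≤ x then
              h (x - Finset.univ.sup (fun l => (i l : ℕ))) else 0) := by
            rw [Finset.mul_sum]
        _ ≤ _ := by
            gcongr
            set a := Finset.univ.sup (fun l => (i l : ℕ))
            exact sum_shift_le h a m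
    calc _ ≤ ∑ i : Fin (k + 1) → Fin m, ∑ p : Fin (k + 1), (if (∀ l, i l ≤ i p) then
            P {ω | ∀ l, ω ∈ E (i l : ℕ)} else 0) :=
          Finset.sum_le_sum fun i _ => step1 i
      _ = ∑ p : Fin (k + 1), ∑ i : Fin (k + 1) → Fin m, (if (∀ l, i l ≤ i p) then
            P {ω | ∀ l, ω ∈ E (i l : ℕ)} else 0) := Finset.sum_comm
      _ ≤ ∑ _p : Fin (k + 1),
          ∑ i : Fin k → Fin m, P {ω | ∀ l, ω ∈ E (i l : ℕ)} * S :=
          Finset.sum_le_sum fun p _ => step2 p
      _ = (k + 1 : ℕ) * ((∑ i : Fin k → Fin m, P {ω | ∀ l, ω ∈ E (i l : ℕ)}) * S) := by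
          rw [Finset.sum_const, Finset.card_univ, Fintype.card_fin, nsmul_eq_mul, Finset.sum_mul]
      _ ≤ (k + 1 : ℕ) * (((k.factorial : ℝ≥0∞) * S ^ k) * S) := by gcongr
      _ = _ := by
          rw [Nat.factorial_succ]
          push_cast
          ring

open Classical in
/-- the number of events that occur among the first `m` -/
noncomputable def hitCount (E : ℕ → Set Ω) (m : ℕ) (ω : Ω) : ℝ≥0∞ :=
  ∑ i : Fin m, if ω ∈ E i then 1 else 0

lemma measurable_hitCount {E : ℕ → Set Ω} (hE : ∀ i, MeasurableSet (E i)) (m : ℕ) :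
    Measurable (hitCount E m) := by
  unfold hitCount
  refine Finset.measurable_sum _ fun i _ => ?_
  exact Measurable.ite (hE i) measurable_const measurable_const

theorem HitBound.lintegral_pow_le {E : ℕ → Set Ω} {m : ℕ} {h : ℕ → ℝ≥0∞}
    (hE : HitBound P E m h) (k : ℕ) :
    ∫⁻ ω, hitCount E m ω ^ k ∂P ≤ (k.factorial : ℝ≥0∞) * (∑ x ∈ Finset.range m, h x) ^ k := by
  classical
  have hexp : ∀ ω, hitCount E m ω ^ k =
      ∑ i : Fin k → Fin m,
        ({ω | ∀ l, ω ∈ E (i l : ℕ)}).indicator (fun _ => (1 : ℝ≥0∞)) ω := by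
    intro ω
    unfold hitCount
    rw [Fintype.sum_pow]
    refine Finset.sum_congr rfl fun q _ => ?_
    rw [Finset.prod_ite_zero]
    simp [Set.indicator_apply]
  have hmeas : ∀ i : Fin k → Fin m, MeasurableSet {ω | ∀ l, ω ∈ E (i l : ℕ)} := by
    intro i
    rw [Set.setOf_forall]
    exact MeasurableSet.iInter fun l => hE.meas _
  calc ∫⁻ ω, hitCount E m ω ^ k ∂P = ∑ i : Fin k → Fin m, P {ω | ∀ l, ω ∈ E (i l : ℕ)} := by
        simp_rw [hexp]
        rw [lintegral_finset_sum _ fun q _ => measurable_const.indicator (hmeas q)]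
        refine Finset.sum_congr rfl fun q _ => ?_
        rw [lintegral_indicator_const (hmeas q), one_mul]
    _ ≤ _ := hE.sum_le k

section
variable {ι : Type*} [DecidableEq ι] {X : ι × ℝ≥0 × ℝ≥0 → Ω → ℝ}

/-- The sheet stopped at time `e` is independent of the increments after time `e`. -/
lemma IsSheet.indep_past (h : IsSheet X P) (e : ℝ≥0) :
    IndepFun (fun ω (q : ι × ℝ≥0 × ℝ≥0) => X (q.1, q.2.1, min q.2.2 e) ω) (pW X e) P := by
  classical
  refine IsGaussianProcess.indepFun_of_covariance_eq_zero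
    (X := fun (q : ι × ℝ≥0 × ℝ≥0) ω => X (q.1, q.2.1, min q.2.2 e) ω)
    (Y := fun (q : ι × ℝ≥0 × ℝ≥0) ω => pW X e ω q) ?_
    (fun i => (h.meas _).aemeasurable)
    (fun j => ((h.meas _).sub (h.meas _)).aemeasurable) ?_
  · refine h.gauss.of_isGaussianProcess ?_
    rintro (i | j)
    · exact ⟨{(i.1, i.2.1, min i.2.2 e)},
        { toFun x := x ⟨(i.1, i.2.1, min i.2.2 e), by simp⟩
          map_add' x y := by simp
          map_smul' c x := by simp }, by simp⟩
    · exact ⟨{(j.1, j.2.1, max j.2.2 e), (j.1, j.2.1, e)},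
        { toFun x := x ⟨(j.1, j.2.1, max j.2.2 e), by simp⟩ - x ⟨(j.1, j.2.1, e), by simp⟩
          map_add' x y := by simp; abel
          map_smul' c x := by simp; ring }, by simp [pW]⟩
  · intro p q
    have h1 : cov[fun ω => X (p.1, p.2.1, min p.2.2 e) ω, fun ω => pW X e ω q; P] =
        sheetK (p.1, p.2.1, min p.2.2 e) (q.1, q.2.1, max q.2.2 e) -
          sheetK (p.1, p.2.1, min p.2.2 e) (q.1, q.2.1, e) := by
      have h2 : cov[X (p.1, p.2.1, min p.2.2 e), fun ω => X (q.1, q.2.1, max q.2.2 e) ω -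
          X (q.1, q.2.1, e) ω; P] = cov[X (p.1, p.2.1, min p.2.2 e), X (q.1, q.2.1, max q.2.2 e); P]
            - cov[X (p.1, p.2.1, min p.2.2 e), X (q.1, q.2.1, e); P] :=
        covariance_fun_sub_right (h.memLp _) (h.memLp _) (h.memLp _)
      rw [h.cov, h.cov] at h2
      exact h2
    rw [h1]
    unfold sheetK
    by_cases hc : p.1 = q.1
    · simp only [hc, if_true]
      have h1 : min (min p.2.2 e) (max q.2.2 e) = min p.2.2 e :=
        min_eq_left ((min_le_right _ _).trans (le_max_right _ _))
      have h2 : min (min p.2.2 e) e = min p.2.2 e := min_eq_left (min_le_right _ _)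
      rw [h1, h2]
      ring
    · simp [hc]

/-- The swapped sheet. -/
def swapX (X : ι × ℝ≥0 × ℝ≥0 → Ω → ℝ) (q : ι × ℝ≥0 × ℝ≥0) : Ω → ℝ := X (q.1, q.2.2, q.2.1)

lemma IsSheet.swap (h : IsSheet X P) : IsSheet (swapX X) P := by
  refine ⟨fun q => h.meas _, fun n q a => ?_⟩
  have h1 := h.char n (fun i => ((q i).1, (q i).2.2, (q i).2.1)) a
  refine h1.trans ?_
  congr 3
  refine Finset.sum_congr rfl fun i _ => Finset.sum_congr rfl fun j _ => ?_
  congr 1
  unfold sheetK
  simp only
  split_ifs
  · ring
  · rfl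

variable [Fintype ι]

/-- near zero events along the graph `s = σ i`, `t = i * stp n` -/
def lineE (X : ι × ℝ≥0 × ℝ≥0 → Ω → ℝ) (K n : ℕ) (σ : ℕ → ℝ≥0) (i : ℕ) : Set Ω :=
  {ω | 1 ≤ (K : ℝ≥0) * σ i ∧ ‖fun c => X (c, σ i, i * stp n) ω‖ ≤ rad K n}

lemma meas_lineE (h : IsSheet X P) (K n : ℕ) (σ : ℕ → ℝ≥0) (i : ℕ) :
    MeasurableSet (lineE X K n σ i) := by
  unfold lineE
  by_cases hc : 1 ≤ (K : ℝ≥0) * σ i
  · simp only [hc, true_and]
    exact measurableSet_le (measurable_pi_lambda _ fun c => h.meas _).norm measurable_const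
  · simp only [hc, false_and]
    exact MeasurableSet.empty

lemma lineE_hitBound (h : IsSheet X P) (hd : 2 ≤ Fintype.card ι) {K n : ℕ} (hK : 1 ≤ K)
    (σ : ℕ → ℝ≥0) (m : ℕ) :
    HitBound P (lineE X K n σ) m (gapH (1 / K) (stp n) (rad K n)) where
  meas := meas_lineE h K n σ
  h0 := by simp [gapH]
  step := by
    intro k i a x hi hax hxm
    have hK' : (0 : ℝ≥0) < K := by exact_mod_cast hK
    by_cases hc : 1 ≤ (K : ℝ≥0) * σ x
    swap
    · have : {ω | (∀ l, ω ∈ lineE X K n σ (i l)) ∧ ω ∈ lineE X K n σ x} = ∅ := by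
        ext ω
        simp only [Set.mem_setOf_eq, Set.mem_empty_iff_false, iff_false, not_and]
        intro _ hω
        exact hc hω.1
      rw [this, measure_empty]
      exact bot_le
    set e : ℝ≥0 := a * stp n with he
    have hst := stp_pos n
    have hex : e < x * stp n := by
      rw [he]
      have : (a : ℝ≥0) < x := by exact_mod_cast hax
      exact mul_lt_mul_of_pos_right this hst
    have hσ : 1 / (K : ℝ≥0) ≤ σ x := by
      rw [div_le_iff₀ hK', mul_comm]
      exact hc
    have hσ0 : 0 < σ x := lt_of_lt_of_le (by positivity) hσ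
    set U : Ω → (ι × ℝ≥0 × ℝ≥0 → ℝ) := fun ω q => X (q.1, q.2.1, min q.2.2 e) ω with hU
    have hUm : Measurable U := measurable_pi_lambda _ fun q => h.meas _
    have hind := h.indep_past e
    set A : Set (ι × ℝ≥0 × ℝ≥0 → ℝ) := {u | ∀ l, 1 ≤ (K : ℝ≥0) * σ (i l) ∧
      ‖fun c => u (c, σ (i l), (i l : ℝ≥0) * stp n)‖ ≤ rad K n} with hA
    have hAm : MeasurableSet A := by
      rw [hA, Set.setOf_forall]
      refine MeasurableSet.iInter fun l => ?_
      by_cases hc' : 1 ≤ (K : ℝ≥0) * σ (i l)
      · simp only [hc', true_and]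
        exact measurableSet_le (measurable_pi_lambda _ fun c => measurable_pi_apply _).norm
          measurable_const
      · simp only [hc', false_and]
        exact MeasurableSet.empty
    set B : Set ((ι × ℝ≥0 × ℝ≥0 → ℝ) × (ι × ℝ≥0 × ℝ≥0 → ℝ)) :=
      {w | ‖fun c => w.1 (c, σ x, e) + w.2 (c, σ x, (x : ℝ≥0) * stp n)‖ ≤ rad K n} with hB
    have hBm : MeasurableSet B := by
      refine measurableSet_le ?_ measurable_const
      refine Measurable.norm (measurable_pi_lambda _ fun c => ?_)
      exact ((measurable_pi_apply _).comp measurable_fst).add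
        ((measurable_pi_apply _).comp measurable_snd)
    have key := measure_inter_le_of_indep (P := P) hUm (h.meas_pW e) hind hAm hBm
      (c := gapH (1 / K) (stp n) (rad K n) (x - a)) (by
        intro u
        have h1 := h.small_ball (σ x) e (x * stp n) hσ0 hex (rad_nonneg K n)
          (fun c => - u (c, σ x, e))
        have hset : {ω | (u, pW X e ω) ∈ B} = {ω | ‖(fun c => X (c, σ x, x * stp n) ω -
            X (c, σ x, e) ω) - (fun c => - u (c, σ x, e))‖ ≤ rad K n} := by
          ext ω
          simp only [hB, Set.mem_setOf_eq]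
          have : (fun c => u (c, σ x, e) + pW X e ω (c, σ x, (x : ℝ≥0) * stp n)) =
              (fun c => X (c, σ x, x * stp n) ω - X (c, σ x, e) ω) - (fun c => - u (c, σ x, e)) := by
            funext c
            simp only [pW, max_eq_left hex.le, Pi.sub_apply]
            ring
          rw [this]
        rw [hset]
        set v : ℝ≥0 := σ x * (x * stp n - e) with hv
        have hv0 : (0 : ℝ) < v := by
          have : 0 < v := mul_pos hσ0 (tsub_pos_of_lt hex)
          exact_mod_cast this
        have hgap : x - a ≠ 0 := by omega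
        unfold gapH
        rw [if_neg hgap]
        have hvge : (1 / (K : ℝ)) * (((x - a : ℕ) : ℝ) * stp n) ≤ v := by
          have e1 : (x : ℝ≥0) * stp n - e = ((x - a : ℕ) : ℝ≥0) * stp n := by
            rw [he, ← tsub_mul, Nat.cast_tsub]
          rw [hv, e1, NNReal.coe_mul, NNReal.coe_mul, NNReal.coe_natCast]
          have h2 : (1 : ℝ) / K ≤ σ x := by exact_mod_cast hσ
          gcongr
        have hr := rad_nonneg K n
        by_cases hcase : rad K n / √v ≤ 1
        · calc _ ≤ ENNReal.ofReal (rad K n / √v) ^ Fintype.card ι := h1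
            _ = ENNReal.ofReal ((rad K n / √v) ^ Fintype.card ι) :=
                (ENNReal.ofReal_pow (by positivity) _).symm
            _ ≤ ENNReal.ofReal ((rad K n / √v) ^ 2) := by
                apply ENNReal.ofReal_le_ofReal
                exact pow_le_pow_of_le_one (by positivity) hcase hd
            _ ≤ _ := by
                apply ENNReal.ofReal_le_ofReal
                rw [div_pow, Real.sq_sqrt hv0.le]
                have hw : 0 < (1 / (K : ℝ)) * (((x - a : ℕ) : ℝ) * stp n) := by
                  have h3 : (0 : ℝ) < ((x - a : ℕ) : ℝ) := by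
                    exact_mod_cast Nat.pos_of_ne_zero hgap
                  have h4 : (0 : ℝ) < stp n := hst
                  have h5 : (0 : ℝ) < K := hK'
                  positivity
                push_cast at hvge hw ⊢
                gcongr
        · refine (prob_le_one).trans ?_
          rw [not_le, one_lt_div (Real.sqrt_pos.2 hv0)] at hcase
          have h6 : (v : ℝ) ≤ rad K n ^ 2 := by
            have := Real.sq_sqrt hv0.le
            have h7 := Real.sqrt_nonneg (v : ℝ)
            nlinarith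
          rw [← ENNReal.ofReal_one]
          apply ENNReal.ofReal_le_ofReal
          have hw : 0 < (1 / (K : ℝ)) * (((x - a : ℕ) : ℝ) * stp n) := by
            have h3 : (0 : ℝ) < ((x - a : ℕ) : ℝ) := by
              exact_mod_cast Nat.pos_of_ne_zero hgap
            have h4 : (0 : ℝ) < stp n := hst
            have h5 : (0 : ℝ) < K := hK'
            positivity
          push_cast at hvge hw ⊢
          rw [one_le_div hw]
          linarith)
    have hmin : ∀ l, min ((i l : ℝ≥0) * stp n) e = (i l : ℝ≥0) * stp n := by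
      intro l
      apply min_eq_left
      rw [he]
      have : (i l : ℝ≥0) ≤ a := by exact_mod_cast hi l
      gcongr
    have hUA : ∀ ω, U ω ∈ A ↔ ∀ l, ω ∈ lineE X K n σ (i l) := by
      intro ω
      simp only [hU, hA, lineE, Set.mem_setOf_eq, hmin]
    calc P {ω | (∀ l, ω ∈ lineE X K n σ (i l)) ∧ ω ∈ lineE X K n σ x}
        ≤ P {ω | U ω ∈ A ∧ (U ω, pW X e ω) ∈ B} := by
          refine measure_mono fun ω hω => ?_
          refine ⟨(hUA ω).2 hω.1, ?_⟩
          have h8 := hω.2.2
          simp only [hU, hB, Set.mem_setOf_eq, min_self]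
          have : (fun c => X (c, σ x, e) ω + pW X e ω (c, σ x, (x : ℝ≥0) * stp n)) =
              fun c => X (c, σ x, x * stp n) ω := by
            funext c
            simp only [pW, max_eq_left hex.le]
            ring
          rw [this]
          exact h8
      _ ≤ _ := key
      _ = _ := by
          congr 2
          ext ω
          exact hUA ω

end

end Pool.Agent.Helper41
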