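import Mathlib
import Pool.Agent.Helper41.Count

open MeasureTheory ProbabilityTheory Filter Topology
open scoped ENNReal NNReal

namespace Pool.Agent.Helper41

lemma fl_le (n : ℕ) (s : ℝ≥0) : fl n s ≤ s := by
  unfold fl
  rw [div_le_iff₀ (by positivity)]
  exact Nat.floor_le zero_le

lemma le_fl_add (n : ℕ) (s : ℝ≥0) : s ≤ fl n s + stp n := by
  unfold fl stp
  rw [← add_div, le_div_iff₀ (by positivity)]
  exact (Nat.lt_floor_add_one _).le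

lemma edist_le_of_fl_eq {n : ℕ} {x y : ℝ≥0} (h : fl n x = fl n y) :
    edist x y ≤ ENNReal.ofReal (1 / 2 ^ n) := by
  have h1 : (fl n x : ℝ) ≤ x := fl_le n x
  have h2 : (x : ℝ) ≤ fl n x + stp n := by exact_mod_cast le_fl_add n x
  have h3 : (fl n y : ℝ) ≤ y := fl_le n y
  have h4 : (y : ℝ) ≤ fl n y + stp n := by exact_mod_cast le_fl_add n y
  rw [stp_coe] at h2 h4
  rw [h] at h1 h2
  rw [edist_dist, NNReal.dist_eq]
  apply ENNReal.ofReal_le_ofReal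
  rw [abs_le]
  constructor <;> linarith

variable {Ω : Type*} [MeasurableSpace Ω] {P : Measure Ω} [IsProbabilityMeasure P]
variable {X : Fin 4 × ℝ≥0 × ℝ≥0 → Ω → ℝ}

/-- coincidence pairs separated by `b`, bounded by `K` -/
def coin (X : Fin 4 × ℝ≥0 × ℝ≥0 → Ω → ℝ) (ω : Ω) (s : ℝ≥0) (K : ℕ) (b : ℝ≥0) :
    Set (ℝ≥0 × ℝ≥0) :=
  {t | t.1 < b ∧ b ≤ t.2 ∧ t.2 ≤ K ∧ ∀ c, X (c, s, t.1) ω = X (c, s, t.2) ω}

theorem hausdorff_coin_eq_zero {ω : Ω} {K : ℕ} (hK : 1 ≤ K) {β n₀ : ℕ}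
    (hb : (β : ℝ≥0) / 2 ^ n₀ ≤ K) {L : ℕ} (hL : 1 ≤ L)
    (hcont : ∀ c, Continuous (fun p : ℝ≥0 × ℝ≥0 => X (c, p.1, p.2) ω))
    (hE : ∀ c, ∀ᶠ n : ℕ in atTop, EdgeBound (fun s t => X (c, s, t) ω) K n (edgeE K n))
    (hN : ∀ᶠ n : ℕ in atTop, ∀ σ : ℕ, σ ≤ K * 2 ^ n → 2 ^ n ≤ K * σ →
      NN X K ((β : ℝ≥0) / 2 ^ n₀) n (σ / 2 ^ n) ω < ENNReal.ofReal ((2 : ℝ) ^ ((n : ℝ) / L)))
    {s : ℝ≥0} (hsK : s ≤ K) (hs : 2 ≤ K * s) :
    μH[(3 / L : ℝ≥0)] (coin X ω s K ((β : ℝ≥0) / 2 ^ n₀)) = 0 := by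
  classical
  set b : ℝ≥0 := (β : ℝ≥0) / 2 ^ n₀ with hbdef
  have hL' : (0 : ℝ) < L := by exact_mod_cast hL
  -- index types
  let ι : ℕ → Type := fun n => Fin (⌊b * 2 ^ n⌋₊ + 1) × Fin (K * 2 ^ n + 1)
  let close : ∀ n, ι n → Prop := fun n q =>
    ‖walkU X (fl n s) b (stp n) q.1 ω - walkV X (fl n s) b (stp n) q.2 ω‖ ≤ rad K n
  let t : ∀ n, ι n → Set (ℝ≥0 × ℝ≥0) := fun n q =>
    {p | close n q ∧ fl n p.1 = b - (q.1 : ℕ) * stp n ∧ fl n p.2 = b + (q.2 : ℕ) * stp n}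
  have hdiam : ∀ n, ∀ q : ι n, Metric.ediam (t n q) ≤ ENNReal.ofReal (1 / 2 ^ n) := by
    intro n q
    apply Metric.ediam_le
    rintro p ⟨_, hp1, hp2⟩ p' ⟨_, hp1', hp2'⟩
    rw [Prod.edist_eq]
    exact max_le (edist_le_of_fl_eq (hp1.trans hp1'.symm)) (edist_le_of_fl_eq (hp2.trans hp2'.symm))
  have hcover : ∀ᶠ n in atTop, coin X ω s K b ⊆ ⋃ q, t n q := by
    have hE' : ∀ᶠ n : ℕ in atTop, ∀ m, n ≤ m → ∀ c,
        EdgeBound (fun s t => X (c, s, t) ω) K m (edgeE K m) := by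
      have := eventually_all.2 hE
      obtain ⟨N, hN'⟩ := eventually_atTop.1 this
      filter_upwards [eventually_ge_atTop N] with n hn m hm c
      exact hN' m (hn.trans hm) c
    filter_upwards [hE', eventually_ge_atTop n₀] with n hn hnn₀
    rintro ⟨t1, t2⟩ ⟨ht1, ht2, ht2K, hcoin⟩
    simp only at ht1 ht2 ht2K hcoin
    have ht1K : t1 ≤ K := (ht1.le.trans ht2).trans ht2K
    have hb2 : b * 2 ^ n = ((β * 2 ^ (n - n₀) : ℕ) : ℝ≥0) := by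
      rw [hbdef]
      push_cast
      rw [div_mul_eq_mul_div, div_eq_iff (by positivity), mul_assoc, ← pow_add,
        Nat.sub_add_cancel hnn₀]
    have hbfl : ⌊b * 2 ^ n⌋₊ = β * 2 ^ (n - n₀) := by rw [hb2, Nat.floor_natCast]
    have hbeq : b = ((β * 2 ^ (n - n₀) : ℕ) : ℝ≥0) * stp n := by
      rw [← hb2]
      unfold stp
      field_simp
    set B : ℕ := β * 2 ^ (n - n₀) with hB
    -- indices
    have hj : ⌊t1 * 2 ^ n⌋₊ ≤ B := by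
      rw [← hbfl]
      apply Nat.floor_le_floor
      gcongr
    have hi : B ≤ ⌊t2 * 2 ^ n⌋₊ := by
      rw [← hbfl]
      apply Nat.floor_le_floor
      gcongr
    have hi2 : ⌊t2 * 2 ^ n⌋₊ ≤ K * 2 ^ n := by
      apply Nat.floor_le_of_le
      push_cast
      gcongr
    have hfl1 : fl n t1 = b - ((B - ⌊t1 * 2 ^ n⌋₊ : ℕ) : ℝ≥0) * stp n := by
      have e : ((B - ⌊t1 * 2 ^ n⌋₊ : ℕ) : ℝ≥0) * stp n + fl n t1 = b := by
        rw [hbeq]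
        unfold fl stp
        rw [mul_one_div, mul_one_div, ← add_div]
        congr 1
        rw [← Nat.cast_add, Nat.sub_add_cancel hj]
      rw [← e, add_tsub_cancel_left]
    have hfl2 : fl n t2 = b + ((⌊t2 * 2 ^ n⌋₊ - B : ℕ) : ℝ≥0) * stp n := by
      rw [hbeq]
      unfold fl stp
      rw [mul_one_div, mul_one_div, ← add_div]
      congr 1
      rw [← Nat.cast_add, Nat.add_sub_cancel' hi]
    refine Set.mem_iUnion.2 ⟨(⟨B - ⌊t1 * 2 ^ n⌋₊, by rw [hbfl]; omega⟩,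
      ⟨⌊t2 * 2 ^ n⌋₊ - B, by omega⟩), ?_, hfl1, hfl2⟩
    -- closeness
    show ‖walkU X (fl n s) b (stp n) (B - ⌊t1 * 2 ^ n⌋₊) ω -
      walkV X (fl n s) b (stp n) (⌊t2 * 2 ^ n⌋₊ - B) ω‖ ≤ rad K n
    rw [pi_norm_le_iff_of_nonneg (rad_nonneg K n)]
    intro c
    have e1 : (walkU X (fl n s) b (stp n) (B - ⌊t1 * 2 ^ n⌋₊) ω -
      walkV X (fl n s) b (stp n) (⌊t2 * 2 ^ n⌋₊ - B) ω) c =
        X (c, fl n s, fl n t1) ω - X (c, fl n s, fl n t2) ω := by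
      simp only [Pi.sub_apply, walkU, walkV]
      rw [← hfl1, ← hfl2]
      ring
    rw [e1, Real.norm_eq_abs]
    have hch : ∀ t' : ℝ≥0, t' ≤ K →
        |X (c, s, t') ω - X (c, fl n s, fl n t') ω| ≤ 7 * √K * (n + 4) * qq ^ n := by
      intro t' ht'
      refine chain_bound (f := fun s t => X (c, s, t) ω) (Real.sqrt_nonneg _)
        (fun m hm => ?_) hsK ht' ?_
      · have := hn m hm c
        unfold edgeE at this
        exact this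
      · have h1 := (hcont c).tendsto (s, t')
        have h2 : Tendsto (fun m => (fl m s, fl m t')) atTop (𝓝 (s, t')) :=
          (tendsto_fl s).prodMk_nhds (tendsto_fl t')
        exact h1.comp h2
    have h1 := hch t1 ht1K
    have h2 := hch t2 ht2K
    have h3 := hcoin c
    rw [h3] at h1
    rw [abs_le] at h1 h2 ⊢
    unfold rad
    constructor <;> linarith
  have hmu : μH[(3 / L : ℝ≥0)] (coin X ω s K b) ≤
      liminf (fun n => ∑ i, Metric.ediam (t n i) ^ ((3 / L : ℝ≥0) : ℝ)) atTop := by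
    refine Measure.hausdorffMeasure_le_liminf_sum _ _ (fun n : ℕ => ENNReal.ofReal (1 / 2 ^ n))
      ?_ t (Eventually.of_forall hdiam) hcover
    have : Tendsto (fun n : ℕ => (1 / 2 : ℝ) ^ n) atTop (𝓝 0) :=
      tendsto_pow_atTop_nhds_zero_of_lt_one (by norm_num) (by norm_num)
    have h2 := ENNReal.tendsto_ofReal this
    simp only [ENNReal.ofReal_zero] at h2
    refine h2.congr fun n => ?_
    rw [div_pow, one_pow]
  have hsum : ∀ᶠ n in atTop, ∑ i, Metric.ediam (t n i) ^ ((3 / L : ℝ≥0) : ℝ) ≤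
      ENNReal.ofReal ((2 : ℝ) ^ (-(2 : ℝ) * n / L)) := by
    have hs2 : ∀ᶠ n : ℕ in atTop, (K : ℝ≥0) ≤ 2 ^ n := by
      filter_upwards [eventually_ge_atTop K] with n hn
      have : K ≤ 2 ^ n := hn.trans (Nat.lt_two_pow_self.le)
      exact_mod_cast this
    filter_upwards [hN, hs2] with n hn hKn
    have hσ1 : ⌊s * 2 ^ n⌋₊ ≤ K * 2 ^ n := by
      apply Nat.floor_le_of_le
      push_cast
      gcongr
    have hσ2 : 2 ^ n ≤ K * ⌊s * 2 ^ n⌋₊ := by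
      have h1 : s * 2 ^ n < ⌊s * 2 ^ n⌋₊ + 1 := Nat.lt_floor_add_one _
      have h2 : (2 : ℝ≥0) ^ n + 2 ^ n ≤ K * ⌊s * 2 ^ n⌋₊ + 2 ^ n := by
        calc (2 : ℝ≥0) ^ n + 2 ^ n = 2 * 2 ^ n := by ring
          _ ≤ (K * s) * 2 ^ n := by gcongr
          _ = K * (s * 2 ^ n) := by ring
          _ ≤ K * (⌊s * 2 ^ n⌋₊ + 1) := by gcongr
          _ = K * ⌊s * 2 ^ n⌋₊ + K := by ring
          _ ≤ _ := by gcongr
      have h3 : (2 : ℝ≥0) ^ n ≤ K * ⌊s * 2 ^ n⌋₊ := le_of_add_le_add_right h2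
      exact_mod_cast h3
    have hn' := hn _ hσ1 hσ2
    have hNN : NN X K b n (⌊s * 2 ^ n⌋₊ / 2 ^ n) ω = ∑ q : ι n, if close n q then 1 else 0 := rfl
    have hpos : (0 : ℝ) < ((3 / L : ℝ≥0) : ℝ) := by
      push_cast
      positivity
    calc ∑ i, Metric.ediam (t n i) ^ ((3 / L : ℝ≥0) : ℝ)
        ≤ ∑ i : ι n, (if close n i then 1 else 0) *
            (ENNReal.ofReal (1 / 2 ^ n)) ^ ((3 / L : ℝ≥0) : ℝ) := by
          refine Finset.sum_le_sum fun q _ => ?_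
          by_cases hq : close n q
          · rw [if_pos hq, one_mul]
            exact ENNReal.rpow_le_rpow (hdiam n q) hpos.le
          · have : t n q = ∅ := by
              ext p
              simp [t, hq]
            rw [this, Metric.ediam_empty, ENNReal.zero_rpow_of_pos hpos]
            exact bot_le
      _ = NN X K b n (⌊s * 2 ^ n⌋₊ / 2 ^ n) ω *
            (ENNReal.ofReal (1 / 2 ^ n)) ^ ((3 / L : ℝ≥0) : ℝ) := by
          rw [hNN, Finset.sum_mul]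
      _ ≤ ENNReal.ofReal ((2 : ℝ) ^ ((n : ℝ) / L)) *
            (ENNReal.ofReal (1 / 2 ^ n)) ^ ((3 / L : ℝ≥0) : ℝ) := by
          gcongr
      _ = ENNReal.ofReal ((2 : ℝ) ^ (-(2 : ℝ) * n / L)) := by
          rw [ENNReal.ofReal_rpow_of_nonneg (by positivity) hpos.le,
            ← ENNReal.ofReal_mul (by positivity)]
          congr 1
          have e1 : (1 / 2 ^ n : ℝ) = (2 : ℝ) ^ (-(n : ℝ)) := by
            rw [Real.rpow_neg (by norm_num), Real.rpow_natCast, one_div]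
          rw [e1, ← Real.rpow_mul (by norm_num), ← Real.rpow_add (by norm_num)]
          congr 1
          push_cast
          field_simp
          ring
  have hlim : Tendsto (fun n : ℕ => ENNReal.ofReal ((2 : ℝ) ^ (-(2 : ℝ) * n / L))) atTop (𝓝 0) := by
    have h1 : Tendsto (fun n : ℕ => ((2 : ℝ) ^ (-(2 : ℝ) / L)) ^ n) atTop (𝓝 0) := by
      apply tendsto_pow_atTop_nhds_zero_of_lt_one (by positivity)
      apply Real.rpow_lt_one_of_one_lt_of_neg (by norm_num)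
      rw [neg_div]
      have : 0 < (2 : ℝ) / L := by positivity
      linarith
    have h2 := ENNReal.tendsto_ofReal h1
    simp only [ENNReal.ofReal_zero] at h2
    refine h2.congr fun n => ?_
    congr 1
    rw [← Real.rpow_natCast, ← Real.rpow_mul (by norm_num)]
    congr 1
    ring
  have hfin : liminf (fun n => ∑ i, Metric.ediam (t n i) ^ ((3 / L : ℝ≥0) : ℝ)) atTop ≤ 0 := by
    have h1 : liminf (fun n => ∑ i, Metric.ediam (t n i) ^ ((3 / L : ℝ≥0) : ℝ)) atTop ≤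
        liminf (fun n : ℕ => ENNReal.ofReal ((2 : ℝ) ^ (-(2 : ℝ) * n / L))) atTop :=
      liminf_le_liminf hsum
    rw [hlim.liminf_eq] at h1
    exact h1
  exact le_antisymm (hmu.trans hfin) bot_le

theorem dimH_coin_eq_zero {ω : Ω} {K : ℕ} (hK : 1 ≤ K) {β n₀ : ℕ}
    (hb : (β : ℝ≥0) / 2 ^ n₀ ≤ K)
    (hcont : ∀ c, Continuous (fun p : ℝ≥0 × ℝ≥0 => X (c, p.1, p.2) ω))
    (hE : ∀ c, ∀ᶠ n : ℕ in atTop, EdgeBound (fun s t => X (c, s, t) ω) K n (edgeE K n))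
    (hN : ∀ L : ℕ, 1 ≤ L → ∀ᶠ n : ℕ in atTop, ∀ σ : ℕ, σ ≤ K * 2 ^ n → 2 ^ n ≤ K * σ →
      NN X K ((β : ℝ≥0) / 2 ^ n₀) n (σ / 2 ^ n) ω < ENNReal.ofReal ((2 : ℝ) ^ ((n : ℝ) / L)))
    {s : ℝ≥0} (hsK : s ≤ K) (hs : 2 ≤ K * s) :
    dimH (coin X ω s K ((β : ℝ≥0) / 2 ^ n₀)) = 0 := by
  refine le_antisymm ?_ bot_le
  have h0 : ∀ M : ℕ, 1 ≤ M → dimH (coin X ω s K ((β : ℝ≥0) / 2 ^ n₀)) ≤
      ((3 / (M : ℝ≥0) : ℝ≥0) : ℝ≥0∞) := by
    intro M hM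
    have hz := hausdorff_coin_eq_zero hK hb hM hcont hE (hN M hM) hsK hs
    have hz' : μH[((3 / (M : ℝ≥0) : ℝ≥0) : ℝ)] (coin X ω s K ((β : ℝ≥0) / 2 ^ n₀)) ≠ ∞ := by
      rw [hz]
      exact ENNReal.zero_ne_top
    exact dimH_le_of_hausdorffMeasure_ne_top hz'
  have h3 : Tendsto (fun L : ℕ => (3 : ℝ≥0) / (L : ℝ≥0)) atTop (𝓝 0) := by
    rw [← NNReal.tendsto_coe]
    have h4 : Tendsto (fun L : ℕ => (3 : ℝ) / (L : ℝ)) atTop (𝓝 0) :=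
      tendsto_const_div_atTop_nhds_zero_nat 3
    simpa using h4
  have h2 : Tendsto (fun L : ℕ => ((3 / (L : ℝ≥0) : ℝ≥0) : ℝ≥0∞)) atTop (𝓝 ((0 : ℝ≥0) : ℝ≥0∞)) :=
    ENNReal.tendsto_coe.2 h3
  exact ge_of_tendsto h2 ((eventually_ge_atTop 1).mono h0)

theorem IsSheet.ae_dimH_zero (h : IsSheet X P)
    (hcont : ∀ᵐ ω ∂P, ∀ c, Continuous (fun p : ℝ≥0 × ℝ≥0 => X (c, p.1, p.2) ω)) :
    ∀ᵐ ω ∂P, ∀ s : ℝ≥0, 0 < s →
      dimH {t : ℝ≥0 × ℝ≥0 | t.1 ≠ t.2 ∧ ∀ c, X (c, s, t.1) ω = X (c, s, t.2) ω} = 0 := by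
  have hE : ∀ᵐ ω ∂P, ∀ K : ℕ, 1 ≤ K → ∀ c, ∀ᶠ n : ℕ in atTop,
      EdgeBound (fun s t => X (c, s, t) ω) K n (edgeE K n) := by
    rw [ae_all_iff]
    intro K
    by_cases hK : 1 ≤ K
    · have : ∀ᵐ ω ∂P, ∀ c, ∀ᶠ n : ℕ in atTop,
          EdgeBound (fun s t => X (c, s, t) ω) K n (edgeE K n) := by
        rw [ae_all_iff]
        intro c
        exact h.ae_edgeBound c K hK
      filter_upwards [this] with ω hω _
      exact hω
    · exact Eventually.of_forall fun ω h' => absurd h' hK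
  have hN : ∀ᵐ ω ∂P, ∀ K β n₀ L : ℕ, 1 ≤ K → 1 ≤ L → (β : ℝ≥0) / 2 ^ n₀ ≤ K →
      ∀ᶠ n : ℕ in atTop, ∀ σ : ℕ, σ ≤ K * 2 ^ n → 2 ^ n ≤ K * σ →
        NN X K ((β : ℝ≥0) / 2 ^ n₀) n (σ / 2 ^ n) ω < ENNReal.ofReal ((2 : ℝ) ^ ((n : ℝ) / L)) := by
    rw [ae_all_iff]
    intro K
    rw [ae_all_iff]
    intro β
    rw [ae_all_iff]
    intro n₀
    rw [ae_all_iff]
    intro L
    by_cases hc : 1 ≤ K ∧ 1 ≤ L ∧ (β : ℝ≥0) / 2 ^ n₀ ≤ K
    · filter_upwards [ae_few_close h hc.1 hc.2.2 hc.2.1] with ω hω _ _ _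
      exact hω
    · exact Eventually.of_forall fun ω h1 h2 h3 => absurd ⟨h1, h2, h3⟩ hc
  filter_upwards [hE, hN, hcont] with ω hωE hωN hωc s hs
  -- cover by countably many pieces
  have hpiece : ∀ K β n₀ : ℕ, 1 ≤ K → (β : ℝ≥0) / 2 ^ n₀ ≤ K → s ≤ K → 2 ≤ K * s →
      dimH (coin X ω s K ((β : ℝ≥0) / 2 ^ n₀)) = 0 := fun K β n₀ h1 h2 h3 h4 =>
    dimH_coin_eq_zero h1 h2 hωc (hωE K h1) (fun L hL => hωN K β n₀ L h1 hL h2) h3 h4
  let T : ℕ × ℕ × ℕ → Set (ℝ≥0 × ℝ≥0) := fun i =>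
    if 1 ≤ i.1 ∧ (i.2.1 : ℝ≥0) / 2 ^ i.2.2 ≤ i.1 ∧ s ≤ i.1 ∧ 2 ≤ i.1 * s then
      coin X ω s i.1 ((i.2.1 : ℝ≥0) / 2 ^ i.2.2) else ∅
  have hT : ∀ i, dimH (T i) = 0 := by
    intro i
    simp only [T]
    split_ifs with hi
    · exact hpiece _ _ _ hi.1 hi.2.1 hi.2.2.1 hi.2.2.2
    · exact dimH_empty
  have hTu : dimH (⋃ i, T i) = 0 := by
    rw [dimH_iUnion]
    simp [hT]
  have hkey : ∀ x y : ℝ≥0, x < y → (∀ c, X (c, s, x) ω = X (c, s, y) ω) →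
      (x, y) ∈ ⋃ i, T i := by
    intro x y hxy hc
    -- choose K
    obtain ⟨K₁, hK₁⟩ := exists_nat_ge s
    obtain ⟨K₂, hK₂⟩ := exists_nat_ge (2 / s)
    obtain ⟨K₃, hK₃⟩ := exists_nat_ge y
    let K := max 1 (max K₁ (max K₂ K₃))
    have hKK1 : (K₁ : ℝ≥0) ≤ K := by
      have : K₁ ≤ K := by simp [K]
      exact_mod_cast this
    have hKK2 : (K₂ : ℝ≥0) ≤ K := by
      have : K₂ ≤ K := by simp [K]
      exact_mod_cast this
    have hKK3 : (K₃ : ℝ≥0) ≤ K := by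
      have : K₃ ≤ K := by simp [K]
      exact_mod_cast this
    have hK1 : 1 ≤ K := by simp [K]
    have hsK : s ≤ K := hK₁.trans hKK1
    have h2s : 2 ≤ K * s := by
      have : 2 / s ≤ K := hK₂.trans hKK2
      rwa [div_le_iff₀ hs] at this
    have hyK : y ≤ K := hK₃.trans hKK3
    -- choose dyadic b: the floor of y at a fine level
    have hlim := tendsto_fl y
    have hev : ∀ᶠ n in atTop, x < fl n y := hlim.eventually (lt_mem_nhds hxy)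
    obtain ⟨n, hn⟩ := hev.exists
    refine Set.mem_iUnion.2 ⟨(K, ⌊y * 2 ^ n⌋₊, n), ?_⟩
    have hcond : 1 ≤ K ∧ ((⌊y * 2 ^ n⌋₊ : ℕ) : ℝ≥0) / 2 ^ n ≤ K ∧ s ≤ K ∧ 2 ≤ K * s :=
      ⟨hK1, (fl_le n y).trans hyK, hsK, h2s⟩
    simp only [T]
    rw [if_pos hcond]
    exact ⟨hn, fl_le n y, hyK, hc⟩
  have hsub : {t : ℝ≥0 × ℝ≥0 | t.1 ≠ t.2 ∧ ∀ c, X (c, s, t.1) ω = X (c, s, t.2) ω} ⊆
      (⋃ i, T i) ∪ Prod.swap '' (⋃ i, T i) := by
    rintro ⟨x, y⟩ ⟨hne, hc⟩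
    simp only at hne hc
    rcases lt_or_gt_of_ne hne with hlt | hlt
    · exact Or.inl (hkey x y hlt hc)
    · exact Or.inr ⟨(y, x), hkey y x hlt (fun c => (hc c).symm), rfl⟩
  have hswap : dimH (Prod.swap '' (⋃ i, T i)) = 0 := by
    have hiso : Isometry (Prod.swap : ℝ≥0 × ℝ≥0 → ℝ≥0 × ℝ≥0) := by
      intro p q
      rw [Prod.edist_eq, Prod.edist_eq, max_comm]
      rfl
    rw [hiso.dimH_image, hTu]
  refine le_antisymm ((dimH_mono hsub).trans ?_) bot_le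
  rw [dimH_union, hTu, hswap]
  simp

end Pool.Agent.Helper41
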