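import Mathlib
import Pool.Agent.Helper41.Block

open MeasureTheory ProbabilityTheory Filter Topology
open scoped ENNReal NNReal

namespace Pool.Agent.Helper41

variable {Ω : Type*} [MeasurableSpace Ω] {P : Measure Ω} [IsProbabilityMeasure P]
variable {X : Fin 4 × ℝ≥0 × ℝ≥0 → Ω → ℝ}

/-- block increments of level `i`, indexed by coordinate, slice, block, and two parameters -/
noncomputable def YB (X : Fin 4 × ℝ≥0 × ℝ≥0 → Ω → ℝ) (i : ℕ) (q : Fin 4 × ℝ≥0 × ℕ × ℝ≥0 × ℝ≥0) :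
    Ω → ℝ :=
  incr X (q.1, q.2.1, tb i q.2.2.1 q.2.2.2.1, te i q.2.2.1 q.2.2.2.2)

lemma iIndep_YB (h : IsSheet X P) : iIndepFun (fun (i : ℕ) ω q => YB X i q ω) P := by
  refine IsGaussianProcess.iIndepFun_of_covariance_eq_zero
    (S := fun _ : ℕ => Fin 4 × ℝ≥0 × ℕ × ℝ≥0 × ℝ≥0)
    (X := fun (i : ℕ) q ω => YB X i q ω) ?_ (fun i q => (h.meas_incr _).aemeasurable) ?_
  · exact h.gauss_incr.comp_right
      (fun p : (_ : ℕ) × (Fin 4 × ℝ≥0 × ℕ × ℝ≥0 × ℝ≥0) =>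
        (p.2.1, p.2.2.1, tb p.1 p.2.2.2.1 p.2.2.2.2.1, te p.1 p.2.2.2.1 p.2.2.2.2.2))
  · intro i i' hii q q'
    have := h.cov_incr' (q.1, q.2.1, tb i q.2.2.1 q.2.2.2.1, te i q.2.2.1 q.2.2.2.2)
      (q'.1, q'.2.1, tb i' q'.2.2.1 q'.2.2.2.1, te i' q'.2.2.1 q'.2.2.2.2)
    rw [ov_blocks (fun hp => hii (Nat.pair_eq_pair.1 hp).1), mul_zero, ite_self] at this
    exact this

/-- block increments of block `(i,n)` -/
noncomputable def YN (X : Fin 4 × ℝ≥0 × ℝ≥0 → Ω → ℝ) (i n : ℕ) (q : Fin 4 × ℝ≥0 × ℝ≥0 × ℝ≥0) :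
    Ω → ℝ :=
  incr X (q.1, q.2.1, tb i n q.2.2.1, te i n q.2.2.2)

lemma indep_YN (h : IsSheet X P) (i : ℕ) : iIndepFun (fun (n : ℕ) ω q => YN X i n q ω) P := by
  refine IsGaussianProcess.iIndepFun_of_covariance_eq_zero
    (S := fun _ : ℕ => Fin 4 × ℝ≥0 × ℝ≥0 × ℝ≥0)
    (X := fun (n : ℕ) q ω => YN X i n q ω) ?_ (fun i q => (h.meas_incr _).aemeasurable) ?_
  · exact h.gauss_incr.comp_right
      (fun p : (_ : ℕ) × (Fin 4 × ℝ≥0 × ℝ≥0 × ℝ≥0) =>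
        (p.2.1, p.2.2.1, tb i p.1 p.2.2.2.1, te i p.1 p.2.2.2.2))
  · intro n n' hnn q q'
    have := h.cov_incr' (q.1, q.2.1, tb i n q.2.2.1, te i n q.2.2.2)
      (q'.1, q'.2.1, tb i n' q'.2.2.1, te i n' q'.2.2.2)
    rw [ov_blocks (fun hp => hnn (Nat.pair_eq_pair.1 hp).2), mul_zero, ite_self] at this
    exact this

/-- the event that the slice at `s` nearly has a double point in block `(i,n)` -/
def evt (X : Fin 4 × ℝ≥0 × ℝ≥0 → Ω → ℝ) (ε : ℝ) (i n : ℕ) (s u v : ℝ≥0) : Set Ω :=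
  {ω | ‖vinc X s (tb i n u) (te i n v) ω‖ ≤ ε}

lemma meas_evt (h : IsSheet X P) (ε : ℝ) (i n : ℕ) (s u v : ℝ≥0) :
    MeasurableSet (evt X ε i n s u v) :=
  measurableSet_le (h.meas_vinc _ _ _).norm measurable_const

/-- normalizing coefficients -/
noncomputable def cf (P : Measure Ω) (X : Fin 4 × ℝ≥0 × ℝ≥0 → Ω → ℝ) (ε : ℝ) (M i n : ℕ)
    (s : ℝ≥0) (a b : ℕ) : ℝ≥0∞ :=
  ((M : ℝ≥0∞) ^ 2)⁻¹ * (P (evt X ε i n s (a / M) (b / M)))⁻¹

/-- the functional on block paths -/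
noncomputable def Wφ (P : Measure Ω) (X : Fin 4 × ℝ≥0 × ℝ≥0 → Ω → ℝ) (ε : ℝ) (M i n : ℕ)
    (s : ℝ≥0) (y : Fin 4 × ℝ≥0 × ℝ≥0 × ℝ≥0 → ℝ) : ℝ≥0∞ :=
  ∑ a ∈ Finset.range M, ∑ b ∈ Finset.range M, cf P X ε M i n s a b *
    ({y : Fin 4 × ℝ≥0 × ℝ≥0 × ℝ≥0 → ℝ | ‖fun c => y (c, s, (a : ℝ≥0) / M, (b : ℝ≥0) / M)‖ ≤ ε}).indicator
      (fun _ => 1) y

/-- normalized number of near double points in block `(i,n)` -/
noncomputable def WW (P : Measure Ω) (X : Fin 4 × ℝ≥0 × ℝ≥0 → Ω → ℝ) (ε : ℝ) (M i n : ℕ)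
    (s : ℝ≥0) (ω : Ω) : ℝ≥0∞ :=
  Wφ P X ε M i n s (fun q => YN X i n q ω)

/-- functional on level paths -/
noncomputable def Aφ (P : Measure Ω) (X : Fin 4 × ℝ≥0 × ℝ≥0 → Ω → ℝ) (ε : ℝ) (M m i : ℕ)
    (s : ℝ≥0) (y : Fin 4 × ℝ≥0 × ℕ × ℝ≥0 × ℝ≥0 → ℝ) : ℝ≥0∞ :=
  (m : ℝ≥0∞)⁻¹ * ∑ n ∈ Finset.range m, Wφ P X ε M i n s (fun q => y (q.1, q.2.1, n, q.2.2))

/-- level average -/
noncomputable def AA (P : Measure Ω) (X : Fin 4 × ℝ≥0 × ℝ≥0 → Ω → ℝ) (ε : ℝ) (M m i : ℕ)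
    (s : ℝ≥0) (ω : Ω) : ℝ≥0∞ :=
  Aφ P X ε M m i s (fun q => YB X i q ω)

lemma AA_eq (ε : ℝ) (M m i : ℕ) (s : ℝ≥0) (ω : Ω) :
    AA P X ε M m i s ω = (m : ℝ≥0∞)⁻¹ * ∑ n ∈ Finset.range m, WW P X ε M i n s ω := rfl

lemma WW_eq (ε : ℝ) (M i n : ℕ) (s : ℝ≥0) (ω : Ω) :
    WW P X ε M i n s ω = ∑ a ∈ Finset.range M, ∑ b ∈ Finset.range M, cf P X ε M i n s a b *
      (evt X ε i n s (a / M) (b / M)).indicator (fun _ => 1) ω := rfl

lemma meas_Wφ (ε : ℝ) (M i n : ℕ) (s : ℝ≥0) : Measurable (Wφ P X ε M i n s) := by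
  unfold Wφ
  refine Finset.measurable_sum _ fun a _ => Finset.measurable_sum _ fun b _ => ?_
  refine Measurable.const_mul (Measurable.indicator measurable_const ?_) _
  refine measurableSet_le ?_ measurable_const
  have : Measurable (fun y : Fin 4 × ℝ≥0 × ℝ≥0 × ℝ≥0 → ℝ =>
      (fun c => y (c, s, (a : ℝ≥0) / M, (b : ℝ≥0) / M))) :=
    measurable_pi_lambda _ fun c => measurable_pi_apply _
  exact this.norm

lemma meas_Aφ (ε : ℝ) (M m i : ℕ) (s : ℝ≥0) : Measurable (Aφ P X ε M m i s) := by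
  unfold Aφ
  refine Measurable.const_mul (Finset.measurable_sum _ fun n _ => ?_) _
  refine (meas_Wφ ε M i n s).comp ?_
  exact measurable_pi_lambda _ fun q => measurable_pi_apply _

lemma meas_WW (h : IsSheet X P) (ε : ℝ) (M i n : ℕ) (s : ℝ≥0) : Measurable (WW P X ε M i n s) :=
  (meas_Wφ ε M i n s).comp (measurable_pi_lambda _ fun _ => h.meas_incr _)

lemma meas_AA (h : IsSheet X P) (ε : ℝ) (M m i : ℕ) (s : ℝ≥0) : Measurable (AA P X ε M m i s) :=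
  (meas_Aφ ε M m i s).comp (measurable_pi_lambda _ fun _ => h.meas_incr _)

lemma te_sub_tb {i n : ℕ} {u v : ℝ≥0} (hu : u ≤ 1) (hv : v ≤ 1) :
    ((te i n v - tb i n u : ℝ≥0) : ℝ) = 2 + v - u := by
  rw [NNReal.coe_sub (tb_lt_te _ _ _ _).le]
  unfold te tb
  rw [min_eq_left hu, min_eq_left hv]
  push_cast
  ring

lemma evt_ge (h : IsSheet X P) {ε : ℝ} (hε : 0 < ε) (hε1 : ε ≤ 1) (i n : ℕ) {s u v : ℝ≥0}
    (hs1 : 1 ≤ s) (hs2 : s ≤ 2) (hu : u ≤ 1) (hv : v ≤ 1) :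
    ENNReal.ofReal (ε / 7) ^ 4 ≤ P (evt X ε i n s u v) := by
  have e := te_sub_tb (i := i) (n := n) hu hv
  have hu' : (u : ℝ) ≤ 1 := by exact_mod_cast hu
  have hv' : (v : ℝ) ≤ 1 := by exact_mod_cast hv
  have hu0 : (0 : ℝ) ≤ u := u.2
  have hv0 : (0 : ℝ) ≤ v := v.2
  have hs1' : (1 : ℝ) ≤ s := by exact_mod_cast hs1
  have hs2' : (s : ℝ) ≤ 2 := by exact_mod_cast hs2
  have := h.ball_ge (tb_lt_te i n u v).le (s := s) (by
    rw [← NNReal.coe_le_coe, NNReal.coe_mul, e, NNReal.coe_one]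
    nlinarith) (by
    rw [← NNReal.coe_le_coe, NNReal.coe_mul, e]
    push_cast
    nlinarith) hε.le hε1
  rw [Fintype.card_fin] at this
  exact this

lemma evt_pos (h : IsSheet X P) {ε : ℝ} (hε : 0 < ε) (hε1 : ε ≤ 1) (i n : ℕ) {s u v : ℝ≥0}
    (hs1 : 1 ≤ s) (hs2 : s ≤ 2) (hu : u ≤ 1) (hv : v ≤ 1) :
    P (evt X ε i n s u v) ≠ 0 := by
  have h1 := evt_ge h hε hε1 i n hs1 hs2 hu hv
  have h2 : 0 < ENNReal.ofReal (ε / 7) ^ 4 := by
    apply ENNReal.pow_pos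
    rw [ENNReal.ofReal_pos]
    positivity
  exact (h2.trans_le h1).ne'

lemma div_le_one' {a M : ℕ} (ha : a < M) : (a : ℝ≥0) / M ≤ 1 := by
  have hM : (0 : ℝ≥0) < M := by
    have : 0 < M := by omega
    exact_mod_cast this
  rw [div_le_one hM]
  exact_mod_cast ha.le

lemma lintegral_WW (h : IsSheet X P) {ε : ℝ} (hε : 0 < ε) (hε1 : ε ≤ 1) {M : ℕ} (hM : 1 ≤ M)
    (i n : ℕ) {s : ℝ≥0} (hs1 : 1 ≤ s) (hs2 : s ≤ 2) :
    ∫⁻ ω, WW P X ε M i n s ω ∂P = 1 := by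
  simp_rw [WW_eq]
  have hmeas : ∀ a b : ℕ, Measurable (fun ω => cf P X ε M i n s a b *
      (evt X ε i n s (a / M) (b / M)).indicator (fun _ => (1 : ℝ≥0∞)) ω) := fun a b =>
    (measurable_const.indicator (meas_evt h _ _ _ _ _ _)).const_mul _
  rw [lintegral_finset_sum _ fun a _ => Finset.measurable_sum _ fun b _ => hmeas a b]
  have hterm : ∀ a ∈ Finset.range M, ∫⁻ ω, ∑ b ∈ Finset.range M, cf P X ε M i n s a b *
      (evt X ε i n s (a / M) (b / M)).indicator (fun _ => (1 : ℝ≥0∞)) ω ∂P =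
      M * ((M : ℝ≥0∞) ^ 2)⁻¹ := by
    intro a ha
    rw [lintegral_finset_sum _ fun b _ => hmeas a b]
    have : ∀ b ∈ Finset.range M, ∫⁻ ω, cf P X ε M i n s a b *
      (evt X ε i n s (a / M) (b / M)).indicator (fun _ => (1 : ℝ≥0∞)) ω ∂P =
        ((M : ℝ≥0∞) ^ 2)⁻¹ := by
      intro b hb
      rw [lintegral_const_mul _ (measurable_const.indicator (meas_evt h _ _ _ _ _ _)),
        lintegral_indicator_const (meas_evt h _ _ _ _ _ _), one_mul]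
      unfold cf
      rw [mul_assoc, ENNReal.inv_mul_cancel, mul_one]
      · exact evt_pos h hε hε1 i n hs1 hs2 (div_le_one' (Finset.mem_range.1 ha))
          (div_le_one' (Finset.mem_range.1 hb))
      · exact measure_ne_top _ _
    rw [Finset.sum_congr rfl this, Finset.sum_const, Finset.card_range, nsmul_eq_mul]
  rw [Finset.sum_congr rfl hterm, Finset.sum_const, Finset.card_range, nsmul_eq_mul, ← mul_assoc,
    ← sq]
  apply ENNReal.mul_inv_cancel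
  · have : (M : ℝ≥0∞) ≠ 0 := by
      have : M ≠ 0 := by omega
      exact_mod_cast this
    exact pow_ne_zero _ this
  · exact ENNReal.pow_ne_top (ENNReal.natCast_ne_top M)

lemma cf_le (h : IsSheet X P) {ε : ℝ} (hε : 0 < ε) (hε1 : ε ≤ 1) {M : ℕ}
    (i n : ℕ) {s : ℝ≥0} (hs1 : 1 ≤ s) (hs2 : s ≤ 2) {a b : ℕ} (ha : a < M) (hb : b < M) :
    cf P X ε M i n s a b ≤ ENNReal.ofReal ((7 / ε) ^ 4 / M ^ 2) := by
  have hM : (0 : ℝ) < M := by
    have : 0 < M := by omega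
    exact_mod_cast this
  unfold cf
  have h1 := evt_ge h hε hε1 i n hs1 hs2 (div_le_one' ha) (div_le_one' hb)
  have h2 : (P (evt X ε i n s (a / M) (b / M)))⁻¹ ≤ ENNReal.ofReal ((7 / ε) ^ 4) := by
    refine (ENNReal.inv_le_inv.2 h1).trans (le_of_eq ?_)
    rw [← ENNReal.ofReal_pow (by positivity), ← ENNReal.ofReal_inv_of_pos (by positivity)]
    congr 1
    rw [← inv_pow, inv_div]
  calc ((M : ℝ≥0∞) ^ 2)⁻¹ * (P (evt X ε i n s (a / M) (b / M)))⁻¹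
      ≤ ((M : ℝ≥0∞) ^ 2)⁻¹ * ENNReal.ofReal ((7 / ε) ^ 4) := by gcongr
    _ = ENNReal.ofReal ((7 / ε) ^ 4 / M ^ 2) := by
        have e : ((M : ℝ≥0∞) ^ 2)⁻¹ = ENNReal.ofReal (((M : ℝ) ^ 2)⁻¹) := by
          rw [ENNReal.ofReal_inv_of_pos (by positivity), ENNReal.ofReal_pow hM.le,
            ENNReal.ofReal_natCast]
        rw [e, ← ENNReal.ofReal_mul (by positivity)]
        congr 1
        field_simp

/-- grid slices -/
noncomputable def sj (M j : ℕ) : ℝ≥0 := 1 + (j : ℝ≥0) / M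

lemma sj_ge (M j : ℕ) : 1 ≤ sj M j := le_self_add

lemma sj_le {M j : ℕ} (hj : j < M) : sj M j ≤ 2 := by
  unfold sj
  calc (1 : ℝ≥0) + (j : ℝ≥0) / M ≤ 1 + 1 := by
        gcongr
        exact div_le_one' hj
    _ = 2 := by norm_num

lemma nat_dist_cast (a b : ℕ) : (((a - b) + (b - a) : ℕ) : ℝ) = |(a : ℝ) - b| := by
  rcases le_total a b with h | h
  · rw [Nat.sub_eq_zero_of_le h, zero_add, Nat.cast_sub h, abs_of_nonpos]
    · ring
    · have : (a : ℝ) ≤ b := by exact_mod_cast h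
      linarith
  · rw [Nat.sub_eq_zero_of_le h, add_zero, Nat.cast_sub h, abs_of_nonneg]
    have : (b : ℝ) ≤ a := by exact_mod_cast h
    linarith

lemma evt_inter_le (h : IsSheet X P) {ε : ℝ} (hε : 0 < ε) {M j j' a b a' b' : ℕ} (i n : ℕ)
    (hj : j < M) (hj' : j' < M) (hjj : j' ≠ j) (ha : a < M) (hb : b < M) (ha' : a' < M)
    (hb' : b' < M) :
    P (evt X ε i n (sj M j) (a / M) (b / M) ∩ evt X ε i n (sj M j') (a' / M) (b' / M)) ≤
      ENNReal.ofReal (ε ^ 8 * (M ^ 2 /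
        ((((j - j') + (j' - j)) + ((a - a') + (a' - a)) + ((b - b') + (b' - b)) : ℕ) : ℝ) ^ 2)) := by
  have hM : (0 : ℝ) < M := by
    have : 0 < M := by omega
    exact_mod_cast this
  set N : ℕ := ((j - j') + (j' - j)) + ((a - a') + (a' - a)) + ((b - b') + (b' - b)) with hN
  have hNpos : (0 : ℝ) < N := by
    have : 0 < N := by omega
    exact_mod_cast this
  have hNM : (N : ℝ) / M = |((sj M j : ℝ≥0) : ℝ) - sj M j'| + |(((a : ℝ≥0) / M : ℝ≥0) : ℝ) - ((a' : ℝ≥0) / M : ℝ≥0)|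
      + |(((b : ℝ≥0) / M : ℝ≥0) : ℝ) - ((b' : ℝ≥0) / M : ℝ≥0)| := by
    have e1 : ((sj M j : ℝ≥0) : ℝ) - sj M j' = ((j : ℝ) - j') / M := by
      unfold sj
      push_cast
      ring
    have e2 : ∀ x y : ℕ, (((x : ℝ≥0) / M : ℝ≥0) : ℝ) - ((y : ℝ≥0) / M : ℝ≥0) = ((x : ℝ) - y) / M := by
      intro x y
      push_cast
      ring
    rw [e1, e2, e2, abs_div, abs_div, abs_div, abs_of_pos hM, ← nat_dist_cast, ← nat_dist_cast,
      ← nat_dist_cast, hN]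
    push_cast
    ring
  have hc : ∀ {x : ℕ}, x < M → (((x : ℝ≥0) / M : ℝ≥0) : ℝ) ≤ 1 := by
    intro x hx
    have := div_le_one' hx
    exact_mod_cast this
  have hc0 : ∀ {x : ℕ}, (0 : ℝ) ≤ (((x : ℝ≥0) / M : ℝ≥0) : ℝ) := fun {x} => NNReal.coe_nonneg _
  have hs1 : ∀ j, (1 : ℝ) ≤ sj M j := fun j => by exact_mod_cast sj_ge M j
  have hdet := det_ineq (hs1 j) (hs1 j') (u := (((a : ℝ≥0) / M : ℝ≥0) : ℝ))
    (u' := (((a' : ℝ≥0) / M : ℝ≥0) : ℝ)) (v := (((b : ℝ≥0) / M : ℝ≥0) : ℝ))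
    (v' := (((b' : ℝ≥0) / M : ℝ≥0) : ℝ)) hc0 (hc ha) hc0 (hc ha') hc0 (hc hb) hc0 (hc hb')
  rw [← hNM] at hdet
  have hov : ∀ {u v u' v' : ℝ≥0}, u ≤ 1 → v ≤ 1 → u' ≤ 1 → v' ≤ 1 →
      ov (tb i n u) (te i n v) (tb i n u') (te i n v') =
        2 + min (v : ℝ) v' - max (u : ℝ) u' := by
    intro u v u' v' hu hv hu' hv'
    unfold ov
    rw [min_eq_right (tb_lt_te i n u' v).le, min_eq_left (tb_lt_te i n u v').le]
    have e1 : min (te i n v) (te i n v') = 4 * (Nat.pair i n : ℝ≥0) + 2 + min v v' := by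
      unfold te
      rw [min_eq_left hv, min_eq_left hv', min_add_add_left]
    have e2 : min (tb i n u) (tb i n u') = 4 * (Nat.pair i n : ℝ≥0) + min u u' := by
      unfold tb
      rw [min_eq_left hu, min_eq_left hu', min_add_add_left]
    rw [e1, e2]
    unfold tb
    rw [min_eq_left hu, min_eq_left hu']
    push_cast
    have e3 : min (u : ℝ) u' + max (u : ℝ) u' = u + u' := min_add_max _ _
    linarith
  have hvin : ∀ {u v : ℝ≥0}, u ≤ 1 → v ≤ 1 → ((te i n v : ℝ≥0) : ℝ) - tb i n u = 2 + v - u := by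
    intro u v hu hv
    have := te_sub_tb (i := i) (n := n) hu hv
    rwa [NNReal.coe_sub (tb_lt_te _ _ _ _).le] at this
  have hb1 := h.pair_bound (s := sj M j) (s' := sj M j') (t := tb i n (a / M)) (t' := te i n (b / M))
    (τ := tb i n (a' / M)) (τ' := te i n (b' / M)) (lt_of_lt_of_le one_pos (sj_ge M j))
    (tb_lt_te _ _ _ _) (tb_lt_te _ _ _ _).le (D := N / M) (by positivity) (by
      rw [hvin (div_le_one' ha) (div_le_one' hb), hvin (div_le_one' ha') (div_le_one' hb'),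
        hov (div_le_one' ha) (div_le_one' hb) (div_le_one' ha') (div_le_one' hb')]
      refine hdet.trans (le_of_eq ?_)
      push_cast
      rfl) hε.le 0 0
  rw [Fintype.card_fin] at hb1
  refine le_trans (measure_mono ?_) (hb1.trans (le_of_eq ?_))
  · intro ω hω
    obtain ⟨h1, h2⟩ := hω
    simp only [Set.mem_setOf_eq, sub_zero]
    exact ⟨h1, h2⟩
  · rw [← ENNReal.ofReal_pow (by positivity)]
    congr 1
    have e4 : (√((N : ℝ) / M)) ^ 4 = ((N : ℝ) / M) ^ 2 := by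
      rw [show (4 : ℕ) = 2 * 2 by norm_num, pow_mul, Real.sq_sqrt (by positivity)]
    rw [div_pow, e4, ← pow_mul]
    field_simp

end Pool.Agent.Helper41
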