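import Mathlib
import Pool.Agent.Helper41.BlockMoment

open MeasureTheory ProbabilityTheory Filter Topology
open scoped ENNReal NNReal

namespace Pool.Agent.Helper41

variable {Ω : Type*} [MeasurableSpace Ω] {P : Measure Ω} [IsProbabilityMeasure P]
variable {X : Fin 4 × ℝ≥0 × ℝ≥0 → Ω → ℝ}

lemma lintegral_WW_mul_le (h : IsSheet X P) {ε : ℝ} (hε : 0 < ε) (hε1 : ε ≤ 1) {M j j' : ℕ}
    (i n : ℕ) (hj : j < M) (hj' : j' < M) (hjj : j' ≠ j) :
    ∫⁻ ω, WW P X ε M i n (sj M j) ω * WW P X ε M i n (sj M j') ω ∂P ≤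
      ENNReal.ofReal (7 ^ 8 * 16 * (1 + Real.log (M / (((j - j') + (j' - j) : ℕ) : ℝ)))) := by
  have hM : (0 : ℝ) < M := by
    have : 0 < M := by omega
    exact_mod_cast this
  set d : ℕ := (j - j') + (j' - j) with hd
  have hd1 : 1 ≤ d := by omega
  have hdM : d ≤ M := by omega
  have hterm_meas : ∀ a b a' b' : ℕ, Measurable (fun ω =>
      (cf P X ε M i n (sj M j) a b * (evt X ε i n (sj M j) (a / M) (b / M)).indicator
        (fun _ => (1 : ℝ≥0∞)) ω) *
      (cf P X ε M i n (sj M j') a' b' * (evt X ε i n (sj M j') (a' / M) (b' / M)).indicator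
        (fun _ => (1 : ℝ≥0∞)) ω)) := fun a b a' b' =>
    ((measurable_const.indicator (meas_evt h _ _ _ _ _ _)).const_mul _).mul
      ((measurable_const.indicator (meas_evt h _ _ _ _ _ _)).const_mul _)
  have hexp : ∀ ω, WW P X ε M i n (sj M j) ω * WW P X ε M i n (sj M j') ω =
      ∑ a ∈ Finset.range M, ∑ b ∈ Finset.range M, ∑ a' ∈ Finset.range M, ∑ b' ∈ Finset.range M,
        (cf P X ε M i n (sj M j) a b * (evt X ε i n (sj M j) (a / M) (b / M)).indicator
          (fun _ => (1 : ℝ≥0∞)) ω) *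
        (cf P X ε M i n (sj M j') a' b' * (evt X ε i n (sj M j') (a' / M) (b' / M)).indicator
          (fun _ => (1 : ℝ≥0∞)) ω) := by
    intro ω
    rw [WW_eq, WW_eq, Finset.sum_mul]
    refine Finset.sum_congr rfl fun a _ => ?_
    rw [Finset.sum_mul]
    refine Finset.sum_congr rfl fun b _ => ?_
    rw [Finset.mul_sum]
    refine Finset.sum_congr rfl fun a' _ => ?_
    rw [Finset.mul_sum]
  simp_rw [hexp]
  rw [lintegral_finset_sum _ fun a _ => Finset.measurable_sum _ fun b _ =>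
    Finset.measurable_sum _ fun a' _ => Finset.measurable_sum _ fun b' _ => hterm_meas a b a' b']
  have hab : ∀ a ∈ Finset.range M, ∀ b ∈ Finset.range M,
      ∫⁻ ω, ∑ a' ∈ Finset.range M, ∑ b' ∈ Finset.range M,
        (cf P X ε M i n (sj M j) a b * (evt X ε i n (sj M j) (a / M) (b / M)).indicator
          (fun _ => (1 : ℝ≥0∞)) ω) *
        (cf P X ε M i n (sj M j') a' b' * (evt X ε i n (sj M j') (a' / M) (b' / M)).indicator
          (fun _ => (1 : ℝ≥0∞)) ω) ∂P ≤
      ENNReal.ofReal (7 ^ 8 / M ^ 2 * (16 * (1 + Real.log (M / d)))) := by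
    intro a ha b hb
    rw [Finset.mem_range] at ha hb
    rw [lintegral_finset_sum _ fun a' _ => Finset.measurable_sum _ fun b' _ => hterm_meas a b a' b']
    have h1 : ∀ a' ∈ Finset.range M, ∫⁻ ω, ∑ b' ∈ Finset.range M,
        (cf P X ε M i n (sj M j) a b * (evt X ε i n (sj M j) (a / M) (b / M)).indicator
          (fun _ => (1 : ℝ≥0∞)) ω) *
        (cf P X ε M i n (sj M j') a' b' * (evt X ε i n (sj M j') (a' / M) (b' / M)).indicator
          (fun _ => (1 : ℝ≥0∞)) ω) ∂P ≤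
        ENNReal.ofReal (∑ b' ∈ Finset.range M, 7 ^ 8 / M ^ 2 *
          (1 / ((d + ((a - a') + (a' - a)) + ((b - b') + (b' - b)) : ℕ) : ℝ) ^ 2)) := by
      intro a' ha'
      rw [Finset.mem_range] at ha'
      rw [lintegral_finset_sum _ fun b' _ => hterm_meas a b a' b', ENNReal.ofReal_sum_of_nonneg
        (fun b' _ => by positivity)]
      refine Finset.sum_le_sum fun b' hb' => ?_
      rw [Finset.mem_range] at hb'
      have e1 : ∀ ω, (cf P X ε M i n (sj M j) a b *
            (evt X ε i n (sj M j) (a / M) (b / M)).indicator (fun _ => (1 : ℝ≥0∞)) ω) *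
          (cf P X ε M i n (sj M j') a' b' *
            (evt X ε i n (sj M j') (a' / M) (b' / M)).indicator (fun _ => (1 : ℝ≥0∞)) ω) =
          (cf P X ε M i n (sj M j) a b * cf P X ε M i n (sj M j') a' b') *
            (evt X ε i n (sj M j) (a / M) (b / M) ∩ evt X ε i n (sj M j') (a' / M) (b' / M)).indicator
              (fun _ => (1 : ℝ≥0∞)) ω := by
        intro ω
        by_cases h1 : ω ∈ evt X ε i n (sj M j) (a / M) (b / M)
        · by_cases h2 : ω ∈ evt X ε i n (sj M j') (a' / M) (b' / M)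
          · simp [Set.indicator_apply, h1, h2]
          · simp [Set.indicator_apply, h1, h2]
        · simp [Set.indicator_apply, h1]
      simp_rw [e1]
      have hmi : MeasurableSet (evt X ε i n (sj M j) (a / M) (b / M) ∩
          evt X ε i n (sj M j') (a' / M) (b' / M)) :=
        (meas_evt h _ _ _ _ _ _).inter (meas_evt h _ _ _ _ _ _)
      rw [lintegral_const_mul _ (measurable_const.indicator hmi), lintegral_indicator_const hmi,
        one_mul]
      have c1 := cf_le h hε hε1 i n (sj_ge M j) (sj_le hj) ha hb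
      have c2 := cf_le h hε hε1 i n (sj_ge M j') (sj_le hj') ha' hb'
      have c3 := evt_inter_le h hε i n hj hj' hjj ha hb ha' hb'
      calc _ ≤ (ENNReal.ofReal ((7 / ε) ^ 4 / M ^ 2) * ENNReal.ofReal ((7 / ε) ^ 4 / M ^ 2)) *
            ENNReal.ofReal (ε ^ 8 * (M ^ 2 /
        ((((j - j') + (j' - j)) + ((a - a') + (a' - a)) + ((b - b') + (b' - b)) : ℕ) : ℝ) ^ 2)) := by
            gcongr
        _ = _ := by
            rw [← ENNReal.ofReal_mul (by positivity), ← ENNReal.ofReal_mul (by positivity)]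
            congr 1
            rw [← hd]
            have hN : (0 : ℝ) < ((d + ((a - a') + (a' - a)) + ((b - b') + (b' - b)) : ℕ) : ℝ) := by
              have : 0 < d + ((a - a') + (a' - a)) + ((b - b') + (b' - b)) := by omega
              exact_mod_cast this
            field_simp
    calc _ ≤ ∑ a' ∈ Finset.range M, ENNReal.ofReal (∑ b' ∈ Finset.range M, 7 ^ 8 / M ^ 2 *
          (1 / ((d + ((a - a') + (a' - a)) + ((b - b') + (b' - b)) : ℕ) : ℝ) ^ 2)) :=
          Finset.sum_le_sum h1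
      _ = ENNReal.ofReal (7 ^ 8 / M ^ 2 * ∑ a' ∈ Finset.range M, ∑ b' ∈ Finset.range M,
          (1 / ((d + ((a - a') + (a' - a)) + ((b - b') + (b' - b)) : ℕ) : ℝ) ^ 2)) := by
          rw [← ENNReal.ofReal_sum_of_nonneg (fun a' _ => Finset.sum_nonneg fun b' _ => by positivity),
            Finset.mul_sum]
          congr 1
          refine Finset.sum_congr rfl fun a' _ => ?_
          rw [Finset.mul_sum]
      _ ≤ _ := by
          apply ENNReal.ofReal_le_ofReal
          have := double_sum_le hd1 hdM ha hb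
          gcongr
  have hab' : ∀ a ∈ Finset.range M, ∫⁻ ω, ∑ b ∈ Finset.range M,
      ∑ a' ∈ Finset.range M, ∑ b' ∈ Finset.range M,
        (cf P X ε M i n (sj M j) a b * (evt X ε i n (sj M j) (a / M) (b / M)).indicator
          (fun _ => (1 : ℝ≥0∞)) ω) *
        (cf P X ε M i n (sj M j') a' b' * (evt X ε i n (sj M j') (a' / M) (b' / M)).indicator
          (fun _ => (1 : ℝ≥0∞)) ω) ∂P ≤
      M * ENNReal.ofReal (7 ^ 8 / M ^ 2 * (16 * (1 + Real.log (M / d)))) := by
    intro a ha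
    rw [lintegral_finset_sum _ fun b _ =>
      Finset.measurable_sum _ fun a' _ => Finset.measurable_sum _ fun b' _ => hterm_meas a b a' b']
    refine (Finset.sum_le_sum fun b hb => hab a ha b hb).trans (le_of_eq ?_)
    rw [Finset.sum_const, Finset.card_range, nsmul_eq_mul]
  refine (Finset.sum_le_sum hab').trans (le_of_eq ?_)
  rw [Finset.sum_const, Finset.card_range, nsmul_eq_mul, ← ENNReal.ofReal_natCast,
    ← ENNReal.ofReal_mul hM.le, ← ENNReal.ofReal_mul hM.le]
  congr 1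
  field_simp

lemma WW_le (h : IsSheet X P) {ε : ℝ} (hε : 0 < ε) (hε1 : ε ≤ 1) {M : ℕ} (hM : 1 ≤ M)
    (i n : ℕ) {s : ℝ≥0} (hs1 : 1 ≤ s) (hs2 : s ≤ 2) (ω : Ω) :
    WW P X ε M i n s ω ≤ ENNReal.ofReal ((7 / ε) ^ 4) := by
  have hM' : (0 : ℝ) < M := by exact_mod_cast hM
  rw [WW_eq]
  calc _ ≤ ∑ a ∈ Finset.range M, ∑ b ∈ Finset.range M, ENNReal.ofReal ((7 / ε) ^ 4 / M ^ 2) := by
        refine Finset.sum_le_sum fun a ha => Finset.sum_le_sum fun b hb => ?_
        rw [Finset.mem_range] at ha hb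
        have h1 := cf_le h hε hε1 i n hs1 hs2 ha hb
        calc _ ≤ cf P X ε M i n s a b * 1 := by
              gcongr
              exact Set.indicator_le_self' (fun _ _ => zero_le) _
          _ ≤ _ := by rw [mul_one]; exact h1
    _ = _ := by
        rw [Finset.sum_const, Finset.card_range, nsmul_eq_mul, Finset.sum_const, Finset.card_range,
          nsmul_eq_mul, ← ENNReal.ofReal_natCast,
          ← ENNReal.ofReal_mul hM'.le, ← ENNReal.ofReal_mul hM'.le]
        congr 1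
        field_simp

lemma lintegral_WW_sq_le (h : IsSheet X P) {ε : ℝ} (hε : 0 < ε) (hε1 : ε ≤ 1) {M : ℕ} (hM : 1 ≤ M)
    (i n : ℕ) {s : ℝ≥0} (hs1 : 1 ≤ s) (hs2 : s ≤ 2) :
    ∫⁻ ω, WW P X ε M i n s ω * WW P X ε M i n s ω ∂P ≤ ENNReal.ofReal ((7 / ε) ^ 4) := by
  calc _ ≤ ∫⁻ ω, ENNReal.ofReal ((7 / ε) ^ 4) * WW P X ε M i n s ω ∂P := by
        refine lintegral_mono fun ω => ?_
        gcongr
        exact WW_le h hε hε1 hM i n hs1 hs2 ω
    _ = _ := by
        rw [lintegral_const_mul _ (meas_WW h _ _ _ _ _), lintegral_WW h hε hε1 hM i n hs1 hs2,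
          mul_one]

lemma lintegral_WW_indep (h : IsSheet X P) {ε : ℝ} (hε : 0 < ε) (hε1 : ε ≤ 1) {M : ℕ} (hM : 1 ≤ M)
    (i : ℕ) {n n' : ℕ} (hn : n ≠ n') {s s' : ℝ≥0} (hs1 : 1 ≤ s) (hs2 : s ≤ 2) (hs1' : 1 ≤ s')
    (hs2' : s' ≤ 2) :
    ∫⁻ ω, WW P X ε M i n s ω * WW P X ε M i n' s' ω ∂P = 1 := by
  have hind : IndepFun (fun ω q => YN X i n q ω) (fun ω q => YN X i n' q ω) P :=
    (indep_YN h i).indepFun hn
  have hind2 := hind.comp (meas_Wφ (P := P) (X := X) ε M i n s) (meas_Wφ (P := P) (X := X) ε M i n' s')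
  have := lintegral_mul_eq_lintegral_mul_lintegral_of_indepFun (meas_WW h ε M i n s)
    (meas_WW h ε M i n' s') hind2
  rw [lintegral_WW h hε hε1 hM i n hs1 hs2, lintegral_WW h hε hε1 hM i n' hs1' hs2', one_mul] at this
  exact this

lemma lintegral_AA (h : IsSheet X P) {ε : ℝ} (hε : 0 < ε) (hε1 : ε ≤ 1) {M : ℕ} (hM : 1 ≤ M)
    {m : ℕ} (hm : 1 ≤ m) (i : ℕ) {s : ℝ≥0} (hs1 : 1 ≤ s) (hs2 : s ≤ 2) :
    ∫⁻ ω, AA P X ε M m i s ω ∂P = 1 := by
  simp_rw [AA_eq]
  rw [lintegral_const_mul _ (Finset.measurable_sum _ fun n _ => meas_WW h _ _ _ _ _),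
    lintegral_finset_sum _ fun n _ => meas_WW h _ _ _ _ _,
    Finset.sum_congr rfl (fun n _ => lintegral_WW h hε hε1 hM i n hs1 hs2)]
  rw [Finset.sum_const, Finset.card_range, nsmul_eq_mul, mul_one]
  apply ENNReal.inv_mul_cancel
  · have : m ≠ 0 := by omega
    exact_mod_cast this
  · exact ENNReal.natCast_ne_top m

lemma lintegral_AA_mul_le (h : IsSheet X P) {ε : ℝ} (hε : 0 < ε) (hε1 : ε ≤ 1) {M : ℕ} (hM : 1 ≤ M)
    {m : ℕ} (hm : 1 ≤ m) (i : ℕ) {s s' : ℝ≥0} (hs1 : 1 ≤ s) (hs2 : s ≤ 2) (hs1' : 1 ≤ s')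
    (hs2' : s' ≤ 2) {R : ℝ} (hR : 0 ≤ R)
    (hW : ∀ n, ∫⁻ ω, WW P X ε M i n s ω * WW P X ε M i n s' ω ∂P ≤ ENNReal.ofReal R) :
    ∫⁻ ω, AA P X ε M m i s ω * AA P X ε M m i s' ω ∂P ≤ ENNReal.ofReal (1 + R / m) := by
  have hm' : (0 : ℝ) < m := by exact_mod_cast hm
  have hWWm : ∀ n n', Measurable (fun ω => WW P X ε M i n s ω * WW P X ε M i n' s' ω) :=
    fun n n' => (meas_WW h _ _ _ _ _).mul (meas_WW h _ _ _ _ _)
  have hexp : ∀ ω, AA P X ε M m i s ω * AA P X ε M m i s' ω =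
      ((m : ℝ≥0∞)⁻¹ * (m : ℝ≥0∞)⁻¹) * ∑ n ∈ Finset.range m, ∑ n' ∈ Finset.range m,
        WW P X ε M i n s ω * WW P X ε M i n' s' ω := by
    intro ω
    rw [AA_eq, AA_eq, ← Finset.sum_mul_sum]
    ring
  simp_rw [hexp]
  rw [lintegral_const_mul _ (Finset.measurable_sum _ fun n _ => Finset.measurable_sum _ fun n' _ =>
    hWWm n n'), lintegral_finset_sum _ fun n _ => Finset.measurable_sum _ fun n' _ => hWWm n n']
  have h1 : ∀ n ∈ Finset.range m, ∫⁻ ω, ∑ n' ∈ Finset.range m,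
      WW P X ε M i n s ω * WW P X ε M i n' s' ω ∂P ≤ ENNReal.ofReal (R + m) := by
    intro n hn
    rw [lintegral_finset_sum _ fun n' _ => hWWm n n']
    calc ∑ n' ∈ Finset.range m, ∫⁻ ω, WW P X ε M i n s ω * WW P X ε M i n' s' ω ∂P
        ≤ ∑ n' ∈ Finset.range m, ((if n' = n then ENNReal.ofReal R else 0) + 1) := by
          refine Finset.sum_le_sum fun n' _ => ?_
          by_cases hnn : n' = n
          · subst hnn
            rw [if_pos rfl]
            exact (hW n').trans le_self_add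
          · rw [if_neg hnn, zero_add]
            exact (lintegral_WW_indep h hε hε1 hM i (fun e => hnn e.symm) hs1 hs2 hs1' hs2').le
      _ = ENNReal.ofReal R + m := by
          rw [Finset.sum_add_distrib, Finset.sum_ite_eq', if_pos hn, Finset.sum_const,
            Finset.card_range, nsmul_eq_mul, mul_one]
      _ = _ := by rw [ENNReal.ofReal_add hR hm'.le, ENNReal.ofReal_natCast]
  calc _ ≤ ((m : ℝ≥0∞)⁻¹ * (m : ℝ≥0∞)⁻¹) * ∑ _n ∈ Finset.range m, ENNReal.ofReal (R + m) := by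
        gcongr with n hn
        exact h1 n hn
    _ = _ := by
        rw [Finset.sum_const, Finset.card_range, nsmul_eq_mul, ← ENNReal.ofReal_natCast,
          ← ENNReal.ofReal_inv_of_pos hm', ← ENNReal.ofReal_mul hm'.le,
          ← ENNReal.ofReal_mul (by positivity), ← ENNReal.ofReal_mul (by positivity)]
        congr 1
        field_simp
        ring

/-- number of blocks at level `i` -/
def mi (i : ℕ) : ℕ := (4 * (7 ^ 8 * 16)) * 2 ^ i

lemma mi_pos (i : ℕ) : 1 ≤ mi i := by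
  unfold mi
  have : 0 < 2 ^ i := by positivity
  omega

/-- product over the first `k` levels -/
noncomputable def FF (P : Measure Ω) (X : Fin 4 × ℝ≥0 × ℝ≥0 → Ω → ℝ) (ε : ℝ) (M k : ℕ) (j : ℕ)
    (ω : Ω) : ℝ≥0∞ :=
  ∏ i ∈ Finset.range k, AA P X ε M (mi i) i (sj M j) ω

lemma meas_FF (h : IsSheet X P) (ε : ℝ) (M k j : ℕ) : Measurable (FF P X ε M k j) :=
  Finset.measurable_prod _ fun i _ => meas_AA h _ _ _ _ _

lemma lintegral_FF (h : IsSheet X P) {ε : ℝ} (hε : 0 < ε) (hε1 : ε ≤ 1) {M k j : ℕ} (hM : 1 ≤ M)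
    (hj : j < M) : ∫⁻ ω, FF P X ε M k j ω ∂P = 1 := by
  unfold FF
  have hind : iIndepFun (fun i ω => AA P X ε M (mi i) i (sj M j) ω) P :=
    (iIndep_YB h).comp (fun i => Aφ P X ε M (mi i) i (sj M j)) (fun i => meas_Aφ _ _ _ _ _)
  rw [lintegral_prod_eq_prod_lintegral_of_indepFun _ _ hind (fun i => meas_AA h _ _ _ _ _)]
  exact Finset.prod_eq_one fun i _ => lintegral_AA h hε hε1 hM (mi_pos i) i (sj_ge M j) (sj_le hj)

lemma lintegral_FF_mul (h : IsSheet X P) (ε : ℝ) (M k j j' : ℕ) :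
    ∫⁻ ω, FF P X ε M k j ω * FF P X ε M k j' ω ∂P =
      ∏ i ∈ Finset.range k, ∫⁻ ω, AA P X ε M (mi i) i (sj M j) ω *
        AA P X ε M (mi i) i (sj M j') ω ∂P := by
  unfold FF
  simp_rw [← Finset.prod_mul_distrib]
  have hind : iIndepFun (fun i ω => AA P X ε M (mi i) i (sj M j) ω *
      AA P X ε M (mi i) i (sj M j') ω) P :=
    (iIndep_YB h).comp (fun i y => Aφ P X ε M (mi i) i (sj M j) y * Aφ P X ε M (mi i) i (sj M j') y)
      (fun i => (meas_Aφ _ _ _ _ _).mul (meas_Aφ _ _ _ _ _))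
  exact lintegral_prod_eq_prod_lintegral_of_indepFun _ _ hind
    (fun i => (meas_AA h _ _ _ _ _).mul (meas_AA h _ _ _ _ _))

lemma prod_bound_off (k : ℕ) {L : ℝ} (hL : 1 ≤ L) :
    ∏ i ∈ Finset.range k, (1 + (7 ^ 8 * 16 * L) / (mi i : ℝ)) ≤ Real.exp (L / 2) := by
  have h1 : ∀ i ∈ Finset.range k, (1 + (7 ^ 8 * 16 * L) / (mi i : ℝ)) ≤
      Real.exp ((L / 4) * (1 / 2) ^ i) := by
    intro i _
    have e : (7 ^ 8 * 16 * L) / (mi i : ℝ) = (L / 4) * (1 / 2) ^ i := by
      unfold mi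
      push_cast
      rw [div_pow, one_pow]
      field_simp
      norm_num
    rw [e, add_comm]
    exact Real.add_one_le_exp _
  calc _ ≤ ∏ i ∈ Finset.range k, Real.exp ((L / 4) * (1 / 2) ^ i) :=
        Finset.prod_le_prod (fun i _ => by positivity) h1
    _ = Real.exp (∑ i ∈ Finset.range k, (L / 4) * (1 / 2) ^ i) := by rw [Real.exp_sum]
    _ ≤ _ := by
        apply Real.exp_le_exp.2
        rw [← Finset.mul_sum]
        have := sum_geometric_two_le k
        nlinarith

/-- With probability at least `1/36` some slice nearly has a double point at each of the first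
`k` levels. -/
theorem near_event (h : IsSheet X P) {ε : ℝ} (hε : 0 < ε) (hε1 : ε ≤ 1) (k : ℕ) :
    ∃ G : Set Ω, MeasurableSet G ∧ ENNReal.ofReal (1 / 36) ≤ P G ∧
      ∀ ω ∈ G, ∃ s : ℝ≥0, 1 ≤ s ∧ s ≤ 2 ∧ ∀ i < k, ∃ n < mi i, ∃ u v : ℝ≥0, u ≤ 1 ∧ v ≤ 1 ∧
        ‖vinc X s (tb i n u) (te i n v) ω‖ ≤ ε := by
  obtain ⟨M, hMlarge⟩ := exists_nat_ge ((1 + (7 / ε) ^ 4) ^ k)
  have hM : 1 ≤ M := by
    have : (1 : ℝ) ≤ (1 + (7 / ε) ^ 4) ^ k := one_le_pow₀ (by
      have : 0 ≤ (7 / ε) ^ 4 := by positivity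
      linarith)
    exact_mod_cast this.trans hMlarge
  have hM' : (0 : ℝ) < M := by exact_mod_cast hM
  have hsm := second_moment (P := P) hM (FF P X ε M k) (fun j => meas_FF h ε M k j)
    (K := 2) (by norm_num)
    (fun j hj => by
      rw [lintegral_FF h hε hε1 hM hj]
      exact ENNReal.half_le_self)
    (fun j hj => by
      rw [lintegral_FF_mul h]
      calc ∏ i ∈ Finset.range k, ∫⁻ ω, AA P X ε M (mi i) i (sj M j) ω *
            AA P X ε M (mi i) i (sj M j) ω ∂P
          ≤ ∏ _i ∈ Finset.range k, ENNReal.ofReal (1 + (7 / ε) ^ 4) := by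
            refine Finset.prod_le_prod' fun i _ => ?_
            refine (lintegral_AA_mul_le h hε hε1 hM (mi_pos i) i (sj_ge M j) (sj_le hj) (sj_ge M j)
              (sj_le hj) (R := (7 / ε) ^ 4) (by positivity)
              (fun n => lintegral_WW_sq_le h hε hε1 hM i n (sj_ge M j) (sj_le hj))).trans ?_
            apply ENNReal.ofReal_le_ofReal
            have h1 : (1 : ℝ) ≤ mi i := by exact_mod_cast mi_pos i
            have h2 : (7 / ε) ^ 4 / (mi i : ℝ) ≤ (7 / ε) ^ 4 := div_le_self (by positivity) h1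
            linarith
        _ = ENNReal.ofReal ((1 + (7 / ε) ^ 4) ^ k) := by
            rw [Finset.prod_const, Finset.card_range, ENNReal.ofReal_pow (by positivity)]
        _ ≤ ENNReal.ofReal M := ENNReal.ofReal_le_ofReal hMlarge
        _ = M := ENNReal.ofReal_natCast M)
    (fun j hj j' hj' hjj => by
      rw [lintegral_FF_mul h]
      set d : ℕ := (j - j') + (j' - j) with hd
      have hd1 : 1 ≤ d := by omega
      have hdM : d ≤ M := by omega
      have hd0 : (0 : ℝ) < d := by exact_mod_cast hd1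
      set L : ℝ := 1 + Real.log (M / d) with hL
      have hlog : 0 ≤ Real.log (M / d) := by
        apply Real.log_nonneg
        rw [le_div_iff₀ hd0, one_mul]
        exact_mod_cast hdM
      have hL1 : 1 ≤ L := by linarith
      calc ∏ i ∈ Finset.range k, ∫⁻ ω, AA P X ε M (mi i) i (sj M j) ω *
            AA P X ε M (mi i) i (sj M j') ω ∂P
          ≤ ∏ i ∈ Finset.range k, ENNReal.ofReal (1 + (7 ^ 8 * 16 * L) / (mi i : ℝ)) := by
            refine Finset.prod_le_prod' fun i _ => ?_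
            exact lintegral_AA_mul_le h hε hε1 hM (mi_pos i) i (sj_ge M j) (sj_le hj) (sj_ge M j')
              (sj_le hj') (R := 7 ^ 8 * 16 * L) (by positivity)
              (fun n => lintegral_WW_mul_le h hε hε1 i n hj hj' hjj)
        _ = ENNReal.ofReal (∏ i ∈ Finset.range k, (1 + (7 ^ 8 * 16 * L) / (mi i : ℝ))) := by
            rw [ENNReal.ofReal_prod_of_nonneg]
            intro i _
            positivity
        _ ≤ _ := by
            apply ENNReal.ofReal_le_ofReal
            refine (prod_bound_off k hL1).trans ?_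
            rw [hL, add_div, Real.exp_add]
            have e1 : Real.exp (Real.log (M / d) / 2) = √((M : ℝ) / d) := by
              rw [Real.sqrt_eq_rpow, Real.rpow_def_of_pos (by positivity)]
              congr 1
              ring
            rw [e1]
            have e2 : Real.exp (1 / 2) ≤ 2 := by
              have h3 : Real.exp (1 / 2) ^ 2 ≤ 2 ^ 2 := by
                rw [← Real.exp_nat_mul]
                have : ((2 : ℕ) : ℝ) * (1 / 2) = 1 := by norm_num
                rw [this]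
                have := Real.exp_one_lt_d9
                linarith
              exact le_of_sq_le_sq h3 (by norm_num)
            gcongr)
  refine ⟨{ω | ∃ j < M, FF P X ε M k j ω ≠ 0}, ?_, ?_, ?_⟩
  · have : {ω | ∃ j < M, FF P X ε M k j ω ≠ 0} = ⋃ j ∈ Finset.range M, {ω | FF P X ε M k j ω ≠ 0} := by
      ext ω
      simp
    rw [this]
    exact Finset.measurableSet_biUnion _ fun j _ =>
      ((meas_FF h ε M k j) (measurableSet_singleton 0)).compl
  · refine le_trans (le_of_eq ?_) hsm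
    norm_num
  · rintro ω ⟨j, hj, hne⟩
    refine ⟨sj M j, sj_ge M j, sj_le hj, fun i hi => ?_⟩
    have h1 : AA P X ε M (mi i) i (sj M j) ω ≠ 0 := by
      intro h0
      exact hne (Finset.prod_eq_zero (Finset.mem_range.2 hi) h0)
    rw [AA_eq] at h1
    have h2 : ∑ n ∈ Finset.range (mi i), WW P X ε M i n (sj M j) ω ≠ 0 := right_ne_zero_of_mul h1
    obtain ⟨n, hn, h3⟩ := Finset.exists_ne_zero_of_sum_ne_zero h2
    rw [WW_eq] at h3
    obtain ⟨a, ha, h4⟩ := Finset.exists_ne_zero_of_sum_ne_zero h3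
    obtain ⟨b, hb, h5⟩ := Finset.exists_ne_zero_of_sum_ne_zero h4
    have h6 := right_ne_zero_of_mul h5
    have h7 : ω ∈ evt X ε i n (sj M j) (a / M) (b / M) := by
      by_contra hcon
      exact h6 (Set.indicator_of_notMem hcon _)
    exact ⟨n, Finset.mem_range.1 hn, a / M, b / M, div_le_one' (Finset.mem_range.1 ha),
      div_le_one' (Finset.mem_range.1 hb), h7⟩

end Pool.Agent.Helper41
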