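import Mathlib
import Pool.Agent.Helper41.Gauss

open MeasureTheory ProbabilityTheory Filter Topology
open scoped ENNReal NNReal

namespace Pool.Agent.Helper41

variable {Ω : Type*} [MeasurableSpace Ω] {P : Measure Ω} [IsProbabilityMeasure P]

/-- expectation of the complex exponential of a square integrable variable -/
noncomputable def phi (P : Measure Ω) (Y : Lp ℝ 2 P) : ℂ :=
  ∫ ω, Complex.exp (Complex.I * ((Y ω : ℝ) : ℂ)) ∂P

lemma norm_exp_sub_le (a b : ℝ) :
    ‖Complex.exp (Complex.I * (a : ℂ)) - Complex.exp (Complex.I * (b : ℂ))‖ ≤ |a - b| := by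
  have h1 : Complex.exp (Complex.I * (a : ℂ)) - Complex.exp (Complex.I * (b : ℂ)) =
      Complex.exp (Complex.I * (b : ℂ)) * (Complex.exp (Complex.I * ((a - b : ℝ) : ℂ)) - 1) := by
    rw [mul_sub, mul_one, ← Complex.exp_add]
    congr 2
    push_cast
    ring
  rw [h1, norm_mul]
  have h2 : ‖Complex.exp (Complex.I * (b : ℂ))‖ = 1 := by
    rw [mul_comm, Complex.norm_exp_ofReal_mul_I]
  rw [h2, one_mul]
  exact Real.norm_exp_I_mul_ofReal_sub_one_le

lemma integrable_exp (Y : Ω → ℝ) (hY : AEStronglyMeasurable Y P) :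
    Integrable (fun ω => Complex.exp (Complex.I * ((Y ω : ℝ) : ℂ))) P := by
  refine Integrable.of_bound (C := 1) ?_ ?_
  · have h1 : AEStronglyMeasurable (fun ω => ((Y ω : ℝ) : ℂ)) P :=
      Complex.continuous_ofReal.comp_aestronglyMeasurable hY
    exact (by fun_prop : Continuous (fun z : ℂ => Complex.exp (Complex.I * z))).comp_aestronglyMeasurable h1
  · refine Eventually.of_forall fun ω => ?_
    rw [mul_comm, Complex.norm_exp_ofReal_mul_I]

lemma phi_lipschitz (Y Z : Lp ℝ 2 P) : ‖phi P Y - phi P Z‖ ≤ ‖Y - Z‖ := by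
  have hY := Lp.aestronglyMeasurable Y
  have hZ := Lp.aestronglyMeasurable Z
  have hYZ : MemLp (fun ω => Y ω - Z ω) 2 P := (Lp.memLp Y).sub (Lp.memLp Z)
  unfold phi
  rw [← integral_sub (integrable_exp _ hY) (integrable_exp _ hZ)]
  calc _ ≤ ∫ ω, ‖Complex.exp (Complex.I * ((Y ω : ℝ) : ℂ)) -
        Complex.exp (Complex.I * ((Z ω : ℝ) : ℂ))‖ ∂P := norm_integral_le_integral_norm _
    _ ≤ ∫ ω, ‖Y ω - Z ω‖ ∂P := by
        refine integral_mono ?_ ?_ fun ω => ?_
        · exact ((integrable_exp _ hY).sub (integrable_exp _ hZ)).norm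
        · exact (hYZ.integrable (by norm_num)).norm
        · exact norm_exp_sub_le _ _
    _ = (eLpNorm (fun ω => Y ω - Z ω) 1 P).toReal := by
        rw [eLpNorm_one_eq_lintegral_enorm, integral_norm_eq_lintegral_enorm hYZ.1]
    _ ≤ (eLpNorm (fun ω => Y ω - Z ω) 2 P).toReal := by
        apply ENNReal.toReal_mono hYZ.2.ne
        exact eLpNorm_le_eLpNorm_of_exponent_le (by norm_num) hYZ.1
    _ = ‖Y - Z‖ := by
        rw [Lp.norm_def]
        congr 1
        apply eLpNorm_congr_ae
        filter_upwards [Lp.coeFn_sub Y Z] with ω hω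
        rw [hω]
        rfl

lemma continuous_phi : Continuous (phi P) := by
  refine continuous_iff_continuousAt.2 fun Y => ?_
  rw [ContinuousAt, tendsto_iff_norm_sub_tendsto_zero]
  refine squeeze_zero (fun _ => norm_nonneg _) (fun Z => phi_lipschitz Z Y) ?_
  have : Tendsto (fun Z : Lp ℝ 2 P => ‖Z - Y‖) (𝓝 Y) (𝓝 ‖Y - Y‖) :=
    (continuous_id.sub continuous_const).norm.tendsto Y
  simpa using this

theorem exists_isonormal (H : Type) [NormedAddCommGroup H] [InnerProductSpace ℝ H]
    [CompleteSpace H] :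
    ∃ (Ω : Type) (_ : MeasurableSpace Ω) (P : Measure Ω) (_ : IsProbabilityMeasure P)
      (W : H → Ω → ℝ), (∀ h, Measurable (W h)) ∧ CharKernel W P (fun g h => inner ℝ g h) := by
  classical
  obtain ⟨w, b, hb⟩ := exists_hilbertBasis ℝ H
  let P : Measure (w → ℝ) := Measure.infinitePi (fun _ : w => gaussianReal 0 1)
  let ξ : w → (w → ℝ) → ℝ := fun i ω => ω i
  have hξm : ∀ i, Measurable (ξ i) := fun i => measurable_pi_apply i
  have hξlaw : ∀ i, P.map (ξ i) = gaussianReal 0 1 := fun i =>
    (measurePreserving_eval_infinitePi (fun _ : w => gaussianReal 0 1) i).map_eq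
  have hξ : ∀ i, MemLp (ξ i) 2 P := by
    intro i
    have h1 : MemLp (id ∘ ξ i) 2 P := by
      rw [← memLp_map_measure_iff (by fun_prop) (hξm i).aemeasurable, hξlaw i]
      exact memLp_id_gaussianReal 2
    exact h1
  have hind : iIndepFun ξ P := by
    have := iIndepFun_infinitePi (P := fun _ : w => gaussianReal 0 1) (X := fun _ => id)
      (fun _ => measurable_id)
    exact this
  let v : w → Lp ℝ 2 P := fun i => (hξ i).toLp
  have hv : Orthonormal ℝ v := by
    rw [orthonormal_iff_ite]
    intro i j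
    rw [L2.inner_def]
    have h1 : ∫ ω, inner ℝ (v i ω) (v j ω) ∂P = ∫ ω, ξ j ω * ξ i ω ∂P := by
      apply integral_congr_ae
      filter_upwards [(hξ i).coeFn_toLp, (hξ j).coeFn_toLp] with ω h1 h2
      simp only [v]
      rw [h1, h2]
      rfl
    rw [h1]
    by_cases hij : i = j
    · subst hij
      rw [if_pos rfl]
      have h2 : ∫ ω, ξ i ω * ξ i ω ∂P = ∫ x, x * x ∂(P.map (ξ i)) :=
        (integral_map (f := fun x : ℝ => x * x) (hξm i).aemeasurable (by fun_prop)).symm
      rw [h2, hξlaw]
      have h3 := variance_id_gaussianReal (μ := 0) (v := 1)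
      rw [variance_eq_integral (by fun_prop)] at h3
      simp only [id] at h3
      rw [integral_id_gaussianReal] at h3
      simp only [sub_zero, NNReal.coe_one] at h3
      rw [← h3]
      congr 1
      funext x
      ring
    · rw [if_neg hij]
      have h2 : IndepFun (ξ j) (ξ i) P := hind.indepFun (Ne.symm hij)
      have h3 := h2.integral_mul_eq_mul_integral (hξm j).aestronglyMeasurable
        (hξm i).aestronglyMeasurable
      have h4 : ∫ ω, ξ i ω ∂P = 0 := by
        have : ∫ ω, ξ i ω ∂P = ∫ x, x ∂(P.map (ξ i)) :=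
          (integral_map (f := fun x : ℝ => x) (hξm i).aemeasurable (by fun_prop)).symm
        rw [this, hξlaw, integral_id_gaussianReal]
      have h5 : ∫ ω, ξ j ω * ξ i ω ∂P = (∫ ω, ξ j ω ∂P) * ∫ ω, ξ i ω ∂P := h3
      rw [h5, h4, mul_zero]
  let T : H →ₗᵢ[ℝ] Lp ℝ 2 P := hv.orthogonalFamily.linearIsometry.comp b.repr.toLinearIsometry
  have hTb : ∀ i, T (b i) = v i := by
    intro i
    show hv.orthogonalFamily.linearIsometry (b.repr (b i)) = v i
    rw [b.repr_self, OrthogonalFamily.linearIsometry_apply_single]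
    simp
  -- the characteristic function identity
  have hphi_eq : ∀ h : H, phi P (T h) = Complex.exp (-(1 / 2 : ℂ) * ((‖h‖ ^ 2 : ℝ) : ℂ)) := by
    have hclosed : IsClosed {h : H | phi P (T h) = Complex.exp (-(1 / 2 : ℂ) * ((‖h‖ ^ 2 : ℝ) : ℂ))} := by
      apply isClosed_eq
      · exact continuous_phi.comp T.continuous
      · fun_prop
    have hspan : ∀ h ∈ Submodule.span ℝ (Set.range b),
        phi P (T h) = Complex.exp (-(1 / 2 : ℂ) * ((‖h‖ ^ 2 : ℝ) : ℂ)) := by
      intro h hh
      obtain ⟨c, rfl⟩ := (Finsupp.mem_span_range_iff_exists_finsupp).1 hh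
      have h1 : T (c.sum fun i a => a • b i) = ∑ i ∈ c.support, c i • v i := by
        rw [Finsupp.sum, map_sum]
        refine Finset.sum_congr rfl fun i _ => ?_
        rw [map_smul, hTb]
      have h2 : ‖c.sum fun i a => a • b i‖ ^ 2 = ∑ i ∈ c.support, c i ^ 2 := by
        rw [Finsupp.sum]
        have := b.orthonormal.inner_sum (fun i => c i) (fun i => c i) c.support
        rw [← real_inner_self_eq_norm_sq, this]
        refine Finset.sum_congr rfl fun i _ => ?_
        simp [sq]
      have h3 : (fun ω => ((∑ i ∈ c.support, c i • v i : Lp ℝ 2 P) ω)) =ᵐ[P]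
          fun ω => ∑ i ∈ c.support, c i * ξ i ω := by
        have hs := Lp.coeFn_finsetSum (μ := P) (p := 2) c.support (fun i => c i • v i)
        have hall : ∀ᵐ ω ∂P, ∀ i ∈ c.support, (c i • v i : Lp ℝ 2 P) ω = c i * ξ i ω := by
          rw [eventually_all_finset]
          intro i _
          filter_upwards [Lp.coeFn_smul (c i) (v i), (hξ i).coeFn_toLp] with ω h4 h5
          rw [h4]
          simp only [Pi.smul_apply, smul_eq_mul]
          congr 1
        filter_upwards [hs, hall] with ω h4 h5
        rw [h4]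
        rw [Finset.sum_apply]
        exact Finset.sum_congr rfl h5
      rw [h1, h2]
      unfold phi
      have h4 : ∫ ω, Complex.exp (Complex.I * (((∑ i ∈ c.support, c i • v i : Lp ℝ 2 P) ω : ℝ) : ℂ)) ∂P
          = ∫ ω, Complex.exp (Complex.I * ((∑ i ∈ c.support, c i * ξ i ω : ℝ) : ℂ)) ∂P := by
        apply integral_congr_ae
        filter_upwards [h3] with ω hω
        rw [hω]
      rw [h4]
      have hmeas : ∀ i, Measurable (fun ω => c i * ξ i ω) := fun i => (hξm i).const_mul _
      have hcomp : iIndepFun (fun i ω => c i * ξ i ω) P :=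
        hind.comp (fun i x => c i * x) (fun i => measurable_const_mul _)
      have h5 := iIndepFun.charFun_map_fun_finsetSum_eq_prod (s := c.support)
        (X := fun i ω => c i * ξ i ω) (fun i _ => (hmeas i).aemeasurable) (hcomp.restrict _)
      have h6 := congrFun h5 1
      rw [charFun_apply_real, integral_map (Finset.measurable_sum _ fun i _ => hmeas i).aemeasurable
        (by fun_prop), Finset.prod_apply] at h6
      have h7 : ∀ i, charFun (P.map (fun ω => c i * ξ i ω)) 1 = Complex.exp (-(1 / 2 : ℂ) * ((c i ^ 2 : ℝ) : ℂ)) := by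
        intro i
        rw [charFun_apply_real, integral_map (hmeas i).aemeasurable (by fun_prop)]
        have h8 : charFun (P.map (ξ i)) (c i) = Complex.exp (-(1 / 2 : ℂ) * ((c i ^ 2 : ℝ) : ℂ)) := by
          rw [hξlaw, charFun_gaussianReal]
          congr 1
          push_cast
          ring
        rw [charFun_apply_real, integral_map (hξm i).aemeasurable (by fun_prop)] at h8
        rw [← h8]
        congr 1
        funext ω
        congr 1
        push_cast
        ring
      rw [Finset.prod_congr rfl (fun i _ => h7 i), ← Complex.exp_sum] at h6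
      have h9 : ∑ i ∈ c.support, -(1 / 2 : ℂ) * ((c i ^ 2 : ℝ) : ℂ) =
          -(1 / 2 : ℂ) * ((∑ i ∈ c.support, c i ^ 2 : ℝ) : ℂ) := by
        rw [← Finset.mul_sum]
        push_cast
        rfl
      rw [h9] at h6
      rw [← h6]
      congr 1
      funext ω
      congr 1
      push_cast
      ring
    intro h
    have hd := b.dense_span
    have hmem : h ∈ (Submodule.span ℝ (Set.range b)).topologicalClosure := by
      rw [hd]; trivial
    rw [← SetLike.mem_coe, Submodule.topologicalClosure_coe] at hmem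
    exact closure_minimal (fun x hx => hspan x hx) hclosed hmem
  refine ⟨w → ℝ, inferInstance, P, inferInstance,
    fun h => (Lp.aestronglyMeasurable (T h)).mk (T h), fun h =>
      ((Lp.aestronglyMeasurable (T h)).stronglyMeasurable_mk).measurable, ?_⟩
  intro n q a
  have h1 := hphi_eq (∑ i, a i • q i)
  unfold phi at h1
  have h2 : ‖∑ i, a i • q i‖ ^ 2 = ∑ i, ∑ j, a i * a j * inner ℝ (q i) (q j) := by
    rw [← real_inner_self_eq_norm_sq, sum_inner]
    refine Finset.sum_congr rfl fun i _ => ?_
    rw [inner_sum]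
    refine Finset.sum_congr rfl fun j _ => ?_
    rw [real_inner_smul_left, real_inner_smul_right]
    ring
  rw [h2] at h1
  rw [← h1]
  apply integral_congr_ae
  have hs := Lp.coeFn_finsetSum (μ := P) (p := 2) Finset.univ (fun i => a i • T (q i))
  have hT : T (∑ i, a i • q i) = ∑ i, a i • T (q i) := by
    rw [map_sum]
    refine Finset.sum_congr rfl fun i _ => ?_
    rw [map_smul]
  have hall : ∀ᵐ ω ∂P, ∀ i, (a i • T (q i) : Lp ℝ 2 P) ω =
      a i * (Lp.aestronglyMeasurable (T (q i))).mk (T (q i)) ω := by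
    rw [ae_all_iff]
    intro i
    filter_upwards [Lp.coeFn_smul (a i) (T (q i)),
      (Lp.aestronglyMeasurable (T (q i))).ae_eq_mk] with ω h4 h5
    rw [h4]
    simp only [Pi.smul_apply, smul_eq_mul]
    rw [h5]
  filter_upwards [hs, hall] with ω h4 h5
  rw [hT, h4, Finset.sum_apply]
  congr 3
  refine Finset.sum_congr rfl fun i _ => ?_
  rw [h5 i]

end Pool.Agent.Helper41
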