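import Mathlib
import Pool.Agent.Helper41.Isonormal
import Pool.Agent.Helper41.Tail

open MeasureTheory ProbabilityTheory Filter Topology
open scoped ENNReal NNReal

namespace Pool.Agent.Helper41

/-- grid step -/
noncomputable def stp' (n : ℕ) : ℝ≥0 := 1 / 2 ^ n

/-- Existence of a family of independent pre-Brownian sheets. -/
theorem exists_presheet (d : ℕ) :
    ∃ (Ω : Type) (_ : MeasurableSpace Ω) (P : Measure Ω) (_ : IsProbabilityMeasure P)
      (X : Fin d × ℝ≥0 × ℝ≥0 → Ω → ℝ), IsSheet X P := by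
  let μ : Measure (Fin d × ℝ × ℝ) := (Measure.count : Measure (Fin d)).prod (volume.prod volume)
  let R : Fin d × ℝ≥0 × ℝ≥0 → Set (Fin d × ℝ × ℝ) := fun q =>
    {q.1} ×ˢ (Set.Icc (0 : ℝ) q.2.1 ×ˢ Set.Icc (0 : ℝ) q.2.2)
  have hR : ∀ q, MeasurableSet (R q) := fun q =>
    (measurableSet_singleton _).prod (measurableSet_Icc.prod measurableSet_Icc)
  have hinter : ∀ p q : Fin d × ℝ≥0 × ℝ≥0, μ (R p ∩ R q) =
      (if p.1 = q.1 then 1 else 0) * (ENNReal.ofReal ((min p.2.1 q.2.1 : ℝ≥0) : ℝ) *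
        ENNReal.ofReal ((min p.2.2 q.2.2 : ℝ≥0) : ℝ)) := by
    intro p q
    simp only [R, μ]
    rw [Set.prod_inter_prod, Set.prod_inter_prod, Measure.prod_prod, Measure.prod_prod]
    congr 1
    · by_cases h : p.1 = q.1
      · rw [if_pos h, h, Set.inter_self, Measure.count_singleton]
      · rw [if_neg h]
        have : ({p.1} : Set (Fin d)) ∩ {q.1} = ∅ := by
          ext x
          simp only [Set.mem_inter_iff, Set.mem_singleton_iff, Set.mem_empty_iff_false, iff_false,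
            not_and]
          rintro rfl
          exact h
        rw [this, measure_empty]
    · rw [Set.Icc_inter_Icc, Set.Icc_inter_Icc, Real.volume_Icc, Real.volume_Icc]
      simp
  have hfin : ∀ q, μ (R q) ≠ ∞ := by
    intro q
    have := hinter q q
    rw [Set.inter_self] at this
    rw [this]
    simp [ENNReal.mul_eq_top]
  let H := Lp ℝ 2 μ
  obtain ⟨Ω, mΩ, P, hP, W, hW, hWchar⟩ := exists_isonormal H
  refine ⟨Ω, mΩ, P, hP, fun q => W (indicatorConstLp 2 (hR q) (hfin q) (1 : ℝ)), ?_⟩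
  constructor
  · intro q
    exact hW _
  · intro n q a
    have h := hWchar n (fun i => indicatorConstLp 2 (hR (q i)) (hfin (q i)) (1 : ℝ)) a
    have e : (∑ i, ∑ j, a i * a j * (inner ℝ
        (indicatorConstLp 2 (hR (q i)) (hfin (q i)) (1 : ℝ) : Lp ℝ 2 μ)
        (indicatorConstLp 2 (hR (q j)) (hfin (q j)) (1 : ℝ) : Lp ℝ 2 μ) : ℝ)) =
        ∑ i, ∑ j, a i * a j * sheetK (q i) (q j) := ?_
    · rw [h, e]
    refine Finset.sum_congr rfl fun i _ => Finset.sum_congr rfl fun j _ => ?_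
    congr 1
    rw [L2.real_inner_indicatorConstLp_one_indicatorConstLp_one (hR (q i)) (hR (q j))
      (hfin (q i)) (hfin (q j)), measureReal_def, hinter]
    unfold sheetK
    by_cases hij : (q i).1 = (q j).1
    · rw [if_pos hij, if_pos hij, one_mul, ENNReal.toReal_mul, ENNReal.toReal_ofReal NNReal.zero_le_coe,
        ENNReal.toReal_ofReal NNReal.zero_le_coe]
    · rw [if_neg hij, if_neg hij, zero_mul, ENNReal.toReal_zero]

/-- Increments between dyadic floors at two levels. -/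
theorem chain_levels {f : ℝ≥0 → ℝ≥0 → ℝ} {K n : ℕ} {c : ℝ} (hc : 0 ≤ c)
    (he : ∀ m, n ≤ m → EdgeBound f K m (c * (m + 1) * qq ^ m))
    {s t : ℝ≥0} (hs : s ≤ K) (ht : t ≤ K) (j : ℕ) :
    |f (fl (n + j) s) (fl (n + j) t) - f (fl n s) (fl n t)| ≤ 7 * c * (n + 4) * qq ^ n := by
  have hq0 := qq_pos
  have hq1 := qq_lt
  set D : ℕ → ℝ := fun m => 7 * c * (m + 4) * qq ^ m with hD
  have hDnn : ∀ m, 0 ≤ D m := fun m => by simp only [hD]; positivity
  have hstep : ∀ m, n ≤ m →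
      |f (fl (m + 1) s) (fl (m + 1) t) - f (fl m s) (fl m t)| ≤ D m - D (m + 1) := by
    intro m hm
    refine (fl_step (he (m + 1) (by omega)) hs ht).trans ?_
    simp only [hD]
    push_cast
    have hqm : 0 ≤ c * qq ^ m := by positivity
    have key : 2 * ((m : ℝ) + 1 + 1) * qq ≤ 7 * ((m : ℝ) + 4) - 7 * ((m : ℝ) + 1 + 4) * qq := by
      have hm0 : (0 : ℝ) ≤ m := Nat.cast_nonneg m
      nlinarith
    calc 2 * (c * ((m : ℝ) + 1 + 1) * qq ^ (m + 1))
        = (c * qq ^ m) * (2 * ((m : ℝ) + 1 + 1) * qq) := by rw [pow_succ]; ring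
      _ ≤ (c * qq ^ m) * (7 * ((m : ℝ) + 4) - 7 * ((m : ℝ) + 1 + 4) * qq) := by gcongr
      _ = 7 * c * (m + 4) * qq ^ m - 7 * c * (m + 1 + 4) * qq ^ (m + 1) := by
          rw [pow_succ]; ring
  have hind : ∀ j, |f (fl (n + j) s) (fl (n + j) t) - f (fl n s) (fl n t)| ≤ D n - D (n + j) := by
    intro j
    induction j with
    | zero => simp
    | succ j ih =>
      have h1 := hstep (n + j) (by omega)
      calc |f (fl (n + (j + 1)) s) (fl (n + (j + 1)) t) - f (fl n s) (fl n t)|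
          = |(f (fl (n + j + 1) s) (fl (n + j + 1) t) - f (fl (n + j) s) (fl (n + j) t)) +
            (f (fl (n + j) s) (fl (n + j) t) - f (fl n s) (fl n t))| := by
              rw [← add_assoc]; congr 1; ring
        _ ≤ _ := abs_add_le _ _
        _ ≤ (D (n + j) - D (n + j + 1)) + (D n - D (n + j)) := add_le_add h1 ih
        _ = D n - D (n + (j + 1)) := by rw [← add_assoc]; ring
  refine (hind j).trans ?_
  have := hDnn (n + j)
  simp only [hD] at this ⊢
  linarith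

lemma edge_adj {f : ℝ≥0 → ℝ≥0 → ℝ} {K n : ℕ} {e : ℝ} (he : EdgeBound f K n e) (he0 : 0 ≤ e)
    {σ σ' τ τ' : ℕ} (hσ : σ ≤ K * 2 ^ n) (hσ' : σ' ≤ K * 2 ^ n) (hτ : τ ≤ K * 2 ^ n)
    (hτ' : τ' ≤ K * 2 ^ n) (h1 : σ ≤ σ' + 1) (h2 : σ' ≤ σ + 1) (h3 : τ ≤ τ' + 1)
    (h4 : τ' ≤ τ + 1) :
    |f (σ / 2 ^ n) (τ / 2 ^ n) - f (σ' / 2 ^ n) (τ' / 2 ^ n)| ≤ 2 * e := by
  have s1 : |f (σ / 2 ^ n) (τ / 2 ^ n) - f (σ' / 2 ^ n) (τ / 2 ^ n)| ≤ e := by
    rcases Nat.lt_trichotomy σ σ' with h | h | h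
    · have : σ' = σ + 1 := by omega
      subst this
      have := (he σ τ hσ hτ).1
      rwa [abs_sub_comm] at this
    · subst h; simpa using he0
    · have : σ = σ' + 1 := by omega
      subst this
      exact (he σ' τ hσ' hτ).1
  have s2 : |f (σ' / 2 ^ n) (τ / 2 ^ n) - f (σ' / 2 ^ n) (τ' / 2 ^ n)| ≤ e := by
    rcases Nat.lt_trichotomy τ τ' with h | h | h
    · have : τ' = τ + 1 := by omega
      subst this
      have := (he σ' τ hσ' hτ).2
      rwa [abs_sub_comm] at this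
    · subst h; simpa using he0
    · have : τ = τ' + 1 := by omega
      subst this
      exact (he σ' τ' hσ' hτ').2
  calc |f (σ / 2 ^ n) (τ / 2 ^ n) - f (σ' / 2 ^ n) (τ' / 2 ^ n)|
      = |(f (σ / 2 ^ n) (τ / 2 ^ n) - f (σ' / 2 ^ n) (τ / 2 ^ n)) +
        (f (σ' / 2 ^ n) (τ / 2 ^ n) - f (σ' / 2 ^ n) (τ' / 2 ^ n))| := by congr 1; ring
    _ ≤ _ := abs_add_le _ _
    _ ≤ _ := by linarith

/-- good paths: edge bounds eventually hold on every box -/
def GoodPath (f : ℝ≥0 → ℝ≥0 → ℝ) : Prop :=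
  ∀ K : ℕ, 1 ≤ K → ∀ᶠ n : ℕ in atTop, EdgeBound f K n (edgeE K n)

lemma tendsto_modulus (C : ℝ) : Tendsto (fun n : ℕ => C * ((n : ℝ) + 4) * qq ^ n) atTop (𝓝 0) := by
  have h1 : Tendsto (fun n : ℕ => (n : ℝ) * qq ^ n) atTop (𝓝 0) :=
    tendsto_self_mul_const_pow_of_lt_one qq_pos.le (qq_lt.trans (by norm_num))
  have h2 : Tendsto (fun n : ℕ => qq ^ n) atTop (𝓝 0) :=
    tendsto_pow_atTop_nhds_zero_of_lt_one qq_pos.le (qq_lt.trans (by norm_num))
  have h3 := (h1.add (h2.const_mul 4)).const_mul C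
  simp only [mul_zero, add_zero] at h3
  refine h3.congr fun n => ?_
  ring

lemma GoodPath.exists_levels {f : ℝ≥0 → ℝ≥0 → ℝ} (hf : GoodPath f) (K : ℕ) (hK : 1 ≤ K) :
    ∃ N, ∀ n, N ≤ n → EdgeBound f K n (edgeE K n) ∧ ∀ s t : ℝ≥0, s ≤ K → t ≤ K → ∀ j,
      |f (fl (n + j) s) (fl (n + j) t) - f (fl n s) (fl n t)| ≤ 7 * √K * (n + 4) * qq ^ n := by
  obtain ⟨N, hN⟩ := eventually_atTop.1 (hf K hK)
  refine ⟨N, fun n hn => ⟨hN n hn, fun s t hs ht j => ?_⟩⟩
  exact chain_levels (Real.sqrt_nonneg _) (fun m hm => hN m (hn.trans hm)) hs ht j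

lemma GoodPath.cauchy {f : ℝ≥0 → ℝ≥0 → ℝ} (hf : GoodPath f) (s t : ℝ≥0) :
    ∃ x, Tendsto (fun n => f (fl n s) (fl n t)) atTop (𝓝 x) := by
  obtain ⟨K₁, hK₁⟩ := exists_nat_ge s
  obtain ⟨K₂, hK₂⟩ := exists_nat_ge t
  let K := max 1 (max K₁ K₂)
  have hK : 1 ≤ K := le_max_left _ _
  have hsK : s ≤ K := hK₁.trans (by have : K₁ ≤ K := by simp [K]
                                    exact_mod_cast this)
  have htK : t ≤ K := hK₂.trans (by have : K₂ ≤ K := by simp [K]
                                    exact_mod_cast this)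
  obtain ⟨N, hN⟩ := hf.exists_levels K hK
  apply cauchySeq_tendsto_of_complete
  rw [Metric.cauchySeq_iff']
  intro ε hε
  have h1 := (tendsto_modulus (7 * √K)).eventually (gt_mem_nhds hε)
  obtain ⟨n, hn1, hn2⟩ := (h1.and (eventually_ge_atTop N)).exists
  refine ⟨n, fun m hm => ?_⟩
  obtain ⟨j, rfl⟩ := Nat.exists_eq_add_of_le hm
  rw [Real.dist_eq]
  exact ((hN n hn2).2 s t hsK htK j).trans_lt hn1

/-- dyadic regularization of a function -/
noncomputable def regul (f : ℝ≥0 → ℝ≥0 → ℝ) (s t : ℝ≥0) : ℝ :=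
  limUnder atTop (fun n => f (fl n s) (fl n t))

lemma GoodPath.tendsto_regul {f : ℝ≥0 → ℝ≥0 → ℝ} (hf : GoodPath f) (s t : ℝ≥0) :
    Tendsto (fun n => f (fl n s) (fl n t)) atTop (𝓝 (regul f s t)) :=
  tendsto_nhds_limUnder (hf.cauchy s t)



lemma floor_adj {n : ℕ} {x y : ℝ≥0} (h : x ≤ y + stp' n) : ⌊x * 2 ^ n⌋₊ ≤ ⌊y * 2 ^ n⌋₊ + 1 := by
  have h1 : x * 2 ^ n < ((⌊y * 2 ^ n⌋₊ + 2 : ℕ) : ℝ≥0) := by
    have h2 : y * 2 ^ n < ⌊y * 2 ^ n⌋₊ + 1 := Nat.lt_floor_add_one _
    calc x * 2 ^ n ≤ (y + stp' n) * 2 ^ n := by gcongr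
      _ = y * 2 ^ n + 1 := by
          unfold stp'
          rw [add_mul]
          congr 1
          field_simp
      _ < (⌊y * 2 ^ n⌋₊ + 1) + 1 := by gcongr
      _ = _ := by push_cast; ring
  have := (Nat.floor_lt zero_le).2 h1
  omega

lemma GoodPath.continuous_regul {f : ℝ≥0 → ℝ≥0 → ℝ} (hf : GoodPath f) :
    Continuous (fun p : ℝ≥0 × ℝ≥0 => regul f p.1 p.2) := by
  rw [Metric.continuous_iff]
  rintro ⟨s, t⟩ ε hε
  obtain ⟨K₁, hK₁⟩ := exists_nat_ge (s + 1)
  obtain ⟨K₂, hK₂⟩ := exists_nat_ge (t + 1)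
  let K := max 1 (max K₁ K₂)
  have hK : 1 ≤ K := le_max_left _ _
  have hsK : s + 1 ≤ K := hK₁.trans (by have : K₁ ≤ K := by simp [K]
                                        exact_mod_cast this)
  have htK : t + 1 ≤ K := hK₂.trans (by have : K₂ ≤ K := by simp [K]
                                        exact_mod_cast this)
  obtain ⟨N, hN⟩ := hf.exists_levels K hK
  have h1 := (tendsto_modulus (16 * √K)).eventually (gt_mem_nhds hε)
  obtain ⟨n, hn1, hn2⟩ := (h1.and (eventually_ge_atTop N)).exists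
  obtain ⟨hnE, hnL⟩ := hN n hn2
  have hlim : ∀ x y : ℝ≥0, x ≤ K → y ≤ K →
      |regul f x y - f (fl n x) (fl n y)| ≤ 7 * √K * (n + 4) * qq ^ n := by
    intro x y hx hy
    have ht : Tendsto (fun j => |f (fl (n + j) x) (fl (n + j) y) - f (fl n x) (fl n y)|) atTop
        (𝓝 |regul f x y - f (fl n x) (fl n y)|) := by
      apply Tendsto.abs
      apply Tendsto.sub _ tendsto_const_nhds
      have := (tendsto_add_atTop_iff_nat n).2 (hf.tendsto_regul x y)
      simpa [add_comm] using this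
    exact le_of_tendsto' ht fun j => hnL x y hx hy j
  have hstp : (0 : ℝ) < stp' n := by
    unfold stp'
    positivity
  have hstp1 : (stp' n : ℝ) ≤ 1 := by
    unfold stp'
    push_cast
    rw [div_le_one (by positivity)]
    exact one_le_pow₀ (by norm_num)
  refine ⟨stp' n, hstp, ?_⟩
  rintro ⟨s', t'⟩ hdist
  rw [Prod.dist_eq, max_lt_iff, NNReal.dist_eq, NNReal.dist_eq, abs_lt, abs_lt] at hdist
  simp only at hdist
  obtain ⟨⟨hd1, hd2⟩, hd3, hd4⟩ := hdist
  have a1 : s' ≤ s + stp' n := by rw [← NNReal.coe_le_coe]; push_cast; linarith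
  have a2 : s ≤ s' + stp' n := by rw [← NNReal.coe_le_coe]; push_cast; linarith
  have a3 : t' ≤ t + stp' n := by rw [← NNReal.coe_le_coe]; push_cast; linarith
  have a4 : t ≤ t' + stp' n := by rw [← NNReal.coe_le_coe]; push_cast; linarith
  have hstp1' : stp' n ≤ 1 := by rw [← NNReal.coe_le_coe]; exact hstp1
  have hs'K : s' ≤ K := a1.trans ((add_le_add_right hstp1' s).trans hsK)
  have ht'K : t' ≤ K := a3.trans ((add_le_add_right hstp1' t).trans htK)
  have hsK' : s ≤ K := le_self_add.trans hsK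
  have htK' : t ≤ K := le_self_add.trans htK
  have hfloor : ∀ x : ℝ≥0, x ≤ K → ⌊x * 2 ^ n⌋₊ ≤ K * 2 ^ n := by
    intro x hx
    apply Nat.floor_le_of_le
    push_cast
    gcongr
  have hE0 : 0 ≤ edgeE K n := by
    unfold edgeE
    have := qq_pos
    positivity
  have hadj := edge_adj hnE hE0 (hfloor s' hs'K) (hfloor s hsK') (hfloor t' ht'K) (hfloor t htK')
    (floor_adj a1) (floor_adj a2) (floor_adj a3) (floor_adj a4)
  have e1 := hlim s' t' hs'K ht'K
  have e2 := hlim s t hsK' htK'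
  have hadj' : |f (fl n s') (fl n t') - f (fl n s) (fl n t)| ≤ 2 * edgeE K n := hadj
  have hedge : 2 * edgeE K n ≤ 2 * √K * (n + 4) * qq ^ n := by
    unfold edgeE
    have hq := qq_pos
    have : √(K : ℝ) * ((n : ℝ) + 1) * qq ^ n ≤ √K * (n + 4) * qq ^ n := by
      gcongr
      norm_num
    linarith
  rw [Real.dist_eq]
  show |regul f s' t' - regul f s t| < ε
  have hmod : 7 * √(K : ℝ) * (n + 4) * qq ^ n + 7 * √K * (n + 4) * qq ^ n +
      2 * √K * (n + 4) * qq ^ n = 16 * √K * (n + 4) * qq ^ n := by ring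
  rw [abs_le] at e1 e2 hadj'
  rw [abs_lt]
  constructor <;> linarith

lemma continuous_sheetK_fl {ι : Type*} [DecidableEq ι] (p q : ι × ℝ≥0 × ℝ≥0) :
    Tendsto (fun n => sheetK (p.1, fl n p.2.1, fl n p.2.2) (q.1, fl n q.2.1, fl n q.2.2)) atTop
      (𝓝 (sheetK p q)) := by
  unfold sheetK
  by_cases h : p.1 = q.1
  · simp only [h, if_true]
    have h1 : Tendsto (fun n => min (fl n p.2.1) (fl n q.2.1)) atTop (𝓝 (min p.2.1 q.2.1)) :=
      (tendsto_fl _).min (tendsto_fl _)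
    have h2 : Tendsto (fun n => min (fl n p.2.2) (fl n q.2.2)) atTop (𝓝 (min p.2.2 q.2.2)) :=
      (tendsto_fl _).min (tendsto_fl _)
    exact ((NNReal.tendsto_coe.2 h1).mul (NNReal.tendsto_coe.2 h2))
  · simp only [h, if_false]
    exact tendsto_const_nhds

/-- Existence of a family of independent Brownian sheets all of whose paths are continuous. -/
theorem exists_sheet (d : ℕ) :
    ∃ (Ω : Type) (_ : MeasurableSpace Ω) (P : Measure Ω) (_ : IsProbabilityMeasure P)
      (X : Fin d × ℝ≥0 × ℝ≥0 → Ω → ℝ), IsSheet X P ∧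
        ∀ ω c, Continuous (fun p : ℝ≥0 × ℝ≥0 => X (c, p.1, p.2) ω) := by
  obtain ⟨Ω, mΩ, P, hP, X0, hX0⟩ := exists_presheet d
  have hgood : ∀ᵐ ω ∂P, ∀ c, GoodPath (fun s t => X0 (c, s, t) ω) := by
    rw [ae_all_iff]
    intro c
    have : ∀ᵐ ω ∂P, ∀ K : ℕ, 1 ≤ K → ∀ᶠ n : ℕ in atTop,
        EdgeBound (fun s t => X0 (c, s, t) ω) K n (edgeE K n) := by
      rw [ae_all_iff]
      intro K
      by_cases hK : 1 ≤ K
      · filter_upwards [hX0.ae_edgeBound c K hK] with ω hω _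
        exact hω
      · exact Eventually.of_forall fun ω h' => absurd h' hK
    exact this
  let N : Set Ω := toMeasurable P {ω | ¬ ∀ c, GoodPath (fun s t => X0 (c, s, t) ω)}
  have hNm : MeasurableSet N := measurableSet_toMeasurable _ _
  have hN0 : P N = 0 := by
    rw [measure_toMeasurable]
    exact hgood
  have hNgood : ∀ ω, ω ∉ N → ∀ c, GoodPath (fun s t => X0 (c, s, t) ω) := by
    intro ω hω
    by_contra hcon
    exact hω (subset_toMeasurable _ _ hcon)
  classical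
  let X : Fin d × ℝ≥0 × ℝ≥0 → Ω → ℝ := fun q ω =>
    if ω ∈ N then 0 else regul (fun s t => X0 (q.1, s, t) ω) q.2.1 q.2.2
  let F : ℕ → Fin d × ℝ≥0 × ℝ≥0 → Ω → ℝ := fun n q ω =>
    if ω ∈ N then 0 else X0 (q.1, fl n q.2.1, fl n q.2.2) ω
  have hF : ∀ n q, Measurable (F n q) := fun n q =>
    Measurable.ite hNm measurable_const (hX0.meas _)
  have hFX : ∀ q ω, Tendsto (fun n => F n q ω) atTop (𝓝 (X q ω)) := by
    intro q ω
    by_cases hω : ω ∈ N
    · simp only [F, X, hω, if_true]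
      exact tendsto_const_nhds
    · simp only [F, X, hω, if_false]
      exact (hNgood ω hω q.1).tendsto_regul q.2.1 q.2.2
  have hXm : ∀ q, Measurable (X q) := fun q =>
    measurable_of_tendsto_metrizable (fun n => hF n q) (tendsto_pi_nhds.2 fun ω => hFX q ω)
  refine ⟨Ω, mΩ, P, hP, X, ⟨hXm, ?_⟩, ?_⟩
  · intro n q a
    have h1 : Tendsto (fun m => ∫ ω, Complex.exp (Complex.I * ((∑ i, a i * F m (q i) ω : ℝ) : ℂ)) ∂P)
        atTop (𝓝 (∫ ω, Complex.exp (Complex.I * ((∑ i, a i * X (q i) ω : ℝ) : ℂ)) ∂P)) := by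
      refine tendsto_integral_of_dominated_convergence (fun _ => (1 : ℝ)) ?_ (integrable_const _) ?_ ?_
      · intro m
        have : Measurable (fun ω => ∑ i, a i * F m (q i) ω) := by
          refine Finset.measurable_sum _ fun i _ => (hF m (q i)).const_mul _
        exact (integrable_exp _ this.aestronglyMeasurable).1
      · intro m
        refine Eventually.of_forall fun ω => ?_
        rw [mul_comm, Complex.norm_exp_ofReal_mul_I]
      · refine Eventually.of_forall fun ω => ?_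
        have h2 : Tendsto (fun m => ∑ i, a i * F m (q i) ω) atTop (𝓝 (∑ i, a i * X (q i) ω)) :=
          tendsto_finset_sum _ fun i _ => (hFX (q i) ω).const_mul _
        have h3 : Continuous (fun x : ℝ => Complex.exp (Complex.I * (x : ℂ))) := by fun_prop
        exact (h3.tendsto _).comp h2
    have h2 : ∀ m, ∫ ω, Complex.exp (Complex.I * ((∑ i, a i * F m (q i) ω : ℝ) : ℂ)) ∂P =
        Complex.exp (-(1 / 2 : ℂ) * ((∑ i, ∑ j, a i * a j *
          sheetK ((q i).1, fl m (q i).2.1, fl m (q i).2.2)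
            ((q j).1, fl m (q j).2.1, fl m (q j).2.2) : ℝ) : ℂ)) := by
      intro m
      rw [← hX0.char n (fun i => ((q i).1, fl m (q i).2.1, fl m (q i).2.2)) a]
      apply integral_congr_ae
      have hae : ∀ᵐ ω ∂P, ω ∉ N := measure_eq_zero_iff_ae_notMem.1 hN0
      filter_upwards [hae] with ω hω
      simp only [F, hω, if_false]
    have h3 : Tendsto (fun m => Complex.exp (-(1 / 2 : ℂ) * ((∑ i, ∑ j, a i * a j *
          sheetK ((q i).1, fl m (q i).2.1, fl m (q i).2.2)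
            ((q j).1, fl m (q j).2.1, fl m (q j).2.2) : ℝ) : ℂ))) atTop
        (𝓝 (Complex.exp (-(1 / 2 : ℂ) * ((∑ i, ∑ j, a i * a j * sheetK (q i) (q j) : ℝ) : ℂ)))) := by
      have h4 : Tendsto (fun m => ∑ i, ∑ j, a i * a j *
          sheetK ((q i).1, fl m (q i).2.1, fl m (q i).2.2)
            ((q j).1, fl m (q j).2.1, fl m (q j).2.2)) atTop
          (𝓝 (∑ i, ∑ j, a i * a j * sheetK (q i) (q j))) :=
        tendsto_finset_sum _ fun i _ => tendsto_finset_sum _ fun j _ =>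
          (continuous_sheetK_fl (q i) (q j)).const_mul _
      have h5 : Continuous (fun x : ℝ => Complex.exp (-(1 / 2 : ℂ) * (x : ℂ))) := by fun_prop
      exact (h5.tendsto _).comp h4
    simp_rw [h2] at h1
    exact tendsto_nhds_unique h1 h3
  · intro ω c
    by_cases hω : ω ∈ N
    · simp only [X, hω, if_true]
      exact continuous_const
    · simp only [X, hω, if_false]
      exact (hNgood ω hω c).continuous_regul

end Pool.Agent.Helper41
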