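import Mathlib
import Pool.Agent.Helper41.BlockFinal
import Pool.Agent.Helper41.Exist

open MeasureTheory ProbabilityTheory Filter Topology
open scoped ENNReal NNReal

namespace Pool.Agent.Helper41

variable {Ω : Type*} [MeasurableSpace Ω] {P : Measure Ω} [IsProbabilityMeasure P]

/-- Law of finite linear combinations, indexed by a finite type. -/
lemma CharKernel.map_eq_fintype {T : Type*} {X : T → Ω → ℝ} {K : T → T → ℝ}
    (h : CharKernel X P K) (hX : ∀ t, Measurable (X t)) {ι : Type*} [Fintype ι]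
    (q : ι → T) (a : ι → ℝ) :
    P.map (fun ω => ∑ i, a i * X (q i) ω) =
      gaussianReal 0 (∑ i, ∑ j, a i * a j * K (q i) (q j)).toNNReal := by
  have h1 := h.map_eq hX (q ∘ (Fintype.equivFin ι).symm) (a ∘ (Fintype.equivFin ι).symm)
  have e1 : ∀ ω, ∑ i, (a ∘ (Fintype.equivFin ι).symm) i * X ((q ∘ (Fintype.equivFin ι).symm) i) ω =
      ∑ i, a i * X (q i) ω := fun ω =>
    Equiv.sum_comp (Fintype.equivFin ι).symm (fun i => a i * X (q i) ω)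
  have e2 : ∑ i, ∑ j, (a ∘ (Fintype.equivFin ι).symm) i * (a ∘ (Fintype.equivFin ι).symm) j *
      K ((q ∘ (Fintype.equivFin ι).symm) i) ((q ∘ (Fintype.equivFin ι).symm) j) =
      ∑ i, ∑ j, a i * a j * K (q i) (q j) := by
    rw [← Equiv.sum_comp (Fintype.equivFin ι).symm (fun i => ∑ j, a i * a j * K (q i) (q j))]
    refine Finset.sum_congr rfl fun i _ => ?_
    rw [← Equiv.sum_comp (Fintype.equivFin ι).symm
      (fun j => a ((Fintype.equivFin ι).symm i) * a j * K (q ((Fintype.equivFin ι).symm i)) (q j))]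
    rfl
  simp_rw [e1] at h1
  rw [e2] at h1
  exact h1

variable {X : Fin 4 × ℝ≥0 × ℝ≥0 → Ω → ℝ}

lemma continuous_vinc {ω : Ω} (hcont : ∀ c, Continuous (fun p : ℝ≥0 × ℝ≥0 => X (c, p.1, p.2) ω))
    (i : ℕ) :
    Continuous (fun q : ℝ≥0 × ℕ × ℝ≥0 × ℝ≥0 =>
      vinc X q.1 (tb i q.2.1 q.2.2.1) (te i q.2.1 q.2.2.2) ω) := by
  have hn : Continuous (fun q : ℝ≥0 × ℕ × ℝ≥0 × ℝ≥0 => (Nat.pair i q.2.1 : ℝ≥0)) := by
    have : Continuous (fun n : ℕ => (Nat.pair i n : ℝ≥0)) := continuous_of_discreteTopology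
    exact this.comp (continuous_fst.comp continuous_snd)
  have htb : Continuous (fun q : ℝ≥0 × ℕ × ℝ≥0 × ℝ≥0 => tb i q.2.1 q.2.2.1) := by
    unfold tb
    fun_prop
  have hte : Continuous (fun q : ℝ≥0 × ℕ × ℝ≥0 × ℝ≥0 => te i q.2.1 q.2.2.2) := by
    unfold te
    fun_prop
  refine continuous_pi fun c => ?_
  have h1 : Continuous (fun q : ℝ≥0 × ℕ × ℝ≥0 × ℝ≥0 => X (c, q.1, te i q.2.1 q.2.2.2) ω) :=
    (hcont c).comp (continuous_fst.prodMk hte)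
  have h2 : Continuous (fun q : ℝ≥0 × ℕ × ℝ≥0 × ℝ≥0 => X (c, q.1, tb i q.2.1 q.2.2.1) ω) :=
    (hcont c).comp (continuous_fst.prodMk htb)
  unfold vinc incr
  exact h1.sub h2

/-- Passing from approximate to exact double points by compactness. -/
theorem exact_of_near {ω : Ω} (hcont : ∀ c, Continuous (fun p : ℝ≥0 × ℝ≥0 => X (c, p.1, p.2) ω))
    (hnear : ∀ K : ℕ, ∃ k, K ≤ k ∧ ∃ s : ℝ≥0, 1 ≤ s ∧ s ≤ 2 ∧ ∀ i < k, ∃ n < mi i,
      ∃ u v : ℝ≥0, u ≤ 1 ∧ v ≤ 1 ∧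
        ‖vinc X s (tb i n u) (te i n v) ω‖ ≤ 1 / ((k : ℝ) + 1)) :
    ∃ s : ℝ≥0, 1 ≤ s ∧ ∀ i, ∃ n, ∃ u v : ℝ≥0, vinc X s (tb i n u) (te i n v) ω = 0 := by
  choose k hk s hs1 hs2 H using hnear
  obtain ⟨s', hs', φ, hφ, hlim⟩ := (isCompact_Icc (a := (1 : ℝ≥0)) (b := 2)).tendsto_subseq
    (x := s) (fun K => ⟨hs1 K, hs2 K⟩)
  refine ⟨s', hs'.1, fun i => ?_⟩
  have H' : ∀ K, ∃ q : ℕ × ℝ≥0 × ℝ≥0, q ∈ (Set.Iio (mi i)) ×ˢ (Set.Icc (0 : ℝ≥0) 1) ×ˢ
      (Set.Icc (0 : ℝ≥0) 1) ∧ (i < K →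
      ‖vinc X (s (φ K)) (tb i q.1 q.2.1) (te i q.1 q.2.2) ω‖ ≤ 1 / ((k (φ K) : ℝ) + 1)) := by
    intro K
    by_cases hiK : i < K
    · obtain ⟨n, hn, u, v, hu, hv, hq⟩ := H (φ K) i
        (lt_of_lt_of_le hiK ((hφ.id_le K).trans (hk (φ K))))
      exact ⟨(n, u, v), ⟨hn, ⟨zero_le, hu⟩, ⟨zero_le, hv⟩⟩, fun _ => hq⟩
    · exact ⟨(0, 0, 0), ⟨mi_pos i, ⟨zero_le, zero_le⟩, ⟨zero_le, zero_le⟩⟩, fun h => absurd h hiK⟩
  choose q hq1 hq2 using H'
  have hcomp : IsCompact ((Set.Iio (mi i)) ×ˢ (Set.Icc (0 : ℝ≥0) 1) ×ˢ (Set.Icc (0 : ℝ≥0) 1)) :=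
    (Set.finite_Iio _).isCompact.prod (isCompact_Icc.prod isCompact_Icc)
  obtain ⟨q', hq', ψ, hψ, hlim'⟩ := hcomp.tendsto_subseq hq1
  refine ⟨q'.1, q'.2.1, q'.2.2, ?_⟩
  have h1 : Tendsto (fun K => (s (φ (ψ K)), q (ψ K))) atTop (𝓝 (s', q')) :=
    (hlim.comp hψ.tendsto_atTop).prodMk_nhds hlim'
  have h2 := ((continuous_vinc hcont i).tendsto (s', q')).comp h1
  have h3 : Tendsto (fun K => ‖vinc X (s (φ (ψ K))) (tb i (q (ψ K)).1 (q (ψ K)).2.1)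
      (te i (q (ψ K)).1 (q (ψ K)).2.2) ω‖) atTop
      (𝓝 ‖vinc X s' (tb i q'.1 q'.2.1) (te i q'.1 q'.2.2) ω‖) := h2.norm
  have h4 : Tendsto (fun K : ℕ => 1 / ((k (φ (ψ K)) : ℝ) + 1)) atTop (𝓝 0) := by
    have h5 : Tendsto (fun K : ℕ => 1 / ((K : ℝ) + 1)) atTop (𝓝 0) :=
      tendsto_one_div_add_atTop_nhds_zero_nat
    have h6 : Tendsto (fun K : ℕ => k (φ (ψ K))) atTop atTop :=
      tendsto_atTop_mono (fun K => (hψ.id_le K).trans ((hφ.id_le _).trans (hk _))) tendsto_id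
    exact h5.comp h6
  have h7 : ‖vinc X s' (tb i q'.1 q'.2.1) (te i q'.1 q'.2.2) ω‖ ≤ 0 := by
    refine le_of_tendsto_of_tendsto h3 h4 ?_
    filter_upwards [eventually_gt_atTop i] with K hK
    exact hq2 (ψ K) (lt_of_lt_of_le hK (hψ.id_le K))
  exact norm_le_zero_iff.1 h7

/-- From exact double points at every level to infinitely many double points. -/
theorem infinite_of_exact {ω : Ω} {s : ℝ≥0}
    (h : ∀ i, ∃ n, ∃ u v : ℝ≥0, vinc X s (tb i n u) (te i n v) ω = 0) :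
    {q : ℝ≥0 × ℝ≥0 | q.1 ≠ q.2 ∧
      (fun c => X (c, s, q.1) ω) = (fun c => X (c, s, q.2) ω)}.Infinite := by
  choose n u v hv using h
  refine Set.infinite_of_injective_forall_mem
    (f := fun i => (tb i (n i) (u i), te i (n i) (v i))) ?_ ?_
  · intro i j hij
    by_contra hne
    have hp : Nat.pair i (n i) ≠ Nat.pair j (n j) := fun hp => hne (Nat.pair_eq_pair.1 hp).1
    simp only [Prod.mk.injEq] at hij
    rcases lt_or_gt_of_ne hp with hlt | hlt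
    · have := (tb_lt_te i (n i) (u i) (v i)).trans_le (te_le_tb hlt (u j) (v i))
      exact this.ne hij.1
    · have := (tb_lt_te j (n j) (u j) (v j)).trans_le (te_le_tb hlt (u i) (v j))
      exact this.ne hij.1.symm
  · intro i
    refine ⟨(tb_lt_te i (n i) (u i) (v i)).ne, ?_⟩
    funext c
    have := congrFun (hv i) c
    simp only [vinc, incr, Pi.zero_apply] at this
    simp only
    linarith

/-- With positive probability some slice of the four dimensional sheet has infinitely many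
double points. -/
theorem IsSheet.pos_infinite (h : IsSheet X P)
    (hcont : ∀ ω c, Continuous (fun p : ℝ≥0 × ℝ≥0 => X (c, p.1, p.2) ω)) :
    ¬ ∀ᵐ ω ∂P, ∀ s : ℝ≥0, 0 < s → {q : ℝ≥0 × ℝ≥0 | q.1 ≠ q.2 ∧
      (fun c => X (c, s, q.1) ω) = (fun c => X (c, s, q.2) ω)}.Finite := by
  intro hae
  have hε : ∀ k : ℕ, (0 : ℝ) < 1 / ((k : ℝ) + 1) := fun k => by positivity
  have hε1 : ∀ k : ℕ, 1 / ((k : ℝ) + 1) ≤ 1 := fun k => by
    rw [div_le_one (by positivity)]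
    have : (0 : ℝ) ≤ k := Nat.cast_nonneg k
    linarith
  choose G hGm hGP hG using fun k : ℕ => near_event h (hε k) (hε1 k) k
  have h1 := limsup_ge (P := P) (G := G) (fun k => (hGm k).nullMeasurableSet) hGP
  have h2 : P {ω | ∀ K, ∃ k, K ≤ k ∧ ω ∈ G k} = 0 := by
    refine measure_mono_null ?_ hae
    intro ω hω hcon
    obtain ⟨s, hs1, hs⟩ := exact_of_near (hcont ω) (fun K => by
      obtain ⟨k, hk, hkG⟩ := hω K
      exact ⟨k, hk, hG k ω hkG⟩)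
    exact infinite_of_exact hs (hcon s (lt_of_lt_of_le one_pos hs1))
  rw [h2] at h1
  have h3 : (0 : ℝ≥0∞) < ENNReal.ofReal (1 / 36) := by
    rw [ENNReal.ofReal_pos]
    norm_num
  exact absurd h1 (not_le.2 h3)

end Pool.Agent.Helper41
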