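import Mathlib
import Pool.Agent.Helper41.ZeroBasic
import Pool.Agent.Helper41.BlockMoment

open MeasureTheory ProbabilityTheory Filter Topology
open scoped ENNReal NNReal

namespace Pool.Agent.Helper41

variable {Ω : Type*} [MeasurableSpace Ω] {P : Measure Ω} [IsProbabilityMeasure P]
variable {X : Fin 2 × ℝ≥0 × ℝ≥0 → Ω → ℝ}

/-- start of the time block `p` -/
noncomputable def Tb (p : ℕ) : ℝ≥0 := 2 ^ ((p + 2) ^ 2)

/-- end of the time block `p - 1` -/
noncomputable def eb (p : ℕ) : ℝ≥0 := 2 ^ ((p + 1) ^ 2 + 1)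

lemma eb_succ (p : ℕ) : eb (p + 1) = 2 * Tb p := by
  unfold eb Tb
  rw [pow_succ, mul_comm]

lemma eb_mono : Monotone eb := by
  intro a b hab
  unfold eb
  exact pow_le_pow_right₀ (by norm_num) (by
    have : (a + 1) ^ 2 ≤ (b + 1) ^ 2 := Nat.pow_le_pow_left (by omega) 2
    omega)

lemma eb_le (p : ℕ) : eb p * 4 ^ (p + 1) = Tb p := by
  unfold eb Tb
  rw [show (4 : ℝ≥0) = 2 ^ 2 by norm_num, ← pow_mul, ← pow_add]
  congr 1
  ring

lemma Tb_pos (p : ℕ) : 0 < Tb p := by unfold Tb; positivity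

lemma eb_pos (p : ℕ) : 0 < eb p := by unfold eb; positivity

lemma one_le_eb (p : ℕ) : 1 ≤ eb p := by
  unfold eb
  exact one_le_pow₀ (by norm_num)

/-- grid times in block `p` -/
noncomputable def tt (M p a : ℕ) : ℝ≥0 := Tb p * (1 + a / M)

lemma tt_ge (M p a : ℕ) : Tb p ≤ tt M p a := by
  unfold tt
  exact le_mul_of_one_le_right zero_le le_self_add

lemma tt_le {M p a : ℕ} (ha : a < M) : tt M p a ≤ eb (p + 1) := by
  unfold tt
  rw [eb_succ, mul_comm]
  gcongr
  have := div_le_one' (M := M) (a := a) ha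
  calc 1 + (a : ℝ≥0) / M ≤ 1 + 1 := by gcongr
    _ = 2 := by norm_num

lemma eb_lt_tt (M p a : ℕ) : eb p < tt M p a := by
  refine lt_of_lt_of_le ?_ (tt_ge M p a)
  rw [← eb_le p]
  have h1 : (1 : ℝ≥0) < 4 ^ (p + 1) := one_lt_pow₀ (by norm_num) (by omega)
  exact lt_mul_of_one_lt_right (eb_pos p) h1

/-- the weight of a time -/
noncomputable def wt (ε : ℝ) (s t : ℝ≥0) : ℝ≥0∞ :=
  ENNReal.ofReal (Real.pi * (s * t) / (2 * ε ^ 2))

/-- indicator of the small ball -/
noncomputable def ind (ε : ℝ) (y : Fin 2 → ℝ) : ℝ≥0∞ :=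
  Set.indicator {y | ‖y‖ ≤ ε} (fun _ => 1) y

lemma measurable_ind (ε : ℝ) : Measurable (ind ε) :=
  measurable_const.indicator (measurableSet_le measurable_norm measurable_const)

/-- position at `(s,t)` -/
def pos (x : Fin 2 × ℝ≥0 × ℝ≥0 → ℝ) (s t : ℝ≥0) : Fin 2 → ℝ := fun c => x (c, s, t)

lemma measurable_pos (s t : ℝ≥0) : Measurable (fun x => pos x s t) :=
  measurable_pi_lambda _ fun _ => measurable_pi_apply _

/-- level functional -/
noncomputable def AZ (ε : ℝ) (M m N : ℕ) (s : ℝ≥0) (x : Fin 2 × ℝ≥0 × ℝ≥0 → ℝ) : ℝ≥0∞ :=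
  ENNReal.ofReal (1 / (m * M)) * ∑ n ∈ Finset.range m, ∑ a ∈ Finset.range M,
    wt ε s (tt M (N + n) a) * ind ε (pos x s (tt M (N + n) a))

lemma measurable_AZ (ε : ℝ) (M m N : ℕ) (s : ℝ≥0) : Measurable (AZ ε M m N s) := by
  unfold AZ
  refine Measurable.const_mul (Finset.measurable_sum _ fun n _ =>
    Finset.measurable_sum _ fun a _ => ?_) _
  exact ((measurable_ind ε).comp (measurable_pos _ _)).const_mul _

/-- the conditional pair probability -/
noncomputable def pp (P : Measure Ω) (X : Fin 2 × ℝ≥0 × ℝ≥0 → Ω → ℝ) (ε : ℝ) (e s t s' t' : ℝ≥0)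
    (z z' : Fin 2 → ℝ) : ℝ≥0∞ :=
  P {ω | ‖vinc X s e t ω - z‖ ≤ ε ∧ ‖vinc X s' e t' ω - z'‖ ≤ ε}

lemma pos_comb {e s t : ℝ≥0} (ht : e ≤ t) (u : Fin 2 × ℝ≥0 × ℝ≥0 → ℝ) (ω : Ω) :
    pos (comb e u (pW X e ω)) s t = vinc X s e t ω - (fun c => - u (c, s, e)) := by
  funext c
  simp only [pos, comb, pW, vinc, incr, max_eq_left ht, Pi.sub_apply]
  ring

/-- expansion of the second moment at one level -/
lemma lintegral_AZ_mul (h : IsSheet X P) (ε : ℝ) (M m N : ℕ) (e s s' : ℝ≥0)
    (he : e ≤ eb N) (u : Fin 2 × ℝ≥0 × ℝ≥0 → ℝ) :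
    ∫⁻ ω, AZ ε M m N s (comb e u (pW X e ω)) * AZ ε M m N s' (comb e u (pW X e ω)) ∂P =
      ENNReal.ofReal (1 / (m * M)) * ENNReal.ofReal (1 / (m * M)) *
        ∑ n ∈ Finset.range m, ∑ n' ∈ Finset.range m, ∑ a ∈ Finset.range M, ∑ a' ∈ Finset.range M,
          (wt ε s (tt M (N + n) a) * wt ε s' (tt M (N + n') a')) *
            pp P X ε e s (tt M (N + n) a) s' (tt M (N + n') a')
              (fun c => - u (c, s, e)) (fun c => - u (c, s', e)) := by
  have het : ∀ n a, e ≤ tt M (N + n) a := fun n a =>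
    he.trans ((eb_mono (by omega : N ≤ N + n)).trans (eb_lt_tt M _ a).le)
  have hexp : ∀ ω, AZ ε M m N s (comb e u (pW X e ω)) * AZ ε M m N s' (comb e u (pW X e ω)) =
      ENNReal.ofReal (1 / (m * M)) * ENNReal.ofReal (1 / (m * M)) *
        ∑ n ∈ Finset.range m, ∑ n' ∈ Finset.range m, ∑ a ∈ Finset.range M, ∑ a' ∈ Finset.range M,
          (wt ε s (tt M (N + n) a) * wt ε s' (tt M (N + n') a')) *
            ({ω | ‖vinc X s e (tt M (N + n) a) ω - (fun c => - u (c, s, e))‖ ≤ ε ∧
              ‖vinc X s' e (tt M (N + n') a') ω - (fun c => - u (c, s', e))‖ ≤ ε}.indicator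
                (fun _ => (1 : ℝ≥0∞)) ω) := by
    intro ω
    unfold AZ
    rw [mul_mul_mul_comm, Finset.sum_mul_sum]
    congr 1
    refine Finset.sum_congr rfl fun n _ => Finset.sum_congr rfl fun n' _ => ?_
    rw [Finset.sum_mul_sum]
    refine Finset.sum_congr rfl fun a _ => Finset.sum_congr rfl fun a' _ => ?_
    rw [mul_mul_mul_comm]
    congr 1
    rw [pos_comb (het n a), pos_comb (het n' a')]
    unfold ind
    by_cases h1 : ‖vinc X s e (tt M (N + n) a) ω - (fun c => - u (c, s, e))‖ ≤ ε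
    · by_cases h2 : ‖vinc X s' e (tt M (N + n') a') ω - (fun c => - u (c, s', e))‖ ≤ ε
      · simp [Set.indicator_apply, h1, h2]
      · simp [Set.indicator_apply, h2]
    · simp [Set.indicator_apply, h1]
  have hms : ∀ n a n' a', MeasurableSet
      {ω | ‖vinc X s e (tt M (N + n) a) ω - (fun c => - u (c, s, e))‖ ≤ ε ∧
              ‖vinc X s' e (tt M (N + n') a') ω - (fun c => - u (c, s', e))‖ ≤ ε} :=
    fun n a n' a' => (measurableSet_le ((h.meas_vinc _ _ _).sub_const _).norm measurable_const).inter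
      (measurableSet_le ((h.meas_vinc _ _ _).sub_const _).norm measurable_const)
  have hm4 : ∀ n a n' a', Measurable (fun ω =>
      (wt ε s (tt M (N + n) a) * wt ε s' (tt M (N + n') a')) *
            ({ω | ‖vinc X s e (tt M (N + n) a) ω - (fun c => - u (c, s, e))‖ ≤ ε ∧
              ‖vinc X s' e (tt M (N + n') a') ω - (fun c => - u (c, s', e))‖ ≤ ε}.indicator
                (fun _ => (1 : ℝ≥0∞)) ω)) :=
    fun n a n' a' => (measurable_const.indicator (hms n a n' a')).const_mul _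
  simp_rw [hexp]
  rw [lintegral_const_mul _ (Finset.measurable_sum _ fun n _ => Finset.measurable_sum _ fun n' _ =>
    Finset.measurable_sum _ fun a _ => Finset.measurable_sum _ fun a' _ => hm4 n a n' a')]
  congr 1
  rw [lintegral_finset_sum _ fun n _ => Finset.measurable_sum _ fun n' _ =>
    Finset.measurable_sum _ fun a _ => Finset.measurable_sum _ fun a' _ => hm4 n a n' a']
  refine Finset.sum_congr rfl fun n _ => ?_
  rw [lintegral_finset_sum _ fun n' _ =>
    Finset.measurable_sum _ fun a _ => Finset.measurable_sum _ fun a' _ => hm4 n a n' a']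
  refine Finset.sum_congr rfl fun n' _ => ?_
  rw [lintegral_finset_sum _ fun a _ => Finset.measurable_sum _ fun a' _ => hm4 n a n' a']
  refine Finset.sum_congr rfl fun a _ => ?_
  rw [lintegral_finset_sum _ fun a' _ => hm4 n a n' a']
  refine Finset.sum_congr rfl fun a' _ => ?_
  rw [lintegral_const_mul _ (measurable_const.indicator (hms n a n' a')),
    lintegral_indicator_const (hms n a n' a'), one_mul]
  rfl

/-- different blocks -/
lemma pp_le_far (h : IsSheet X P) {ε : ℝ} (hε : 0 < ε) {e s t s' t' : ℝ≥0} (hs : 0 < s)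
    (hs' : 0 < s') (het : e < t) (htt : t < t') (z z' : Fin 2 → ℝ) :
    pp P X ε e s t s' t' z z' ≤
      ENNReal.ofReal (2 * ε ^ 2 / (Real.pi * (s * (t - e)))) *
        ENNReal.ofReal (2 * ε ^ 2 / (Real.pi * (s' * (t' - t)))) := by
  have hind : IndepFun (fun ω => (vinc X s e t ω, vinc X s' e t ω)) (vinc X s' t t') P := by
    have h0 := h.indep_UW t
    have hf : Measurable (fun x : Fin 2 × ℝ≥0 × ℝ≥0 → ℝ =>
        (pos x s t - pos x s e, pos x s' t - pos x s' e)) :=
      ((measurable_pos _ _).sub (measurable_pos _ _)).prodMk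
        ((measurable_pos _ _).sub (measurable_pos _ _))
    have hg : Measurable (fun x : Fin 2 × ℝ≥0 × ℝ≥0 → ℝ => pos x s' t') := measurable_pos _ _
    have h1 := h0.comp hf hg
    refine (h1.congr ?_ ?_)
    · refine Eventually.of_forall fun ω => ?_
      simp only [Function.comp]
      refine Prod.ext ?_ ?_
      · funext c
        simp only [pos, pU, Pi.sub_apply, vinc, incr, min_self, min_eq_left het.le]
        ring
      · funext c
        simp only [pos, pU, Pi.sub_apply, vinc, incr, min_self, min_eq_left het.le]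
        ring
    · refine Eventually.of_forall fun ω => ?_
      simp only [Function.comp]
      funext c
      simp only [pos, pW, vinc, incr, max_eq_left htt.le]
  have hb := measure_inter_le_of_indep (P := P)
    (U := fun ω => (vinc X s e t ω, vinc X s' e t ω)) (V := vinc X s' t t')
    ((h.meas_vinc _ _ _).prodMk (h.meas_vinc _ _ _)) (h.meas_vinc _ _ _) hind
    (A := {p | ‖p.1 - z‖ ≤ ε}) (measurableSet_le (measurable_fst.sub_const _).norm measurable_const)
    (B := {p | ‖p.1.2 + p.2 - z'‖ ≤ ε}) (measurableSet_le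
      (((measurable_snd.comp measurable_fst).add measurable_snd).sub_const _).norm measurable_const)
    (c := ENNReal.ofReal (2 * ε ^ 2 / (Real.pi * (s' * (t' - t)))))
    (fun u => by
      have h2 := h.ball2_le hs' htt hε.le (z' - u.2)
      refine le_trans (le_of_eq ?_) h2
      congr 1
      ext ω
      simp only [Set.mem_setOf_eq]
      rw [show vinc X s' t t' ω - (z' - u.2) = u.2 + vinc X s' t t' ω - z' by abel])
  have h3 := h.ball2_le hs het hε.le z
  unfold pp
  calc P {ω | ‖vinc X s e t ω - z‖ ≤ ε ∧ ‖vinc X s' e t' ω - z'‖ ≤ ε}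
      = P {ω | (vinc X s e t ω, vinc X s' e t ω) ∈ {p : (Fin 2 → ℝ) × (Fin 2 → ℝ) | ‖p.1 - z‖ ≤ ε} ∧
          ((vinc X s e t ω, vinc X s' e t ω), vinc X s' t t' ω) ∈
            {p : ((Fin 2 → ℝ) × (Fin 2 → ℝ)) × (Fin 2 → ℝ) | ‖p.1.2 + p.2 - z'‖ ≤ ε}} := by
        congr 1
        ext ω
        simp only [Set.mem_setOf_eq]
        rw [show vinc X s' e t ω + vinc X s' t t' ω = vinc X s' e t' ω by
          funext c
          simp only [vinc, incr, Pi.add_apply]
          ring]
    _ ≤ P {ω | (vinc X s e t ω, vinc X s' e t ω) ∈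
          {p : (Fin 2 → ℝ) × (Fin 2 → ℝ) | ‖p.1 - z‖ ≤ ε}} *
          ENNReal.ofReal (2 * ε ^ 2 / (Real.pi * (s' * (t' - t)))) := hb
    _ ≤ _ := by
        gcongr
        exact h3

end Pool.Agent.Helper41
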