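import Mathlib
import Pool.Agent.Helper41.ZeroLevel

open MeasureTheory ProbabilityTheory Filter Topology
open scoped ENNReal NNReal

namespace Pool.Agent.Helper41

variable {Ω : Type*} [MeasurableSpace Ω] {P : Measure Ω} [IsProbabilityMeasure P]
variable {X : Fin 2 × ℝ≥0 × ℝ≥0 → Ω → ℝ}

/-- ratio of a late time to the elapsed time -/
lemma ratio_le {N p : ℕ} (hp : N ≤ p) {e t : ℝ} (he0 : 0 ≤ e) (he : e ≤ (eb p : ℝ))
    (ht : (Tb p : ℝ) ≤ t) : e < t ∧ t / (t - e) ≤ Real.exp ((1 / 2) * (1 / 2) ^ N) := by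
  have hT : (0 : ℝ) < Tb p := by exact_mod_cast Tb_pos p
  have ht0 : 0 < t := hT.trans_le ht
  have h1 : (eb p : ℝ) = (Tb p : ℝ) * (1 / 4) ^ (p + 1) := by
    have h := eb_le p
    have h' : (eb p : ℝ) * 4 ^ (p + 1) = Tb p := by exact_mod_cast h
    rw [← h', mul_assoc, ← mul_pow]
    norm_num
  set x : ℝ := (1 / 4) ^ (p + 1) with hx
  have hx0 : 0 < x := by positivity
  have hx1 : x ≤ (1 / 4) * (1 / 2) ^ N := by
    rw [hx, pow_succ, mul_comm]
    have h2 : ((1 : ℝ) / 4) ^ p ≤ (1 / 2) ^ p := by gcongr; norm_num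
    have h3 : ((1 : ℝ) / 2) ^ p ≤ (1 / 2) ^ N := pow_le_pow_of_le_one (by norm_num) (by norm_num) hp
    gcongr
    exact h2.trans h3
  have hx2 : x ≤ 1 / 4 := by
    refine hx1.trans ?_
    have : ((1 : ℝ) / 2) ^ N ≤ 1 := pow_le_one₀ (by norm_num) (by norm_num)
    linarith
  have h2 : e ≤ t * x := by
    calc e ≤ (eb p : ℝ) := he
      _ = Tb p * x := h1
      _ ≤ t * x := by gcongr
  have h3 : e < t := by nlinarith
  refine ⟨h3, ?_⟩
  have h4 : t / (t - e) ≤ 1 / (1 - x) := by
    rw [div_le_div_iff₀ (by linarith) (by linarith)]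
    nlinarith
  have h5 : 1 / (1 - x) ≤ 1 + 2 * x := by
    rw [div_le_iff₀ (by linarith)]
    nlinarith
  have h6 : 1 + 2 * x ≤ Real.exp (2 * x) := by
    have := Real.add_one_le_exp (2 * x)
    linarith
  refine h4.trans (h5.trans (h6.trans ?_))
  apply Real.exp_le_exp.2
  linarith

/-- weighted far pair -/
lemma far_bound (h : IsSheet X P) {ε : ℝ} (hε : 0 < ε) {N p p' : ℕ} (hp : N ≤ p) (hpp : p < p')
    {e s t s' t' : ℝ≥0} (he : e ≤ eb p) (hs : 0 < s) (hs' : 0 < s') (ht : Tb p ≤ t)
    (ht2 : t ≤ eb (p + 1)) (ht' : Tb p' ≤ t') (z z' : Fin 2 → ℝ) :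
    (wt ε s t * wt ε s' t') * pp P X ε e s t s' t' z z' ≤
      ENNReal.ofReal (Real.exp ((1 / 2) ^ N)) := by
  obtain ⟨h1, h2⟩ := ratio_le (N := N) hp (e := (e : ℝ)) (t := (t : ℝ)) e.2 (by exact_mod_cast he)
    (by exact_mod_cast ht)
  have hte : t ≤ eb p' := ht2.trans (eb_mono hpp)
  obtain ⟨h3, h4⟩ := ratio_le (N := N) (hp.trans hpp.le) (e := (t : ℝ)) (t := (t' : ℝ)) t.2
    (by exact_mod_cast hte) (by exact_mod_cast ht')
  have h5 := pp_le_far h hε hs hs' (show e < t by exact_mod_cast h1)
    (show t < t' by exact_mod_cast h3) z z'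
  have hs0 : (0 : ℝ) < s := hs
  have hs0' : (0 : ℝ) < s' := hs'
  have hpi := Real.pi_pos
  have e1 : (0 : ℝ) < t - e := by linarith
  have e2 : (0 : ℝ) < t' - t := by linarith
  have ht0 : (0 : ℝ) < t := lt_of_le_of_lt e.2 h1
  have ht0' : (0 : ℝ) < t' := ht0.trans h3
  calc _ ≤ (wt ε s t * wt ε s' t') * (ENNReal.ofReal (2 * ε ^ 2 / (Real.pi * (s * (t - e)))) *
        ENNReal.ofReal (2 * ε ^ 2 / (Real.pi * (s' * (t' - t))))) := by gcongr
    _ = ENNReal.ofReal ((t / (t - e)) * (t' / (t' - t))) := by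
        unfold wt
        rw [← ENNReal.ofReal_mul (by positivity), ← ENNReal.ofReal_mul (by positivity),
          ← ENNReal.ofReal_mul (by positivity)]
        congr 1
        field_simp
    _ ≤ ENNReal.ofReal (Real.exp ((1 / 2) * (1 / 2) ^ N) * Real.exp ((1 / 2) * (1 / 2) ^ N)) := by
        apply ENNReal.ofReal_le_ofReal
        gcongr
    _ = _ := by
        rw [← Real.exp_add]
        congr 2
        ring

/-- determinant inequality in one block -/
lemma det_ineq2 {s s' t t' e T : ℝ} (hs : 1 ≤ s) (hs' : 1 ≤ s') (hT : 0 < T) (ht : T ≤ t)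
    (ht' : T ≤ t') (he : e ≤ T / 2) :
    (T / 4) * (T * |s - s'| + |t - t'|) ≤
      (s * (t - e)) * (s' * (t' - e)) - (min s s' * (min t t' - e)) ^ 2 := by
  have key : ∀ {s s' t t' : ℝ}, 1 ≤ s → s ≤ s' → T ≤ t → T ≤ t' →
      (T / 4) * (T * |s - s'| + |t - t'|) ≤
        (s * (t - e)) * (s' * (t' - e)) - (s * (min t t' - e)) ^ 2 := by
    intro s s' t t' hs hss ht ht'
    rw [abs_of_nonpos (by linarith : s - s' ≤ 0)]
    obtain ⟨δ, rfl⟩ : ∃ δ, s' = s + δ := ⟨s' - s, by ring⟩
    have hδ : 0 ≤ δ := by linarith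
    rcases le_total t t' with htt | htt
    · rw [min_eq_left htt, abs_of_nonpos (by linarith : t - t' ≤ 0)]
      obtain ⟨η, rfl⟩ : ∃ η, t' = t + η := ⟨t' - t, by ring⟩
      have hη : 0 ≤ η := by linarith
      obtain ⟨a, ha⟩ : ∃ a, a = t - e := ⟨_, rfl⟩
      have ha2 : T / 2 ≤ a := by linarith
      have e1 : t + η - e = a + η := by rw [ha]; ring
      rw [e1, ← ha]
      have e2 : (s * a) * ((s + δ) * (a + η)) - (s * a) ^ 2 = (s * a) * (δ * a + s * η + δ * η) := by
        ring
      have e3 : (T / 4) * (T * -(s - (s + δ)) + -(t - (t + η))) = (T / 4) * (T * δ + η) := by ring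
      rw [e2, e3]
      have h1 : T / 2 ≤ s * a := by nlinarith
      have h2 : T / 2 * δ + η ≤ δ * a + s * η + δ * η := by
        have : 0 ≤ δ * η := mul_nonneg hδ hη
        nlinarith
      have h3 : (T / 4) * (T * δ + η) ≤ (T / 2) * (T / 2 * δ + η) := by
        have : 0 ≤ T * η := by positivity
        nlinarith
      refine h3.trans ?_
      have h4 : 0 ≤ T / 2 * δ + η := by positivity
      exact mul_le_mul h1 h2 h4 (by linarith)
    · rw [min_eq_right htt, abs_of_nonneg (by linarith : 0 ≤ t - t')]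
      obtain ⟨η, rfl⟩ : ∃ η, t = t' + η := ⟨t - t', by ring⟩
      have hη : 0 ≤ η := by linarith
      obtain ⟨a, ha⟩ : ∃ a, a = t' - e := ⟨_, rfl⟩
      have ha2 : T / 2 ≤ a := by linarith
      have e1 : t' + η - e = a + η := by rw [ha]; ring
      rw [e1, ← ha]
      have e2 : (s * (a + η)) * ((s + δ) * a) - (s * a) ^ 2 = (s * a) * (δ * a + s * η + δ * η) := by
        ring
      have e3 : (T / 4) * (T * -(s - (s + δ)) + (t' + η - t')) = (T / 4) * (T * δ + η) := by ring
      rw [e2, e3]
      have h1 : T / 2 ≤ s * a := by nlinarith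
      have h2 : T / 2 * δ + η ≤ δ * a + s * η + δ * η := by
        have : 0 ≤ δ * η := mul_nonneg hδ hη
        nlinarith
      have h3 : (T / 4) * (T * δ + η) ≤ (T / 2) * (T / 2 * δ + η) := by
        have : 0 ≤ T * η := by positivity
        nlinarith
      refine h3.trans ?_
      have h4 : 0 ≤ T / 2 * δ + η := by positivity
      exact mul_le_mul h1 h2 h4 (by linarith)
  rcases le_total s s' with hss | hss
  · rw [min_eq_left hss]
    exact key hs hss ht ht'
  · rw [min_eq_right hss]
    have := key hs' hss ht' ht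
    rw [abs_sub_comm s s', abs_sub_comm t t', min_comm t t']
    refine this.trans (le_of_eq ?_)
    ring

/-- weighted near pair -/
lemma near_bound (h : IsSheet X P) {ε : ℝ} (hε : 0 < ε) {N p M j j' a a' : ℕ}
    (hj : j < M) (hj' : j' < M) (hjj : j' ≠ j) (ha : a < M) (ha' : a' < M)
    {e : ℝ≥0} (he : e ≤ eb p) (z z' : Fin 2 → ℝ) :
    (wt ε (sj M j) (tt M p a) * wt ε (sj M j') (tt M p a')) *
      pp P X ε e (sj M j) (tt M p a) (sj M j') (tt M p a') z z' ≤
      ENNReal.ofReal (160 * M *
        (1 / ((((j - j') + (j' - j)) + ((a - a') + (a' - a)) : ℕ) : ℝ))) := by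
  have hM : (0 : ℝ) < M := by
    have : 0 < M := by omega
    exact_mod_cast this
  set n : ℕ := ((j - j') + (j' - j)) + ((a - a') + (a' - a)) with hn
  have hn0 : (0 : ℝ) < n := by
    have : 0 < n := by omega
    exact_mod_cast this
  have hT : (0 : ℝ) < Tb p := by exact_mod_cast Tb_pos p
  have hs1 : ∀ j, (1 : ℝ) ≤ sj M j := fun j => by exact_mod_cast sj_ge M j
  have hs2 : ∀ {j}, j < M → ((sj M j : ℝ≥0) : ℝ) ≤ 2 := fun hj => by exact_mod_cast sj_le hj
  have ht1 : ∀ a, (Tb p : ℝ) ≤ tt M p a := fun a => by exact_mod_cast tt_ge M p a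
  have ht2 : ∀ {a}, a < M → ((tt M p a : ℝ≥0) : ℝ) ≤ 2 * Tb p := fun ha => by
    have := tt_le (p := p) ha
    rw [eb_succ] at this
    exact_mod_cast this
  have he2 : (e : ℝ) ≤ Tb p / 2 := by
    have h1 : (eb p : ℝ) * 4 ^ (p + 1) = Tb p := by exact_mod_cast eb_le p
    have h2 : (4 : ℝ) ≤ 4 ^ (p + 1) := by
      calc (4 : ℝ) = 4 ^ 1 := by norm_num
        _ ≤ 4 ^ (p + 1) := pow_le_pow_right₀ (by norm_num) (by omega)
    have h3 : (e : ℝ) ≤ eb p := by exact_mod_cast he
    have h4 : (0 : ℝ) ≤ eb p := NNReal.coe_nonneg _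
    nlinarith
  have hdet := det_ineq2 (hs1 j) (hs1 j') hT (ht1 a) (ht1 a') he2
  have e1 : |((sj M j : ℝ≥0) : ℝ) - sj M j'| = (((j - j') + (j' - j) : ℕ) : ℝ) / M := by
    have : ((sj M j : ℝ≥0) : ℝ) - sj M j' = ((j : ℝ) - j') / M := by
      unfold sj
      push_cast
      ring
    rw [this, abs_div, abs_of_pos hM, nat_dist_cast]
  have e2 : |((tt M p a : ℝ≥0) : ℝ) - tt M p a'| =
      Tb p * ((((a - a') + (a' - a) : ℕ) : ℝ) / M) := by
    have : ((tt M p a : ℝ≥0) : ℝ) - tt M p a' = Tb p * (((a : ℝ) - a') / M) := by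
      unfold tt
      push_cast
      ring
    rw [this, abs_mul, abs_of_pos hT, abs_div, abs_of_pos hM, nat_dist_cast]
  have hD : (Tb p : ℝ) / 4 * (Tb p * |((sj M j : ℝ≥0) : ℝ) - sj M j'| +
      |((tt M p a : ℝ≥0) : ℝ) - tt M p a'|) = (Tb p : ℝ) ^ 2 / 4 * (n / M) := by
    rw [e1, e2, hn]
    push_cast
    ring
  rw [hD] at hdet
  have het : e < tt M p a := lt_of_le_of_lt he (eb_lt_tt M p a)
  have het' : e < tt M p a' := lt_of_le_of_lt he (eb_lt_tt M p a')
  have hov : ov e (tt M p a) e (tt M p a') = min ((tt M p a : ℝ≥0) : ℝ) (tt M p a') - e := by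
    unfold ov
    rw [min_eq_right het.le, min_eq_left het'.le, min_self]
    push_cast
    ring
  have hb := h.pair_bound (s := sj M j) (s' := sj M j') (t := e) (t' := tt M p a)
    (τ := e) (τ' := tt M p a') (lt_of_lt_of_le one_pos (sj_ge M j)) het het'.le
    (D := (Tb p : ℝ) ^ 2 / 4 * (n / M)) (by positivity) (by
      rw [hov]
      refine hdet.trans (le_of_eq ?_)
      push_cast
      ring) hε.le z z'
  rw [Fintype.card_fin, ← ENNReal.ofReal_pow (by positivity)] at hb
  unfold pp
  calc _ ≤ (wt ε (sj M j) (tt M p a) * wt ε (sj M j') (tt M p a')) *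
        ENNReal.ofReal ((ε ^ 2 / √((Tb p : ℝ) ^ 2 / 4 * (n / M))) ^ 2) := by gcongr
    _ = ENNReal.ofReal (Real.pi ^ 2 * (sj M j * sj M j') * (tt M p a * tt M p a') /
          (4 * ((Tb p : ℝ) ^ 2 / 4 * (n / M)))) := by
        unfold wt
        have hpi := Real.pi_pos
        rw [← ENNReal.ofReal_mul (by positivity), ← ENNReal.ofReal_mul (by positivity)]
        congr 1
        rw [div_pow, Real.sq_sqrt (by positivity)]
        field_simp
        try ring
    _ ≤ _ := by
        apply ENNReal.ofReal_le_ofReal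
        have hpi : Real.pi ^ 2 ≤ 10 := by
          have h1 := Real.pi_lt_d2
          have h2 := Real.pi_pos
          nlinarith
        have h1 : ((sj M j : ℝ≥0) : ℝ) * sj M j' ≤ 4 := by
          have := hs2 hj
          have := hs2 hj'
          have := hs1 j
          have := hs1 j'
          nlinarith
        have h2 : ((tt M p a : ℝ≥0) : ℝ) * tt M p a' ≤ 4 * (Tb p : ℝ) ^ 2 := by
          have h3 := ht2 ha
          have h4 := ht2 ha'
          have h5 := ht1 a
          have h6 := ht1 a'
          nlinarith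
        calc _ ≤ 10 * 4 * (4 * (Tb p : ℝ) ^ 2) / (4 * ((Tb p : ℝ) ^ 2 / 4 * (n / M))) := by
              gcongr
          _ = _ := by
              field_simp
              ring

/-- second moment bound at one level -/
lemma level_bound (h : IsSheet X P) {ε : ℝ} (hε : 0 < ε) {M m N j j' : ℕ} (hm : 1 ≤ m)
    (hj : j < M) (hj' : j' < M) (hjj : j' ≠ j) (u : Fin 2 × ℝ≥0 × ℝ≥0 → ℝ) :
    ∫⁻ ω, AZ ε M m N (sj M j) (comb (eb N) u (pW X (eb N) ω)) *
      AZ ε M m N (sj M j') (comb (eb N) u (pW X (eb N) ω)) ∂P ≤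
      ENNReal.ofReal (Real.exp ((1 / 2) ^ N) +
        640 * (1 + Real.log (M / (((j - j') + (j' - j) : ℕ) : ℝ))) / m) := by
  have hM : (0 : ℝ) < M := by
    have : 0 < M := by omega
    exact_mod_cast this
  have hm' : (0 : ℝ) < m := by exact_mod_cast hm
  set d : ℕ := (j - j') + (j' - j) with hd
  have hd1 : 1 ≤ d := by omega
  have hdM : d ≤ M := by omega
  have hd0 : (0 : ℝ) < d := by exact_mod_cast hd1
  have hlog : 0 ≤ Real.log (M / d) := by
    apply Real.log_nonneg
    rw [le_div_iff₀ hd0, one_mul]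
    exact_mod_cast hdM
  have hspos : ∀ j, (0 : ℝ≥0) < sj M j := fun j => lt_of_lt_of_le one_pos (sj_ge M j)
  rw [lintegral_AZ_mul h ε M m N (eb N) _ _ le_rfl u]
  set z : Fin 2 → ℝ := fun c => - u (c, sj M j, eb N) with hz
  set z' : Fin 2 → ℝ := fun c => - u (c, sj M j', eb N) with hz'
  have hfar : ∀ n n' : ℕ, n ≠ n' → ∑ a ∈ Finset.range M, ∑ a' ∈ Finset.range M,
      (wt ε (sj M j) (tt M (N + n) a) * wt ε (sj M j') (tt M (N + n') a')) *
        pp P X ε (eb N) (sj M j) (tt M (N + n) a) (sj M j') (tt M (N + n') a') z z' ≤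
      ENNReal.ofReal (M ^ 2 * Real.exp ((1 / 2) ^ N)) := by
    intro n n' hnn
    calc _ ≤ ∑ a ∈ Finset.range M, ∑ a' ∈ Finset.range M,
          ENNReal.ofReal (Real.exp ((1 / 2) ^ N)) := by
          refine Finset.sum_le_sum fun a ha => Finset.sum_le_sum fun a' ha' => ?_
          rw [Finset.mem_range] at ha ha'
          rcases lt_or_gt_of_ne hnn with hlt | hlt
          · exact far_bound h hε (N := N) (p := N + n) (p' := N + n') (by omega) (by omega)
              (eb_mono (by omega)) (hspos j) (hspos j') (tt_ge _ _ _) (tt_le ha) (tt_ge _ _ _) z z'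
          · have h1 := far_bound h hε (N := N) (p := N + n') (p' := N + n) (e := eb N)
              (s := sj M j') (t := tt M (N + n') a') (s' := sj M j) (t' := tt M (N + n) a)
              (by omega) (by omega) (eb_mono (by omega)) (hspos j') (hspos j) (tt_ge _ _ _)
              (tt_le ha') (tt_ge _ _ _) z' z
            refine le_trans (le_of_eq ?_) h1
            rw [mul_comm (wt ε (sj M j) (tt M (N + n) a))]
            congr 1
            unfold pp
            congr 1
            ext ω
            exact and_comm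
      _ = _ := by
          rw [Finset.sum_const, Finset.card_range, nsmul_eq_mul, Finset.sum_const,
            Finset.card_range, nsmul_eq_mul, ← ENNReal.ofReal_natCast, ← ENNReal.ofReal_mul hM.le,
            ← ENNReal.ofReal_mul hM.le]
          congr 1
          ring
  have hnear : ∀ n : ℕ, ∑ a ∈ Finset.range M, ∑ a' ∈ Finset.range M,
      (wt ε (sj M j) (tt M (N + n) a) * wt ε (sj M j') (tt M (N + n) a')) *
        pp P X ε (eb N) (sj M j) (tt M (N + n) a) (sj M j') (tt M (N + n) a') z z' ≤
      ENNReal.ofReal (M ^ 2 * (640 * (1 + Real.log (M / d)))) := by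
    intro n
    calc _ ≤ ∑ a ∈ Finset.range M, ENNReal.ofReal (M * (640 * (1 + Real.log (M / d)))) := by
          refine Finset.sum_le_sum fun a ha => ?_
          rw [Finset.mem_range] at ha
          calc _ ≤ ∑ a' ∈ Finset.range M, ENNReal.ofReal (160 * M *
                (1 / (((d + ((a - a') + (a' - a)) : ℕ) : ℝ)))) := by
                refine Finset.sum_le_sum fun a' ha' => ?_
                rw [Finset.mem_range] at ha'
                exact near_bound h hε (N := N) hj hj' hjj ha ha' (eb_mono (by omega)) z z'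
            _ = ENNReal.ofReal (160 * M * ∑ a' ∈ Finset.range M,
                (1 / (((d + ((a - a') + (a' - a)) : ℕ) : ℝ)))) := by
                rw [Finset.mul_sum, ENNReal.ofReal_sum_of_nonneg]
                intro a' _
                positivity
            _ ≤ _ := by
                apply ENNReal.ofReal_le_ofReal
                have h2 := sum_diff_le M (fun y => 1 / (((d + y : ℕ) : ℝ)))
                  (fun x => by positivity) a ha
                have h3 := sum_inv_le d M hd1 hdM
                have h4 : ∑ y ∈ Finset.range M, 1 / (((d + y : ℕ) : ℝ)) =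
                    ∑ y ∈ Finset.range M, 1 / ((d : ℝ) + y) := by
                  refine Finset.sum_congr rfl fun y _ => ?_
                  push_cast
                  rfl
                rw [h4] at h2
                have h5 : ∑ a' ∈ Finset.range M, (1 / (((d + ((a - a') + (a' - a)) : ℕ) : ℝ))) ≤
                    2 * (2 + Real.log (M / d)) := h2.trans (by gcongr)
                calc 160 * (M : ℝ) * ∑ a' ∈ Finset.range M,
                      (1 / (((d + ((a - a') + (a' - a)) : ℕ) : ℝ)))
                    ≤ 160 * M * (2 * (2 + Real.log (M / d))) := by gcongr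
                  _ ≤ 160 * M * (4 * (1 + Real.log (M / d))) :=
                      mul_le_mul_of_nonneg_left (by linarith) (by positivity)
                  _ = _ := by ring
      _ = _ := by
          rw [Finset.sum_const, Finset.card_range, nsmul_eq_mul, ← ENNReal.ofReal_natCast,
            ← ENNReal.ofReal_mul hM.le]
          congr 1
          ring
  have hsum : ∑ n ∈ Finset.range m, ∑ n' ∈ Finset.range m, ∑ a ∈ Finset.range M,
      ∑ a' ∈ Finset.range M,
      (wt ε (sj M j) (tt M (N + n) a) * wt ε (sj M j') (tt M (N + n') a')) *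
        pp P X ε (eb N) (sj M j) (tt M (N + n) a) (sj M j') (tt M (N + n') a') z z' ≤
      ENNReal.ofReal (m * (M ^ 2 * (640 * (1 + Real.log (M / d))) +
        m * (M ^ 2 * Real.exp ((1 / 2) ^ N)))) := by
    calc _ ≤ ∑ n ∈ Finset.range m, ENNReal.ofReal (M ^ 2 * (640 * (1 + Real.log (M / d))) +
        m * (M ^ 2 * Real.exp ((1 / 2) ^ N))) := by
          refine Finset.sum_le_sum fun n hn => ?_
          calc _ ≤ ∑ n' ∈ Finset.range m, ((if n' = n then
                ENNReal.ofReal (M ^ 2 * (640 * (1 + Real.log (M / d)))) else 0) +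
                ENNReal.ofReal (M ^ 2 * Real.exp ((1 / 2) ^ N))) := by
                refine Finset.sum_le_sum fun n' _ => ?_
                by_cases hnn : n' = n
                · subst hnn
                  rw [if_pos rfl]
                  exact (hnear n').trans le_self_add
                · rw [if_neg hnn, zero_add]
                  exact hfar n n' (fun e => hnn e.symm)
            _ = _ := by
                rw [Finset.sum_add_distrib, Finset.sum_ite_eq', if_pos hn, Finset.sum_const,
                  Finset.card_range, nsmul_eq_mul, ← ENNReal.ofReal_natCast,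
                  ← ENNReal.ofReal_mul hm'.le, ← ENNReal.ofReal_add (by positivity) (by positivity)]
      _ = _ := by
          rw [Finset.sum_const, Finset.card_range, nsmul_eq_mul, ← ENNReal.ofReal_natCast,
            ← ENNReal.ofReal_mul hm'.le]
  calc _ ≤ ENNReal.ofReal (1 / (m * M)) * ENNReal.ofReal (1 / (m * M)) *
        ENNReal.ofReal (m * (M ^ 2 * (640 * (1 + Real.log (M / d))) +
        m * (M ^ 2 * Real.exp ((1 / 2) ^ N)))) := by gcongr
    _ = _ := by
        rw [← ENNReal.ofReal_mul (by positivity), ← ENNReal.ofReal_mul (by positivity)]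
        congr 1
        field_simp
        ring

end Pool.Agent.Helper41
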