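import Mathlib
import Pool.Agent.Helper41.ZeroMoment
import Pool.Agent.Helper41.Abstract
import Pool.Agent.Helper41.Exist

open MeasureTheory ProbabilityTheory Filter Topology
open scoped ENNReal NNReal

namespace Pool.Agent.Helper41

variable {Ω : Type*} [MeasurableSpace Ω] {P : Measure Ω} [IsProbabilityMeasure P]
variable {X : Fin 2 × ℝ≥0 × ℝ≥0 → Ω → ℝ}

/-- number of blocks at level `i` -/
def mz (i : ℕ) : ℕ := 2560 * 2 ^ i

lemma mz_pos (i : ℕ) : 1 ≤ mz i := by
  unfold mz
  have : 0 < 2 ^ i := by positivity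
  omega

/-- index of the first block at level `i` -/
def Nz : ℕ → ℕ
  | 0 => 0
  | i + 1 => Nz i + mz i

lemma Nz_succ (i : ℕ) : Nz (i + 1) = Nz i + mz i := rfl

lemma Nz_mono : Monotone Nz := monotone_nat_of_le_succ fun i => by rw [Nz_succ]; omega

lemma le_Nz (i : ℕ) : i ≤ Nz i := by
  induction i with
  | zero => exact Nat.zero_le _
  | succ i ih =>
    rw [Nz_succ]
    have := mz_pos i
    omega

/-- the functional of the first `k` levels -/
noncomputable def FZ (ε : ℝ) (M k j : ℕ) (x : Fin 2 × ℝ≥0 × ℝ≥0 → ℝ) : ℝ≥0∞ :=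
  ∏ i ∈ Finset.range k, AZ ε M (mz i) (Nz i) (sj M j) x

lemma measurable_FZ (ε : ℝ) (M k j : ℕ) : Measurable (FZ ε M k j) :=
  Finset.measurable_prod _ fun _ _ => measurable_AZ _ _ _ _ _

lemma ind_eq_zero {ε : ℝ} {y : Fin 2 → ℝ} (hy : ¬ ‖y‖ ≤ ε) : ind ε y = 0 :=
  Set.indicator_of_notMem (s := {y : Fin 2 → ℝ | ‖y‖ ≤ ε}) hy _

lemma ind_le_one (ε : ℝ) (y : Fin 2 → ℝ) : ind ε y ≤ 1 :=
  Set.indicator_le_self' (fun _ _ => zero_le) _

omit [MeasurableSpace Ω] in
lemma AZ_pU {ε : ℝ} {M m N : ℕ} {s e : ℝ≥0} (he : eb (N + m) ≤ e) (ω : Ω) :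
    AZ ε M m N s (pU X e ω) = AZ ε M m N s (pV X ω) := by
  unfold AZ
  congr 1
  refine Finset.sum_congr rfl fun n hn => Finset.sum_congr rfl fun a ha => ?_
  rw [Finset.mem_range] at hn ha
  have h1 : tt M (N + n) a ≤ e := (tt_le ha).trans ((eb_mono (by omega)).trans he)
  congr 2
  funext c
  simp only [pos]
  exact pU_eq h1 ω

omit [MeasurableSpace Ω] in
lemma AZ_comb {ε : ℝ} {M m N : ℕ} {s e : ℝ≥0} (he : e ≤ eb N) (ω : Ω) :
    AZ ε M m N s (comb e (pU X e ω) (pW X e ω)) = AZ ε M m N s (pV X ω) := by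
  unfold AZ
  congr 1
  refine Finset.sum_congr rfl fun n hn => Finset.sum_congr rfl fun a ha => ?_
  have h1 : e ≤ tt M (N + n) a := he.trans ((eb_mono (by omega : N ≤ N + n)).trans (eb_lt_tt M _ a).le)
  congr 2
  funext c
  simp only [pos]
  exact comb_eq h1 ω

omit [MeasurableSpace Ω] in
lemma FZ_pU {ε : ℝ} {M k j : ℕ} {e : ℝ≥0} (he : eb (Nz k) ≤ e) (ω : Ω) :
    FZ ε M k j (pU X e ω) = FZ ε M k j (pV X ω) := by
  unfold FZ
  refine Finset.prod_congr rfl fun i hi => ?_
  rw [Finset.mem_range] at hi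
  refine AZ_pU ?_ ω
  rw [← Nz_succ]
  exact (eb_mono (Nz_mono hi)).trans he

/-- upper bound by peeling off levels -/
lemma lintegral_FZ_mul_le (h : IsSheet X P) {ε : ℝ} (hε : 0 < ε) {M j j' : ℕ}
    (hj : j < M) (hj' : j' < M) (hjj : j' ≠ j) (k : ℕ) :
    ∫⁻ ω, FZ ε M k j (pV X ω) * FZ ε M k j' (pV X ω) ∂P ≤
      ∏ i ∈ Finset.range k, ENNReal.ofReal (Real.exp ((1 / 2) ^ Nz i) +
        640 * (1 + Real.log (M / (((j - j') + (j' - j) : ℕ) : ℝ))) / mz i) := by
  induction k with
  | zero => simp [FZ]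
  | succ k ih =>
    rw [Finset.prod_range_succ]
    set e := eb (Nz k) with he
    have hmain := lintegral_mul_le_of_indep (P := P) (U := pU X e) (V := pW X e) (h.meas_pU e)
      (h.meas_pW e) (h.indep_UW e) (Ψ := fun u => FZ ε M k j u * FZ ε M k j' u)
      ((measurable_FZ _ _ _ _).mul (measurable_FZ _ _ _ _))
      (Φ := fun p => AZ ε M (mz k) (Nz k) (sj M j) (comb e p.1 p.2) *
        AZ ε M (mz k) (Nz k) (sj M j') (comb e p.1 p.2))
      (((measurable_AZ _ _ _ _ _).comp (measurable_comb e)).mul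
        ((measurable_AZ _ _ _ _ _).comp (measurable_comb e)))
      (c := ENNReal.ofReal (Real.exp ((1 / 2) ^ Nz k) +
        640 * (1 + Real.log (M / (((j - j') + (j' - j) : ℕ) : ℝ))) / mz k))
      (fun u => level_bound h hε (mz_pos k) hj hj' hjj u)
    calc ∫⁻ ω, FZ ε M (k + 1) j (pV X ω) * FZ ε M (k + 1) j' (pV X ω) ∂P
        = ∫⁻ ω, (FZ ε M k j (pU X e ω) * FZ ε M k j' (pU X e ω)) *
          (AZ ε M (mz k) (Nz k) (sj M j) (comb e (pU X e ω) (pW X e ω)) *
            AZ ε M (mz k) (Nz k) (sj M j') (comb e (pU X e ω) (pW X e ω))) ∂P := by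
          refine lintegral_congr fun ω => ?_
          rw [FZ_pU le_rfl, FZ_pU le_rfl, AZ_comb le_rfl, AZ_comb le_rfl]
          unfold FZ
          rw [Finset.prod_range_succ, Finset.prod_range_succ]
          ring
      _ ≤ _ := hmain
      _ ≤ _ := by
          gcongr
          refine le_trans (le_of_eq ?_) ih
          refine lintegral_congr fun ω => ?_
          rw [FZ_pU le_rfl, FZ_pU le_rfl]

/-- one level lower bound -/
lemma level_lower (h : IsSheet X P) {ε : ℝ} (hε : 0 < ε) {M m N : ℕ} (hM : 1 ≤ M) (hm : 1 ≤ m)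
    {s e : ℝ≥0} (hs : 1 ≤ s) (he : e ≤ eb N) {u : Fin 2 × ℝ≥0 × ℝ≥0 → ℝ}
    (hu : ‖pos u s e‖ ≤ ε) :
    ENNReal.ofReal (1 - 4 * ε ^ 2) ≤ ∫⁻ ω, AZ ε M m N s (comb e u (pW X e ω)) ∂P := by
  have hM' : (0 : ℝ) < M := by exact_mod_cast hM
  have hm' : (0 : ℝ) < m := by exact_mod_cast hm
  have hspos : 0 < s := lt_of_lt_of_le one_pos hs
  have het : ∀ n a, e < tt M (N + n) a := fun n a =>
    lt_of_le_of_lt (he.trans (eb_mono (by omega : N ≤ N + n))) (eb_lt_tt M _ a)
  set z : Fin 2 → ℝ := fun c => - u (c, s, e) with hz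
  have hzn : ‖z‖ ≤ ε := by
    have : z = - pos u s e := rfl
    rw [this, norm_neg]
    exact hu
  have hterm : ∀ n a, ENNReal.ofReal (1 - 4 * ε ^ 2) ≤
      ∫⁻ ω, wt ε s (tt M (N + n) a) * ind ε (pos (comb e u (pW X e ω)) s (tt M (N + n) a)) ∂P := by
    intro n a
    set t := tt M (N + n) a with ht
    have hms : MeasurableSet {ω | ‖vinc X s e t ω - z‖ ≤ ε} :=
      measurableSet_le ((h.meas_vinc _ _ _).sub_const _).norm measurable_const
    have e1 : ∀ ω, wt ε s t * ind ε (pos (comb e u (pW X e ω)) s t) =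
        wt ε s t * {ω | ‖vinc X s e t ω - z‖ ≤ ε}.indicator (fun _ => (1 : ℝ≥0∞)) ω := by
      intro ω
      rw [pos_comb (het n a).le]
      rfl
    simp_rw [e1]
    rw [lintegral_const_mul _ (measurable_const.indicator hms), lintegral_indicator_const hms,
      one_mul]
    have h1 := h.ball2_ge hspos (het n a) hε.le hzn
    have h2 : (e : ℝ) < t := by exact_mod_cast het n a
    have h3 : (0 : ℝ) < t := lt_of_le_of_lt e.2 h2
    have hs' : (1 : ℝ) ≤ s := by exact_mod_cast hs
    have hpi := Real.pi_pos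
    have h4 : (0 : ℝ) < t - e := by linarith
    have h5 : (1 : ℝ) ≤ s * (t - e) := by
      have h6 : (Tb (N + n) : ℝ) ≤ t := by exact_mod_cast tt_ge M (N + n) a
      have h7 : (eb (N + n) : ℝ) * 4 ^ (N + n + 1) = Tb (N + n) := by exact_mod_cast eb_le (N + n)
      have h8 : (4 : ℝ) ≤ 4 ^ (N + n + 1) := by
        calc (4 : ℝ) = 4 ^ 1 := by norm_num
          _ ≤ 4 ^ (N + n + 1) := pow_le_pow_right₀ (by norm_num) (by omega)
      have h9 : (1 : ℝ) ≤ eb (N + n) := by exact_mod_cast one_le_eb (N + n)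
      have h10 : (e : ℝ) ≤ eb (N + n) := by
        exact_mod_cast he.trans (eb_mono (by omega : N ≤ N + n))
      have h11 : 1 ≤ (t : ℝ) - e := by nlinarith
      nlinarith
    calc ENNReal.ofReal (1 - 4 * ε ^ 2)
        ≤ ENNReal.ofReal ((Real.pi * (s * t) / (2 * ε ^ 2)) *
          (2 * ε ^ 2 / (Real.pi * (s * (t - e))) * Real.exp (-(4 * ε ^ 2 / (s * (t - e)))))) := by
          apply ENNReal.ofReal_le_ofReal
          have e2 : (Real.pi * (s * t) / (2 * ε ^ 2)) *
            (2 * ε ^ 2 / (Real.pi * (s * (t - e))) * Real.exp (-(4 * ε ^ 2 / (s * (t - e))))) =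
            (t / (t - e)) * Real.exp (-(4 * ε ^ 2 / (s * (t - e)))) := by
            field_simp
          rw [e2]
          have h12 : 1 ≤ (t : ℝ) / (t - e) := by
            rw [le_div_iff₀ h4]
            have : (0 : ℝ) ≤ e := e.2
            linarith
          have h13 : 4 * ε ^ 2 / (s * (t - e)) ≤ 4 * ε ^ 2 :=
            div_le_self (by positivity) h5
          have h14 : 1 - 4 * ε ^ 2 ≤ Real.exp (-(4 * ε ^ 2 / (s * (t - e)))) := by
            have := Real.add_one_le_exp (-(4 * ε ^ 2 / (s * ((t : ℝ) - e))))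
            linarith
          have h15 := Real.exp_pos (-(4 * ε ^ 2 / (s * ((t : ℝ) - e))))
          nlinarith
      _ = wt ε s t * ENNReal.ofReal
          (2 * ε ^ 2 / (Real.pi * (s * (t - e))) * Real.exp (-(4 * ε ^ 2 / (s * (t - e))))) := by
          unfold wt
          rw [ENNReal.ofReal_mul (by positivity)]
      _ ≤ _ := by gcongr
  have hmeas : ∀ n a, Measurable (fun ω =>
      wt ε s (tt M (N + n) a) * ind ε (pos (comb e u (pW X e ω)) s (tt M (N + n) a))) := by
    intro n a
    have hcomb : Measurable (fun ω => comb e u (pW X e ω)) :=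
      (measurable_comb e).comp (measurable_const.prodMk (h.meas_pW e))
    exact ((measurable_ind ε).comp
      ((measurable_pos s (tt M (N + n) a)).comp hcomb)).const_mul _
  unfold AZ
  rw [lintegral_const_mul _ (Finset.measurable_sum _ fun n _ => Finset.measurable_sum _ fun a _ =>
    hmeas n a), lintegral_finset_sum _ fun n _ => Finset.measurable_sum _ fun a _ => hmeas n a]
  calc ENNReal.ofReal (1 - 4 * ε ^ 2)
      = ENNReal.ofReal (1 / (m * M)) * ∑ n ∈ Finset.range m, ∑ a ∈ Finset.range M,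
        ENNReal.ofReal (1 - 4 * ε ^ 2) := by
        rw [Finset.sum_const, Finset.card_range, nsmul_eq_mul, Finset.sum_const,
          Finset.card_range, nsmul_eq_mul, ← ENNReal.ofReal_natCast, ← ENNReal.ofReal_natCast,
          ← mul_assoc, ← mul_assoc, ← ENNReal.ofReal_mul (by positivity),
          ← ENNReal.ofReal_mul (by positivity)]
        have : 1 / ((m : ℝ) * M) * m * M = 1 := by field_simp
        rw [this, ENNReal.ofReal_one, one_mul]
    _ ≤ _ := by
        gcongr with n hn
        rw [lintegral_finset_sum _ fun a _ => hmeas n a]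
        exact Finset.sum_le_sum fun a _ => hterm n a

/-- lower bound for the first moment -/
lemma lintegral_FZ_ge (h : IsSheet X P) {ε : ℝ} (hε : 0 < ε) {M j : ℕ} (hj : j < M) (k : ℕ) :
    ENNReal.ofReal (1 - 4 * ε ^ 2) ^ k ≤ ∫⁻ ω, FZ ε M k j (pV X ω) ∂P := by
  have hM : 1 ≤ M := by omega
  induction k with
  | zero => simp [FZ]
  | succ k ih =>
    rcases k with _ | k
    · have e1 : ∀ ω, FZ ε M (0 + 1) j (pV X ω) =
          AZ ε M (mz 0) (Nz 0) (sj M j) (comb 0 0 (pW X 0 ω)) := by
        intro ω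
        rw [FZ, zero_add, Finset.prod_range_one, ← AZ_comb (e := 0) zero_le]
        congr 1
        funext q
        simp only [comb, pU, min_self, sub_self, Pi.zero_apply]
      simp_rw [e1]
      rw [zero_add, pow_one]
      refine level_lower h hε hM (mz_pos 0) (sj_ge M j) zero_le ?_
      have : pos (0 : Fin 2 × ℝ≥0 × ℝ≥0 → ℝ) (sj M j) 0 = 0 := rfl
      rw [this, norm_zero]
      exact hε.le
    · have hstep : ∀ n < mz k, ∀ a < M,
          (∫⁻ ω, FZ ε M k j (pV X ω) * ind ε (pos (pV X ω) (sj M j) (tt M (Nz k + n) a)) ∂P) *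
            ENNReal.ofReal (1 - 4 * ε ^ 2) ≤
          ∫⁻ ω, (FZ ε M k j (pV X ω) * ind ε (pos (pV X ω) (sj M j) (tt M (Nz k + n) a))) *
            AZ ε M (mz (k + 1)) (Nz (k + 1)) (sj M j) (pV X ω) ∂P := by
        intro n hn a ha
        set e := tt M (Nz k + n) a with he
        have he1 : eb (Nz k) ≤ e := (eb_mono (by omega)).trans (eb_lt_tt M (Nz k + n) a).le
        have he2 : e ≤ eb (Nz (k + 1)) := (tt_le ha).trans (eb_mono (by rw [Nz_succ]; omega))
        have hmain := lintegral_mul_ge_of_indep (P := P) (U := pU X e) (V := pW X e) (h.meas_pU e)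
          (h.meas_pW e) (h.indep_UW e)
          (Ψ := fun u => FZ ε M k j u * ind ε (pos u (sj M j) e))
          ((measurable_FZ _ _ _ _).mul ((measurable_ind ε).comp (measurable_pos _ _)))
          (Φ := fun p => AZ ε M (mz (k + 1)) (Nz (k + 1)) (sj M j) (comb e p.1 p.2))
          ((measurable_AZ _ _ _ _ _).comp (measurable_comb e))
          (c := ENNReal.ofReal (1 - 4 * ε ^ 2))
          (fun u hu => by
            refine level_lower h hε hM (mz_pos _) (sj_ge M j) he2 ?_
            by_contra hcon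
            apply hu
            rw [ind_eq_zero hcon, mul_zero])
        refine le_trans (le_of_eq ?_) (hmain.trans (le_of_eq ?_))
        · congr 1
          refine lintegral_congr fun ω => ?_
          rw [FZ_pU he1]
          congr 2
          funext c
          simp only [pos]
          exact (pU_eq le_rfl ω).symm
        · refine lintegral_congr fun ω => ?_
          rw [FZ_pU he1, AZ_comb he2]
          congr 3
          funext c
          simp only [pos]
          exact pU_eq le_rfl ω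
      have hmF : Measurable (fun ω => FZ ε M k j (pV X ω)) := (measurable_FZ _ _ _ _).comp h.meas_pV
      have hmI : ∀ t, Measurable (fun ω => ind ε (pos (pV X ω) (sj M j) t)) := fun t =>
        (measurable_ind ε).comp ((measurable_pos _ _).comp h.meas_pV)
      have hmA : Measurable (fun ω => AZ ε M (mz (k + 1)) (Nz (k + 1)) (sj M j) (pV X ω)) :=
        (measurable_AZ _ _ _ _ _).comp h.meas_pV
      have hexp1 : ∀ ω, FZ ε M (k + 1) j (pV X ω) =
          ENNReal.ofReal (1 / (mz k * M)) * ∑ n ∈ Finset.range (mz k), ∑ a ∈ Finset.range M,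
            wt ε (sj M j) (tt M (Nz k + n) a) *
            (FZ ε M k j (pV X ω) * ind ε (pos (pV X ω) (sj M j) (tt M (Nz k + n) a))) := by
        intro ω
        rw [FZ, Finset.prod_range_succ]
        change FZ ε M k j (pV X ω) * AZ ε M (mz k) (Nz k) (sj M j) (pV X ω) = _
        unfold AZ
        rw [mul_left_comm, Finset.mul_sum]
        congr 1
        refine Finset.sum_congr rfl fun n _ => ?_
        rw [Finset.mul_sum]
        refine Finset.sum_congr rfl fun a _ => ?_
        ring
      have hexp2 : ∀ ω, FZ ε M (k + 1 + 1) j (pV X ω) =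
          ENNReal.ofReal (1 / (mz k * M)) * ∑ n ∈ Finset.range (mz k), ∑ a ∈ Finset.range M,
            wt ε (sj M j) (tt M (Nz k + n) a) *
            ((FZ ε M k j (pV X ω) * ind ε (pos (pV X ω) (sj M j) (tt M (Nz k + n) a))) *
              AZ ε M (mz (k + 1)) (Nz (k + 1)) (sj M j) (pV X ω)) := by
        intro ω
        rw [FZ, Finset.prod_range_succ]
        change FZ ε M (k + 1) j (pV X ω) * AZ ε M (mz (k + 1)) (Nz (k + 1)) (sj M j) (pV X ω) = _
        rw [hexp1, mul_assoc, Finset.sum_mul]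
        congr 1
        refine Finset.sum_congr rfl fun n _ => ?_
        rw [Finset.sum_mul]
        refine Finset.sum_congr rfl fun a _ => ?_
        ring
      have hm0 : ∀ t, Measurable (fun ω => FZ ε M k j (pV X ω) *
          ind ε (pos (pV X ω) (sj M j) t)) := fun t => hmF.mul (hmI t)
      have hm0' : ∀ t, Measurable (fun ω => FZ ε M k j (pV X ω) *
          ind ε (pos (pV X ω) (sj M j) t) *
          AZ ε M (mz (k + 1)) (Nz (k + 1)) (sj M j) (pV X ω)) := fun t => (hm0 t).mul hmA
      have hm1 : ∀ n a, Measurable (fun ω => wt ε (sj M j) (tt M (Nz k + n) a) *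
            (FZ ε M k j (pV X ω) * ind ε (pos (pV X ω) (sj M j) (tt M (Nz k + n) a)))) :=
        fun n a => (hm0 _).const_mul _
      have hm1' : ∀ n a, Measurable (fun ω => wt ε (sj M j) (tt M (Nz k + n) a) *
            (FZ ε M k j (pV X ω) * ind ε (pos (pV X ω) (sj M j) (tt M (Nz k + n) a)) *
              AZ ε M (mz (k + 1)) (Nz (k + 1)) (sj M j) (pV X ω))) :=
        fun n a => (hm0' _).const_mul _
      simp_rw [hexp1] at ih
      simp_rw [hexp2]
      rw [lintegral_const_mul _ (Finset.measurable_sum _ fun n _ => Finset.measurable_sum _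
        fun a _ => hm1 n a), lintegral_finset_sum _ fun n _ =>
          Finset.measurable_sum _ fun a _ => hm1 n a] at ih
      rw [lintegral_const_mul _ (Finset.measurable_sum _ fun n _ => Finset.measurable_sum _
        fun a _ => hm1' n a), lintegral_finset_sum _ fun n _ =>
          Finset.measurable_sum _ fun a _ => hm1' n a]
      rw [pow_succ]
      calc _ ≤ (ENNReal.ofReal (1 / (mz k * M)) * ∑ n ∈ Finset.range (mz k), ∫⁻ ω,
            ∑ a ∈ Finset.range M, wt ε (sj M j) (tt M (Nz k + n) a) *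
            (FZ ε M k j (pV X ω) * ind ε (pos (pV X ω) (sj M j) (tt M (Nz k + n) a))) ∂P) *
            ENNReal.ofReal (1 - 4 * ε ^ 2) := by gcongr
        _ = ENNReal.ofReal (1 / (mz k * M)) * ∑ n ∈ Finset.range (mz k), (∫⁻ ω,
            ∑ a ∈ Finset.range M, wt ε (sj M j) (tt M (Nz k + n) a) *
            (FZ ε M k j (pV X ω) * ind ε (pos (pV X ω) (sj M j) (tt M (Nz k + n) a))) ∂P) *
            ENNReal.ofReal (1 - 4 * ε ^ 2) := by rw [mul_assoc, Finset.sum_mul]
        _ ≤ _ := by
            gcongr with n hn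
            rw [Finset.mem_range] at hn
            rw [lintegral_finset_sum _ fun a _ => hm1 n a,
              lintegral_finset_sum _ fun a _ => hm1' n a, Finset.sum_mul]
            refine Finset.sum_le_sum fun a ha => ?_
            rw [Finset.mem_range] at ha
            rw [lintegral_const_mul _ (hm0 _), lintegral_const_mul _ (hm0' _), mul_assoc]
            gcongr
            exact hstep n hn a ha

end Pool.Agent.Helper41
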