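import Mathlib
import Pool.Agent.Helper41.ZeroFinal

open MeasureTheory ProbabilityTheory Filter Topology
open scoped ENNReal NNReal

namespace Pool.Agent.Helper41

variable {Ω : Type*} [MeasurableSpace Ω] {P : Measure Ω} [IsProbabilityMeasure P]
variable {X : Fin 2 × ℝ≥0 × ℝ≥0 → Ω → ℝ}

/-- deterministic bound for one level -/
lemma AZ_le {ε : ℝ} {M m N : ℕ} (hM : 1 ≤ M) (hm : 1 ≤ m) {s : ℝ≥0}
    (hs : s ≤ 2) (x : Fin 2 × ℝ≥0 × ℝ≥0 → ℝ) :
    AZ ε M m N s x ≤ ENNReal.ofReal (Real.pi * (2 * eb (N + m)) / (2 * ε ^ 2)) := by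
  have hM' : (0 : ℝ) < M := by exact_mod_cast hM
  have hm' : (0 : ℝ) < m := by exact_mod_cast hm
  have hpi := Real.pi_pos
  unfold AZ
  calc _ ≤ ENNReal.ofReal (1 / (m * M)) * ∑ n ∈ Finset.range m, ∑ a ∈ Finset.range M,
        ENNReal.ofReal (Real.pi * (2 * eb (N + m)) / (2 * ε ^ 2)) := by
        gcongr with n hn a ha
        rw [Finset.mem_range] at hn ha
        calc _ ≤ wt ε s (tt M (N + n) a) * 1 := by
              gcongr
              exact ind_le_one _ _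
          _ = wt ε s (tt M (N + n) a) := mul_one _
          _ ≤ _ := by
              unfold wt
              apply ENNReal.ofReal_le_ofReal
              have h1 : (s : ℝ) ≤ 2 := by exact_mod_cast hs
              have h2 : ((tt M (N + n) a : ℝ≥0) : ℝ) ≤ eb (N + m) := by
                exact_mod_cast (tt_le ha).trans (eb_mono (by omega))
              gcongr
    _ = _ := by
        rw [Finset.sum_const, Finset.card_range, nsmul_eq_mul, Finset.sum_const,
          Finset.card_range, nsmul_eq_mul, ← ENNReal.ofReal_natCast, ← ENNReal.ofReal_natCast,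
          ← mul_assoc, ← mul_assoc, ← ENNReal.ofReal_mul (by positivity),
          ← ENNReal.ofReal_mul (by positivity)]
        have : 1 / ((m : ℝ) * M) * m * M = 1 := by field_simp
        rw [this, ENNReal.ofReal_one, one_mul]

lemma exp_half_log {x : ℝ} (hx : 0 < x) : Real.exp (Real.log x / 2) = √x := by
  rw [Real.sqrt_eq_rpow, Real.rpow_def_of_pos hx]
  congr 1
  ring

lemma prod_bound_zero (k : ℕ) {L : ℝ} (hL : 1 ≤ L) :
    ∏ i ∈ Finset.range k, (Real.exp ((1 / 2) ^ Nz i) + 640 * L / (mz i : ℝ)) ≤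
      Real.exp (2 + L / 2) := by
  have h1 : ∀ i ∈ Finset.range k, (Real.exp ((1 / 2) ^ Nz i) + 640 * L / (mz i : ℝ)) ≤
      Real.exp ((1 + L / 4) * (1 / 2) ^ i) := by
    intro i _
    have e : 640 * L / (mz i : ℝ) = (L / 4) * (1 / 2) ^ i := by
      unfold mz
      push_cast
      rw [div_pow, one_pow]
      field_simp
      norm_num
    have h2 : ((1 : ℝ) / 2) ^ Nz i ≤ (1 / 2) ^ i :=
      pow_le_pow_of_le_one (by norm_num) (by norm_num) (le_Nz i)
    have h3 : Real.exp ((1 / 2) ^ Nz i) ≤ Real.exp ((1 / 2) ^ i) := Real.exp_le_exp.2 h2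
    have h4 : 0 ≤ (L / 4) * (1 / 2) ^ i := by positivity
    have h5 : 1 ≤ Real.exp ((1 / 2) ^ i) := Real.one_le_exp (by positivity)
    have h6 : 1 + (L / 4) * (1 / 2) ^ i ≤ Real.exp ((L / 4) * (1 / 2) ^ i) := by
      rw [add_comm]
      exact Real.add_one_le_exp _
    rw [e, add_mul, one_mul, Real.exp_add]
    calc Real.exp ((1 / 2) ^ Nz i) + L / 4 * (1 / 2) ^ i
        ≤ Real.exp ((1 / 2) ^ i) * (1 + L / 4 * (1 / 2) ^ i) := by nlinarith
      _ ≤ _ := by gcongr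
  calc _ ≤ ∏ i ∈ Finset.range k, Real.exp ((1 + L / 4) * (1 / 2) ^ i) :=
        Finset.prod_le_prod (fun i _ => by positivity) h1
    _ = Real.exp (∑ i ∈ Finset.range k, (1 + L / 4) * (1 / 2) ^ i) := by rw [Real.exp_sum]
    _ ≤ _ := by
        apply Real.exp_le_exp.2
        rw [← Finset.mul_sum]
        have := sum_geometric_two_le k
        nlinarith

/-- With probability at least `1/212` some slice is nearly at the origin at some time in each of
the first `k` levels. -/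
theorem near_zero (h : IsSheet X P) {ε : ℝ} (hε : 0 < ε) (k : ℕ)
    (hεk : 8 * (k + 1) * ε ^ 2 ≤ 1) :
    ∃ G : Set Ω, MeasurableSet G ∧ ENNReal.ofReal (1 / 212) ≤ P G ∧
      ∀ ω ∈ G, ∃ s : ℝ≥0, 1 ≤ s ∧ s ≤ 2 ∧ ∀ i < k, ∃ n < mz i, ∃ u : ℝ≥0, u ≤ 1 ∧
        ‖pos (pV X ω) s (Tb (Nz i + n) * (1 + u))‖ ≤ ε := by
  set R : ℝ := ∏ i ∈ Finset.range k, (Real.pi * (2 * eb (Nz i + mz i)) / (2 * ε ^ 2)) with hR
  have hpi := Real.pi_pos
  have hR0 : 0 ≤ R := Finset.prod_nonneg fun i _ => by positivity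
  obtain ⟨M, hMlarge⟩ := exists_nat_ge (max 1 (R * R))
  have hM : 1 ≤ M := by exact_mod_cast (le_max_left _ _).trans hMlarge
  have hMR : R * R ≤ M := (le_max_right _ _).trans hMlarge
  have hM' : (0 : ℝ) < M := by exact_mod_cast hM
  have hk0 : (0 : ℝ) ≤ k := Nat.cast_nonneg k
  have hε2 : 4 * ε ^ 2 ≤ 1 := by nlinarith [sq_nonneg ε]
  have hFle : ∀ j < M, ∀ x, FZ ε M k j x ≤ ENNReal.ofReal R := by
    intro j hj x
    rw [hR, ENNReal.ofReal_prod_of_nonneg (fun i _ => by positivity)]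
    exact Finset.prod_le_prod' fun i _ => AZ_le hM (mz_pos i) (sj_le hj) x
  have hsm := second_moment (P := P) hM (fun j ω => FZ ε M k j (pV X ω))
    (fun j => (measurable_FZ _ _ _ _).comp h.meas_pV)
    (K := 13) (by norm_num)
    (fun j hj => by
      refine le_trans ?_ (lintegral_FZ_ge h hε hj k)
      rw [← ENNReal.ofReal_pow (by linarith)]
      have h1 : (1 : ℝ) / 2 ≤ (1 - 4 * ε ^ 2) ^ k := by
        have h2 := one_add_mul_le_pow (a := -(4 * ε ^ 2)) (by linarith) k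
        have h3 : 1 + -(4 * ε ^ 2) = 1 - 4 * ε ^ 2 := by ring
        rw [h3] at h2
        nlinarith [sq_nonneg ε]
      calc (1 / 2 : ℝ≥0∞) = ENNReal.ofReal (1 / 2) := by
            rw [one_div, one_div, ENNReal.ofReal_inv_of_pos (by norm_num)]
            norm_num
        _ ≤ _ := ENNReal.ofReal_le_ofReal h1)
    (fun j hj => by
      calc ∫⁻ ω, FZ ε M k j (pV X ω) * FZ ε M k j (pV X ω) ∂P
          ≤ ∫⁻ _ω, ENNReal.ofReal (M : ℝ) ∂P := by
            refine lintegral_mono fun ω => ?_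
            calc _ ≤ ENNReal.ofReal R * ENNReal.ofReal R := by
                  gcongr
                  · exact hFle j hj _
                  · exact hFle j hj _
              _ = ENNReal.ofReal (R * R) := (ENNReal.ofReal_mul hR0).symm
              _ ≤ _ := ENNReal.ofReal_le_ofReal hMR
        _ = M := by
            rw [lintegral_const, measure_univ, mul_one, ENNReal.ofReal_natCast])
    (fun j hj j' hj' hjj => by
      refine (lintegral_FZ_mul_le h hε hj hj' hjj k).trans ?_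
      set d : ℕ := (j - j') + (j' - j) with hd
      have hd1 : 1 ≤ d := by omega
      have hdM : d ≤ M := by omega
      have hd0 : (0 : ℝ) < d := by exact_mod_cast hd1
      have hlog : 0 ≤ Real.log (M / d) := by
        apply Real.log_nonneg
        rw [le_div_iff₀ hd0, one_mul]
        exact_mod_cast hdM
      rw [← ENNReal.ofReal_prod_of_nonneg (fun i _ => by positivity)]
      apply ENNReal.ofReal_le_ofReal
      refine (prod_bound_zero k (L := 1 + Real.log (M / d)) (by linarith)).trans ?_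
      have e0 : 2 + (1 + Real.log ((M : ℝ) / d)) / 2 = 5 / 2 + Real.log (M / d) / 2 := by ring
      rw [e0, Real.exp_add, exp_half_log (by positivity)]
      have e2 : Real.exp (5 / 2) ≤ 13 := by
        have h3 : Real.exp (5 / 2) ^ 2 ≤ 13 ^ 2 := by
          rw [← Real.exp_nat_mul]
          have h4 : ((2 : ℕ) : ℝ) * (5 / 2) = ((5 : ℕ) : ℝ) * 1 := by norm_num
          rw [h4, Real.exp_nat_mul]
          have h5 := Real.exp_one_lt_d9
          have h6 := Real.exp_pos 1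
          calc Real.exp 1 ^ 5 ≤ (2.7182818286 : ℝ) ^ 5 := by gcongr
            _ ≤ 13 ^ 2 := by norm_num
        exact le_of_sq_le_sq h3 (by norm_num)
      gcongr)
  refine ⟨{ω | ∃ j < M, FZ ε M k j (pV X ω) ≠ 0}, ?_, ?_, ?_⟩
  · have : {ω | ∃ j < M, FZ ε M k j (pV X ω) ≠ 0} =
        ⋃ j ∈ Finset.range M, {ω | FZ ε M k j (pV X ω) ≠ 0} := by
      ext ω
      simp
    rw [this]
    exact Finset.measurableSet_biUnion _ fun j _ =>
      (((measurable_FZ ε M k j).comp h.meas_pV) (measurableSet_singleton 0)).compl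
  · refine le_trans (le_of_eq ?_) hsm
    norm_num
  · rintro ω ⟨j, hj, hne⟩
    refine ⟨sj M j, sj_ge M j, sj_le hj, fun i hi => ?_⟩
    have h1 : AZ ε M (mz i) (Nz i) (sj M j) (pV X ω) ≠ 0 := by
      intro h0
      exact hne (Finset.prod_eq_zero (Finset.mem_range.2 hi) h0)
    have h2 := right_ne_zero_of_mul h1
    obtain ⟨n, hn, h3⟩ := Finset.exists_ne_zero_of_sum_ne_zero h2
    obtain ⟨a, ha, h4⟩ := Finset.exists_ne_zero_of_sum_ne_zero h3
    have h5 := right_ne_zero_of_mul h4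
    refine ⟨n, Finset.mem_range.1 hn, a / M, div_le_one' (Finset.mem_range.1 ha), ?_⟩
    by_contra hcon
    exact h5 (ind_eq_zero hcon)

lemma continuous_posV {ω : Ω} (hcont : ∀ c, Continuous (fun p : ℝ≥0 × ℝ≥0 => X (c, p.1, p.2) ω)) :
    Continuous (fun q : ℝ≥0 × ℝ≥0 => pos (pV X ω) q.1 q.2) := by
  refine continuous_pi fun c => ?_
  have h2 : Continuous (fun q : ℝ≥0 × ℝ≥0 => X (c, q.1, (0 : ℝ≥0)) ω) :=
    (hcont c).comp (continuous_fst.prodMk continuous_const)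
  exact (hcont c).sub h2

lemma continuous_posV' {ω : Ω} (hcont : ∀ c, Continuous (fun p : ℝ≥0 × ℝ≥0 => X (c, p.1, p.2) ω))
    (i : ℕ) :
    Continuous (fun q : ℝ≥0 × ℕ × ℝ≥0 =>
      pos (pV X ω) q.1 (Tb (Nz i + q.2.1) * (1 + q.2.2))) := by
  have hn : Continuous (fun q : ℝ≥0 × ℕ × ℝ≥0 => Tb (Nz i + q.2.1)) := by
    have : Continuous (fun n : ℕ => Tb (Nz i + n)) := continuous_of_discreteTopology
    exact this.comp (continuous_fst.comp continuous_snd)
  have ht : Continuous (fun q : ℝ≥0 × ℕ × ℝ≥0 => Tb (Nz i + q.2.1) * (1 + q.2.2)) :=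
    hn.mul (continuous_const.add (continuous_snd.comp continuous_snd))
  exact (continuous_posV hcont).comp (continuous_fst.prodMk ht)

/-- Passing from approximate to exact zeros by compactness. -/
theorem exact_zero_of_near {ω : Ω}
    (hcont : ∀ c, Continuous (fun p : ℝ≥0 × ℝ≥0 => X (c, p.1, p.2) ω))
    (hnear : ∀ K : ℕ, ∃ k, K ≤ k ∧ ∃ s : ℝ≥0, 1 ≤ s ∧ s ≤ 2 ∧ ∀ i < k, ∃ n < mz i,
      ∃ u : ℝ≥0, u ≤ 1 ∧
        ‖pos (pV X ω) s (Tb (Nz i + n) * (1 + u))‖ ≤ 1 / (8 * ((k : ℝ) + 1))) :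
    ∃ s : ℝ≥0, 1 ≤ s ∧ ∀ i, ∃ n < mz i, ∃ u : ℝ≥0, u ≤ 1 ∧
      pos (pV X ω) s (Tb (Nz i + n) * (1 + u)) = 0 := by
  choose k hk s hs1 hs2 H using hnear
  obtain ⟨s', hs', φ, hφ, hlim⟩ := (isCompact_Icc (a := (1 : ℝ≥0)) (b := 2)).tendsto_subseq
    (x := s) (fun K => ⟨hs1 K, hs2 K⟩)
  refine ⟨s', hs'.1, fun i => ?_⟩
  have H' : ∀ K, ∃ q : ℕ × ℝ≥0, q ∈ (Set.Iio (mz i)) ×ˢ (Set.Icc (0 : ℝ≥0) 1) ∧ (i < K →
      ‖pos (pV X ω) (s (φ K)) (Tb (Nz i + q.1) * (1 + q.2))‖ ≤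
        1 / (8 * ((k (φ K) : ℝ) + 1))) := by
    intro K
    by_cases hiK : i < K
    · obtain ⟨n, hn, u, hu, hq⟩ := H (φ K) i
        (lt_of_lt_of_le hiK ((hφ.id_le K).trans (hk (φ K))))
      exact ⟨(n, u), ⟨hn, ⟨zero_le, hu⟩⟩, fun _ => hq⟩
    · exact ⟨(0, 0), ⟨mz_pos i, ⟨zero_le, zero_le⟩⟩, fun h => absurd h hiK⟩
  choose q hq1 hq2 using H'
  have hcomp : IsCompact ((Set.Iio (mz i)) ×ˢ (Set.Icc (0 : ℝ≥0) 1)) :=
    (Set.finite_Iio _).isCompact.prod isCompact_Icc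
  obtain ⟨q', hq', ψ, hψ, hlim'⟩ := hcomp.tendsto_subseq hq1
  refine ⟨q'.1, hq'.1, q'.2, hq'.2.2, ?_⟩
  have h1 : Tendsto (fun K => (s (φ (ψ K)), q (ψ K))) atTop (𝓝 (s', q')) :=
    (hlim.comp hψ.tendsto_atTop).prodMk_nhds hlim'
  have h2 := ((continuous_posV' hcont i).tendsto (s', q')).comp h1
  have h3 : Tendsto (fun K => ‖pos (pV X ω) (s (φ (ψ K)))
      (Tb (Nz i + (q (ψ K)).1) * (1 + (q (ψ K)).2))‖) atTop
      (𝓝 ‖pos (pV X ω) s' (Tb (Nz i + q'.1) * (1 + q'.2))‖) := h2.norm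
  have h4 : Tendsto (fun K : ℕ => 1 / (8 * ((k (φ (ψ K)) : ℝ) + 1))) atTop (𝓝 0) := by
    have h5 : Tendsto (fun K : ℕ => (1 / 8) * (1 / ((K : ℝ) + 1))) atTop (𝓝 ((1 / 8) * 0)) :=
      tendsto_one_div_add_atTop_nhds_zero_nat.const_mul _
    rw [mul_zero] at h5
    have h6 : Tendsto (fun K : ℕ => k (φ (ψ K))) atTop atTop :=
      tendsto_atTop_mono (fun K => (hψ.id_le K).trans ((hφ.id_le _).trans (hk _))) tendsto_id
    refine (h5.comp h6).congr fun K => ?_
    simp only [Function.comp]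
    field_simp
  have h7 : ‖pos (pV X ω) s' (Tb (Nz i + q'.1) * (1 + q'.2))‖ ≤ 0 := by
    refine le_of_tendsto_of_tendsto h3 h4 ?_
    filter_upwards [eventually_gt_atTop i] with K hK
    exact hq2 (ψ K) (lt_of_lt_of_le hK (hψ.id_le K))
  exact norm_le_zero_iff.1 h7

/-- From exact zeros at every level to infinitely many zeros. -/
theorem infinite_zero_of_exact {ω : Ω} {s : ℝ≥0}
    (h : ∀ i, ∃ n < mz i, ∃ u : ℝ≥0, u ≤ 1 ∧
      pos (pV X ω) s (Tb (Nz i + n) * (1 + u)) = 0) :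
    {t : ℝ | 0 < t ∧ ∀ c, pV X ω (c, s, t.toNNReal) = 0}.Infinite := by
  choose n hn u hu hv using h
  refine Set.infinite_of_injective_forall_mem
    (f := fun i => ((Tb (Nz i + n i) * (1 + u i) : ℝ≥0) : ℝ)) ?_ ?_
  · have hlt : ∀ i j, i < j → Tb (Nz i + n i) * (1 + u i) < Tb (Nz j + n j) * (1 + u j) := by
      intro i j hij
      have h1 : Tb (Nz i + n i) * (1 + u i) ≤ eb (Nz i + n i + 1) := by
        rw [eb_succ, mul_comm]
        gcongr
        calc 1 + u i ≤ 1 + 1 := by gcongr; exact hu i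
          _ = 2 := by norm_num
      have h2 : eb (Nz i + n i + 1) ≤ eb (Nz j + n j) := by
        apply eb_mono
        have h3 := Nz_mono (show i + 1 ≤ j from hij)
        rw [Nz_succ] at h3
        have := hn i
        omega
      have h4 : eb (Nz j + n j) < Tb (Nz j + n j) * (1 + u j) := by
        have h5 := eb_lt_tt 0 (Nz j + n j) 0
        have h6 : tt 0 (Nz j + n j) 0 = Tb (Nz j + n j) := by
          unfold tt
          simp
        rw [h6] at h5
        exact h5.trans_le (le_mul_of_one_le_right zero_le le_self_add)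
      exact (h1.trans h2).trans_lt h4
    intro i j hij
    have hij' : Tb (Nz i + n i) * (1 + u i) = Tb (Nz j + n j) * (1 + u j) :=
      NNReal.coe_injective hij
    rcases lt_trichotomy i j with hlt' | heq | hgt
    · exact absurd hij' (hlt i j hlt').ne
    · exact heq
    · exact absurd hij'.symm (hlt j i hgt).ne
  · intro i
    refine ⟨?_, fun c => ?_⟩
    · have : (0 : ℝ≥0) < Tb (Nz i + n i) * (1 + u i) :=
        mul_pos (Tb_pos _) (lt_of_lt_of_le one_pos le_self_add)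
      exact_mod_cast this
    · rw [Real.toNNReal_coe]
      exact congrFun (hv i) c

/-- With positive probability some slice of the planar sheet has infinitely many zeros. -/
theorem IsSheet.pos_infinite_zero (h : IsSheet X P)
    (hcont : ∀ ω c, Continuous (fun p : ℝ≥0 × ℝ≥0 => X (c, p.1, p.2) ω)) :
    ¬ ∀ᵐ ω ∂P, ∀ s : ℝ≥0, 0 < s →
      {t : ℝ | 0 < t ∧ ∀ c, pV X ω (c, s, t.toNNReal) = 0}.Finite := by
  intro hae
  have hε : ∀ k : ℕ, (0 : ℝ) < 1 / (8 * ((k : ℝ) + 1)) := fun k => by positivity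
  have hε1 : ∀ k : ℕ, 8 * ((k : ℝ) + 1) * (1 / (8 * ((k : ℝ) + 1))) ^ 2 ≤ 1 := fun k => by
    have hk : (0 : ℝ) ≤ k := Nat.cast_nonneg k
    have e : 8 * ((k : ℝ) + 1) * (1 / (8 * ((k : ℝ) + 1))) ^ 2 = 1 / (8 * ((k : ℝ) + 1)) := by
      field_simp
    rw [e, div_le_one (by positivity)]
    linarith
  choose G hGm hGP hG using fun k : ℕ => near_zero h (hε k) k (hε1 k)
  have h1 := limsup_ge (P := P) (G := G) (fun k => (hGm k).nullMeasurableSet) hGP
  have h2 : P {ω | ∀ K, ∃ k, K ≤ k ∧ ω ∈ G k} = 0 := by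
    refine measure_mono_null ?_ hae
    intro ω hω hcon
    obtain ⟨s, hs1, hs⟩ := exact_zero_of_near (hcont ω) (fun K => by
      obtain ⟨k, hk, hkG⟩ := hω K
      exact ⟨k, hk, hG k ω hkG⟩)
    exact infinite_zero_of_exact hs (hcon s (lt_of_lt_of_le one_pos hs1))
  rw [h2] at h1
  have h3 : (0 : ℝ≥0∞) < ENNReal.ofReal (1 / 212) := by
    rw [ENNReal.ofReal_pos]
    norm_num
  exact absurd h1 (not_le.2 h3)

/-- Characteristic function of finite linear combinations, indexed by a finite type. -/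
lemma CharKernel.char_fintype {T : Type*} {X : T → Ω → ℝ} {K : T → T → ℝ}
    (h : CharKernel X P K) {ι : Type*} [Fintype ι] (q : ι → T) (a : ι → ℝ) :
    ∫ ω, Complex.exp (Complex.I * ((∑ i, a i * X (q i) ω : ℝ) : ℂ)) ∂P =
      Complex.exp (-(1 / 2 : ℂ) * ((∑ i, ∑ j, a i * a j * K (q i) (q j) : ℝ) : ℂ)) := by
  have h1 := h _ (q ∘ (Fintype.equivFin ι).symm) (a ∘ (Fintype.equivFin ι).symm)
  have e1 : ∀ ω, ∑ i, (a ∘ (Fintype.equivFin ι).symm) i * X ((q ∘ (Fintype.equivFin ι).symm) i) ω =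
      ∑ i, a i * X (q i) ω := fun ω =>
    Equiv.sum_comp (Fintype.equivFin ι).symm (fun i => a i * X (q i) ω)
  have e2 : ∑ i, ∑ j, (a ∘ (Fintype.equivFin ι).symm) i * (a ∘ (Fintype.equivFin ι).symm) j *
      K ((q ∘ (Fintype.equivFin ι).symm) i) ((q ∘ (Fintype.equivFin ι).symm) j) =
      ∑ i, ∑ j, a i * a j * K (q i) (q j) := by
    rw [← Equiv.sum_comp (Fintype.equivFin ι).symm (fun i => ∑ j, a i * a j * K (q i) (q j))]
    refine Finset.sum_congr rfl fun i _ => ?_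
    rw [← Equiv.sum_comp (Fintype.equivFin ι).symm
      (fun j => a ((Fintype.equivFin ι).symm i) * a j * K (q ((Fintype.equivFin ι).symm i)) (q j))]
    rfl
  simp_rw [e1] at h1
  rw [e2] at h1
  exact h1

/-- The sheet vanishes at time zero. -/
lemma IsSheet.ae_zero {ι : Type*} [DecidableEq ι] {X : ι × ℝ≥0 × ℝ≥0 → Ω → ℝ}
    (h : IsSheet X P) (c : ι) (s : ℝ≥0) : ∀ᵐ ω ∂P, X (c, s, 0) ω = 0 := by
  have h1 := h.char.map_single h.meas (c, s, 0)
  have h2 : sheetK (c, s, (0 : ℝ≥0)) (c, s, (0 : ℝ≥0)) = 0 := by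
    unfold sheetK
    simp
  rw [h2, Real.toNNReal_zero, gaussianReal_zero_var] at h1
  have h3 : P ((X (c, s, 0)) ⁻¹' {0}ᶜ) = 0 := by
    rw [← Measure.map_apply (h.meas _) (measurableSet_singleton 0).compl, h1,
      Measure.dirac_apply' _ (measurableSet_singleton 0).compl]
    simp
  exact h3

end Pool.Agent.Helper41
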