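import Mathlib

open MeasureTheory Filter Topology Metric
open scoped ENNReal NNReal

namespace Pool.Agent.Helper41

section
variable {X : Type*} [EMetricSpace X] [MeasurableSpace X] [BorelSpace X]

/-- Small covers of a set of zero Hausdorff measure. -/
lemma exists_cover_of_hausdorff_zero {A : Set X} {s : ℝ} (h0 : μH[s] A = 0) {r ε : ℝ≥0∞}
    (hr : 0 < r) (hε : 0 < ε) :
    ∃ t : ℕ → Set X, A ⊆ ⋃ n, t n ∧ (∀ n, ediam (t n) ≤ r) ∧
      ∑' n, (⨆ _ : (t n).Nonempty, ediam (t n) ^ s) < ε := by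
  rw [Measure.hausdorffMeasure_apply] at h0
  have h1 : (⨅ (t : ℕ → Set X) (_ : A ⊆ ⋃ n, t n) (_ : ∀ n, ediam (t n) ≤ r),
          ∑' n, ⨆ _ : (t n).Nonempty, ediam (t n) ^ s) < ε := by
    refine lt_of_le_of_lt ?_ hε
    rw [← h0]
    exact le_iSup₂ (f := fun (r : ℝ≥0∞) (_ : 0 < r) =>
      ⨅ (t : ℕ → Set X) (_ : A ⊆ ⋃ n, t n) (_ : ∀ n, ediam (t n) ≤ r),
          ∑' n, ⨆ _ : (t n).Nonempty, ediam (t n) ^ s) r hr
  simp only [iInf_lt_iff] at h1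
  obtain ⟨t, ht1, ht2, ht3⟩ := h1
  exact ⟨t, ht1, ht2, ht3⟩

end

lemma exists_pow_rpow_le {p : ℝ} (hp : 0 < p) (n₁ : ℕ) {δ : ℝ≥0∞} (hδ : 0 < δ) :
    ∃ n, n₁ ≤ n ∧ ((1 / 2 : ℝ≥0∞) ^ n) ^ p ≤ δ := by
  have h1 : Tendsto (fun n : ℕ => ((1 / 2 : ℝ≥0∞)) ^ n) atTop (𝓝 0) := by
    refine ENNReal.tendsto_pow_atTop_nhds_zero_of_lt_one ?_
    rw [one_div]
    exact ENNReal.inv_lt_one.2 (by norm_num)
  have h2 : Tendsto (fun n : ℕ => (((1 / 2 : ℝ≥0∞)) ^ n) ^ p) atTop (𝓝 (0 ^ p)) :=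
    ((ENNReal.continuous_rpow_const (y := p)).tendsto 0).comp h1
  rw [ENNReal.zero_rpow_of_pos hp] at h2
  have h3 := (h2.eventually (ge_mem_nhds hδ)).and (eventually_ge_atTop n₁)
  obtain ⟨n, hn1, hn2⟩ := h3.exists
  exact ⟨n, hn2, hn1⟩

/-- Choice of a dyadic scale for a set. -/
lemma exists_scale {X : Type*} [EMetricSpace X] (τ : Set X) {n₁ : ℕ}
    (hτ : ediam τ ≤ (1 / 2 : ℝ≥0∞) ^ n₁) {s ρ : ℝ} (hs : 0 ≤ s) (hρ : 0 < ρ) {δ : ℝ≥0∞}
    (hδ : 0 < δ) :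
    ∃ n, n₁ ≤ n ∧ ediam τ ≤ (1 / 2 : ℝ≥0∞) ^ n ∧
      ((1 / 2 : ℝ≥0∞) ^ n) ^ (s + ρ) ≤ 2 ^ s * (⨆ _ : τ.Nonempty, ediam τ ^ s) + δ := by
  have hhalf : (1 / 2 : ℝ≥0∞) < 1 := by
    rw [one_div]
    exact ENNReal.inv_lt_one.2 (by norm_num)
  rcases eq_or_ne (ediam τ) 0 with h0 | h0
  · obtain ⟨n, hn1, hn2⟩ := exists_pow_rpow_le (p := s + ρ) (by linarith) n₁ hδ
    refine ⟨n, hn1, ?_, hn2.trans le_add_self⟩
    rw [h0]
    exact bot_le
  · have hne : τ.Nonempty := by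
      by_contra hcon
      rw [Set.not_nonempty_iff_eq_empty] at hcon
      rw [hcon, ediam_empty] at h0
      exact h0 rfl
    have hex : ∃ n : ℕ, (1 / 2 : ℝ≥0∞) ^ n < ediam τ := by
      have h1 : Tendsto (fun n : ℕ => ((1 / 2 : ℝ≥0∞)) ^ n) atTop (𝓝 0) :=
        ENNReal.tendsto_pow_atTop_nhds_zero_of_lt_one hhalf
      exact (h1.eventually (gt_mem_nhds (pos_iff_ne_zero.2 h0))).exists
    classical
    set m := Nat.find hex with hm
    have hm1 : (1 / 2 : ℝ≥0∞) ^ m < ediam τ := Nat.find_spec hex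
    have hmn : n₁ < m := by
      by_contra hcon
      rw [not_lt] at hcon
      have : (1 / 2 : ℝ≥0∞) ^ n₁ ≤ (1 / 2) ^ m := pow_le_pow_of_le_one zero_le hhalf.le hcon
      exact absurd (hm1.trans_le (hτ.trans this)) (lt_irrefl _)
    obtain ⟨n, hn⟩ : ∃ n, m = n + 1 := ⟨m - 1, by omega⟩
    have hn2 : ediam τ ≤ (1 / 2 : ℝ≥0∞) ^ n := by
      have := Nat.find_min hex (m := n) (by omega)
      exact not_lt.1 this
    refine ⟨n, by omega, hn2, ?_⟩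
    have h2 : (1 / 2 : ℝ≥0∞) ^ n ≤ 2 * ediam τ := by
      have h3 : (1 / 2 : ℝ≥0∞) ^ n = 2 * (1 / 2) ^ (n + 1) := by
        rw [pow_succ, mul_comm, mul_assoc, one_div, ENNReal.inv_mul_cancel (by norm_num)
          (by norm_num), mul_one]
      rw [h3, ← hn]
      gcongr
    calc ((1 / 2 : ℝ≥0∞) ^ n) ^ (s + ρ) ≤ ((1 / 2 : ℝ≥0∞) ^ n) ^ s :=
          ENNReal.rpow_le_rpow_of_exponent_ge (pow_le_one' hhalf.le n) (by linarith)
      _ ≤ (2 * ediam τ) ^ s := ENNReal.rpow_le_rpow h2 hs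
      _ = 2 ^ s * ediam τ ^ s := ENNReal.mul_rpow_of_nonneg _ _ hs
      _ = 2 ^ s * (⨆ _ : τ.Nonempty, ediam τ ^ s) := by rw [ciSup_pos hne]
      _ ≤ _ := le_self_add

variable {α β : Type*} [EMetricSpace α] [MeasurableSpace α] [BorelSpace α] [EMetricSpace β]
  [MeasurableSpace β] [BorelSpace β]

/-- Transfer of zero Hausdorff measure from an image to the set, when small preimages can be
covered by few small sets. -/
theorem hausdorff_transfer (g : α → β) (A : Set α) {s ρ C : ℝ} (hs : 0 ≤ s) (hρ : 0 < ρ)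
    (H : ∀ᶠ n : ℕ in atTop, ∀ U : Set β, ediam U ≤ (1 / 2 : ℝ≥0∞) ^ n →
      ∃ T : Finset (Set α), (T.card : ℝ≥0∞) ≤ ENNReal.ofReal (C * 2 ^ (ρ * n)) ∧
        (∀ V ∈ T, ediam V ≤ (1 / 2 : ℝ≥0∞) ^ n) ∧ A ∩ g ⁻¹' U ⊆ ⋃ V ∈ T, V)
    (h0 : μH[s] (g '' A) = 0) : μH[s + 2 * ρ] A = 0 := by
  obtain ⟨n₀, hn₀⟩ := eventually_atTop.1 H
  have hhalfpos : ∀ n : ℕ, (0 : ℝ≥0∞) < (1 / 2) ^ n := fun n =>
    ENNReal.pow_pos (by norm_num) n
  -- covers at stage `N`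
  have hstage : ∀ N : ℕ, ∃ (nn : ℕ → ℕ) (T : ℕ → Finset (Set α)),
      (∀ i, N ≤ nn i) ∧ (∀ i, ∀ V ∈ T i, ediam V ≤ (1 / 2 : ℝ≥0∞) ^ nn i) ∧
      A ⊆ ⋃ i, ⋃ V ∈ T i, V ∧
      (∀ i, ((T i).card : ℝ≥0∞) ≤ ENNReal.ofReal (C * 2 ^ (ρ * nn i))) ∧
      ∑' i, ((1 / 2 : ℝ≥0∞) ^ nn i) ^ (s + ρ) ≤ (2 ^ s + 1) * (1 / ((N : ℝ≥0∞) + 1)) := by
    intro N
    set n₁ := max N n₀ with hn₁
    have hεpos : (0 : ℝ≥0∞) < 1 / ((N : ℝ≥0∞) + 1) := by
      rw [one_div, ENNReal.inv_pos]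
      exact ENNReal.add_ne_top.2 ⟨ENNReal.natCast_ne_top N, ENNReal.one_ne_top⟩
    obtain ⟨t, ht1, ht2, ht3⟩ := exists_cover_of_hausdorff_zero h0 (hhalfpos n₁) hεpos
    obtain ⟨δ, hδ, hδsum⟩ := ENNReal.exists_pos_sum_of_countable' hεpos.ne' ℕ
    choose nn hnn1 hnn2 hnn3 using fun i => exists_scale (t i) (ht2 i) hs hρ (hδ i)
    choose T hT1 hT2 hT3 using fun i => hn₀ (nn i) ((le_max_right _ _).trans (hnn1 i)) (t i) (hnn2 i)
    refine ⟨nn, T, fun i => (le_max_left _ _).trans (hnn1 i), hT2, ?_, hT1, ?_⟩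
    · intro x hx
      obtain ⟨i, hi⟩ := Set.mem_iUnion.1 (ht1 (Set.mem_image_of_mem g hx))
      exact Set.mem_iUnion.2 ⟨i, hT3 i ⟨hx, hi⟩⟩
    · calc ∑' i, ((1 / 2 : ℝ≥0∞) ^ nn i) ^ (s + ρ)
          ≤ ∑' i, (2 ^ s * (⨆ _ : (t i).Nonempty, ediam (t i) ^ s) + δ i) :=
            ENNReal.tsum_le_tsum hnn3
        _ = 2 ^ s * ∑' i, (⨆ _ : (t i).Nonempty, ediam (t i) ^ s) + ∑' i, δ i := by
            rw [ENNReal.tsum_add, ENNReal.tsum_mul_left]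
        _ ≤ 2 ^ s * (1 / ((N : ℝ≥0∞) + 1)) + (1 / ((N : ℝ≥0∞) + 1)) := by gcongr
        _ = _ := by rw [add_mul, one_mul]
  choose nn T hN hdiam hcov hcard hsum using hstage
  have hmu : μH[s + 2 * ρ] A ≤ liminf (fun N => ∑' i : (Σ i : ℕ, {V // V ∈ T N i}),
      ediam (i.2 : Set α) ^ (s + 2 * ρ)) atTop := by
    refine Measure.hausdorffMeasure_le_liminf_tsum (ι := fun N => (Σ i : ℕ, {V // V ∈ T N i}))
      _ _ (fun N : ℕ => (1 / 2 : ℝ≥0∞) ^ N) ?_ (fun N i => (i.2 : Set α)) ?_ ?_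
    · refine ENNReal.tendsto_pow_atTop_nhds_zero_of_lt_one ?_
      rw [one_div]
      exact ENNReal.inv_lt_one.2 (by norm_num)
    · refine Eventually.of_forall fun N => ?_
      rintro ⟨i, V, hV⟩
      refine (hdiam N i V hV).trans ?_
      refine pow_le_pow_of_le_one zero_le ?_ (hN N i)
      rw [one_div]
      exact (ENNReal.inv_lt_one.2 (by norm_num)).le
    · refine Eventually.of_forall fun N => ?_
      intro x hx
      obtain ⟨i, hi⟩ := Set.mem_iUnion.1 (hcov N hx)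
      obtain ⟨V, hV⟩ := Set.mem_iUnion.1 hi
      obtain ⟨hVT, hxV⟩ := Set.mem_iUnion.1 hV
      exact Set.mem_iUnion.2 ⟨⟨i, V, hVT⟩, hxV⟩
  have hbound : ∀ N, ∑' i : (Σ i : ℕ, {V // V ∈ T N i}), ediam (i.2 : Set α) ^ (s + 2 * ρ) ≤
      ENNReal.ofReal C * ((2 ^ s + 1) * (1 / ((N : ℝ≥0∞) + 1))) := by
    intro N
    calc ∑' i : (Σ i : ℕ, {V // V ∈ T N i}), ediam (i.2 : Set α) ^ (s + 2 * ρ)
        = ∑' i : ℕ, ∑' V : {V // V ∈ T N i}, ediam (V : Set α) ^ (s + 2 * ρ) :=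
          ENNReal.tsum_sigma' (fun i : (Σ i : ℕ, {V // V ∈ T N i}) =>
            ediam (i.2 : Set α) ^ (s + 2 * ρ))
      _ ≤ ∑' i : ℕ, ENNReal.ofReal C * ((1 / 2 : ℝ≥0∞) ^ nn N i) ^ (s + ρ) := by
          refine ENNReal.tsum_le_tsum fun i => ?_
          calc ∑' V : {V // V ∈ T N i}, ediam (V : Set α) ^ (s + 2 * ρ)
              ≤ ∑' _V : {V // V ∈ T N i}, ((1 / 2 : ℝ≥0∞) ^ nn N i) ^ (s + 2 * ρ) := by
                refine ENNReal.tsum_le_tsum fun V => ?_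
                exact ENNReal.rpow_le_rpow (hdiam N i V V.2) (by linarith)
            _ = ((T N i).card : ℝ≥0∞) * ((1 / 2 : ℝ≥0∞) ^ nn N i) ^ (s + 2 * ρ) := by
                rw [tsum_fintype, Finset.sum_const, nsmul_eq_mul, Finset.card_univ,
                  Fintype.card_coe]
            _ ≤ ENNReal.ofReal (C * 2 ^ (ρ * nn N i)) *
                  ((1 / 2 : ℝ≥0∞) ^ nn N i) ^ (s + 2 * ρ) := by
                gcongr
                exact hcard N i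
            _ = ENNReal.ofReal C * ((1 / 2 : ℝ≥0∞) ^ nn N i) ^ (s + ρ) := by
                have e1 : ((1 / 2 : ℝ≥0∞) ^ nn N i) = ENNReal.ofReal ((1 / 2) ^ nn N i) := by
                  rw [ENNReal.ofReal_pow (by norm_num)]
                  congr 1
                  rw [one_div, one_div, ENNReal.ofReal_inv_of_pos (by norm_num)]
                  norm_num
                have hpos : (0 : ℝ) < (1 / 2) ^ nn N i := by positivity
                rw [e1, ENNReal.ofReal_rpow_of_pos hpos, ENNReal.ofReal_rpow_of_pos hpos,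
                  ← ENNReal.ofReal_mul' (by positivity), ← ENNReal.ofReal_mul' (by positivity)]
                congr 1
                have e2 : ((1 / 2 : ℝ) ^ nn N i) = (2 : ℝ) ^ (-(nn N i : ℝ)) := by
                  rw [Real.rpow_neg (by norm_num), Real.rpow_natCast, one_div, inv_pow]
                rw [e2, ← Real.rpow_mul (by norm_num), ← Real.rpow_mul (by norm_num), mul_assoc,
                  ← Real.rpow_add (by norm_num)]
                congr 2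
                ring
      _ = ENNReal.ofReal C * ∑' i : ℕ, ((1 / 2 : ℝ≥0∞) ^ nn N i) ^ (s + ρ) :=
          ENNReal.tsum_mul_left
      _ ≤ _ := by
          gcongr
          exact hsum N
  have hlim : Tendsto (fun N : ℕ => ENNReal.ofReal C * ((2 ^ s + 1) * (1 / ((N : ℝ≥0∞) + 1))))
      atTop (𝓝 0) := by
    have h1 : Tendsto (fun N : ℕ => (1 / ((N : ℝ≥0∞) + 1))) atTop (𝓝 0) := by
      have h2 := ENNReal.tendsto_inv_nat_nhds_zero
      have h3 := (tendsto_add_atTop_iff_nat 1).2 h2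
      refine h3.congr fun N => ?_
      push_cast
      rw [one_div]
    have h4 : (ENNReal.ofReal C * (2 ^ s + 1)) ≠ ∞ := by
      refine ENNReal.mul_ne_top ENNReal.ofReal_ne_top ?_
      refine ENNReal.add_ne_top.2 ⟨?_, ENNReal.one_ne_top⟩
      exact ENNReal.rpow_ne_top_of_nonneg hs (by norm_num)
    have h5 := ENNReal.Tendsto.const_mul (a := ENNReal.ofReal C * (2 ^ s + 1)) h1 (Or.inr h4)
    rw [mul_zero] at h5
    refine h5.congr fun N => ?_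
    rw [mul_assoc]
  have hfin : liminf (fun N => ∑' i : (Σ i : ℕ, {V // V ∈ T N i}),
      ediam (i.2 : Set α) ^ (s + 2 * ρ)) atTop ≤ 0 := by
    rw [← hlim.liminf_eq]
    exact liminf_le_liminf (Eventually.of_forall hbound)
  exact le_antisymm (hmu.trans hfin) bot_le

/-- Transfer of dimension. -/
theorem dimH_le_of_transfer (g : α → β) (A : Set α) (C : ℕ → ℝ)
    (H : ∀ L : ℕ, 1 ≤ L → ∀ᶠ n : ℕ in atTop, ∀ U : Set β, ediam U ≤ (1 / 2 : ℝ≥0∞) ^ n →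
      ∃ T : Finset (Set α), (T.card : ℝ≥0∞) ≤ ENNReal.ofReal (C L * 2 ^ ((1 / (L : ℝ)) * n)) ∧
        (∀ V ∈ T, ediam V ≤ (1 / 2 : ℝ≥0∞) ^ n) ∧ A ∩ g ⁻¹' U ⊆ ⋃ V ∈ T, V) :
    dimH A ≤ dimH (g '' A) := by
  by_contra hcon
  rw [not_le] at hcon
  obtain ⟨s, hs1, hs2⟩ := ENNReal.lt_iff_exists_nnreal_btwn.1 hcon
  obtain ⟨s', hs1', hs2'⟩ := ENNReal.lt_iff_exists_nnreal_btwn.1 hs2
  have hss : s < s' := by exact_mod_cast hs1'
  obtain ⟨L, hL⟩ := exists_nat_gt (2 / (s' - s : ℝ))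
  have hss' : (0 : ℝ) < s' - s := by
    have : (s : ℝ) < s' := by exact_mod_cast hss
    linarith
  have hLpos : (0 : ℝ) < L := lt_trans (by positivity) hL
  have hL1 : 1 ≤ L := by
    have : 0 < L := by exact_mod_cast hLpos
    omega
  have h0 := hausdorffMeasure_of_dimH_lt hs1
  have h1 := hausdorff_transfer g A (NNReal.coe_nonneg s) (ρ := 1 / (L : ℝ)) (by positivity)
    (H L hL1) h0
  have h2 : μH[(s' : ℝ)] A = ∞ := hausdorffMeasure_of_lt_dimH hs2'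
  have h3 : (s : ℝ) + 2 * (1 / (L : ℝ)) ≤ s' := by
    rw [div_lt_iff₀ hss'] at hL
    have : 2 * (1 / (L : ℝ)) ≤ s' - s := by
      rw [mul_one_div, div_le_iff₀ hLpos]
      linarith
    linarith
  have h4 : μH[(s' : ℝ)] A ≤ μH[(s : ℝ) + 2 * (1 / (L : ℝ))] A :=
    Measure.hausdorffMeasure_mono h3 A
  rw [h1, h2] at h4
  exact absurd h4 (by simp)

end Pool.Agent.Helper41
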