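import Mathlib
import Pool.Agent.Helper41.Hit

open MeasureTheory ProbabilityTheory Filter Topology
open scoped ENNReal NNReal

namespace Pool.Agent.Helper41

variable {Ω : Type*} [MeasurableSpace Ω] {P : Measure Ω} [IsProbabilityMeasure P]

/-- row index attached to column `i` by the line with integer parameters `a`, `b` -/
def row (n : ℕ) (a b : ℤ) (i : ℕ) : ℕ := (a + b * i / 2 ^ n).toNat

/-- the level attached to column `i` by the line with integer parameters `a`, `b` -/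
noncomputable def sig (n : ℕ) (a b : ℤ) (i : ℕ) : ℝ≥0 := row n a b i * stp n

lemma summable_half (L : ℕ) : Summable (fun n : ℕ => ((n : ℝ) + 4) ^ L * (1 / 2 : ℝ) ^ n) := by
  have h1 : Summable (fun n : ℕ => (n : ℝ) ^ L * (1 / 2 : ℝ) ^ n) :=
    summable_pow_mul_geometric_of_norm_lt_one L (by norm_num)
  have := (summable_nat_add_iff 4).2 h1
  have h3 := this.mul_left (2 ^ 4 : ℝ)
  refine h3.congr fun n => ?_
  push_cast
  rw [pow_add (1 / 2 : ℝ) n 4]
  ring

variable {ι : Type*} [DecidableEq ι] [Fintype ι] {X : ι × ℝ≥0 × ℝ≥0 → Ω → ℝ}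

/-- Almost surely, at all large levels, the number of near zeros along every grid line is small. -/
theorem ae_few_line (h : IsSheet X P) (hd : 2 ≤ Fintype.card ι) {K : ℕ} (hK : 1 ≤ K)
    {L : ℕ} (hL : 1 ≤ L) :
    ∀ᵐ ω ∂P, ∀ᶠ n : ℕ in atTop, ∀ a b : ℤ, |a| ≤ 4 * K * 2 ^ n → |b| ≤ 2 ^ n + 1 →
      hitCount (lineE X K n (sig n a b)) (K * 2 ^ n + 1) ω <
        ENNReal.ofReal ((2 : ℝ) ^ ((n : ℝ) / L)) := by
  let k := 3 * L
  let D : ℝ := (k.factorial : ℝ) * (197 * K ^ 2 * (K + 1)) ^ k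
  let G : ℕ → Finset (ℤ × ℤ) := fun n =>
    Finset.Icc (-(4 * (K : ℤ) * 2 ^ n)) (4 * (K : ℤ) * 2 ^ n) ×ˢ
      Finset.Icc (-((2 : ℤ) ^ n + 1)) ((2 : ℤ) ^ n + 1)
  let Bad : ℕ → Set Ω := fun n => ⋃ p ∈ G n,
    {ω | ENNReal.ofReal ((2 : ℝ) ^ ((n : ℝ) / L)) ≤
      hitCount (lineE X K n (sig n p.1 p.2)) (K * 2 ^ n + 1) ω}
  have hL' : (0 : ℝ) < L := by exact_mod_cast hL
  have hK' : (1 : ℝ) ≤ K := by exact_mod_cast hK
  have hDnn : 0 ≤ D := by simp only [D]; positivity
  have hone : ∀ n : ℕ, ∀ p : ℤ × ℤ,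
      P {ω | ENNReal.ofReal ((2 : ℝ) ^ ((n : ℝ) / L)) ≤
        hitCount (lineE X K n (sig n p.1 p.2)) (K * 2 ^ n + 1) ω} ≤
        ENNReal.ofReal ((D * ((n : ℝ) + 4) ^ (3 * k)) * (1 / 8) ^ n) := by
    intro n p
    have hmeas : Measurable (hitCount (lineE X K n (sig n p.1 p.2)) (K * 2 ^ n + 1)) :=
      measurable_hitCount (meas_lineE h _ _ _) _
    have hpos : 0 < (2 : ℝ) ^ ((n : ℝ) / L) := by positivity
    have hpow : (((2 : ℝ) ^ ((n : ℝ) / L)) ^ k) = 8 ^ n := by
      rw [← Real.rpow_natCast, ← Real.rpow_mul (by norm_num)]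
      have : (n : ℝ) / L * ((k : ℕ) : ℝ) = ((3 * n : ℕ) : ℝ) := by
        simp only [k]
        push_cast
        field_simp
      rw [this, Real.rpow_natCast, pow_mul]
      norm_num
    have hmom := (lineE_hitBound h hd hK (sig n p.1 p.2) (K * 2 ^ n + 1) (n := n)).lintegral_pow_le k
    have hKK : 1 ≤ (K : ℝ≥0) * (1 / K) := by
      have : (K : ℝ≥0) ≠ 0 := by
        have : K ≠ 0 := by omega
        exact_mod_cast this
      rw [mul_one_div, div_self this]
    have hsum := sum_gapH_le hK hKK (m := K * 2 ^ n) (n := n) le_rfl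
    calc P {ω | ENNReal.ofReal ((2 : ℝ) ^ ((n : ℝ) / L)) ≤
            hitCount (lineE X K n (sig n p.1 p.2)) (K * 2 ^ n + 1) ω}
        ≤ P {ω | ENNReal.ofReal (8 ^ n) ≤
            hitCount (lineE X K n (sig n p.1 p.2)) (K * 2 ^ n + 1) ω ^ k} := by
          refine measure_mono fun ω hω => ?_
          have hω' : ENNReal.ofReal ((2 : ℝ) ^ ((n : ℝ) / L)) ≤
            hitCount (lineE X K n (sig n p.1 p.2)) (K * 2 ^ n + 1) ω := hω
          show ENNReal.ofReal (8 ^ n) ≤
            hitCount (lineE X K n (sig n p.1 p.2)) (K * 2 ^ n + 1) ω ^ k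
          rw [← hpow, ENNReal.ofReal_pow hpos.le]
          gcongr
      _ ≤ (∫⁻ ω, hitCount (lineE X K n (sig n p.1 p.2)) (K * 2 ^ n + 1) ω ^ k ∂P) /
            ENNReal.ofReal (8 ^ n) :=
          meas_ge_le_lintegral_div (hmeas.pow_const k).aemeasurable
            (by simp) ENNReal.ofReal_ne_top
      _ ≤ ((k.factorial : ℝ≥0∞) *
            (ENNReal.ofReal (197 * K ^ 2 * (K + 1) * (n + 4) ^ 3)) ^ k) /
            ENNReal.ofReal (8 ^ n) := by
          gcongr
          refine hmom.trans ?_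
          gcongr
      _ = _ := by
          rw [← ENNReal.ofReal_pow (by positivity), ← ENNReal.ofReal_natCast,
            ← ENNReal.ofReal_mul (by positivity), ← ENNReal.ofReal_div_of_pos (by positivity)]
          congr 1
          simp only [D]
          rw [one_div, inv_pow, div_eq_mul_inv]
          congr 1
          rw [mul_pow _ (((n : ℝ) + 4) ^ 3) k, ← pow_mul]
          ring
  have hcard : ∀ n, ((G n).card : ℝ) ≤ (5 * (8 * K + 1)) * 4 ^ n := by
    intro n
    have hc : ∀ m : ℤ, 0 ≤ m → (((Finset.Icc (-m) m).card : ℕ) : ℝ) = 2 * m + 1 := by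
      intro m hm
      rw [Int.card_Icc]
      have e : ((m + 1 - -m).toNat : ℤ) = 2 * m + 1 := by
        rw [Int.toNat_of_nonneg (by omega)]
        ring
      calc (((m + 1 - -m).toNat : ℕ) : ℝ) = (((m + 1 - -m).toNat : ℤ) : ℝ) := by push_cast; rfl
        _ = _ := by rw [e]; push_cast; rfl
    simp only [G]
    rw [Finset.card_product]
    push_cast
    rw [hc _ (by positivity), hc _ (by positivity)]
    push_cast
    have h4 : (4 : ℝ) ^ n = 2 ^ n * 2 ^ n := by
      rw [← mul_pow]; norm_num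
    have h1 : (1 : ℝ) ≤ 2 ^ n := one_le_pow₀ (by norm_num)
    calc (2 * (4 * (K : ℝ) * 2 ^ n) + 1) * (2 * (2 ^ n + 1) + 1)
        ≤ ((8 * K + 1) * 2 ^ n) * (5 * 2 ^ n) := by
          gcongr
          · nlinarith
          · nlinarith
      _ = _ := by rw [h4]; ring
  have hBad : ∀ n, P (Bad n) ≤
      ENNReal.ofReal ((5 * (8 * K + 1) * D) * (((n : ℝ) + 4) ^ (3 * k) * (1 / 2) ^ n)) := by
    intro n
    calc P (Bad n) ≤ ∑ p ∈ G n, P {ω | ENNReal.ofReal ((2 : ℝ) ^ ((n : ℝ) / L)) ≤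
            hitCount (lineE X K n (sig n p.1 p.2)) (K * 2 ^ n + 1) ω} :=
          measure_biUnion_finset_le _ _
      _ ≤ ∑ _p ∈ G n, ENNReal.ofReal ((D * ((n : ℝ) + 4) ^ (3 * k)) * (1 / 8) ^ n) :=
          Finset.sum_le_sum fun p _ => hone n p
      _ = ENNReal.ofReal ((G n).card * ((D * ((n : ℝ) + 4) ^ (3 * k)) * (1 / 8) ^ n)) := by
          rw [Finset.sum_const, nsmul_eq_mul, ← ENNReal.ofReal_natCast,
            ← ENNReal.ofReal_mul (by positivity)]
      _ ≤ _ := by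
          apply ENNReal.ofReal_le_ofReal
          calc ((G n).card : ℝ) * ((D * ((n : ℝ) + 4) ^ (3 * k)) * (1 / 8) ^ n)
              ≤ ((5 * (8 * K + 1)) * 4 ^ n) * ((D * ((n : ℝ) + 4) ^ (3 * k)) * (1 / 8) ^ n) := by
                gcongr
                exact hcard n
            _ = (5 * (8 * K + 1) * D) * (((n : ℝ) + 4) ^ (3 * k) * (4 ^ n * (1 / 8) ^ n)) := by ring
            _ = _ := by
                rw [← mul_pow]
                norm_num
  have hsum : ∑' n, P (Bad n) ≠ ∞ := by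
    refine ne_top_of_le_ne_top
      ((summable_half (3 * k)).mul_left (5 * (8 * K + 1) * D)).tsum_ofReal_ne_top ?_
    exact ENNReal.tsum_le_tsum hBad
  filter_upwards [ae_eventually_notMem hsum] with ω hω
  filter_upwards [hω] with n hn a b ha hb
  simp only [Bad, Set.mem_iUnion, not_exists] at hn
  have := hn (a, b) (by
    simp only [G, Finset.mem_product, Finset.mem_Icc]
    rw [abs_le] at ha hb
    exact ⟨ha, hb⟩)
  exact not_le.1 this

end Pool.Agent.Helper41
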