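import Mathlib
import Pool.Agent.Helper41.Strip
import Pool.Agent.Helper41.CoverDim
import Pool.Agent.Helper41.Dim

open MeasureTheory ProbabilityTheory Filter Topology Metric
open scoped ENNReal NNReal

namespace Pool.Agent.Helper41

variable {Ω : Type*} [MeasurableSpace Ω] {P : Measure Ω} [IsProbabilityMeasure P]
variable {ι : Type*} [DecidableEq ι] [Fintype ι] {X : ι × ℝ≥0 × ℝ≥0 → Ω → ℝ}

/-- truncated zero set -/
def ZK (X : ι × ℝ≥0 × ℝ≥0 → Ω → ℝ) (ω : Ω) (K : ℕ) : Set (ℝ≥0 × ℝ≥0) :=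
  {p | p.1 ≤ K ∧ p.2 ≤ K ∧ 2 ≤ K * p.1 ∧ ∀ c, X (c, p.1, p.2) ω = 0}

/-- zero set in the open quadrant -/
def ZZ (X : ι × ℝ≥0 × ℝ≥0 → Ω → ℝ) (ω : Ω) : Set (ℝ≥0 × ℝ≥0) :=
  {p | 0 < p.1 ∧ 0 < p.2 ∧ ∀ c, X (c, p.1, p.2) ω = 0}

/-- linear functional -/
noncomputable def gβ (β : ℝ) (p : ℝ≥0 × ℝ≥0) : ℝ := p.1 + β * p.2

omit [MeasurableSpace Ω] in
open Classical in
lemma hitCount_eq_card (E : ℕ → Set Ω) (m : ℕ) (ω : Ω) :
    hitCount E m ω = (((Finset.range m).filter (fun i => ω ∈ E i)).card : ℝ≥0∞) := by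
  unfold hitCount
  rw [← Finset.sum_range (fun i => if ω ∈ E i then (1 : ℝ≥0∞) else 0), Finset.sum_ite,
    Finset.sum_const_zero, add_zero, Finset.sum_const, nsmul_eq_mul, mul_one]

/-- arithmetic of the discretized line -/
lemma line_arith {K n : ℕ} {β c s t : ℝ} (hβ : |β| ≤ 1) (hs0 : 0 ≤ s) (ht0 : 0 ≤ t)
    (hsK : s ≤ K) (htK : t ≤ K) (hK : 1 ≤ K)
    (hc : |s + β * t - c| ≤ 1 / 2 ^ n) :
    ∃ e : ℤ, |e| ≤ K + 5 ∧ |⌊c * 2 ^ n⌋ + e| ≤ 4 * K * 2 ^ n ∧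
      row n (⌊c * 2 ^ n⌋ + e) ⌊-β * 2 ^ n⌋ ⌊t * 2 ^ n⌋₊ = ⌊s * 2 ^ n⌋₊ := by
  have h2 : (0 : ℝ) < 2 ^ n := by positivity
  have h2' : (1 : ℝ) ≤ 2 ^ n := one_le_pow₀ (by norm_num)
  have hK' : (1 : ℝ) ≤ K := by exact_mod_cast hK
  set a0 : ℤ := ⌊c * 2 ^ n⌋ with ha0
  set b0 : ℤ := ⌊-β * 2 ^ n⌋ with hb0
  set i : ℕ := ⌊t * 2 ^ n⌋₊ with hi
  set j : ℕ := ⌊s * 2 ^ n⌋₊ with hj
  have hi1 : (i : ℝ) ≤ t * 2 ^ n := Nat.floor_le (by positivity)
  have hi2 : t * 2 ^ n < i + 1 := Nat.lt_floor_add_one _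
  have hj1 : (j : ℝ) ≤ s * 2 ^ n := Nat.floor_le (by positivity)
  have hj2 : s * 2 ^ n < j + 1 := Nat.lt_floor_add_one _
  have ha1 : (a0 : ℝ) ≤ c * 2 ^ n := Int.floor_le _
  have ha2 : c * 2 ^ n < a0 + 1 := Int.lt_floor_add_one _
  have hb1 : (b0 : ℝ) ≤ -β * 2 ^ n := Int.floor_le _
  have hb2 : -β * 2 ^ n < b0 + 1 := Int.lt_floor_add_one _
  set q : ℤ := b0 * i / 2 ^ n with hq
  have hpz : (0 : ℤ) < 2 ^ n := by positivity
  have hq1 : (q : ℝ) * 2 ^ n ≤ b0 * i := by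
    have := Int.ediv_mul_le (b0 * i) hpz.ne'
    exact_mod_cast this
  have hq2 : (b0 : ℝ) * i < (q + 1) * 2 ^ n := by
    have := Int.lt_ediv_add_one_mul_self (b0 * i) hpz
    exact_mod_cast this
  have hc' : |s * 2 ^ n + β * (t * 2 ^ n) - c * 2 ^ n| ≤ 1 := by
    have e : s * 2 ^ n + β * (t * 2 ^ n) - c * 2 ^ n = (s + β * t - c) * 2 ^ n := by ring
    rw [e, abs_mul, abs_of_pos h2]
    rw [le_div_iff₀ h2] at hc
    exact hc
  rw [abs_le] at hc' hβ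
  have hiK : (i : ℝ) ≤ K * 2 ^ n := hi1.trans (by gcongr)
  have hjK : (j : ℝ) ≤ K * 2 ^ n := hj1.trans (by gcongr)
  have hi0 : (0 : ℝ) ≤ i := Nat.cast_nonneg i
  have hj0 : (0 : ℝ) ≤ j := Nat.cast_nonneg j
  -- `b0 * i` compared with `-β * 2 ^ n * i`
  have hbi1 : (b0 : ℝ) * i ≤ (-β * 2 ^ n) * i := by gcongr
  have hbi2 : (-β * 2 ^ n) * i ≤ (b0 + 1) * i := by gcongr
  have hqu : (q : ℝ) ≤ -β * i := by
    have : (q : ℝ) * 2 ^ n ≤ (-β * i) * 2 ^ n := by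
      calc (q : ℝ) * 2 ^ n ≤ b0 * i := hq1
        _ ≤ (-β * 2 ^ n) * i := hbi1
        _ = _ := by ring
    exact le_of_mul_le_mul_right this h2
  have hql : -β * i - K - 1 ≤ q := by
    have : (-β * i - K - 1) * 2 ^ n ≤ q * 2 ^ n := by nlinarith
    exact le_of_mul_le_mul_right this h2
  have hβi : |β * (t * 2 ^ n) - β * i| ≤ 1 := by
    rw [← mul_sub, abs_mul]
    have h3 : |t * 2 ^ n - i| ≤ 1 := by
      rw [abs_le]; constructor <;> linarith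
    have h4 : |β| ≤ 1 := abs_le.2 hβ
    calc |β| * |t * 2 ^ n - i| ≤ 1 * 1 := by gcongr
      _ = 1 := one_mul 1
  rw [abs_le] at hβi
  refine ⟨(j : ℤ) - a0 - q, ?_, ?_, ?_⟩
  · have h5 : ((|(j : ℤ) - a0 - q| : ℤ) : ℝ) ≤ ((K + 5 : ℤ) : ℝ) := by
      push_cast
      rw [abs_le]
      constructor <;> linarith
    exact_mod_cast h5
  · have e : a0 + ((j : ℤ) - a0 - q) = j - q := by ring
    rw [e]
    have h5 : ((|(j : ℤ) - q| : ℤ) : ℝ) ≤ ((4 * K * 2 ^ n : ℤ) : ℝ) := by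
      push_cast
      have h6 : |β * (i : ℝ)| ≤ K * 2 ^ n := by
        rw [abs_mul, abs_of_nonneg hi0]
        calc |β| * i ≤ 1 * (K * 2 ^ n) := by
              gcongr
              exact abs_le.2 hβ
          _ = _ := one_mul _
      rw [abs_le] at h6 ⊢
      have h7 : (K : ℝ) ≤ K * 2 ^ n := by nlinarith
      have h8 : (1 : ℝ) ≤ K * 2 ^ n := by nlinarith
      constructor <;> nlinarith
    exact_mod_cast h5
  · unfold row
    have e : a0 + ((j : ℤ) - a0 - q) + b0 * i / 2 ^ n = j := by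
      rw [← hq]; ring
    rw [e]
    exact Int.toNat_natCast j

lemma ediam_fl_le {n : ℕ} {x y : ℝ≥0} :
    ediam {p : ℝ≥0 × ℝ≥0 | fl n p.1 = x ∧ fl n p.2 = y} ≤ (1 / 2 : ℝ≥0∞) ^ n := by
  have e1 : ((1 / 2 : ℝ≥0∞) ^ n) = ENNReal.ofReal (1 / 2 ^ n) := by
    have : (1 : ℝ) / 2 ^ n = (1 / 2) ^ n := by rw [div_pow, one_pow]
    rw [this, ENNReal.ofReal_pow (by norm_num)]
    congr 1
    rw [one_div, one_div, ENNReal.ofReal_inv_of_pos (by norm_num)]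
    norm_num
  rw [e1]
  apply Metric.ediam_le
  rintro p ⟨hp1, hp2⟩ p' ⟨hp1', hp2'⟩
  rw [Prod.edist_eq]
  exact max_le (edist_le_of_fl_eq (hp1.trans hp1'.symm)) (edist_le_of_fl_eq (hp2.trans hp2'.symm))

theorem line_cover {ω : Ω} {K : ℕ} (hK : 1 ≤ K) {L : ℕ}
    (hcont : ∀ c, Continuous (fun p : ℝ≥0 × ℝ≥0 => X (c, p.1, p.2) ω))
    (hE : ∀ c, ∀ᶠ n : ℕ in atTop, EdgeBound (fun s t => X (c, s, t) ω) K n (edgeE K n))
    (hN : ∀ᶠ n : ℕ in atTop, ∀ a b : ℤ, |a| ≤ 4 * K * 2 ^ n → |b| ≤ 2 ^ n + 1 →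
      hitCount (lineE X K n (sig n a b)) (K * 2 ^ n + 1) ω <
        ENNReal.ofReal ((2 : ℝ) ^ ((n : ℝ) / L)))
    {β : ℝ} (hβ : |β| ≤ 1) :
    ∀ᶠ n : ℕ in atTop, ∀ U : Set ℝ, ediam U ≤ (1 / 2 : ℝ≥0∞) ^ n →
      ∃ T : Finset (Set (ℝ≥0 × ℝ≥0)),
        (T.card : ℝ≥0∞) ≤ ENNReal.ofReal ((2 * K + 11) * 2 ^ ((1 / (L : ℝ)) * n)) ∧
        (∀ V ∈ T, ediam V ≤ (1 / 2 : ℝ≥0∞) ^ n) ∧ ZK X ω K ∩ gβ β ⁻¹' U ⊆ ⋃ V ∈ T, V := by
  classical
  have hE' : ∀ᶠ n : ℕ in atTop, ∀ m, n ≤ m → ∀ c,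
      EdgeBound (fun s t => X (c, s, t) ω) K m (edgeE K m) := by
    have := eventually_all.2 hE
    obtain ⟨N, hN'⟩ := eventually_atTop.1 this
    filter_upwards [eventually_ge_atTop N] with n hn m hm c
    exact hN' m (hn.trans hm) c
  filter_upwards [hE', hN, eventually_ge_atTop K] with n hn hcount hnK U hU
  have hK2 : (K : ℝ≥0) ≤ 2 ^ n := by
    have : K ≤ 2 ^ n := hnK.trans (Nat.lt_two_pow_self.le)
    exact_mod_cast this
  by_cases hne : (ZK X ω K ∩ gβ β ⁻¹' U).Nonempty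
  swap
  · rw [Set.not_nonempty_iff_eq_empty] at hne
    refine ⟨∅, by simp, by simp, ?_⟩
    rw [hne]
    exact Set.empty_subset _
  obtain ⟨p₀, hp₀, hp₀U⟩ := hne
  set c₀ : ℝ := gβ β p₀ with hc₀
  set a₀ : ℤ := ⌊c₀ * 2 ^ n⌋ with ha₀
  set b₀ : ℤ := ⌊-β * 2 ^ n⌋ with hb₀
  have hb₀' : |b₀| ≤ 2 ^ n + 1 := by
    have h2 : (0 : ℝ) < 2 ^ n := by positivity
    rw [abs_le] at hβ
    have h1 : (b₀ : ℝ) ≤ -β * 2 ^ n := Int.floor_le _
    have h3 : -β * 2 ^ n < b₀ + 1 := Int.lt_floor_add_one _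
    have h5 : ((|b₀| : ℤ) : ℝ) ≤ ((2 ^ n + 1 : ℤ) : ℝ) := by
      push_cast
      rw [abs_le]
      constructor <;> nlinarith
    exact_mod_cast h5
  let V : ℤ → ℕ → Set (ℝ≥0 × ℝ≥0) := fun e i =>
    {p | fl n p.1 = sig n (a₀ + e) b₀ i ∧ fl n p.2 = i * stp n}
  let EE : Finset ℤ := (Finset.Icc (-((K : ℤ) + 5)) ((K : ℤ) + 5)).filter
    (fun e => |a₀ + e| ≤ 4 * K * 2 ^ n)
  let II : ℤ → Finset ℕ := fun e => (Finset.range (K * 2 ^ n + 1)).filter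
    (fun i => ω ∈ lineE X K n (sig n (a₀ + e) b₀) i)
  refine ⟨EE.biUnion fun e => (II e).image (V e), ?_, ?_, ?_⟩
  · have h1 : ((EE.biUnion fun e => (II e).image (V e)).card : ℝ≥0∞) ≤
        ∑ e ∈ EE, ((II e).card : ℝ≥0∞) := by
      have h2 : (EE.biUnion fun e => (II e).image (V e)).card ≤ ∑ e ∈ EE, (II e).card :=
        Finset.card_biUnion_le.trans (Finset.sum_le_sum fun e _ => Finset.card_image_le)
      exact_mod_cast h2
    refine h1.trans ?_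
    calc ∑ e ∈ EE, ((II e).card : ℝ≥0∞)
        ≤ ∑ _e ∈ EE, ENNReal.ofReal ((2 : ℝ) ^ ((n : ℝ) / L)) := by
          refine Finset.sum_le_sum fun e he => ?_
          have h3 := hcount (a₀ + e) b₀ (Finset.mem_filter.1 he).2 hb₀'
          rw [hitCount_eq_card] at h3
          exact h3.le
      _ ≤ ∑ _e ∈ Finset.Icc (-((K : ℤ) + 5)) ((K : ℤ) + 5),
            ENNReal.ofReal ((2 : ℝ) ^ ((n : ℝ) / L)) :=
          Finset.sum_le_sum_of_subset (Finset.filter_subset _ _)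
      _ = _ := by
          rw [Finset.sum_const, nsmul_eq_mul, Int.card_Icc, ← ENNReal.ofReal_natCast,
            ← ENNReal.ofReal_mul (by positivity)]
          congr 2
          · have e1 : (((K : ℤ) + 5 + 1 - -((K : ℤ) + 5)).toNat : ℤ) = 2 * K + 11 := by
              rw [Int.toNat_of_nonneg (by omega)]
              ring
            have e2 : ((((K : ℤ) + 5 + 1 - -((K : ℤ) + 5)).toNat : ℤ) : ℝ) = 2 * K + 11 := by
              rw [e1]
              push_cast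
              ring
            rw [← e2]
            norm_cast
          · congr 1
            ring
  · intro W hW
    simp only [Finset.mem_biUnion, Finset.mem_image] at hW
    obtain ⟨e, _, i, _, rfl⟩ := hW
    exact ediam_fl_le
  · rintro ⟨s, t⟩ ⟨⟨hsK, htK, hs2, hz⟩, hgU⟩
    simp only at hsK htK hs2 hz
    have hdist : |(s : ℝ) + β * t - c₀| ≤ 1 / 2 ^ n := by
      have h1 : edist (gβ β (s, t)) (gβ β p₀) ≤ ediam U := Metric.edist_le_ediam_of_mem hgU hp₀U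
      have h2 := h1.trans hU
      have e1 : ((1 / 2 : ℝ≥0∞) ^ n) = ENNReal.ofReal (1 / 2 ^ n) := by
        have : (1 : ℝ) / 2 ^ n = (1 / 2) ^ n := by rw [div_pow, one_pow]
        rw [this, ENNReal.ofReal_pow (by norm_num)]
        congr 1
        rw [one_div, one_div, ENNReal.ofReal_inv_of_pos (by norm_num)]
        norm_num
      rw [e1, edist_dist, Real.dist_eq, ENNReal.ofReal_le_ofReal_iff (by positivity)] at h2
      exact h2
    obtain ⟨e, he1, he2, he3⟩ := line_arith (n := n) hβ (NNReal.coe_nonneg s)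
      (NNReal.coe_nonneg t) (by exact_mod_cast hsK)
      (by exact_mod_cast htK) hK hdist
    have hfs : ⌊(s : ℝ) * 2 ^ n⌋₊ = ⌊s * 2 ^ n⌋₊ := by
      have : (s : ℝ) * 2 ^ n = ((s * 2 ^ n : ℝ≥0) : ℝ) := by push_cast; rfl
      rw [this]
      exact Nonneg.nat_floor_coe _
    have hft : ⌊(t : ℝ) * 2 ^ n⌋₊ = ⌊t * 2 ^ n⌋₊ := by
      have : (t : ℝ) * 2 ^ n = ((t * 2 ^ n : ℝ≥0) : ℝ) := by push_cast; rfl
      rw [this]
      exact Nonneg.nat_floor_coe _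
    rw [hfs, hft] at he3
    set i : ℕ := ⌊t * 2 ^ n⌋₊ with hi
    have hflt : fl n t = i * stp n := by
      unfold fl stp
      rw [mul_one_div]
    have hsig : sig n (a₀ + e) b₀ i = fl n s := by
      unfold sig
      rw [he3]
      unfold fl stp
      rw [mul_one_div]
    have hiK : i ≤ K * 2 ^ n := by
      apply Nat.floor_le_of_le
      push_cast
      gcongr
    have hflow : 1 ≤ (K : ℝ≥0) * fl n s := by
      have h1 : s ≤ fl n s + stp n := le_fl_add n s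
      have h2 : (K : ℝ≥0) * stp n ≤ 1 := by
        unfold stp
        rw [mul_one_div, div_le_one (by positivity)]
        exact hK2
      have h3 : (1 : ℝ≥0) + 1 ≤ K * fl n s + 1 := by
        calc (1 : ℝ≥0) + 1 = 2 := by norm_num
          _ ≤ K * s := hs2
          _ ≤ K * (fl n s + stp n) := by gcongr
          _ = K * fl n s + K * stp n := by ring
          _ ≤ _ := by gcongr
      exact le_of_add_le_add_right h3
    have hline : ω ∈ lineE X K n (sig n (a₀ + e) b₀) i := by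
      unfold lineE
      simp only [Set.mem_setOf_eq]
      rw [hsig, ← hflt]
      refine ⟨hflow, ?_⟩
      rw [pi_norm_le_iff_of_nonneg (rad_nonneg K n)]
      intro c
      have hch : |X (c, s, t) ω - X (c, fl n s, fl n t) ω| ≤ 7 * √K * (n + 4) * qq ^ n := by
        refine chain_bound (f := fun s t => X (c, s, t) ω) (Real.sqrt_nonneg _)
          (fun m hm => ?_) hsK htK ?_
        · have := hn m hm c
          unfold edgeE at this
          exact this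
        · have h1 := (hcont c).tendsto (s, t)
          have h2 : Tendsto (fun m => (fl m s, fl m t)) atTop (𝓝 (s, t)) :=
            (tendsto_fl s).prodMk_nhds (tendsto_fl t)
          exact h1.comp h2
      rw [hz c, zero_sub, abs_neg] at hch
      rw [Real.norm_eq_abs]
      refine hch.trans ?_
      unfold rad
      have := qq_pos
      gcongr
      norm_num
    simp only [Set.mem_iUnion, exists_prop]
    refine ⟨V e i, ?_, hsig.symm, hflt⟩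
    simp only [Finset.mem_biUnion, Finset.mem_image]
    refine ⟨e, ?_, i, ?_, rfl⟩
    · rw [Finset.mem_filter, Finset.mem_Icc]
      rw [abs_le] at he1
      exact ⟨he1, he2⟩
    · rw [Finset.mem_filter, Finset.mem_range]
      exact ⟨by omega, hline⟩

/-- Uniformly over all directions of slope at most one, the projection preserves dimension. -/
theorem IsSheet.ae_dimH_le_proj (h : IsSheet X P) (hd : 2 ≤ Fintype.card ι)
    (hcont : ∀ᵐ ω ∂P, ∀ c, Continuous (fun p : ℝ≥0 × ℝ≥0 => X (c, p.1, p.2) ω)) :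
    ∀ᵐ ω ∂P, ∀ β : ℝ, |β| ≤ 1 → dimH (ZZ X ω) ≤ dimH (gβ β '' ZZ X ω) := by
  have hE : ∀ᵐ ω ∂P, ∀ K : ℕ, 1 ≤ K → ∀ c, ∀ᶠ n : ℕ in atTop,
      EdgeBound (fun s t => X (c, s, t) ω) K n (edgeE K n) := by
    rw [ae_all_iff]
    intro K
    by_cases hK : 1 ≤ K
    · have : ∀ᵐ ω ∂P, ∀ c, ∀ᶠ n : ℕ in atTop,
          EdgeBound (fun s t => X (c, s, t) ω) K n (edgeE K n) := by
        rw [ae_all_iff]
        intro c
        exact h.ae_edgeBound c K hK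
      filter_upwards [this] with ω hω _
      exact hω
    · exact Eventually.of_forall fun ω h' => absurd h' hK
  have hN : ∀ᵐ ω ∂P, ∀ K L : ℕ, 1 ≤ K → 1 ≤ L →
      ∀ᶠ n : ℕ in atTop, ∀ a b : ℤ, |a| ≤ 4 * K * 2 ^ n → |b| ≤ 2 ^ n + 1 →
        hitCount (lineE X K n (sig n a b)) (K * 2 ^ n + 1) ω <
          ENNReal.ofReal ((2 : ℝ) ^ ((n : ℝ) / L)) := by
    rw [ae_all_iff]
    intro K
    rw [ae_all_iff]
    intro L
    by_cases hc : 1 ≤ K ∧ 1 ≤ L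
    · filter_upwards [ae_few_line h hd hc.1 hc.2] with ω hω _ _
      exact hω
    · exact Eventually.of_forall fun ω h1 h2 => absurd ⟨h1, h2⟩ hc
  filter_upwards [hE, hN, hcont] with ω hωE hωN hωc β hβ
  have hK : ∀ K : ℕ, 1 ≤ K → dimH (ZK X ω K) ≤ dimH (gβ β '' ZK X ω K) := by
    intro K hK
    exact dimH_le_of_transfer (gβ β) (ZK X ω K) (fun _ => 2 * K + 11)
      (fun L hL => line_cover hK hωc (hωE K hK) (hωN K L hK hL) hβ)
  have hsub : ZZ X ω ⊆ ⋃ K : ℕ, (if 1 ≤ K then ZK X ω K ∩ ZZ X ω else ∅) := by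
    rintro ⟨s, t⟩ ⟨hs, ht, hz⟩
    obtain ⟨K₁, hK₁⟩ := exists_nat_ge s
    obtain ⟨K₂, hK₂⟩ := exists_nat_ge (2 / s)
    obtain ⟨K₃, hK₃⟩ := exists_nat_ge t
    let K := max 1 (max K₁ (max K₂ K₃))
    have hKK1 : (K₁ : ℝ≥0) ≤ K := by
      have : K₁ ≤ K := by simp [K]
      exact_mod_cast this
    have hKK2 : (K₂ : ℝ≥0) ≤ K := by
      have : K₂ ≤ K := by simp [K]
      exact_mod_cast this
    have hKK3 : (K₃ : ℝ≥0) ≤ K := by
      have : K₃ ≤ K := by simp [K]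
      exact_mod_cast this
    have hK1 : 1 ≤ K := by simp [K]
    refine Set.mem_iUnion.2 ⟨K, ?_⟩
    rw [if_pos hK1]
    refine ⟨⟨hK₁.trans hKK1, hK₃.trans hKK3, ?_, hz⟩, hs, ht, hz⟩
    have : 2 / s ≤ K := hK₂.trans hKK2
    rwa [div_le_iff₀ hs] at this
  refine (dimH_mono hsub).trans ?_
  rw [dimH_iUnion]
  refine iSup_le fun K => ?_
  split_ifs with hK1
  · have hKK : dimH (ZK X ω K ∩ ZZ X ω) ≤ dimH (gβ β '' (ZK X ω K ∩ ZZ X ω)) := by
      refine dimH_le_of_transfer (gβ β) (ZK X ω K ∩ ZZ X ω) (fun _ => 2 * K + 11)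
        (fun L hL => ?_)
      filter_upwards [line_cover hK1 hωc (hωE K hK1) (hωN K L hK1 hL) hβ] with n hn U hU
      obtain ⟨T, hT1, hT2, hT3⟩ := hn U hU
      exact ⟨T, hT1, hT2, fun x hx => hT3 ⟨hx.1.1, hx.2⟩⟩
    refine hKK.trans (dimH_mono (Set.image_mono Set.inter_subset_right))
  · rw [dimH_empty]
    exact bot_le

end Pool.Agent.Helper41
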