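import Mathlib
import Pool.Agent.Helper41.LineCover

open MeasureTheory ProbabilityTheory Filter Topology Metric
open scoped ENNReal NNReal

namespace Pool.Agent.Helper41

/-- The coordinates of the sheet, indexed by nonnegative reals. -/
noncomputable def toX {d : ℕ} {Ω : Type*} (B : ℝ × ℝ → Ω → (Fin d → ℝ))
    (q : Fin d × ℝ≥0 × ℝ≥0) (ω : Ω) : ℝ :=
  B ((q.2.1 : ℝ), (q.2.2 : ℝ)) ω q.1

lemma toX_isSheet {d : ℕ} {Ω : Type*} [MeasurableSpace Ω] (P : Measure Ω)
    [IsProbabilityMeasure P] (B : ℝ × ℝ → Ω → (Fin d → ℝ))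
    (hmeas : ∀ p, Measurable (B p))
    (hchar : ∀ (n : ℕ) (p : Fin n → ℝ × ℝ) (a : Fin n → Fin d → ℝ),
        (∀ i, 0 ≤ (p i).1 ∧ 0 ≤ (p i).2) →
        ∫ ω, Complex.exp (Complex.I * ((∑ i, ∑ k, a i k * B (p i) ω k : ℝ) : ℂ)) ∂P =
          Complex.exp (((-(1/2) * ∑ i, ∑ j, (∑ k, a i k * a j k) *
              min (p i).1 (p j).1 * min (p i).2 (p j).2 : ℝ) : ℂ))) :
    IsSheet (toX B) P where
  meas q := (measurable_pi_apply _).comp (hmeas _)
  char := by
    intro n q a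
    have h := hchar n (fun i => (((q i).2.1 : ℝ), ((q i).2.2 : ℝ)))
      (fun i k => if k = (q i).1 then a i else 0) (fun i => ⟨(q i).2.1.2, (q i).2.2.2⟩)
    have e1 : ∀ ω, (∑ i, ∑ k, (if k = (q i).1 then a i else 0) *
        B (((q i).2.1 : ℝ), ((q i).2.2 : ℝ)) ω k) = ∑ i, a i * toX B (q i) ω := by
      intro ω
      refine Finset.sum_congr rfl fun i _ => ?_
      simp only [ite_mul, zero_mul, Finset.sum_ite_eq', Finset.mem_univ, if_true]
      rfl
    have e2 : (∑ i, ∑ j, (∑ k, (if k = (q i).1 then a i else 0) *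
        (if k = (q j).1 then a j else 0)) *
          min ((q i).2.1 : ℝ) ((q j).2.1 : ℝ) * min ((q i).2.2 : ℝ) ((q j).2.2 : ℝ)) =
        ∑ i, ∑ j, a i * a j * sheetK (q i) (q j) := by
      refine Finset.sum_congr rfl fun i _ => Finset.sum_congr rfl fun j _ => ?_
      simp only [ite_mul, zero_mul, Finset.sum_ite_eq', Finset.mem_univ, if_true]
      unfold sheetK
      by_cases hij : (q i).1 = (q j).1
      · rw [if_pos hij, if_pos hij]
        push_cast
        ring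
      · rw [if_neg hij, if_neg hij]
        ring
    simp only at h
    rw [e2] at h
    simp_rw [e1] at h
    refine h.trans ?_
    congr 1
    push_cast
    ring

lemma toX_cont {d : ℕ} {Ω : Type*} (B : ℝ × ℝ → Ω → (Fin d → ℝ)) {ω : Ω}
    (h : ContinuousOn (fun p => B p ω) (Set.Ici (0:ℝ) ×ˢ Set.Ici (0:ℝ))) (c : Fin d) :
    Continuous (fun p : ℝ≥0 × ℝ≥0 => toX B (c, p.1, p.2) ω) := by
  have h2 : Continuous (fun p : ℝ≥0 × ℝ≥0 => ((p.1 : ℝ), (p.2 : ℝ))) := by fun_prop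
  have h1 : Continuous (fun p : ℝ≥0 × ℝ≥0 => B ((p.1 : ℝ), (p.2 : ℝ)) ω) :=
    h.comp_continuous h2 (fun p => ⟨p.1.2, p.2.2⟩)
  exact (continuous_apply c).comp h1

/-- the embedding of the nonnegative quadrant in the plane -/
def emb (p : ℝ≥0 × ℝ≥0) : ℝ × ℝ := ((p.1 : ℝ), (p.2 : ℝ))

lemma isometry_emb : Isometry emb := by
  intro p q
  rw [Prod.edist_eq, Prod.edist_eq]
  rfl

lemma emb_image_ZZ {d : ℕ} {Ω : Type*} (B : ℝ × ℝ → Ω → (Fin d → ℝ)) (ω : Ω) :
    emb '' ZZ (toX B) ω = {p : ℝ × ℝ | 0 < p.1 ∧ 0 < p.2 ∧ B p ω = 0} := by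
  ext ⟨s, t⟩
  constructor
  · rintro ⟨⟨s', t'⟩, ⟨h1, h2, h3⟩, h4⟩
    simp only [emb, Prod.mk.injEq] at h4
    obtain ⟨rfl, rfl⟩ := h4
    refine ⟨?_, ?_, funext fun c => h3 c⟩
    · exact_mod_cast h1
    · exact_mod_cast h2
  · rintro ⟨h1, h2, h3⟩
    refine ⟨(⟨s, h1.le⟩, ⟨t, h2.le⟩), ⟨?_, ?_, fun c => congrFun h3 c⟩, rfl⟩
    · exact h1
    · exact h2

/-- If the dimension of a set is dominated by that of its projections of slope at most one, and
the same for the swapped set, then the projections in all directions have full dimension. -/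
theorem dimH_proj_eq {W : Set (ℝ≥0 × ℝ≥0)}
    (h1 : ∀ β : ℝ, |β| ≤ 1 → dimH W ≤ dimH (gβ β '' W))
    (h2 : ∀ β : ℝ, |β| ≤ 1 → dimH (Prod.swap '' W) ≤ dimH (gβ β '' (Prod.swap '' W))) (θ : ℝ) :
    dimH ((fun x : ℝ × ℝ => x.1 * Real.cos θ + x.2 * Real.sin θ) '' (emb '' W)) =
      dimH (emb '' W) := by
  have hlip : ∃ K : ℝ≥0, LipschitzWith K
      (fun x : ℝ × ℝ => x.1 * Real.cos θ + x.2 * Real.sin θ) := by
    refine ⟨2, LipschitzWith.of_dist_le_mul fun x y => ?_⟩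
    rw [Real.dist_eq, Prod.dist_eq]
    have e : x.1 * Real.cos θ + x.2 * Real.sin θ - (y.1 * Real.cos θ + y.2 * Real.sin θ) =
        (x.1 - y.1) * Real.cos θ + (x.2 - y.2) * Real.sin θ := by ring
    rw [e]
    have h3 : |x.1 - y.1| ≤ max (dist x.1 y.1) (dist x.2 y.2) := le_max_left _ _
    have h4 : |x.2 - y.2| ≤ max (dist x.1 y.1) (dist x.2 y.2) := le_max_right _ _
    calc |(x.1 - y.1) * Real.cos θ + (x.2 - y.2) * Real.sin θ|
        ≤ |x.1 - y.1| * |Real.cos θ| + |x.2 - y.2| * |Real.sin θ| := by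
          refine (abs_add_le _ _).trans ?_
          rw [abs_mul, abs_mul]
      _ ≤ max (dist x.1 y.1) (dist x.2 y.2) * 1 + max (dist x.1 y.1) (dist x.2 y.2) * 1 := by
          gcongr
          · exact Real.abs_cos_le_one θ
          · exact Real.abs_sin_le_one θ
      _ = _ := by push_cast; ring
  refine le_antisymm ?_ ?_
  · obtain ⟨K, hK⟩ := hlip
    exact hK.dimH_image_le _
  · rw [isometry_emb.dimH_image]
    have hsc : Real.sin θ ^ 2 + Real.cos θ ^ 2 = 1 := Real.sin_sq_add_cos_sq θ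
    rcases le_total |Real.sin θ| |Real.cos θ| with hle | hle
    · have hc : Real.cos θ ≠ 0 := by
        intro h0
        rw [h0, abs_zero] at hle
        have h5 : Real.sin θ = 0 := abs_eq_zero.1 (le_antisymm hle (abs_nonneg _))
        rw [h0, h5] at hsc
        norm_num at hsc
      have hβ : |Real.sin θ / Real.cos θ| ≤ 1 := by
        rw [abs_div, div_le_one (abs_pos.2 hc)]
        exact hle
      refine (h1 _ hβ).trans ?_
      have himg : gβ (Real.sin θ / Real.cos θ) '' W = (fun y : ℝ => (Real.cos θ)⁻¹ * y) ''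
          ((fun x : ℝ × ℝ => x.1 * Real.cos θ + x.2 * Real.sin θ) '' (emb '' W)) := by
        rw [Set.image_image, Set.image_image]
        refine Set.image_congr fun p _ => ?_
        simp only [gβ, emb]
        field_simp
      rw [himg]
      exact (lipschitzWith_smul (Real.cos θ)⁻¹ : LipschitzWith _
        (fun y : ℝ => (Real.cos θ)⁻¹ • y)).dimH_image_le _
    · have hc : Real.sin θ ≠ 0 := by
        intro h0
        rw [h0, abs_zero] at hle
        have h5 : Real.cos θ = 0 := abs_eq_zero.1 (le_antisymm hle (abs_nonneg _))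
        rw [h0, h5] at hsc
        norm_num at hsc
      have hβ : |Real.cos θ / Real.sin θ| ≤ 1 := by
        rw [abs_div, div_le_one (abs_pos.2 hc)]
        exact hle
      have hswap : dimH (Prod.swap '' W) = dimH W := by
        have hiso : Isometry (Prod.swap : ℝ≥0 × ℝ≥0 → ℝ≥0 × ℝ≥0) := by
          intro p q
          rw [Prod.edist_eq, Prod.edist_eq, max_comm]
          rfl
        exact hiso.dimH_image W
      rw [← hswap]
      refine (h2 _ hβ).trans ?_
      have himg : gβ (Real.cos θ / Real.sin θ) '' (Prod.swap '' W) =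
          (fun y : ℝ => (Real.sin θ)⁻¹ * y) ''
          ((fun x : ℝ × ℝ => x.1 * Real.cos θ + x.2 * Real.sin θ) '' (emb '' W)) := by
        rw [Set.image_image, Set.image_image, Set.image_image]
        refine Set.image_congr fun p _ => ?_
        simp only [gβ, emb, Prod.fst_swap, Prod.snd_swap]
        field_simp
        ring
      rw [himg]
      exact (lipschitzWith_smul (Real.sin θ)⁻¹ : LipschitzWith _
        (fun y : ℝ => (Real.sin θ)⁻¹ • y)).dimH_image_le _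

variable {Ω : Type*} [MeasurableSpace Ω] {P : Measure Ω} [IsProbabilityMeasure P]

omit [MeasurableSpace Ω] in
lemma ZZ_swap {ι : Type*} (X : ι × ℝ≥0 × ℝ≥0 → Ω → ℝ) (ω : Ω) :
    ZZ (swapX X) ω = Prod.swap '' ZZ X ω := by
  ext ⟨s, t⟩
  constructor
  · rintro ⟨h1, h2, h3⟩
    exact ⟨(t, s), ⟨h2, h1, h3⟩, rfl⟩
  · rintro ⟨⟨s', t'⟩, ⟨h1, h2, h3⟩, h4⟩
    simp only [Prod.swap_prod_mk, Prod.mk.injEq] at h4
    obtain ⟨rfl, rfl⟩ := h4
    exact ⟨h2, h1, h3⟩

/-- Almost surely all projections of the zero set have the dimension of the zero set. -/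
theorem IsSheet.ae_dimH_proj {ι : Type*} [DecidableEq ι] [Fintype ι]
    {X : ι × ℝ≥0 × ℝ≥0 → Ω → ℝ} (h : IsSheet X P) (hd : 2 ≤ Fintype.card ι)
    (hcont : ∀ᵐ ω ∂P, ∀ c, Continuous (fun p : ℝ≥0 × ℝ≥0 => X (c, p.1, p.2) ω)) :
    ∀ᵐ ω ∂P, ∀ θ : ℝ,
      dimH ((fun x : ℝ × ℝ => x.1 * Real.cos θ + x.2 * Real.sin θ) '' (emb '' ZZ X ω)) =
        dimH (emb '' ZZ X ω) := by
  have hcont' : ∀ᵐ ω ∂P, ∀ c, Continuous (fun p : ℝ≥0 × ℝ≥0 => swapX X (c, p.1, p.2) ω) := by
    filter_upwards [hcont] with ω hω c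
    exact (hω c).comp continuous_swap
  filter_upwards [h.ae_dimH_le_proj hd hcont, h.swap.ae_dimH_le_proj hd hcont'] with ω h1 h2 θ
  rw [ZZ_swap] at h2
  exact dimH_proj_eq h1 h2 θ

end Pool.Agent.Helper41
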