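import Mathlib
import Pool.Agent.Helper41.Block

open MeasureTheory ProbabilityTheory Filter Topology
open scoped ENNReal NNReal

namespace Pool.Agent.Helper41

/-- power sums -/
lemma sum_rpow_neg_le {a : ℝ} (ha0 : 0 ≤ a) (ha1 : a < 1) (N : ℕ) :
    ∑ x ∈ Finset.range N, ((x : ℝ) + 1) ^ (-a) ≤ (N : ℝ) ^ (1 - a) / (1 - a) := by
  have h1a : 0 < 1 - a := by linarith
  induction N with
  | zero =>
    simp only [Finset.range_zero, Finset.sum_empty, Nat.cast_zero]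
    rw [Real.zero_rpow h1a.ne', zero_div]
  | succ N ih =>
    rw [Finset.sum_range_succ]
    have hN : (0 : ℝ) ≤ N := Nat.cast_nonneg N
    have hN1 : (0 : ℝ) < (N : ℝ) + 1 := by linarith
    have hb : (1 + -(1 / ((N : ℝ) + 1))) ^ (1 - a) ≤ 1 + (1 - a) * -(1 / ((N : ℝ) + 1)) := by
      apply rpow_one_add_le_one_add_mul_self
      · rw [neg_le_neg_iff, div_le_one hN1]
        linarith
      · linarith
      · linarith
    have e1 : (1 + -(1 / ((N : ℝ) + 1))) = N / (N + 1) := by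
      field_simp
      ring
    rw [e1, Real.div_rpow hN hN1.le] at hb
    have hpos : 0 < ((N : ℝ) + 1) ^ (1 - a) := Real.rpow_pos_of_pos hN1 _
    rw [div_le_iff₀ hpos] at hb
    have e2 : ((N : ℝ) + 1) ^ (1 - a) = ((N : ℝ) + 1) * ((N : ℝ) + 1) ^ (-a) := by
      rw [sub_eq_add_neg, Real.rpow_add hN1, Real.rpow_one]
    have h3 : (1 - a) * ((N : ℝ) + 1) ^ (-a) ≤ ((N : ℝ) + 1) ^ (1 - a) - (N : ℝ) ^ (1 - a) := by
      have e3 : (1 + (1 - a) * -(1 / ((N : ℝ) + 1))) * ((N : ℝ) + 1) ^ (1 - a) =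
          ((N : ℝ) + 1) ^ (1 - a) - (1 - a) * ((N : ℝ) + 1) ^ (-a) := by
        rw [e2]
        field_simp
        ring
      rw [e3] at hb
      linarith
    have h4 : ((N : ℝ) + 1) ^ (-a) ≤ (((N : ℝ) + 1) ^ (1 - a) - (N : ℝ) ^ (1 - a)) / (1 - a) := by
      rw [le_div_iff₀ h1a]
      linarith
    push_cast
    rw [sub_div] at h4
    linarith

lemma sum_sum_rpow_le {α : ℝ} (h0 : 0 ≤ α) (h2 : α < 2) (N : ℕ) :
    ∑ x ∈ Finset.range N, ∑ y ∈ Finset.range N, ((x : ℝ) + y + 1) ^ (-α) ≤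
      (N : ℝ) ^ (2 - α) / (1 - α / 2) ^ 2 := by
  have hterm : ∀ x y : ℕ, ((x : ℝ) + y + 1) ^ (-α) ≤
      ((x : ℝ) + 1) ^ (-(α / 2)) * ((y : ℝ) + 1) ^ (-(α / 2)) := by
    intro x y
    have hx : (0 : ℝ) ≤ x := Nat.cast_nonneg x
    have hy : (0 : ℝ) ≤ y := Nat.cast_nonneg y
    have e : ((x : ℝ) + y + 1) ^ (-α) =
        ((x : ℝ) + y + 1) ^ (-(α / 2)) * ((x : ℝ) + y + 1) ^ (-(α / 2)) := by
      rw [← Real.rpow_add (by positivity)]
      congr 1
      ring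
    rw [e]
    have h1 : ((x : ℝ) + y + 1) ^ (-(α / 2)) ≤ ((x : ℝ) + 1) ^ (-(α / 2)) :=
      Real.rpow_le_rpow_of_nonpos (by positivity) (by linarith) (by linarith)
    have h2 : ((x : ℝ) + y + 1) ^ (-(α / 2)) ≤ ((y : ℝ) + 1) ^ (-(α / 2)) :=
      Real.rpow_le_rpow_of_nonpos (by positivity) (by linarith) (by linarith)
    gcongr
  have h1 := sum_rpow_neg_le (a := α / 2) (by linarith) (by linarith) N
  calc ∑ x ∈ Finset.range N, ∑ y ∈ Finset.range N, ((x : ℝ) + y + 1) ^ (-α)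
      ≤ ∑ x ∈ Finset.range N, ∑ y ∈ Finset.range N,
        ((x : ℝ) + 1) ^ (-(α / 2)) * ((y : ℝ) + 1) ^ (-(α / 2)) :=
        Finset.sum_le_sum fun x _ => Finset.sum_le_sum fun y _ => hterm x y
    _ = (∑ x ∈ Finset.range N, ((x : ℝ) + 1) ^ (-(α / 2))) *
        (∑ y ∈ Finset.range N, ((y : ℝ) + 1) ^ (-(α / 2))) := by
        rw [Finset.sum_mul_sum]
    _ ≤ ((N : ℝ) ^ (1 - α / 2) / (1 - α / 2)) * ((N : ℝ) ^ (1 - α / 2) / (1 - α / 2)) := by
        have h3 : 0 < 1 - α / 2 := by linarith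
        have h4 : 0 ≤ (N : ℝ) ^ (1 - α / 2) / (1 - α / 2) := by positivity
        gcongr
    _ = _ := by
        rw [div_mul_div_comm, ← sq, ← sq]
        congr 1
        rw [← Real.rpow_natCast, ← Real.rpow_mul (Nat.cast_nonneg N)]
        congr 1
        push_cast
        ring

/-- index distance -/
def zd (p q : ℕ × ℕ) : ℕ := ((p.1 - q.1) + (q.1 - p.1)) + ((p.2 - q.2) + (q.2 - p.2))

lemma quad_sum_le {α : ℝ} (h0 : 0 ≤ α) (h2 : α < 2) (N : ℕ) :
    ∑ p ∈ Finset.range N ×ˢ Finset.range N, ∑ q ∈ Finset.range N ×ˢ Finset.range N,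
      ((zd p q : ℝ) + 1) ^ (-α) ≤
      (N : ℝ) ^ 2 * (4 * ((N : ℝ) ^ (2 - α) / (1 - α / 2) ^ 2)) := by
  have h1 : ∀ p ∈ Finset.range N ×ˢ Finset.range N,
      ∑ q ∈ Finset.range N ×ˢ Finset.range N, ((zd p q : ℝ) + 1) ^ (-α) ≤
        4 * ((N : ℝ) ^ (2 - α) / (1 - α / 2) ^ 2) := by
    rintro ⟨i, j⟩ hp
    rw [Finset.mem_product, Finset.mem_range, Finset.mem_range] at hp
    simp only at hp
    rw [Finset.sum_product]
    calc ∑ i' ∈ Finset.range N, ∑ j' ∈ Finset.range N, ((zd (i, j) (i', j') : ℝ) + 1) ^ (-α)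
        ≤ ∑ i' ∈ Finset.range N, 2 * ∑ y ∈ Finset.range N,
          ((((i - i') + (i' - i) : ℕ) : ℝ) + y + 1) ^ (-α) := by
          refine Finset.sum_le_sum fun i' _ => ?_
          have := sum_diff_le N (fun y => ((((i - i') + (i' - i) : ℕ) : ℝ) + y + 1) ^ (-α))
            (fun x => by positivity) j hp.2
          refine le_trans (le_of_eq ?_) this
          refine Finset.sum_congr rfl fun j' _ => ?_
          unfold zd
          push_cast
          ring_nf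
      _ = 2 * ∑ i' ∈ Finset.range N, ∑ y ∈ Finset.range N,
          ((((i - i') + (i' - i) : ℕ) : ℝ) + y + 1) ^ (-α) := by rw [Finset.mul_sum]
      _ ≤ 2 * (2 * ∑ x ∈ Finset.range N, ∑ y ∈ Finset.range N, ((x : ℝ) + y + 1) ^ (-α)) := by
          have := sum_diff_le N (fun x => ∑ y ∈ Finset.range N, ((x : ℝ) + y + 1) ^ (-α))
            (fun x => Finset.sum_nonneg fun y _ => by positivity) i hp.1
          gcongr
      _ ≤ 2 * (2 * ((N : ℝ) ^ (2 - α) / (1 - α / 2) ^ 2)) := by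
          gcongr
          exact sum_sum_rpow_le h0 h2 N
      _ = _ := by ring
  calc _ ≤ ∑ _p ∈ Finset.range N ×ˢ Finset.range N,
        4 * ((N : ℝ) ^ (2 - α) / (1 - α / 2) ^ 2) := Finset.sum_le_sum h1
    _ = _ := by
        rw [Finset.sum_const, Finset.card_product, Finset.card_range, nsmul_eq_mul]
        push_cast
        ring

end Pool.Agent.Helper41
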