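import Mathlib
import Pool.Agent.Helper41.GridSum
import Pool.Agent.Helper41.Abstract
import Pool.Agent.Helper41.ZeroMoment
import Pool.Agent.Helper41.Hit

open MeasureTheory ProbabilityTheory Filter Topology
open scoped ENNReal NNReal

namespace Pool.Agent.Helper41

variable {Ω : Type*} [MeasurableSpace Ω] {P : Measure Ω} [IsProbabilityMeasure P]

/-- Paley-Zygmund -/
lemma paley_zygmund {T : Ω → ℝ≥0∞} (hT : Measurable T) {c₁ C : ℝ} (hc₁ : 0 < c₁) (hC : 0 < C)
    (h1 : ENNReal.ofReal c₁ ≤ ∫⁻ ω, T ω ∂P) (h2 : ∫⁻ ω, T ω ^ 2 ∂P ≤ ENNReal.ofReal C) :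
    ENNReal.ofReal (c₁ ^ 2 / (4 * C)) ≤ P {ω | ENNReal.ofReal (c₁ / 2) < T ω} := by
  set S : Set Ω := {ω | ENNReal.ofReal (c₁ / 2) < T ω} with hS
  have hSm : MeasurableSet S := measurableSet_lt measurable_const hT
  set Z : Ω → ℝ≥0∞ := S.indicator T with hZ
  have hZm : Measurable Z := hT.indicator hSm
  have h3 : ∫⁻ ω, T ω ∂P ≤ ENNReal.ofReal (c₁ / 2) + ∫⁻ ω, Z ω ∂P := by
    calc ∫⁻ ω, T ω ∂P ≤ ∫⁻ ω, (ENNReal.ofReal (c₁ / 2) + Z ω) ∂P := by
          refine lintegral_mono fun ω => ?_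
          by_cases hω : ω ∈ S
          · simp only [hZ, Set.indicator_of_mem hω]
            exact le_add_self
          · simp only [hZ, Set.indicator_of_notMem hω, add_zero]
            exact not_lt.1 hω
      _ = _ := by
          rw [lintegral_add_left measurable_const, lintegral_const, measure_univ, mul_one]
  have h4 : ENNReal.ofReal (c₁ / 2) ≤ ∫⁻ ω, Z ω ∂P := by
    have h5 : ENNReal.ofReal (c₁ / 2) + ENNReal.ofReal (c₁ / 2) ≤
        ENNReal.ofReal (c₁ / 2) + ∫⁻ ω, Z ω ∂P := by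
      rw [← ENNReal.ofReal_add (by positivity) (by positivity), add_halves]
      exact h1.trans h3
    exact (ENNReal.add_le_add_iff_left ENNReal.ofReal_ne_top).1 h5
  have h6 := sq_lintegral_le (P := P) hZm
  have h7 : ∫⁻ ω, Z ω ^ 2 ∂P ≤ ENNReal.ofReal C := by
    refine le_trans (lintegral_mono fun ω => ?_) h2
    gcongr
    exact Set.indicator_le_self' (fun _ _ => zero_le) ω
  have h8 : P {ω | Z ω ≠ 0} ≤ P S := by
    refine measure_mono fun ω hω => ?_
    by_contra hcon
    exact hω (Set.indicator_of_notMem hcon _)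
  have h9 : ENNReal.ofReal ((c₁ / 2) ^ 2) ≤ ENNReal.ofReal C * P S := by
    rw [ENNReal.ofReal_pow (by positivity)]
    calc _ ≤ (∫⁻ ω, Z ω ∂P) ^ 2 := by gcongr
      _ ≤ _ := h6
      _ ≤ _ := by gcongr
  have e : ENNReal.ofReal (c₁ ^ 2 / (4 * C)) = ENNReal.ofReal ((c₁ / 2) ^ 2) / ENNReal.ofReal C := by
    rw [← ENNReal.ofReal_div_of_pos hC]
    congr 1
    field_simp
    norm_num
  rw [e]
  exact ENNReal.div_le_of_le_mul' h9

/-- lower bound for the mass of a ball not centred at the origin -/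
lemma gball_ge' {v : ℝ≥0} (hv : v ≠ 0) {z b : ℝ} {r : ℝ} (hb : |z| + r ≤ b) :
    ENNReal.ofReal (2 * r / √(2 * Real.pi * v) * Real.exp (-(b ^ 2 / (2 * v)))) ≤
      gaussianReal 0 v {x | |x - z| ≤ r} := by
  have hv' : (0 : ℝ) < v := NNReal.coe_pos.2 (pos_iff_ne_zero.2 hv)
  have hs : {x : ℝ | |x - z| ≤ r} = Metric.closedBall z r := by
    ext x
    simp [Metric.mem_closedBall, Real.dist_eq]
  have hms : MeasurableSet {x : ℝ | |x - z| ≤ r} := by
    rw [hs]; exact Metric.isClosed_closedBall.measurableSet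
  rw [gaussianReal_apply _ hv]
  calc ENNReal.ofReal (2 * r / √(2 * Real.pi * v) * Real.exp (-(b ^ 2 / (2 * v))))
      = ENNReal.ofReal ((√(2 * Real.pi * v))⁻¹ * Real.exp (-(b ^ 2 / (2 * v)))) *
          ENNReal.ofReal (2 * r) := by
        rw [← ENNReal.ofReal_mul (by positivity)]
        congr 1
        ring
    _ = ∫⁻ _x in {x : ℝ | |x - z| ≤ r},
          ENNReal.ofReal ((√(2 * Real.pi * v))⁻¹ * Real.exp (-(b ^ 2 / (2 * v)))) := by
        rw [lintegral_const, Measure.restrict_apply_univ, hs, Real.volume_closedBall]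
    _ ≤ ∫⁻ x in {x : ℝ | |x - z| ≤ r}, gaussianPDF 0 v x := by
        refine setLIntegral_mono' hms fun x hx => ?_
        unfold gaussianPDF gaussianPDFReal
        apply ENNReal.ofReal_le_ofReal
        have hx' : |x - z| ≤ r := hx
        have h1 : |x| ≤ b := by
          calc |x| = |(x - z) + z| := by ring_nf
            _ ≤ |x - z| + |z| := abs_add_le _ _
            _ ≤ b := by linarith
        have h2 : (x - 0) ^ 2 ≤ b ^ 2 := by
          rw [sub_zero, ← sq_abs x]
          have := abs_nonneg x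
          gcongr
        have h3 : -(b ^ 2 / (2 * (v : ℝ))) ≤ -(x - 0) ^ 2 / (2 * v) := by
          rw [neg_div, neg_le_neg_iff]
          gcongr
        gcongr

variable {ι : Type*} [DecidableEq ι] [Fintype ι] {X : ι × ℝ≥0 × ℝ≥0 → Ω → ℝ}

/-- grid coordinate -/
noncomputable def gs (m i : ℕ) : ℝ≥0 := 1 + (i : ℝ≥0) / 2 ^ m

lemma gs_ge (m i : ℕ) : 1 ≤ gs m i := le_self_add

lemma gs_le {m i : ℕ} (hi : i < 2 ^ m) : gs m i ≤ 2 := by
  unfold gs
  have : (i : ℝ≥0) / 2 ^ m ≤ 1 := by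
    rw [div_le_one (by positivity)]
    exact_mod_cast hi.le
  calc (1 : ℝ≥0) + i / 2 ^ m ≤ 1 + 1 := by gcongr
    _ = 2 := by norm_num

/-- near zero grid points of a path at scale `a` -/
def nearP (a : ℝ≥0) (m : ℕ) (x : ι × ℝ≥0 × ℝ≥0 → ℝ) (p : ℕ × ℕ) : Prop :=
  ‖fun c => x (c, gs m p.1, a * gs m p.2)‖ ≤ qq ^ m * √a

open Classical in
/-- indicator of near zero grid points -/
noncomputable def nr (a : ℝ≥0) (m : ℕ) (x : ι × ℝ≥0 × ℝ≥0 → ℝ) (p : ℕ × ℕ) : ℝ :=
  if nearP a m x p then 1 else 0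

lemma nr_nonneg (a : ℝ≥0) (m : ℕ) (x : ι × ℝ≥0 × ℝ≥0 → ℝ) (p : ℕ × ℕ) : 0 ≤ nr a m x p := by
  unfold nr
  split_ifs <;> norm_num

lemma measurableSet_nearP (a : ℝ≥0) (m : ℕ) (p : ℕ × ℕ) :
    MeasurableSet {x : ι × ℝ≥0 × ℝ≥0 → ℝ | nearP a m x p} :=
  measurableSet_le (measurable_pi_lambda _ fun _ => measurable_pi_apply _).norm measurable_const

lemma measurable_nr (a : ℝ≥0) (m : ℕ) (p : ℕ × ℕ) :
    Measurable (fun x : ι × ℝ≥0 × ℝ≥0 → ℝ => nr a m x p) :=
  Measurable.ite (measurableSet_nearP a m p) measurable_const measurable_const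

/-- grid indices -/
def JJ (m : ℕ) : Finset (ℕ × ℕ) := Finset.range (2 ^ m) ×ˢ Finset.range (2 ^ m)

/-- weight of a grid point -/
noncomputable def wgt (d m : ℕ) : ℝ := (1 / 4 ^ m) * (1 / (qq ^ m) ^ d)

lemma wgt_pos (d m : ℕ) : 0 < wgt d m := by
  unfold wgt
  have := qq_pos
  positivity

/-- mass functional -/
noncomputable def TT (a : ℝ≥0) (m : ℕ) (x : ι × ℝ≥0 × ℝ≥0 → ℝ) : ℝ :=
  ∑ p ∈ JJ m, wgt (Fintype.card ι) m * nr a m x p

/-- energy kernel -/
noncomputable def kap (s : ℝ) (m : ℕ) (p q : ℕ × ℕ) : ℝ := (((zd p q : ℝ) + 1) / 2 ^ m) ^ (-s)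

lemma kap_nonneg (s : ℝ) (m : ℕ) (p q : ℕ × ℕ) : 0 ≤ kap s m p q := by
  unfold kap
  positivity

/-- energy functional -/
noncomputable def EN (s : ℝ) (a : ℝ≥0) (m : ℕ) (x : ι × ℝ≥0 × ℝ≥0 → ℝ) : ℝ :=
  ∑ p ∈ JJ m, ∑ q ∈ JJ m,
    (wgt (Fintype.card ι) m ^ 2 * kap s m p q) * (nr a m x p * nr a m x q)

lemma measurable_TT (a : ℝ≥0) (m : ℕ) : Measurable (TT (ι := ι) a m) := by
  unfold TT
  exact Finset.measurable_sum _ fun p _ => (measurable_nr a m p).const_mul _

lemma measurable_EN (s : ℝ) (a : ℝ≥0) (m : ℕ) : Measurable (EN (ι := ι) s a m) := by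
  unfold EN
  exact Finset.measurable_sum _ fun p _ => Finset.measurable_sum _ fun q _ =>
    ((measurable_nr a m p).mul (measurable_nr a m q)).const_mul _

lemma TT_nonneg (a : ℝ≥0) (m : ℕ) (x : ι × ℝ≥0 × ℝ≥0 → ℝ) : 0 ≤ TT a m x :=
  Finset.sum_nonneg fun _ _ => mul_nonneg (wgt_pos _ _).le (nr_nonneg _ _ _ _)

lemma EN_zero (a : ℝ≥0) (m : ℕ) (x : ι × ℝ≥0 × ℝ≥0 → ℝ) : EN 0 a m x = TT a m x ^ 2 := by
  unfold EN TT
  rw [sq (∑ p ∈ JJ m, wgt (Fintype.card ι) m * nr a m x p), Finset.sum_mul_sum]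
  refine Finset.sum_congr rfl fun p _ => Finset.sum_congr rfl fun q _ => ?_
  unfold kap
  rw [neg_zero, Real.rpow_zero]
  ring

lemma zd_eq_zero {p q : ℕ × ℕ} (h : zd p q = 0) : p = q := by
  unfold zd at h
  refine Prod.ext ?_ ?_ <;> omega

lemma qq_pow_sq (m : ℕ) : (qq ^ m) ^ 2 = 1 / 2 ^ m := by
  rw [← pow_mul, mul_comm, pow_mul, qq_sq, div_pow, one_pow]

/-- joint probability of two near zeros -/
lemma pair_prob (h : IsSheet X P) (hd : 1 ≤ Fintype.card ι) {a e : ℝ≥0} (ha : 0 < a)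
    (he : 2 * e ≤ a) (m : ℕ) {p q : ℕ × ℕ}
    (u : ι × ℝ≥0 × ℝ≥0 → ℝ) :
    P {ω | nearP a m (comb e u (pW X e ω)) p ∧ nearP a m (comb e u (pW X e ω)) q} ≤
      ENNReal.ofReal (((1 / 2 ^ m) * √(8 * 2 ^ m / ((zd p q : ℝ) + 1))) ^ Fintype.card ι) := by
  have ha' : (0 : ℝ) < a := ha
  have h2m : (0 : ℝ) < 2 ^ m := by positivity
  have he' : (e : ℝ) ≤ a / 2 := by
    have : (2 : ℝ) * e ≤ a := by exact_mod_cast he
    linarith
  have hqq := qq_pos
  set r : ℝ := qq ^ m * √a with hr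
  have hr0 : 0 ≤ r := by positivity
  have hr2 : r ^ 2 = a / 2 ^ m := by
    rw [hr, mul_pow, qq_pow_sq, Real.sq_sqrt ha'.le]
    ring
  have het : ∀ j, e < a * gs m j := by
    intro j
    have h1 : a ≤ a * gs m j := le_mul_of_one_le_right zero_le (gs_ge m j)
    refine lt_of_lt_of_le ?_ h1
    have : (e : ℝ) < a := by linarith
    exact_mod_cast this
  have hspos : ∀ i, 0 < gs m i := fun i => lt_of_lt_of_le one_pos (gs_ge m i)
  have hcomb : ∀ (i j : ℕ) (ω : Ω), (fun c => comb e u (pW X e ω) (c, gs m i, a * gs m j)) =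
      vinc X (gs m i) e (a * gs m j) ω - (fun c => - u (c, gs m i, e)) := by
    intro i j ω
    funext c
    simp only [comb, pW, vinc, incr, max_eq_left (het j).le, Pi.sub_apply]
    ring
  rcases eq_or_ne (zd p q) 0 with hz | hz
  · have hpq := zd_eq_zero hz
    subst hpq
    rw [hz]
    have h1 := h.small_ball (gs m p.1) e (a * gs m p.2) (hspos _) (het _) hr0
      (fun c => - u (c, gs m p.1, e))
    set v : ℝ≥0 := gs m p.1 * (a * gs m p.2 - e) with hv
    have hv2 : (a : ℝ) / 2 ≤ v := by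
      rw [hv, NNReal.coe_mul, NNReal.coe_sub (het _).le, NNReal.coe_mul]
      have h3 : (1 : ℝ) ≤ gs m p.1 := by exact_mod_cast gs_ge m p.1
      have h4 : (1 : ℝ) ≤ gs m p.2 := by exact_mod_cast gs_ge m p.2
      have h5 : (a : ℝ) ≤ a * gs m p.2 := by nlinarith
      nlinarith
    calc _ ≤ P {ω | ‖(fun c => X (c, gs m p.1, a * gs m p.2) ω - X (c, gs m p.1, e) ω) -
          (fun c => - u (c, gs m p.1, e))‖ ≤ r} := by
          refine measure_mono fun ω hω => ?_
          have h3 := hω.1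
          unfold nearP at h3
          rw [hcomb] at h3
          exact h3
      _ ≤ _ := h1
      _ = ENNReal.ofReal ((r / √(v : ℝ)) ^ Fintype.card ι) :=
          (ENNReal.ofReal_pow (by positivity) _).symm
      _ ≤ _ := by
          apply ENNReal.ofReal_le_ofReal
          have h6 : r / √(v : ℝ) ≤ (1 / 2 ^ m) * √(8 * 2 ^ m / (((0 : ℕ) : ℝ) + 1)) := by
            have hv0 : 0 < √(v : ℝ) := Real.sqrt_pos.2 (by linarith)
            rw [div_le_iff₀ hv0]
            apply le_of_sq_le_sq _ (by positivity)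
            rw [hr2, mul_pow, mul_pow, Real.sq_sqrt (by positivity), Real.sq_sqrt (by linarith)]
            push_cast
            have e1 : ((1 : ℝ) / 2 ^ m) ^ 2 * (8 * 2 ^ m / (0 + 1)) * v = 8 * v / 2 ^ m := by
              rw [zero_add, div_one]
              field_simp
            rw [e1]
            gcongr
            linarith
          gcongr
  · have hz1 : (1 : ℝ) ≤ zd p q := by exact_mod_cast Nat.one_le_iff_ne_zero.2 hz
    have hdet := det_ineq2 (s := (gs m p.1 : ℝ)) (s' := (gs m q.1 : ℝ))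
      (t := ((a * gs m p.2 : ℝ≥0) : ℝ)) (t' := ((a * gs m q.2 : ℝ≥0) : ℝ)) (e := (e : ℝ))
      (T := (a : ℝ)) (by exact_mod_cast gs_ge m p.1) (by exact_mod_cast gs_ge m q.1) ha'
      (by exact_mod_cast le_mul_of_one_le_right zero_le (gs_ge m p.2))
      (by exact_mod_cast le_mul_of_one_le_right zero_le (gs_ge m q.2)) he'
    have e1 : |((gs m p.1 : ℝ≥0) : ℝ) - gs m q.1| =
        (((p.1 - q.1) + (q.1 - p.1) : ℕ) : ℝ) / 2 ^ m := by
      have : ((gs m p.1 : ℝ≥0) : ℝ) - gs m q.1 = ((p.1 : ℝ) - q.1) / 2 ^ m := by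
        unfold gs
        push_cast
        ring
      rw [this, abs_div, abs_of_pos h2m, nat_dist_cast]
    have e2 : |((a * gs m p.2 : ℝ≥0) : ℝ) - (a * gs m q.2 : ℝ≥0)| =
        a * ((((p.2 - q.2) + (q.2 - p.2) : ℕ) : ℝ) / 2 ^ m) := by
      have : ((a * gs m p.2 : ℝ≥0) : ℝ) - (a * gs m q.2 : ℝ≥0) =
          a * (((p.2 : ℝ) - q.2) / 2 ^ m) := by
        unfold gs
        push_cast
        ring
      rw [this, abs_mul, abs_of_pos ha', abs_div, abs_of_pos h2m, nat_dist_cast]
    have e3 : (a : ℝ) / 4 * (a * |((gs m p.1 : ℝ≥0) : ℝ) - gs m q.1| +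
        |((a * gs m p.2 : ℝ≥0) : ℝ) - (a * gs m q.2 : ℝ≥0)|) = (a : ℝ) ^ 2 * (zd p q / (4 * 2 ^ m)) := by
      rw [e1, e2]
      unfold zd
      push_cast
      ring
    rw [e3] at hdet
    have hov : ov e (a * gs m p.2) e (a * gs m q.2) =
        min ((a * gs m p.2 : ℝ≥0) : ℝ) ((a * gs m q.2 : ℝ≥0) : ℝ) - e := by
      unfold ov
      rw [min_eq_right (het _).le, min_eq_left (het _).le, min_self, NNReal.coe_min]
      ring
    have hb := h.pair_bound (s := gs m p.1) (s' := gs m q.1) (t := e) (t' := a * gs m p.2)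
      (τ := e) (τ' := a * gs m q.2) (hspos _) (het _) (het _).le
      (D := (a : ℝ) ^ 2 * (zd p q / (4 * 2 ^ m))) (by positivity) (by
        rw [hov]
        refine hdet.trans (le_of_eq ?_)
        rw [NNReal.coe_min]) hr0 (fun c => - u (c, gs m p.1, e)) (fun c => - u (c, gs m q.1, e))
    calc _ ≤ P {ω | ‖vinc X (gs m p.1) e (a * gs m p.2) ω - (fun c => - u (c, gs m p.1, e))‖ ≤ r ∧
          ‖vinc X (gs m q.1) e (a * gs m q.2) ω - (fun c => - u (c, gs m q.1, e))‖ ≤ r} := by
          refine measure_mono fun ω hω => ?_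
          have h3 := hω.1
          have h4 := hω.2
          unfold nearP at h3 h4
          rw [hcomb] at h3 h4
          exact ⟨h3, h4⟩
      _ ≤ _ := hb
      _ = ENNReal.ofReal ((r ^ 2 / √((a : ℝ) ^ 2 * (zd p q / (4 * 2 ^ m)))) ^ Fintype.card ι) :=
          (ENNReal.ofReal_pow (by positivity) _).symm
      _ ≤ _ := by
          apply ENNReal.ofReal_le_ofReal
          have h6 : r ^ 2 / √((a : ℝ) ^ 2 * (zd p q / (4 * 2 ^ m))) ≤
              (1 / 2 ^ m) * √(8 * 2 ^ m / ((zd p q : ℝ) + 1)) := by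
            have hD0 : 0 < (a : ℝ) ^ 2 * (zd p q / (4 * 2 ^ m)) := by positivity
            rw [div_le_iff₀ (Real.sqrt_pos.2 hD0), hr2]
            apply le_of_sq_le_sq _ (by positivity)
            rw [mul_pow, mul_pow, Real.sq_sqrt (by positivity), Real.sq_sqrt (by positivity)]
            have e4 : ((1 : ℝ) / 2 ^ m) ^ 2 * (8 * 2 ^ m / ((zd p q : ℝ) + 1)) *
                ((a : ℝ) ^ 2 * (zd p q / (4 * 2 ^ m))) =
                ((a : ℝ) / 2 ^ m) ^ 2 * (2 * zd p q / ((zd p q : ℝ) + 1)) := by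
              field_simp
              ring
            rw [e4]
            have h7 : 1 ≤ 2 * (zd p q : ℝ) / ((zd p q : ℝ) + 1) := by
              rw [le_div_iff₀ (by positivity)]
              linarith
            have h8 : 0 ≤ ((a : ℝ) / 2 ^ m) ^ 2 := by positivity
            nlinarith
          gcongr

/-- expected energy -/
lemma energy_le (h : IsSheet X P) (hd : 1 ≤ Fintype.card ι) {s : ℝ} (hs : 0 ≤ s)
    (hα : s + (Fintype.card ι : ℝ) / 2 < 2) {a e : ℝ≥0} (ha : 0 < a)
    (he : 2 * e ≤ a) (m : ℕ) (u : ι × ℝ≥0 × ℝ≥0 → ℝ) :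
    ∫⁻ ω, ENNReal.ofReal (EN s a m (comb e u (pW X e ω))) ∂P ≤
      ENNReal.ofReal ((8 : ℝ) ^ ((Fintype.card ι : ℝ) / 2) *
        (4 / (1 - (s + (Fintype.card ι : ℝ) / 2) / 2) ^ 2)) := by
  classical
  set d := Fintype.card ι with hdef
  set α : ℝ := s + (d : ℝ) / 2 with hαdef
  have hα0 : 0 ≤ α := by positivity
  have h2m : (0 : ℝ) < 2 ^ m := by positivity
  have hqq := qq_pos
  have hcm : Measurable (fun ω => comb e u (pW X e ω)) :=
    (measurable_comb e).comp (measurable_const.prodMk (h.meas_pW e))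
  have hset : ∀ p q, MeasurableSet {ω | nearP a m (comb e u (pW X e ω)) p ∧
      nearP a m (comb e u (pW X e ω)) q} := fun p q =>
    (hcm (measurableSet_nearP a m p)).inter (hcm (measurableSet_nearP a m q))
  have hexp : ∀ ω, ENNReal.ofReal (EN s a m (comb e u (pW X e ω))) =
      ∑ p ∈ JJ m, ∑ q ∈ JJ m, ENNReal.ofReal (wgt d m ^ 2 * kap s m p q) *
        ({ω | nearP a m (comb e u (pW X e ω)) p ∧
          nearP a m (comb e u (pW X e ω)) q}.indicator (fun _ => (1 : ℝ≥0∞)) ω) := by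
    intro ω
    unfold EN
    rw [ENNReal.ofReal_sum_of_nonneg (fun p _ => Finset.sum_nonneg fun q _ =>
      mul_nonneg (mul_nonneg (sq_nonneg _) (kap_nonneg _ _ _ _))
        (mul_nonneg (nr_nonneg _ _ _ _) (nr_nonneg _ _ _ _)))]
    refine Finset.sum_congr rfl fun p _ => ?_
    rw [ENNReal.ofReal_sum_of_nonneg (fun q _ =>
      mul_nonneg (mul_nonneg (sq_nonneg _) (kap_nonneg _ _ _ _))
        (mul_nonneg (nr_nonneg _ _ _ _) (nr_nonneg _ _ _ _)))]
    refine Finset.sum_congr rfl fun q _ => ?_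
    rw [ENNReal.ofReal_mul (mul_nonneg (sq_nonneg _) (kap_nonneg _ _ _ _))]
    congr 1
    unfold nr
    by_cases h1 : nearP a m (comb e u (pW X e ω)) p
    · by_cases h2 : nearP a m (comb e u (pW X e ω)) q
      · simp [h1, h2]
      · simp [h2]
    · simp [h1]
  simp_rw [hexp]
  rw [lintegral_finset_sum _ fun p _ => Finset.measurable_sum _ fun q _ =>
    (measurable_const.indicator (hset p q)).const_mul _]
  calc _ ≤ ∑ p ∈ JJ m, ∑ q ∈ JJ m, ENNReal.ofReal ((1 / 16 ^ m) * (8 : ℝ) ^ ((d : ℝ) / 2) *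
          (2 ^ m) ^ α * ((zd p q : ℝ) + 1) ^ (-α)) := by
        refine Finset.sum_le_sum fun p _ => ?_
        rw [lintegral_finset_sum _ fun q _ =>
          (measurable_const.indicator (hset p q)).const_mul _]
        refine Finset.sum_le_sum fun q _ => ?_
        rw [lintegral_const_mul _ (measurable_const.indicator (hset p q)),
          lintegral_indicator_const (hset p q), one_mul]
        calc _ ≤ ENNReal.ofReal (wgt d m ^ 2 * kap s m p q) *
              ENNReal.ofReal (((1 / 2 ^ m) * √(8 * 2 ^ m / ((zd p q : ℝ) + 1))) ^ d) := by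
              gcongr
              exact pair_prob h hd ha he m u
          _ = _ := by
              rw [← ENNReal.ofReal_mul (mul_nonneg (sq_nonneg _) (kap_nonneg _ _ _ _))]
              congr 1
              set y : ℝ := ((zd p q : ℝ) + 1) / 2 ^ m with hy
              have hy0 : 0 < y := by positivity
              have hz0 : (0 : ℝ) < (zd p q : ℝ) + 1 := by positivity
              have e1 : 8 * 2 ^ m / ((zd p q : ℝ) + 1) = 8 * y⁻¹ := by
                rw [hy, inv_div, mul_div_assoc]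
              have e2 : (√(8 * y⁻¹)) ^ d = (8 : ℝ) ^ ((d : ℝ) / 2) * y ^ (-((d : ℝ) / 2)) := by
                rw [Real.sqrt_eq_rpow, ← Real.rpow_natCast, ← Real.rpow_mul (by positivity),
                  Real.mul_rpow (by norm_num) (by positivity), Real.inv_rpow hy0.le,
                  ← Real.rpow_neg hy0.le]
                congr 2
                · ring
                · ring
              have e3 : wgt d m ^ 2 * (1 / 2 ^ m) ^ d = 1 / 16 ^ m := by
                unfold wgt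
                rw [mul_pow, div_pow 1 ((qq ^ m) ^ d) 2, ← pow_mul (qq ^ m) d 2, mul_comm d 2,
                  pow_mul (qq ^ m) 2 d, qq_pow_sq]
                have e4 : ((1 : ℝ) / 4 ^ m) ^ 2 = 1 / 16 ^ m := by
                  rw [div_pow, one_pow, ← pow_mul, mul_comm, pow_mul]
                  norm_num
                rw [e4, one_pow, mul_assoc, one_div_mul_cancel (by positivity), mul_one]
              have e5 : y ^ (-s) * y ^ (-((d : ℝ) / 2)) =
                  (2 ^ m) ^ α * ((zd p q : ℝ) + 1) ^ (-α) := by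
                rw [← Real.rpow_add hy0, hy, Real.div_rpow hz0.le h2m.le, div_eq_mul_inv,
                  ← Real.rpow_neg h2m.le, mul_comm]
                congr 2
                · rw [hαdef]; ring
                · rw [hαdef]; ring
              unfold kap
              rw [mul_pow, e1, e2, ← hy]
              calc wgt d m ^ 2 * y ^ (-s) * ((1 / 2 ^ m) ^ d *
                    (8 ^ ((d : ℝ) / 2) * y ^ (-((d : ℝ) / 2))))
                  = (wgt d m ^ 2 * (1 / 2 ^ m) ^ d) * 8 ^ ((d : ℝ) / 2) *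
                    (y ^ (-s) * y ^ (-((d : ℝ) / 2))) := by ring
                _ = _ := by rw [e3, e5]; ring
    _ = ENNReal.ofReal ((1 / 16 ^ m) * (8 : ℝ) ^ ((d : ℝ) / 2) * (2 ^ m) ^ α *
          ∑ p ∈ JJ m, ∑ q ∈ JJ m, ((zd p q : ℝ) + 1) ^ (-α)) := by
        rw [Finset.mul_sum, ENNReal.ofReal_sum_of_nonneg (fun p _ => by positivity)]
        refine Finset.sum_congr rfl fun p _ => ?_
        rw [Finset.mul_sum, ENNReal.ofReal_sum_of_nonneg (fun p _ => by positivity)]
    _ ≤ _ := by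
        apply ENNReal.ofReal_le_ofReal
        have hq := quad_sum_le hα0 hα (2 ^ m)
        have hden : 0 < (1 - α / 2) ^ 2 := by
          have : 0 < 1 - α / 2 := by linarith
          positivity
        calc (1 / 16 ^ m) * (8 : ℝ) ^ ((d : ℝ) / 2) * (2 ^ m) ^ α *
              ∑ p ∈ JJ m, ∑ q ∈ JJ m, ((zd p q : ℝ) + 1) ^ (-α)
            ≤ (1 / 16 ^ m) * (8 : ℝ) ^ ((d : ℝ) / 2) * (2 ^ m) ^ α *
              ((((2 ^ m : ℕ) : ℝ)) ^ 2 * (4 * ((((2 ^ m : ℕ) : ℝ)) ^ (2 - α) / (1 - α / 2) ^ 2))) := by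
              gcongr
              exact hq
          _ = _ := by
              push_cast
              have e6 : ((2 : ℝ) ^ m) ^ α * ((2 : ℝ) ^ m) ^ (2 - α) = (2 ^ m) ^ 2 := by
                rw [← Real.rpow_add h2m, show α + (2 - α) = ((2 : ℕ) : ℝ) by push_cast; ring,
                  Real.rpow_natCast]
              have e7 : (16 : ℝ) ^ m = (2 ^ m) ^ 2 * (2 ^ m) ^ 2 := by
                rw [← pow_add, ← pow_mul, mul_comm, pow_mul]
                norm_num
              calc (1 / 16 ^ m) * (8 : ℝ) ^ ((d : ℝ) / 2) * (2 ^ m) ^ α *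
                    ((2 ^ m) ^ 2 * (4 * ((2 ^ m) ^ (2 - α) / (1 - α / 2) ^ 2)))
                  = (1 / 16 ^ m) * ((2 ^ m) ^ 2 * ((2 ^ m) ^ α * (2 ^ m) ^ (2 - α))) *
                    ((8 : ℝ) ^ ((d : ℝ) / 2) * (4 / (1 - α / 2) ^ 2)) := by ring
                _ = _ := by
                    rw [e6, e7, one_div_mul_cancel (by positivity), one_mul]

/-- expected mass -/
lemma mass_ge (h : IsSheet X P) {a e : ℝ≥0} (ha : 0 < a)
    (he : 2 * e ≤ a) (m : ℕ) {u : ι × ℝ≥0 × ℝ≥0 → ℝ}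
    (hu : ∀ i < 2 ^ m, ‖fun c => u (c, gs m i, e)‖ ≤ √a) :
    ENNReal.ofReal ((2 * Real.exp (-4) / √(8 * Real.pi)) ^ Fintype.card ι) ≤
      ∫⁻ ω, ENNReal.ofReal (TT a m (comb e u (pW X e ω))) ∂P := by
  classical
  set d := Fintype.card ι with hdef
  have ha' : (0 : ℝ) < a := ha
  have h2m : (0 : ℝ) < 2 ^ m := by positivity
  have hqq := qq_pos
  have hqq1 := qq_lt
  have hpi := Real.pi_pos
  have he' : (e : ℝ) ≤ a / 2 := by
    have : (2 : ℝ) * e ≤ a := by exact_mod_cast he
    linarith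
  set r : ℝ := qq ^ m * √a with hr
  have hr0 : 0 ≤ r := by positivity
  have hqm : qq ^ m ≤ 1 := pow_le_one₀ hqq.le (by linarith)
  have hra : r ≤ √a := by
    rw [hr]
    have := Real.sqrt_nonneg (a : ℝ)
    nlinarith
  have hcm : Measurable (fun ω => comb e u (pW X e ω)) :=
    (measurable_comb e).comp (measurable_const.prodMk (h.meas_pW e))
  have hset : ∀ p, MeasurableSet {ω | nearP a m (comb e u (pW X e ω)) p} := fun p =>
    hcm (measurableSet_nearP a m p)
  have het : ∀ j, e < a * gs m j := by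
    intro j
    have h1 : a ≤ a * gs m j := le_mul_of_one_le_right zero_le (gs_ge m j)
    refine lt_of_lt_of_le ?_ h1
    have : (e : ℝ) < a := by linarith
    exact_mod_cast this
  have hcomb : ∀ (i j : ℕ) (ω : Ω), (fun c => comb e u (pW X e ω) (c, gs m i, a * gs m j)) =
      vinc X (gs m i) e (a * gs m j) ω - (fun c => - u (c, gs m i, e)) := by
    intro i j ω
    funext c
    simp only [comb, pW, vinc, incr, max_eq_left (het j).le, Pi.sub_apply]
    ring
  have hprob : ∀ p ∈ JJ m, ENNReal.ofReal ((qq ^ m * (2 * Real.exp (-4) / √(8 * Real.pi))) ^ d) ≤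
      P {ω | nearP a m (comb e u (pW X e ω)) p} := by
    intro p hp
    unfold JJ at hp
    rw [Finset.mem_product, Finset.mem_range, Finset.mem_range] at hp
    have hset' : {ω | nearP a m (comb e u (pW X e ω)) p} =
        {ω | ‖vinc X (gs m p.1) e (a * gs m p.2) ω - (fun c => - u (c, gs m p.1, e))‖ ≤ r} := by
      ext ω
      simp only [nearP, Set.mem_setOf_eq, hcomb]
      rfl
    rw [hset', h.ball_eq _ _ _ (het _).le hr0]
    set v : ℝ≥0 := gs m p.1 * (a * gs m p.2 - e) with hv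
    have h3 : (1 : ℝ) ≤ gs m p.1 := by exact_mod_cast gs_ge m p.1
    have h4 : (1 : ℝ) ≤ gs m p.2 := by exact_mod_cast gs_ge m p.2
    have h3' : ((gs m p.1 : ℝ≥0) : ℝ) ≤ 2 := by exact_mod_cast gs_le hp.1
    have h4' : ((gs m p.2 : ℝ≥0) : ℝ) ≤ 2 := by exact_mod_cast gs_le hp.2
    have hvr : (v : ℝ) = gs m p.1 * (a * gs m p.2 - e) := by
      rw [hv, NNReal.coe_mul, NNReal.coe_sub (het _).le, NNReal.coe_mul]
    have h5 : (a : ℝ) ≤ a * gs m p.2 := by nlinarith
    have hv2 : (a : ℝ) / 2 ≤ v := by rw [hvr]; nlinarith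
    have hv4 : (v : ℝ) ≤ 4 * a := by
      rw [hvr]
      have h6 : (a : ℝ) * gs m p.2 ≤ a * 2 := by gcongr
      have h7 : (0 : ℝ) ≤ e := e.2
      have h8 : (a : ℝ) * gs m p.2 - e ≤ 2 * a := by linarith
      have h9 : (0 : ℝ) ≤ a * gs m p.2 - e := by linarith
      nlinarith
    have hv0 : v ≠ 0 := by
      intro h0
      rw [h0] at hv2
      simp only [NNReal.coe_zero] at hv2
      linarith
    have hv0' : (0 : ℝ) < v := by linarith
    calc ENNReal.ofReal ((qq ^ m * (2 * Real.exp (-4) / √(8 * Real.pi))) ^ d)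
        = ∏ _c : ι, ENNReal.ofReal (qq ^ m * (2 * Real.exp (-4) / √(8 * Real.pi))) := by
          rw [Finset.prod_const, Finset.card_univ, ENNReal.ofReal_pow (by positivity)]
      _ ≤ _ := by
          refine Finset.prod_le_prod' fun c _ => ?_
          have hz : |(- u (c, gs m p.1, e))| + r ≤ 2 * √a := by
            have h6 := (pi_norm_le_iff_of_nonneg (Real.sqrt_nonneg _)).1 (hu p.1 hp.1) c
            rw [Real.norm_eq_abs] at h6
            rw [abs_neg]
            linarith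
          refine le_trans ?_ (gball_ge' hv0 hz)
          apply ENNReal.ofReal_le_ofReal
          have h10 : (2 * √(a : ℝ)) ^ 2 / (2 * v) ≤ 4 := by
            rw [mul_pow, Real.sq_sqrt ha'.le, div_le_iff₀ (by positivity)]
            linarith
          have h11 : √(2 * Real.pi * v) ≤ √(8 * Real.pi) * √a := by
            rw [← Real.sqrt_mul (by positivity)]
            apply Real.sqrt_le_sqrt
            nlinarith
          calc qq ^ m * (2 * Real.exp (-4) / √(8 * Real.pi))
              = 2 * r / (√(8 * Real.pi) * √a) * Real.exp (-4) := by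
                rw [hr]
                field_simp
            _ ≤ 2 * r / √(2 * Real.pi * v) * Real.exp (-((2 * √(a : ℝ)) ^ 2 / (2 * v))) := by
                gcongr
  have hexp : ∀ ω, ENNReal.ofReal (TT a m (comb e u (pW X e ω))) =
      ∑ p ∈ JJ m, ENNReal.ofReal (wgt d m) *
        ({ω | nearP a m (comb e u (pW X e ω)) p}.indicator (fun _ => (1 : ℝ≥0∞)) ω) := by
    intro ω
    unfold TT
    rw [ENNReal.ofReal_sum_of_nonneg (fun p _ => mul_nonneg (wgt_pos _ _).le (nr_nonneg _ _ _ _))]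
    refine Finset.sum_congr rfl fun p _ => ?_
    rw [ENNReal.ofReal_mul (wgt_pos _ _).le]
    congr 1
    unfold nr
    by_cases h1 : nearP a m (comb e u (pW X e ω)) p
    · simp [h1]
    · simp [h1]
  simp_rw [hexp]
  rw [lintegral_finset_sum _ fun p _ => (measurable_const.indicator (hset p)).const_mul _]
  calc ENNReal.ofReal ((2 * Real.exp (-4) / √(8 * Real.pi)) ^ d)
      = ∑ p ∈ JJ m, ENNReal.ofReal (wgt d m) *
        ENNReal.ofReal ((qq ^ m * (2 * Real.exp (-4) / √(8 * Real.pi))) ^ d) := by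
        rw [Finset.sum_const, nsmul_eq_mul, ← ENNReal.ofReal_mul (wgt_pos _ _).le,
          ← ENNReal.ofReal_natCast, ← ENNReal.ofReal_mul (by positivity)]
        congr 1
        unfold JJ wgt
        rw [Finset.card_product, Finset.card_range, mul_pow (qq ^ m)]
        push_cast
        have e1 : (4 : ℝ) ^ m = 2 ^ m * 2 ^ m := by rw [← mul_pow]; norm_num
        rw [e1]
        field_simp
    _ ≤ _ := by
        refine Finset.sum_le_sum fun p hp => ?_
        rw [lintegral_const_mul _ (measurable_const.indicator (hset p)),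
          lintegral_indicator_const (hset p), one_mul]
        gcongr
        exact hprob p hp

end Pool.Agent.Helper41
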