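import Mathlib
import Pool.Agent.Helper41.GridEnergy
import Pool.Agent.Helper41.CoverDim

open MeasureTheory ProbabilityTheory Filter Topology Metric
open scoped ENNReal NNReal

namespace Pool.Agent.Helper41

/-- Finite covers by balls of a compact set of zero Hausdorff measure. -/
lemma exists_ball_cover {X : Type*} [MetricSpace X] [MeasurableSpace X] [BorelSpace X]
    [Nonempty X] {Z : Set X} (hZ : IsCompact Z) {s : ℝ} (hs : 0 < s) (h0 : μH[s] Z = 0)
    {δ : ℝ} (hδ : 0 < δ) :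
    ∃ (F : Finset ℕ) (z : ℕ → X) (r : ℕ → ℝ), (∀ n, 0 < r n) ∧ Z ⊆ ⋃ n ∈ F, ball (z n) (r n) ∧
      ∑ n ∈ F, r n ^ s ≤ δ := by
  have hε : (0 : ℝ≥0∞) < ENNReal.ofReal (δ / 2) := by
    rw [ENNReal.ofReal_pos]
    positivity
  obtain ⟨t, ht1, ht2, ht3⟩ := exists_cover_of_hausdorff_zero h0 one_pos hε
  obtain ⟨ρ, hρ, hρsum⟩ := ENNReal.exists_pos_sum_of_countable' hε.ne' ℕ
  have hpt : ∀ n, ∃ z : X, (t n).Nonempty → z ∈ t n := by
    intro n
    by_cases hn : (t n).Nonempty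
    · exact ⟨hn.some, fun _ => hn.some_mem⟩
    · exact ⟨Classical.arbitrary X, fun h => absurd h hn⟩
  choose z hz using hpt
  have hDfin : ∀ n, ediam (t n) ≠ ∞ := fun n => ne_top_of_le_ne_top ENNReal.one_ne_top (ht2 n)
  have hrad : ∀ n, ∃ r : ℝ, (ediam (t n)).toReal < r ∧
      ENNReal.ofReal (r ^ s) ≤ ediam (t n) ^ s + ρ n := by
    intro n
    set D := (ediam (t n)).toReal with hD
    have hD0 : 0 ≤ D := ENNReal.toReal_nonneg
    have hcont : Tendsto (fun r : ℝ => ENNReal.ofReal (r ^ s)) (𝓝[>] D)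
        (𝓝 (ENNReal.ofReal (D ^ s))) := by
      have h1 : ContinuousAt (fun r : ℝ => r ^ s) D :=
        Real.continuousAt_rpow_const D s (Or.inr hs.le)
      exact ((ENNReal.continuous_ofReal.tendsto _).comp h1.tendsto).mono_left nhdsWithin_le_nhds
    have hDs : ENNReal.ofReal (D ^ s) = ediam (t n) ^ s := by
      rw [← ENNReal.ofReal_rpow_of_nonneg hD0 hs.le, hD, ENNReal.ofReal_toReal (hDfin n)]
    have hlt : ENNReal.ofReal (D ^ s) < ediam (t n) ^ s + ρ n := by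
      rw [hDs]
      refine ENNReal.lt_add_right ?_ (hρ n).ne'
      exact ENNReal.rpow_ne_top_of_nonneg hs.le (hDfin n)
    have h2 := (hcont.eventually (ge_mem_nhds hlt)).and self_mem_nhdsWithin
    obtain ⟨r, hr1, hr2⟩ := h2.exists
    exact ⟨r, hr2, hr1⟩
  choose r hr1 hr2 using hrad
  have hrpos : ∀ n, 0 < r n := fun n => lt_of_le_of_lt ENNReal.toReal_nonneg (hr1 n)
  have hsub : Z ⊆ ⋃ n, ball (z n) (r n) := by
    intro y hy
    obtain ⟨n, hn⟩ := Set.mem_iUnion.1 (ht1 hy)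
    refine Set.mem_iUnion.2 ⟨n, ?_⟩
    rw [mem_ball]
    have h1 : edist y (z n) ≤ ediam (t n) := Metric.edist_le_ediam_of_mem hn (hz n ⟨y, hn⟩)
    have h2 : dist y (z n) ≤ (ediam (t n)).toReal := by
      rw [edist_dist] at h1
      exact (ENNReal.ofReal_le_iff_le_toReal (hDfin n)).1 h1
    exact lt_of_le_of_lt h2 (hr1 n)
  obtain ⟨F, hF⟩ := hZ.elim_finite_subcover (fun n => ball (z n) (r n))
    (fun n => isOpen_ball) hsub
  refine ⟨F, z, r, hrpos, hF, ?_⟩
  have hsup : ∀ n, (⨆ _ : (t n).Nonempty, ediam (t n) ^ s) = ediam (t n) ^ s := by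
    intro n
    by_cases hn : (t n).Nonempty
    · rw [ciSup_pos hn]
    · rw [Set.not_nonempty_iff_eq_empty] at hn
      rw [hn]
      simp [ENNReal.zero_rpow_of_pos hs]
  have h1 : ENNReal.ofReal (∑ n ∈ F, r n ^ s) ≤ ENNReal.ofReal δ := by
    rw [ENNReal.ofReal_sum_of_nonneg (fun n _ => Real.rpow_nonneg (hrpos n).le s)]
    calc ∑ n ∈ F, ENNReal.ofReal (r n ^ s)
        ≤ ∑ n ∈ F, (ediam (t n) ^ s + ρ n) := Finset.sum_le_sum fun n _ => hr2 n
      _ ≤ ∑' n, (ediam (t n) ^ s + ρ n) := ENNReal.sum_le_tsum F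
      _ = ∑' n, (⨆ _ : (t n).Nonempty, ediam (t n) ^ s) + ∑' n, ρ n := by
          rw [ENNReal.tsum_add]
          simp_rw [hsup]
      _ ≤ ENNReal.ofReal (δ / 2) + ENNReal.ofReal (δ / 2) := by gcongr
      _ = _ := by rw [← ENNReal.ofReal_add (by positivity) (by positivity), add_halves]
  exact (ENNReal.ofReal_le_ofReal_iff hδ.le).1 h1

variable {ι : Type*} [Fintype ι]

/-- zeros in a box -/
def Zbox (a : ℝ≥0) (x : ι × ℝ≥0 × ℝ≥0 → ℝ) : Set (ℝ≥0 × ℝ≥0) :=
  {p | p ∈ Set.Icc (1 : ℝ≥0) 2 ×ˢ Set.Icc a (2 * a) ∧ ∀ c, x (c, p.1, p.2) = 0}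

/-- Infinitely many levels with large mass and bounded energy give a set of positive measure. -/
theorem hausdorff_ne_zero_of_energy {x : ι × ℝ≥0 × ℝ≥0 → ℝ}
    (hx : ∀ c, Continuous (fun p : ℝ≥0 × ℝ≥0 => x (c, p.1, p.2))) {a : ℝ≥0} (ha : 0 < a)
    {s : ℝ} (hs : 0 < s) {c₁ C' : ℝ} (hc₁ : 0 < c₁) (hC' : 0 < C')
    (hinf : ∀ M, ∃ m, M ≤ m ∧ c₁ < TT a m x ∧ EN s a m x ≤ C') :
    μH[s] (Zbox a x) ≠ 0 := by
  classical
  intro h0
  have ha' : (0 : ℝ) < a := ha
  have hf : Continuous (fun p : ℝ≥0 × ℝ≥0 => ‖fun c => x (c, p.1, p.2)‖) :=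
    (continuous_pi fun c => hx c).norm
  have hbox : IsCompact (Set.Icc (1 : ℝ≥0) 2 ×ˢ Set.Icc a (2 * a)) := isCompact_Icc.prod isCompact_Icc
  have hZeq : Zbox a x = (Set.Icc (1 : ℝ≥0) 2 ×ˢ Set.Icc a (2 * a)) ∩
      (fun p : ℝ≥0 × ℝ≥0 => ‖fun c => x (c, p.1, p.2)‖) ⁻¹' {0} := by
    ext p
    simp only [Zbox, Set.mem_setOf_eq, Set.mem_inter_iff, Set.mem_preimage, Set.mem_singleton_iff,
      norm_eq_zero]
    exact and_congr_right fun _ => ⟨fun h => funext h, fun h c => congrFun h c⟩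
  have hZc : IsCompact (Zbox a x) := by
    rw [hZeq]
    exact hbox.inter_right (isClosed_singleton.preimage hf)
  set Ca : ℝ := 3 + 2 / a with hCa
  have hCa0 : 0 < Ca := by positivity
  have hCs : 0 < Ca ^ s := Real.rpow_pos_of_pos hCa0 s
  set δ : ℝ := c₁ ^ 2 / (2 * (Ca ^ s * C')) with hδ
  have hδ0 : 0 < δ := by positivity
  obtain ⟨F, z, r, hr, hcov, hsum⟩ := exists_ball_cover hZc hs h0 hδ0
  set O : Set (ℝ≥0 × ℝ≥0) := ⋃ n ∈ F, ball (z n) (r n) with hO
  have hOo : IsOpen O := isOpen_biUnion fun n _ => isOpen_ball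
  -- small values only near the zeros
  have hη : ∃ η > 0, ∀ p ∈ Set.Icc (1 : ℝ≥0) 2 ×ˢ Set.Icc a (2 * a),
      ‖fun c => x (c, p.1, p.2)‖ ≤ η → p ∈ O := by
    set K := (Set.Icc (1 : ℝ≥0) 2 ×ˢ Set.Icc a (2 * a)) \ O with hK
    have hKc : IsCompact K := hbox.diff hOo
    rcases K.eq_empty_or_nonempty with hKe | hKn
    · refine ⟨1, one_pos, fun p hp _ => ?_⟩
      by_contra hcon
      have : p ∈ K := ⟨hp, hcon⟩
      rw [hKe] at this
      exact this
    · obtain ⟨p₀, hp₀, hmin⟩ := hKc.exists_isMinOn hKn hf.continuousOn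
      have hpos : 0 < ‖fun c => x (c, p₀.1, p₀.2)‖ := by
        rw [norm_pos_iff]
        intro h1
        exact hp₀.2 (hcov ⟨hp₀.1, fun c => congrFun h1 c⟩)
      refine ⟨‖fun c => x (c, p₀.1, p₀.2)‖ / 2, by positivity, fun p hp hle => ?_⟩
      by_contra hcon
      have h1 : ‖fun c => x (c, p₀.1, p₀.2)‖ ≤ ‖fun c => x (c, p.1, p.2)‖ := hmin ⟨hp, hcon⟩
      linarith
  obtain ⟨η, hη0, hηO⟩ := hη
  -- choice of the level
  have hev1 : ∀ᶠ m : ℕ in atTop, qq ^ m * √a ≤ η := by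
    have h1 : Tendsto (fun m : ℕ => qq ^ m * √(a : ℝ)) atTop (𝓝 (0 * √(a : ℝ))) :=
      (tendsto_pow_atTop_nhds_zero_of_lt_one qq_pos.le (by
        have := qq_lt
        linarith)).mul_const _
    rw [zero_mul] at h1
    exact h1.eventually (ge_mem_nhds hη0)
  have hev2 : ∀ᶠ m : ℕ in atTop, ∀ n ∈ F, (1 : ℝ) / 2 ^ m ≤ r n := by
    rw [Finset.eventually_all]
    intro n _
    have h1 : Tendsto (fun m : ℕ => (1 / 2 : ℝ) ^ m) atTop (𝓝 0) :=
      tendsto_pow_atTop_nhds_zero_of_lt_one (by norm_num) (by norm_num)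
    filter_upwards [h1.eventually (ge_mem_nhds (hr n))] with m hm
    rwa [div_pow, one_pow] at hm
  obtain ⟨M, hM⟩ := eventually_atTop.1 (hev1.and hev2)
  obtain ⟨m, hMm, hT, hI⟩ := hinf M
  obtain ⟨hm1, hm2⟩ := hM m hMm
  have h2m : (0 : ℝ) < 2 ^ m := by positivity
  set w := wgt (Fintype.card ι) m with hw
  have hw0 : 0 < w := wgt_pos _ _
  set S := (JJ m).filter (fun p => nearP a m x p) with hS
  set g : ℕ × ℕ → ℝ≥0 × ℝ≥0 := fun p => (gs m p.1, a * gs m p.2) with hg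
  have hgO : ∀ p ∈ S, g p ∈ O := by
    intro p hp
    rw [hS, Finset.mem_filter] at hp
    have hp1 := hp.1
    unfold JJ at hp1
    rw [Finset.mem_product, Finset.mem_range, Finset.mem_range] at hp1
    apply hηO
    · refine ⟨⟨gs_ge _ _, gs_le hp1.1⟩, ⟨le_mul_of_one_le_right zero_le (gs_ge _ _), ?_⟩⟩
      show a * gs m p.2 ≤ 2 * a
      rw [mul_comm a]
      exact mul_le_mul_left (gs_le hp1.2) a
    · exact le_trans hp.2 hm1
  have hassign : ∀ p : ℕ × ℕ, ∃ n, p ∈ S → n ∈ F ∧ g p ∈ ball (z n) (r n) := by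
    intro p
    by_cases hp : p ∈ S
    · have := hgO p hp
      rw [hO] at this
      simp only [Set.mem_iUnion, exists_prop] at this
      obtain ⟨n, hn, hgn⟩ := this
      exact ⟨n, fun _ => ⟨hn, hgn⟩⟩
    · exact ⟨0, fun h => absurd h hp⟩
  choose N hN using hassign
  have hTS : TT a m x = ∑ _p ∈ S, w := by
    unfold TT
    rw [hS, Finset.sum_filter]
    refine Finset.sum_congr rfl fun p _ => ?_
    unfold nr
    split_ifs <;> simp [hw]
  set ν : ℕ → ℝ := fun n => ∑ _p ∈ S.filter (fun p => N p = n), w with hν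
  have hTν : TT a m x = ∑ n ∈ F, ν n := by
    rw [hTS, hν]
    exact (Finset.sum_fiberwise_of_maps_to (fun p hp => (hN p hp).1) _).symm
  set I : ℕ → ℝ := fun n => ∑ p ∈ S.filter (fun p => N p = n), ∑ q ∈ S.filter (fun q => N q = n),
    w ^ 2 * kap s m p q with hIdef
  have hEN : ∑ n ∈ F, I n ≤ EN s a m x := by
    have h1 : EN s a m x = ∑ p ∈ S, ∑ q ∈ S, w ^ 2 * kap s m p q := by
      unfold EN
      rw [hS, Finset.sum_filter]
      refine Finset.sum_congr rfl fun p _ => ?_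
      by_cases hp : nearP a m x p
      · rw [if_pos hp, Finset.sum_filter]
        refine Finset.sum_congr rfl fun q _ => ?_
        unfold nr
        rw [if_pos hp]
        split_ifs <;> simp [hw]
      · rw [if_neg hp]
        refine Finset.sum_eq_zero fun q _ => ?_
        unfold nr
        rw [if_neg hp]
        simp
    rw [h1, ← Finset.sum_fiberwise_of_maps_to (fun p hp => (hN p hp).1)
      (fun p => ∑ q ∈ S, w ^ 2 * kap s m p q)]
    refine Finset.sum_le_sum fun n _ => ?_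
    refine Finset.sum_le_sum fun p _ => ?_
    refine Finset.sum_le_sum_of_subset_of_nonneg (Finset.filter_subset _ _) ?_
    intro q _ _
    exact mul_nonneg (sq_nonneg _) (kap_nonneg _ _ _ _)
  have hkey : ∀ n ∈ F, ν n ^ 2 / (Ca * r n) ^ s ≤ I n := by
    intro n hn
    have hrn := hr n
    have hpos : 0 < (Ca * r n) ^ s := Real.rpow_pos_of_pos (by positivity) s
    rw [div_le_iff₀ hpos, hν, hIdef]
    simp only
    rw [sq, Finset.sum_mul_sum, Finset.sum_mul]
    refine Finset.sum_le_sum fun p hp => ?_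
    rw [Finset.sum_mul]
    refine Finset.sum_le_sum fun q hq => ?_
    rw [Finset.mem_filter] at hp hq
    have hgp := (hN p hp.1).2
    have hgq := (hN q hq.1).2
    rw [hp.2, mem_ball] at hgp
    rw [hq.2, mem_ball] at hgq
    have hdist : dist (g p) (g q) < 2 * r n := by
      calc dist (g p) (g q) ≤ dist (g p) (z n) + dist (g q) (z n) := dist_triangle_right _ _ _
        _ < _ := by linarith
    rw [Prod.dist_eq, max_lt_iff] at hdist
    have e1 : dist (g p).1 (g q).1 = (((p.1 - q.1) + (q.1 - p.1) : ℕ) : ℝ) / 2 ^ m := by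
      rw [NNReal.dist_eq]
      have : (((g p).1 : ℝ≥0) : ℝ) - (g q).1 = ((p.1 : ℝ) - q.1) / 2 ^ m := by
        simp only [hg]
        unfold gs
        push_cast
        ring
      rw [this, abs_div, abs_of_pos h2m, nat_dist_cast]
    have e2 : dist (g p).2 (g q).2 = a * ((((p.2 - q.2) + (q.2 - p.2) : ℕ) : ℝ) / 2 ^ m) := by
      rw [NNReal.dist_eq]
      have : (((g p).2 : ℝ≥0) : ℝ) - (g q).2 = a * (((p.2 : ℝ) - q.2) / 2 ^ m) := by
        simp only [hg]
        unfold gs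
        push_cast
        ring
      rw [this, abs_mul, abs_of_pos ha', abs_div, abs_of_pos h2m, nat_dist_cast]
    rw [e1, e2] at hdist
    have h3 : ((((p.2 - q.2) + (q.2 - p.2) : ℕ) : ℝ) / 2 ^ m) ≤ 2 * r n / a := by
      rw [le_div_iff₀ ha', mul_comm]
      exact hdist.2.le
    have h4 : ((zd p q : ℝ) + 1) / 2 ^ m ≤ Ca * r n := by
      have e3 : ((zd p q : ℝ) + 1) / 2 ^ m = (((p.1 - q.1) + (q.1 - p.1) : ℕ) : ℝ) / 2 ^ m +
          (((p.2 - q.2) + (q.2 - p.2) : ℕ) : ℝ) / 2 ^ m + 1 / 2 ^ m := by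
        unfold zd
        push_cast
        ring
      rw [e3]
      have h5 := hm2 n hn
      have e4 : Ca * r n = 2 * r n + 2 * r n / a + r n := by
        rw [hCa]
        ring
      rw [e4]
      linarith [hdist.1]
    have h6 : 1 ≤ kap s m p q * (Ca * r n) ^ s := by
      unfold kap
      have hb0 : 0 < ((zd p q : ℝ) + 1) / 2 ^ m := by positivity
      rw [Real.rpow_neg hb0.le]
      rw [inv_mul_eq_div, le_div_iff₀ (Real.rpow_pos_of_pos hb0 s), one_mul]
      exact Real.rpow_le_rpow hb0.le h4 hs.le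
    calc w * w = w ^ 2 * 1 := by ring
      _ ≤ w ^ 2 * (kap s m p q * (Ca * r n) ^ s) := by gcongr
      _ = _ := by ring
  have hfin : TT a m x ^ 2 ≤ C' * ∑ n ∈ F, (Ca * r n) ^ s := by
    rcases F.eq_empty_or_nonempty with hFe | hFn
    · rw [hTν, hFe]
      simp
    · have hsumpos : 0 < ∑ n ∈ F, (Ca * r n) ^ s :=
        Finset.sum_pos (fun n _ => Real.rpow_pos_of_pos (mul_pos hCa0 (hr n)) s) hFn
      have h1 := Finset.sq_sum_div_le_sum_sq_div F ν (g := fun n => (Ca * r n) ^ s)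
        (fun n _ => Real.rpow_pos_of_pos (mul_pos hCa0 (hr n)) s)
      rw [div_le_iff₀ hsumpos, ← hTν] at h1
      refine h1.trans ?_
      gcongr
      exact (Finset.sum_le_sum hkey).trans (hEN.trans hI)
  have hlast : C' * ∑ n ∈ F, (Ca * r n) ^ s ≤ c₁ ^ 2 / 2 := by
    have h1 : ∑ n ∈ F, (Ca * r n) ^ s = Ca ^ s * ∑ n ∈ F, r n ^ s := by
      rw [Finset.mul_sum]
      exact Finset.sum_congr rfl fun n _ => Real.mul_rpow hCa0.le (hr n).le
    rw [h1]
    calc C' * (Ca ^ s * ∑ n ∈ F, r n ^ s) ≤ C' * (Ca ^ s * δ) := by gcongr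
      _ = _ := by
          rw [hδ]
          field_simp
  have h5 : c₁ ^ 2 < TT a m x ^ 2 := by gcongr
  have h6 : 0 < c₁ ^ 2 := by positivity
  linarith

end Pool.Agent.Helper41
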