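import Mathlib
import Pool.Agent.Helper41.GridDim
import Pool.Agent.Helper41.LineCover

open MeasureTheory ProbabilityTheory Filter Topology Metric
open scoped ENNReal NNReal

namespace Pool.Agent.Helper41

variable {Ω : Type*} [MeasurableSpace Ω] {P : Measure Ω} [IsProbabilityMeasure P]
variable {ι : Type*} [DecidableEq ι] [Fintype ι] {X : ι × ℝ≥0 × ℝ≥0 → Ω → ℝ}

/-- Uniform positive probability of large mass and bounded energy, given the past. -/
lemma good_prob (h : IsSheet X P) (hd : 1 ≤ Fintype.card ι) {s : ℝ} (hs : 0 ≤ s)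
    (hα : s + (Fintype.card ι : ℝ) / 2 < 2) :
    ∃ c₁ C' κ : ℝ, 0 < c₁ ∧ 0 < C' ∧ 0 < κ ∧ ∀ (a e : ℝ≥0), 0 < a → 2 * e ≤ a → ∀ (m : ℕ)
      (u : ι × ℝ≥0 × ℝ≥0 → ℝ), (∀ i < 2 ^ m, ‖fun c => u (c, gs m i, e)‖ ≤ √a) →
      ENNReal.ofReal κ ≤ P {ω | c₁ < TT a m (comb e u (pW X e ω)) ∧
        EN s a m (comb e u (pW X e ω)) ≤ C'} := by
  set d := Fintype.card ι with hdef
  have hpi := Real.pi_pos
  set c₀ : ℝ := (2 * Real.exp (-4) / √(8 * Real.pi)) ^ d with hc₀
  have hc₀pos : 0 < c₀ := by positivity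
  set C₀ : ℝ := (8 : ℝ) ^ ((d : ℝ) / 2) * (4 / (1 - (0 + (d : ℝ) / 2) / 2) ^ 2) with hC₀
  set Cs : ℝ := (8 : ℝ) ^ ((d : ℝ) / 2) * (4 / (1 - (s + (d : ℝ) / 2) / 2) ^ 2) with hCs
  have hC₀pos : 0 < C₀ := by
    have h1 : 0 < 1 - (0 + (d : ℝ) / 2) / 2 := by linarith
    positivity
  have hCspos : 0 < Cs := by
    have h1 : 0 < 1 - (s + (d : ℝ) / 2) / 2 := by linarith
    positivity
  set κ : ℝ := c₀ ^ 2 / (4 * C₀) / 2 with hκ
  have hκpos : 0 < κ := by positivity
  refine ⟨c₀ / 2, Cs / κ, κ, by positivity, by positivity, hκpos, ?_⟩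
  intro a e ha he m u hu
  have hcm : Measurable (fun ω => comb e u (pW X e ω)) :=
    (measurable_comb e).comp (measurable_const.prodMk (h.meas_pW e))
  have hTm : Measurable (fun ω => TT a m (comb e u (pW X e ω))) := (measurable_TT a m).comp hcm
  have hEm : Measurable (fun ω => EN s a m (comb e u (pW X e ω))) := (measurable_EN s a m).comp hcm
  have h1 := mass_ge h ha he m hu
  have h2 := energy_le h hd (s := 0) le_rfl (by linarith) ha he m u
  have h3 := energy_le h hd hs hα ha he m u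
  have h4 : ∫⁻ ω, ENNReal.ofReal (TT a m (comb e u (pW X e ω))) ^ 2 ∂P ≤ ENNReal.ofReal C₀ := by
    refine le_trans (le_of_eq ?_) h2
    refine lintegral_congr fun ω => ?_
    rw [EN_zero, ENNReal.ofReal_pow (TT_nonneg _ _ _)]
  have h5 := paley_zygmund hTm.ennreal_ofReal hc₀pos hC₀pos h1 h4
  have h6 : P {ω | Cs / κ < EN s a m (comb e u (pW X e ω))} ≤ ENNReal.ofReal κ := by
    have h7 : P {ω | Cs / κ < EN s a m (comb e u (pW X e ω))} ≤
        P {ω | ENNReal.ofReal (Cs / κ) ≤ ENNReal.ofReal (EN s a m (comb e u (pW X e ω)))} := by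
      refine measure_mono fun ω hω => ?_
      exact ENNReal.ofReal_le_ofReal (le_of_lt hω)
    refine h7.trans ?_
    refine (meas_ge_le_lintegral_div hEm.ennreal_ofReal.aemeasurable ?_
      ENNReal.ofReal_ne_top).trans ?_
    · rw [Ne, ENNReal.ofReal_eq_zero, not_le]
      positivity
    · refine (ENNReal.div_le_div_right h3 _).trans ?_
      rw [← ENNReal.ofReal_div_of_pos (by positivity)]
      apply ENNReal.ofReal_le_ofReal
      have : Cs / (Cs / κ) = κ := by field_simp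
      exact this.le
  have h8 : {ω | ENNReal.ofReal (c₀ / 2) < ENNReal.ofReal (TT a m (comb e u (pW X e ω)))} ⊆
      {ω | c₀ / 2 < TT a m (comb e u (pW X e ω)) ∧ EN s a m (comb e u (pW X e ω)) ≤ Cs / κ} ∪
        {ω | Cs / κ < EN s a m (comb e u (pW X e ω))} := by
    intro ω hω
    have h9 : c₀ / 2 < TT a m (comb e u (pW X e ω)) := by
      by_contra hcon
      exact absurd hω (not_lt.2 (ENNReal.ofReal_le_ofReal (not_lt.1 hcon)))
    by_cases h10 : EN s a m (comb e u (pW X e ω)) ≤ Cs / κ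
    · exact Or.inl ⟨h9, h10⟩
    · exact Or.inr (not_le.1 h10)
  have h11 : ENNReal.ofReal κ + ENNReal.ofReal κ ≤
      P {ω | c₀ / 2 < TT a m (comb e u (pW X e ω)) ∧ EN s a m (comb e u (pW X e ω)) ≤ Cs / κ} +
        ENNReal.ofReal κ := by
    calc ENNReal.ofReal κ + ENNReal.ofReal κ = ENNReal.ofReal (c₀ ^ 2 / (4 * C₀)) := by
          rw [← ENNReal.ofReal_add hκpos.le hκpos.le]
          congr 1
          rw [hκ]
          ring
      _ ≤ _ := h5
      _ ≤ _ := measure_mono h8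
      _ ≤ _ := measure_union_le _ _
      _ ≤ _ := by gcongr
  exact (ENNReal.add_le_add_iff_right ENNReal.ofReal_ne_top).1 h11

/-- paths with large mass and bounded energy at infinitely many levels -/
def pathLim (s c₁ C' : ℝ) (a : ℝ≥0) : Set (ι × ℝ≥0 × ℝ≥0 → ℝ) :=
  {x | ∀ M, ∃ m, M ≤ m ∧ x ∈ {x | c₁ < TT a m x ∧ EN s a m x ≤ C'}}

lemma measurableSet_level (s c₁ C' : ℝ) (a : ℝ≥0) (m : ℕ) :
    MeasurableSet {x : ι × ℝ≥0 × ℝ≥0 → ℝ | c₁ < TT a m x ∧ EN s a m x ≤ C'} :=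
  (measurableSet_lt measurable_const (measurable_TT a m)).inter
    (measurableSet_le (measurable_EN s a m) measurable_const)

lemma measurableSet_pathLim (s c₁ C' : ℝ) (a : ℝ≥0) :
    MeasurableSet (pathLim (ι := ι) s c₁ C' a) := by
  have e : pathLim (ι := ι) s c₁ C' a = ⋂ M : ℕ, ⋃ m : ℕ, ⋃ _ : M ≤ m,
      {x | c₁ < TT a m x ∧ EN s a m x ≤ C'} := by
    ext x
    simp only [pathLim, Set.mem_setOf_eq, Set.mem_iInter, Set.mem_iUnion, exists_prop]
  rw [e]
  exact MeasurableSet.iInter fun M => MeasurableSet.iUnion fun m => MeasurableSet.iUnion fun _ =>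
    measurableSet_level s c₁ C' a m

lemma pathLim_congr {s c₁ C' : ℝ} {a : ℝ≥0} {x y : ι × ℝ≥0 × ℝ≥0 → ℝ}
    (hxy : ∀ c s' t, a ≤ t → t ≤ 2 * a → x (c, s', t) = y (c, s', t)) :
    x ∈ pathLim s c₁ C' a ↔ y ∈ pathLim s c₁ C' a := by
  classical
  have hnr : ∀ m, ∀ p ∈ JJ m, nr a m x p = nr a m y p := by
    intro m p hp
    unfold JJ at hp
    rw [Finset.mem_product, Finset.mem_range, Finset.mem_range] at hp
    have h1 : a ≤ a * gs m p.2 := le_mul_of_one_le_right zero_le (gs_ge _ _)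
    have h2 : a * gs m p.2 ≤ 2 * a := by
      rw [mul_comm a]
      exact mul_le_mul_left (gs_le hp.2) a
    have h3 : (fun c => x (c, gs m p.1, a * gs m p.2)) = fun c => y (c, gs m p.1, a * gs m p.2) := by
      funext c
      exact hxy c _ _ h1 h2
    unfold nr nearP
    rw [h3]
  have hT : ∀ m, TT a m x = TT a m y := by
    intro m
    unfold TT
    exact Finset.sum_congr rfl fun p hp => by rw [hnr m p hp]
  have hE : ∀ m, EN s a m x = EN s a m y := by
    intro m
    unfold EN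
    exact Finset.sum_congr rfl fun p hp => Finset.sum_congr rfl fun q hq => by
      rw [hnr m p hp, hnr m q hq]
  unfold pathLim
  simp only [Set.mem_setOf_eq, hT, hE]

/-- the stopped sheet -/
def pS (X : ι × ℝ≥0 × ℝ≥0 → Ω → ℝ) (e : ℝ≥0) (ω : Ω) (q : ι × ℝ≥0 × ℝ≥0) : ℝ :=
  X (q.1, q.2.1, min q.2.2 e) ω

lemma IsSheet.meas_pS (h : IsSheet X P) (e : ℝ≥0) : Measurable (pS X e) :=
  measurable_pi_lambda _ fun q => h.meas _

/-- the event that the slice at time `e` is large -/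
def badE (X : ι × ℝ≥0 × ℝ≥0 → Ω → ℝ) (e a : ℝ≥0) : Set Ω :=
  {ω | ∃ m : ℕ, ∃ i : ℕ, i < 2 ^ m ∧ √(a : ℝ) < ‖fun c => X (c, gs m i, e) ω‖}

/-- good pasts -/
def goodU (e a : ℝ≥0) : Set (ι × ℝ≥0 × ℝ≥0 → ℝ) :=
  {u | ∀ m : ℕ, ∀ i : ℕ, i < 2 ^ m → ‖fun c => u (c, gs m i, e)‖ ≤ √(a : ℝ)}

lemma measurableSet_goodU (e a : ℝ≥0) : MeasurableSet (goodU (ι := ι) e a) := by
  have : goodU (ι := ι) e a = ⋂ m : ℕ, ⋂ i : ℕ, ⋂ _ : i < 2 ^ m,
      {u | ‖fun c => u (c, gs m i, e)‖ ≤ √(a : ℝ)} := by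
    ext u
    simp [goodU]
  rw [this]
  exact MeasurableSet.iInter fun m => MeasurableSet.iInter fun i => MeasurableSet.iInter fun _ =>
    measurableSet_le (measurable_pi_lambda _ fun _ => measurable_pi_apply _).norm measurable_const

/-- One step of the chain over scales. -/
lemma chain_step (h : IsSheet X P) {s c₁ C' κ : ℝ}
    (hgood : ∀ (a e : ℝ≥0), 0 < a → 2 * e ≤ a → ∀ (m : ℕ)
      (u : ι × ℝ≥0 × ℝ≥0 → ℝ), (∀ i < 2 ^ m, ‖fun c => u (c, gs m i, e)‖ ≤ √a) →
      ENNReal.ofReal κ ≤ P {ω | c₁ < TT a m (comb e u (pW X e ω)) ∧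
        EN s a m (comb e u (pW X e ω)) ≤ C'})
    {a e : ℝ≥0} (ha : 0 < a) (he : 2 * e ≤ a) {𝒜 : Set (ι × ℝ≥0 × ℝ≥0 → ℝ)}
    (h𝒜 : MeasurableSet 𝒜) :
    P {ω | pS X e ω ∈ 𝒜 ∧ (fun q => X q ω) ∉ pathLim s c₁ C' a} ≤
      P {ω | pS X e ω ∈ 𝒜} * (1 - ENNReal.ofReal κ) + P (badE X e a) := by
  set B : Set ((ι × ℝ≥0 × ℝ≥0 → ℝ) × (ι × ℝ≥0 × ℝ≥0 → ℝ)) :=
    {w | w.1 ∈ goodU e a ∧ comb e w.1 w.2 ∉ pathLim s c₁ C' a} with hB
  have hBm : MeasurableSet B := by
    refine MeasurableSet.inter (measurable_fst (measurableSet_goodU e a)) ?_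
    exact ((measurable_comb e) (measurableSet_pathLim s c₁ C' a)).compl
  have hea : e ≤ a := by
    refine le_trans ?_ he
    rw [two_mul]
    exact le_self_add
  have key := measure_inter_le_of_indep (P := P) (h.meas_pS e) (h.meas_pW e) (h.indep_past e) h𝒜 hBm
    (c := 1 - ENNReal.ofReal κ) (by
      intro u
      by_cases hu : u ∈ goodU e a
      swap
      · have : {ω | (u, pW X e ω) ∈ B} = ∅ := by
          ext ω
          simp only [hB, Set.mem_setOf_eq, Set.mem_empty_iff_false, iff_false, not_and]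
          exact fun h' => absurd h' hu
        rw [this, measure_empty]
        exact bot_le
      have hcm : Measurable (fun ω => comb e u (pW X e ω)) :=
        (measurable_comb e).comp (measurable_const.prodMk (h.meas_pW e))
      have h1 := limsup_ge (P := P)
        (G := fun m => {ω | comb e u (pW X e ω) ∈ {x | c₁ < TT a m x ∧ EN s a m x ≤ C'}})
        (c := ENNReal.ofReal κ)
        (fun m => (hcm (measurableSet_level s c₁ C' a m)).nullMeasurableSet)
        (fun m => hgood a e ha he m u (hu m))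
      have hset : {ω | (u, pW X e ω) ∈ B} =
          {ω | comb e u (pW X e ω) ∈ pathLim s c₁ C' a}ᶜ := by
        ext ω
        simp only [hB, Set.mem_setOf_eq, Set.mem_compl_iff]
        exact ⟨fun h' => h'.2, fun h' => ⟨hu, h'⟩⟩
      have hmS : MeasurableSet {ω | comb e u (pW X e ω) ∈ pathLim s c₁ C' a} :=
        hcm (measurableSet_pathLim s c₁ C' a)
      rw [hset, prob_compl_eq_one_sub hmS]
      exact tsub_le_tsub_left h1 _)
  have hcov : {ω | pS X e ω ∈ 𝒜 ∧ (fun q => X q ω) ∉ pathLim s c₁ C' a} ⊆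
      {ω | pS X e ω ∈ 𝒜 ∧ (pS X e ω, pW X e ω) ∈ B} ∪ badE X e a := by
    rintro ω ⟨h1, h2⟩
    by_cases hb : ω ∈ badE X e a
    · exact Or.inr hb
    · refine Or.inl ⟨h1, ?_, ?_⟩
      · intro m i hi
        simp only [badE, Set.mem_setOf_eq, not_exists, not_and, not_lt] at hb
        have := hb m i hi
        simp only [pS, min_self]
        exact this
      · intro hcon
        apply h2
        refine (pathLim_congr ?_).1 hcon
        intro c s' t ht _
        simp only [comb, pS, pW, min_self, max_eq_left (hea.trans ht)]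
        ring
  calc _ ≤ P ({ω | pS X e ω ∈ 𝒜 ∧ (pS X e ω, pW X e ω) ∈ B} ∪ badE X e a) := measure_mono hcov
    _ ≤ P {ω | pS X e ω ∈ 𝒜 ∧ (pS X e ω, pW X e ω) ∈ B} + P (badE X e a) := measure_union_le _ _
    _ ≤ _ := by gcongr

lemma badE_antitone (X : ι × ℝ≥0 × ℝ≥0 → Ω → ℝ) (e : ℝ≥0) :
    Antitone (fun n : ℕ => badE X e (n : ℝ≥0)) := by
  intro n n' hn ω
  rintro ⟨m, i, hi, hlt⟩
  refine ⟨m, i, hi, lt_of_le_of_lt ?_ hlt⟩
  apply Real.sqrt_le_sqrt
  exact_mod_cast hn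

lemma measurableSet_badE (h : IsSheet X P) (e a : ℝ≥0) : MeasurableSet (badE X e a) := by
  have : badE X e a = ⋃ m : ℕ, ⋃ i : ℕ, ⋃ _ : i < 2 ^ m,
      {ω | √(a : ℝ) < ‖fun c => X (c, gs m i, e) ω‖} := by
    ext ω
    simp [badE]
  rw [this]
  exact MeasurableSet.iUnion fun m => MeasurableSet.iUnion fun i => MeasurableSet.iUnion fun _ =>
    measurableSet_lt measurable_const (measurable_pi_lambda _ fun _ => h.meas _).norm

/-- The next scale can be chosen so that the slice at the previous time is small in comparison. -/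
lemma exists_next_scale (h : IsSheet X P)
    (hcont : ∀ᵐ ω ∂P, ∀ c, Continuous (fun p : ℝ≥0 × ℝ≥0 => X (c, p.1, p.2) ω))
    (e : ℝ≥0) {η : ℝ≥0∞} (hη : 0 < η) :
    ∃ a : ℝ≥0, 0 < a ∧ 2 * e ≤ a ∧ P (badE X e a) ≤ η := by
  have hlim := tendsto_measure_iInter_atTop (μ := P) (s := fun n : ℕ => badE X e (n : ℝ≥0))
    (fun n => (measurableSet_badE h e n).nullMeasurableSet) (badE_antitone X e)
    ⟨0, measure_ne_top _ _⟩
  have hzero : P (⋂ n : ℕ, badE X e (n : ℝ≥0)) = 0 := by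
    refine measure_mono_null ?_ hcont
    intro ω hω hcon
    have hf : Continuous (fun s : ℝ≥0 => ‖fun c => X (c, s, e) ω‖) := by
      refine (continuous_pi fun c => ?_).norm
      exact (hcon c).comp (continuous_id.prodMk continuous_const)
    obtain ⟨B, hB⟩ := (isCompact_Icc (a := (1 : ℝ≥0)) (b := 2)).bddAbove_image hf.continuousOn
    obtain ⟨n, hn⟩ := exists_nat_ge (B ^ 2)
    obtain ⟨m, i, hi, hlt⟩ := Set.mem_iInter.1 hω n
    have h1 : ‖fun c => X (c, gs m i, e) ω‖ ≤ B :=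
      hB (Set.mem_image_of_mem _ ⟨gs_ge m i, gs_le hi⟩)
    have h2 : B ≤ √((n : ℝ≥0) : ℝ) := by
      apply Real.le_sqrt_of_sq_le
      exact_mod_cast hn
    exact absurd hlt (not_lt.2 (h1.trans h2))
  rw [hzero] at hlim
  have hev := (hlim.eventually (ge_mem_nhds hη)).and (eventually_ge_atTop (⌈2 * e⌉₊ + 1))
  obtain ⟨n, hn1, hn2⟩ := hev.exists
  refine ⟨n, ?_, ?_, hn1⟩
  · have : 0 < n := by omega
    exact_mod_cast this
  · have h1 : 2 * e ≤ (⌈2 * e⌉₊ : ℝ≥0) := Nat.le_ceil _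
    refine h1.trans ?_
    exact_mod_cast (by omega : ⌈2 * e⌉₊ ≤ n)

/-- Almost surely some scale has large mass and bounded energy infinitely often. -/
theorem ae_exists_pathLim (h : IsSheet X P)
    (hcont : ∀ᵐ ω ∂P, ∀ c, Continuous (fun p : ℝ≥0 × ℝ≥0 => X (c, p.1, p.2) ω))
    {s c₁ C' κ : ℝ} (hκ : 0 < κ)
    (hgood : ∀ (a e : ℝ≥0), 0 < a → 2 * e ≤ a → ∀ (m : ℕ)
      (u : ι × ℝ≥0 × ℝ≥0 → ℝ), (∀ i < 2 ^ m, ‖fun c => u (c, gs m i, e)‖ ≤ √a) →
      ENNReal.ofReal κ ≤ P {ω | c₁ < TT a m (comb e u (pW X e ω)) ∧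
        EN s a m (comb e u (pW X e ω)) ≤ C'}) :
    ∀ᵐ ω ∂P, ∃ a : ℝ≥0, 0 < a ∧ (fun q => X q ω) ∈ pathLim s c₁ C' a := by
  have hmain : ∀ η : ℝ≥0∞, 0 < η →
      P {ω | ¬ ∃ a : ℝ≥0, 0 < a ∧ (fun q => X q ω) ∈ pathLim s c₁ C' a} ≤ η := by
    intro η hη
    obtain ⟨δ, hδ, hδsum⟩ := ENNReal.exists_pos_sum_of_countable' hη.ne' ℕ
    choose nxt hnxt1 hnxt2 hnxt3 using fun (e : ℝ≥0) (k : ℕ) =>
      exists_next_scale h hcont e (hδ k)
    let a : ℕ → ℝ≥0 := fun k => Nat.rec (nxt 0 0) (fun k b => nxt (2 * b) (k + 1)) k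
    let e : ℕ → ℝ≥0 := fun k => match k with
      | 0 => 0
      | k + 1 => 2 * a k
    have hae : ∀ k, a k = nxt (e k) k := by
      intro k
      cases k with
      | zero => rfl
      | succ k => rfl
    have hapos : ∀ k, 0 < a k := fun k => by rw [hae]; exact hnxt1 _ _
    have he2 : ∀ k, 2 * e k ≤ a k := fun k => by rw [hae]; exact hnxt2 _ _
    have hbad : ∀ k, P (badE X (e k) (a k)) ≤ δ k := fun k => by rw [hae]; exact hnxt3 _ _
    have hmono : ∀ k, 2 * a k ≤ e (k + 1) := fun k => le_rfl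
    have heinc : ∀ k, e k ≤ e (k + 1) := by
      intro k
      have h1 : e k ≤ 2 * e k := by
        rw [two_mul]
        exact le_self_add
      have h2 : a k ≤ 2 * a k := by
        rw [two_mul]
        exact le_self_add
      exact h1.trans ((he2 k).trans h2)
    have hemono : Monotone e := monotone_nat_of_le_succ heinc
    let A : ℕ → Set Ω := fun k => {ω | ∀ j < k, (fun q => X q ω) ∉ pathLim s c₁ C' (a j)}
    have hbound : ∀ k, P (A k) ≤ (1 - ENNReal.ofReal κ) ^ k + ∑ j ∈ Finset.range k, δ j := by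
      intro k
      induction k with
      | zero =>
        simp only [pow_zero, Finset.range_zero, Finset.sum_empty, add_zero]
        exact prob_le_one
      | succ k ih =>
        set 𝒜 : Set (ι × ℝ≥0 × ℝ≥0 → ℝ) := {u | ∀ j < k, u ∉ pathLim s c₁ C' (a j)} with h𝒜
        have h𝒜m : MeasurableSet 𝒜 := by
          have : 𝒜 = ⋂ j : ℕ, ⋂ _ : j < k, (pathLim s c₁ C' (a j))ᶜ := by
            ext u
            simp [h𝒜]
          rw [this]
          exact MeasurableSet.iInter fun j => MeasurableSet.iInter fun _ =>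
            (measurableSet_pathLim s c₁ C' (a j)).compl
        have hiff : ∀ ω, pS X (e k) ω ∈ 𝒜 ↔ ω ∈ A k := by
          intro ω
          simp only [h𝒜, A, Set.mem_setOf_eq]
          refine forall_congr' fun j => ?_
          refine imp_congr_right fun hj => ?_
          rw [not_iff_not]
          refine pathLim_congr ?_
          intro c s' t _ ht
          have h1 : t ≤ e k := ht.trans ((hmono j).trans (hemono hj))
          simp only [pS, min_eq_left h1]
        have hstep := chain_step h hgood (hapos k) (he2 k) h𝒜m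
        have e1 : A (k + 1) = {ω | pS X (e k) ω ∈ 𝒜 ∧ (fun q => X q ω) ∉ pathLim s c₁ C' (a k)} := by
          ext ω
          simp only [Set.mem_setOf_eq, hiff]
          constructor
          · intro h1
            exact ⟨fun j hj => h1 j (by omega), h1 k (by omega)⟩
          · rintro ⟨h1, h2⟩ j hj
            rcases Nat.lt_succ_iff_lt_or_eq.1 hj with h3 | h3
            · exact h1 j h3
            · rw [h3]
              exact h2
        have e2 : {ω | pS X (e k) ω ∈ 𝒜} = A k := by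
          ext ω
          exact hiff ω
        rw [e2] at hstep
        rw [e1]
        calc _ ≤ P (A k) * (1 - ENNReal.ofReal κ) + P (badE X (e k) (a k)) := hstep
          _ ≤ ((1 - ENNReal.ofReal κ) ^ k + ∑ j ∈ Finset.range k, δ j) *
                (1 - ENNReal.ofReal κ) + δ k := by
              gcongr
              exact hbad k
          _ ≤ (1 - ENNReal.ofReal κ) ^ (k + 1) + ∑ j ∈ Finset.range (k + 1), δ j := by
              rw [add_mul, ← pow_succ, Finset.sum_range_succ, add_assoc]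
              gcongr
              exact mul_le_of_le_one_right zero_le tsub_le_self
    have hlim : Tendsto (fun k : ℕ => (1 - ENNReal.ofReal κ) ^ k + η) atTop (𝓝 (0 + η)) := by
      refine Tendsto.add_const _ ?_
      refine ENNReal.tendsto_pow_atTop_nhds_zero_of_lt_one ?_
      exact ENNReal.sub_lt_self ENNReal.one_ne_top one_ne_zero (by
        rw [Ne, ENNReal.ofReal_eq_zero, not_le]
        exact hκ)
    rw [zero_add] at hlim
    refine ge_of_tendsto' hlim fun k => ?_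
    calc _ ≤ P (A k) := by
          refine measure_mono fun ω hω => ?_
          intro j _ hcon
          exact hω ⟨a j, hapos j, hcon⟩
      _ ≤ (1 - ENNReal.ofReal κ) ^ k + ∑ j ∈ Finset.range k, δ j := hbound k
      _ ≤ _ := by
          gcongr
          exact (ENNReal.sum_le_tsum _).trans hδsum.le
  have h0 : P {ω | ¬ ∃ a : ℝ≥0, 0 < a ∧ (fun q => X q ω) ∈ pathLim s c₁ C' a} = 0 := by
    refine le_antisymm ?_ bot_le
    refine ENNReal.le_of_forall_pos_le_add fun ε hε _ => ?_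
    rw [zero_add]
    exact hmain ε (by exact_mod_cast hε)
  exact h0

/-- Lower bound for the dimension of the zero set. -/
theorem IsSheet.ae_dimH_ge (h : IsSheet X P) (hd : 1 ≤ Fintype.card ι)
    (hcont : ∀ᵐ ω ∂P, ∀ c, Continuous (fun p : ℝ≥0 × ℝ≥0 => X (c, p.1, p.2) ω))
    {s : ℝ≥0} (hs : 0 < s) (hα : (s : ℝ) + (Fintype.card ι : ℝ) / 2 < 2) :
    ∀ᵐ ω ∂P, (s : ℝ≥0∞) ≤ dimH (ZZ X ω) := by
  obtain ⟨c₁, C', κ, hc₁, hC', hκ, hgood⟩ := good_prob h hd s.2 hα
  filter_upwards [ae_exists_pathLim h hcont hκ hgood, hcont] with ω hω hωc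
  obtain ⟨a, ha, hx⟩ := hω
  have h1 := hausdorff_ne_zero_of_energy (x := fun q => X q ω) hωc ha
    (s := (s : ℝ)) (by exact_mod_cast hs) hc₁ hC' hx
  have h2 := le_dimH_of_hausdorffMeasure_ne_zero h1
  refine h2.trans (dimH_mono ?_)
  rintro p ⟨⟨hp1, hp2⟩, hp3⟩
  exact ⟨lt_of_lt_of_le one_pos hp1.1, lt_of_lt_of_le ha hp2.1, hp3⟩

end Pool.Agent.Helper41
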