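import Mathlib
import Pool.Agent.Helper41.LineCover
import Pool.Agent.Helper41.ZeroEnd

open MeasureTheory ProbabilityTheory Filter Topology Metric
open scoped ENNReal NNReal

namespace Pool.Agent.Helper41

variable {Ω : Type*} [MeasurableSpace Ω] {P : Measure Ω} [IsProbabilityMeasure P]
variable {ι : Type*} [DecidableEq ι] [Fintype ι] {X : ι × ℝ≥0 × ℝ≥0 → Ω → ℝ}

/-- near zero event at a grid point away from the axes -/
def cellE (X : ι × ℝ≥0 × ℝ≥0 → Ω → ℝ) (K n : ℕ) (p : ℕ × ℕ) : Set Ω :=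
  {ω | (1 ≤ (K : ℝ≥0) * (p.1 * stp n) ∧ 1 ≤ (K : ℝ≥0) * (p.2 * stp n)) ∧
    ‖fun c => X (c, p.1 * stp n, p.2 * stp n) ω‖ ≤ rad K n}

lemma meas_cellE (h : IsSheet X P) (K n : ℕ) (p : ℕ × ℕ) : MeasurableSet (cellE X K n p) := by
  unfold cellE
  by_cases hc : 1 ≤ (K : ℝ≥0) * (p.1 * stp n) ∧ 1 ≤ (K : ℝ≥0) * (p.2 * stp n)
  · simp only [hc, true_and]
    exact measurableSet_le (measurable_pi_lambda _ fun c => h.meas _).norm measurable_const
  · simp only [hc, false_and]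
    exact MeasurableSet.empty

lemma cellE_le (h : IsSheet X P) {K n : ℕ} (hK : 1 ≤ K) (p : ℕ × ℕ) :
    P (cellE X K n p) ≤ ENNReal.ofReal ((K * rad K n) ^ Fintype.card ι) := by
  have hK' : (0 : ℝ) < K := by exact_mod_cast hK
  have hr := rad_nonneg K n
  by_cases hc : 1 ≤ (K : ℝ≥0) * (p.1 * stp n) ∧ 1 ≤ (K : ℝ≥0) * (p.2 * stp n)
  swap
  · have : cellE X K n p = ∅ := by
      unfold cellE
      simp only [hc, false_and]
      rfl
    rw [this, measure_empty]
    exact bot_le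
  set s : ℝ≥0 := p.1 * stp n with hs
  set t : ℝ≥0 := p.2 * stp n with ht
  obtain ⟨h1, h2⟩ := hc
  have hs0 : 0 < s := by
    rcases eq_or_ne s 0 with h0 | h0
    · rw [h0, mul_zero] at h1; exact absurd h1 (by norm_num)
    · exact pos_iff_ne_zero.2 h0
  have ht0 : 0 < t := by
    rcases eq_or_ne t 0 with h0 | h0
    · rw [h0, mul_zero] at h2; exact absurd h2 (by norm_num)
    · exact pos_iff_ne_zero.2 h0
  have h3 := h.small_ball s 0 t hs0 ht0 hr 0
  have hz : ∀ᵐ ω ∂P, ∀ c, X (c, s, 0) ω = 0 := by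
    rw [ae_all_iff]
    intro c
    exact h.ae_zero c s
  have h4 : P (cellE X K n p) ≤ P {ω | ‖(fun c => X (c, s, t) ω - X (c, s, 0) ω) - 0‖ ≤ rad K n} := by
    refine measure_mono_ae ?_
    filter_upwards [hz] with ω hω hω2
    have h5 : ‖fun c => X (c, s, t) ω‖ ≤ rad K n := hω2.2
    show ‖(fun c => X (c, s, t) ω - X (c, s, 0) ω) - 0‖ ≤ rad K n
    simp only [hω, sub_zero]
    exact h5
  refine h4.trans (h3.trans ?_)
  rw [← ENNReal.ofReal_pow (by positivity)]
  apply ENNReal.ofReal_le_ofReal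
  have h6 : (1 / (K : ℝ)) ≤ √((s * (t - 0) : ℝ≥0) : ℝ) := by
    apply Real.le_sqrt_of_sq_le
    rw [tsub_zero, NNReal.coe_mul]
    have h7 : (1 : ℝ) / K ≤ s := by
      rw [div_le_iff₀ hK', mul_comm]
      exact_mod_cast h1
    have h8 : (1 : ℝ) / K ≤ t := by
      rw [div_le_iff₀ hK', mul_comm]
      exact_mod_cast h2
    rw [sq]
    gcongr
  have h9 : rad K n / √((s * (t - 0) : ℝ≥0) : ℝ) ≤ K * rad K n := by
    calc rad K n / √((s * (t - 0) : ℝ≥0) : ℝ) ≤ rad K n / (1 / (K : ℝ)) := by gcongr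
      _ = _ := by rw [div_div_eq_mul_div, div_one]; ring
  gcongr

open Classical in
/-- number of near zero grid points -/
noncomputable def cellN (X : ι × ℝ≥0 × ℝ≥0 → Ω → ℝ) (K n : ℕ) (ω : Ω) : ℝ≥0∞ :=
  ∑ p ∈ Finset.range (K * 2 ^ n + 1) ×ˢ Finset.range (K * 2 ^ n + 1),
    if ω ∈ cellE X K n p then 1 else 0

lemma meas_cellN (h : IsSheet X P) (K n : ℕ) : Measurable (cellN X K n) := by
  unfold cellN
  refine Finset.measurable_sum _ fun i _ => ?_
  exact Measurable.ite (meas_cellE h K n i) measurable_const measurable_const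

lemma qq_pow_eq (n d : ℕ) : (qq ^ n) ^ d = (2 : ℝ) ^ (-(n : ℝ) * d / 2) := by
  have h0 : qq = (2 : ℝ) ^ (-(1 / 2 : ℝ)) := by
    unfold qq
    rw [Real.rpow_neg (by norm_num), ← Real.sqrt_eq_rpow]
  rw [h0, ← pow_mul, ← Real.rpow_natCast, ← Real.rpow_mul (by norm_num)]
  congr 1
  push_cast
  ring

/-- constant in the first moment bound -/
noncomputable def cU (K d : ℕ) : ℝ := (K + 1) ^ 2 * (14 * K * √K) ^ d

lemma cU_nonneg (K d : ℕ) : 0 ≤ cU K d := by unfold cU; positivity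

lemma lintegral_cellN_le (h : IsSheet X P) {K n : ℕ} (hK : 1 ≤ K) :
    ∫⁻ ω, cellN X K n ω ∂P ≤
      ENNReal.ofReal (cU K (Fintype.card ι) * (n + 4) ^ Fintype.card ι *
        (2 : ℝ) ^ (n * (2 - (Fintype.card ι : ℝ) / 2))) := by
  classical
  have h1 : ∫⁻ ω, cellN X K n ω ∂P =
      ∑ p ∈ Finset.range (K * 2 ^ n + 1) ×ˢ Finset.range (K * 2 ^ n + 1), P (cellE X K n p) := by
    unfold cellN
    rw [lintegral_finset_sum]
    · refine Finset.sum_congr rfl fun p _ => ?_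
      have : (fun ω => if ω ∈ cellE X K n p then (1 : ℝ≥0∞) else 0) =
          (cellE X K n p).indicator (fun _ => (1 : ℝ≥0∞)) := by
        funext ω
        rw [Set.indicator_apply]
      rw [this, lintegral_indicator_const (meas_cellE h K n p), one_mul]
    · intro p _
      exact Measurable.ite (meas_cellE h K n p) measurable_const measurable_const
  rw [h1]
  calc ∑ p ∈ Finset.range (K * 2 ^ n + 1) ×ˢ Finset.range (K * 2 ^ n + 1), P (cellE X K n p)
      ≤ ∑ _p ∈ Finset.range (K * 2 ^ n + 1) ×ˢ Finset.range (K * 2 ^ n + 1),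
          ENNReal.ofReal ((K * rad K n) ^ Fintype.card ι) :=
        Finset.sum_le_sum fun p _ => cellE_le h hK p
    _ = ENNReal.ofReal (((K * 2 ^ n + 1) * (K * 2 ^ n + 1)) * (K * rad K n) ^ Fintype.card ι) := by
        rw [Finset.sum_const, nsmul_eq_mul, Finset.card_product, Finset.card_range,
          ← ENNReal.ofReal_natCast, ← ENNReal.ofReal_mul (by positivity)]
        congr 1
        push_cast
        ring
    _ ≤ _ := by
        apply ENNReal.ofReal_le_ofReal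
        have h2 : (1 : ℝ) ≤ 2 ^ n := one_le_pow₀ (by norm_num)
        have h3 : (K * 2 ^ n + 1 : ℝ) ≤ (K + 1) * 2 ^ n := by nlinarith
        have hr := rad_nonneg K n
        have hqq := qq_pos
        have h4 : (K * rad K n : ℝ) ^ Fintype.card ι = (14 * K * √K) ^ Fintype.card ι *
            (n + 4) ^ Fintype.card ι * (qq ^ n) ^ Fintype.card ι := by
          unfold rad
          rw [← mul_pow, ← mul_pow]
          congr 1
          ring
        have h5 : (2 : ℝ) ^ (n * (2 - (Fintype.card ι : ℝ) / 2)) =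
            2 ^ n * 2 ^ n * (qq ^ n) ^ Fintype.card ι := by
          rw [qq_pow_eq, ← pow_add, ← Real.rpow_natCast 2 (n + n), ← Real.rpow_add (by norm_num)]
          congr 1
          push_cast
          ring
        rw [h4, h5]
        unfold cU
        calc (K * 2 ^ n + 1 : ℝ) * (K * 2 ^ n + 1) * ((14 * K * √K) ^ Fintype.card ι *
            (n + 4) ^ Fintype.card ι * (qq ^ n) ^ Fintype.card ι)
            ≤ ((K + 1) * 2 ^ n) * ((K + 1) * 2 ^ n) * ((14 * K * √K) ^ Fintype.card ι *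
            (n + 4) ^ Fintype.card ι * (qq ^ n) ^ Fintype.card ι) := by gcongr
          _ = _ := by ring

lemma summable_poly_geom (C : ℝ) (d : ℕ) {δ : ℝ} (hδ : 0 < δ) :
    Summable (fun n : ℕ => C * ((n : ℝ) + 4) ^ d * ((2 : ℝ) ^ (-δ)) ^ n) := by
  set r : ℝ := (2 : ℝ) ^ (-δ) with hr
  have hr0 : 0 < r := by positivity
  have hr1 : r < 1 := Real.rpow_lt_one_of_one_lt_of_neg (by norm_num) (by linarith)
  have h1 : Summable (fun n : ℕ => (n : ℝ) ^ d * r ^ n) :=
    summable_pow_mul_geometric_of_norm_lt_one d (by rw [Real.norm_eq_abs, abs_of_pos hr0]; exact hr1)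
  have := (summable_nat_add_iff 4).2 h1
  have h3 := this.mul_left (C * (r ^ 4)⁻¹)
  refine h3.congr fun n => ?_
  push_cast
  rw [pow_add r n 4]
  field_simp

/-- almost surely the number of near zero grid points is at most of the expected order -/
theorem ae_cellN (h : IsSheet X P) {K : ℕ} (hK : 1 ≤ K) {δ : ℝ} (hδ : 0 < δ) :
    ∀ᵐ ω ∂P, ∀ᶠ n : ℕ in atTop, cellN X K n ω <
      ENNReal.ofReal ((2 : ℝ) ^ (n * (2 - (Fintype.card ι : ℝ) / 2 + δ))) := by
  set d := Fintype.card ι with hd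
  let Bad : ℕ → Set Ω := fun n =>
    {ω | ENNReal.ofReal ((2 : ℝ) ^ (n * (2 - (d : ℝ) / 2 + δ))) ≤ cellN X K n ω}
  have hBad : ∀ n, P (Bad n) ≤ ENNReal.ofReal (cU K d * ((n : ℝ) + 4) ^ d * ((2 : ℝ) ^ (-δ)) ^ n) := by
    intro n
    have hpos : 0 < (2 : ℝ) ^ (n * (2 - (d : ℝ) / 2 + δ)) := by positivity
    have hcU := cU_nonneg K d
    calc P (Bad n) ≤ (∫⁻ ω, cellN X K n ω ∂P) /
            ENNReal.ofReal ((2 : ℝ) ^ (n * (2 - (d : ℝ) / 2 + δ))) :=
          meas_ge_le_lintegral_div (meas_cellN h K n).aemeasurable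
            (by simpa using hpos) ENNReal.ofReal_ne_top
      _ ≤ ENNReal.ofReal (cU K d * (n + 4) ^ d * (2 : ℝ) ^ (n * (2 - (d : ℝ) / 2))) /
            ENNReal.ofReal ((2 : ℝ) ^ (n * (2 - (d : ℝ) / 2 + δ))) := by
          gcongr
          exact lintegral_cellN_le h hK
      _ = _ := by
          rw [← ENNReal.ofReal_div_of_pos hpos]
          congr 1
          rw [mul_div_assoc, ← Real.rpow_sub (by norm_num), ← Real.rpow_natCast ((2 : ℝ) ^ (-δ)) n,
            ← Real.rpow_mul (by norm_num)]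
          congr 2
          ring
  have hsum : ∑' n, P (Bad n) ≠ ∞ := by
    refine ne_top_of_le_ne_top ((summable_poly_geom (cU K d) d hδ)).tsum_ofReal_ne_top ?_
    exact ENNReal.tsum_le_tsum hBad
  filter_upwards [ae_eventually_notMem hsum] with ω hω
  filter_upwards [hω] with n hn
  exact not_le.1 hn

/-- truncated zero set, away from both axes -/
def ZT (X : ι × ℝ≥0 × ℝ≥0 → Ω → ℝ) (ω : Ω) (K : ℕ) : Set (ℝ≥0 × ℝ≥0) :=
  {p | p.1 ≤ K ∧ p.2 ≤ K ∧ 2 ≤ K * p.1 ∧ 2 ≤ K * p.2 ∧ ∀ c, X (c, p.1, p.2) ω = 0}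

omit [MeasurableSpace Ω] in
theorem dimH_ZT_le {ω : Ω} {K : ℕ} (hK : 1 ≤ K) {s : ℝ≥0} (hs0 : 0 < s)
    {α δ : ℝ} (hδ : 0 < δ) (hs : (s : ℝ) = α + 2 * δ)
    (hcont : ∀ c, Continuous (fun p : ℝ≥0 × ℝ≥0 => X (c, p.1, p.2) ω))
    (hE : ∀ c, ∀ᶠ n : ℕ in atTop, EdgeBound (fun s t => X (c, s, t) ω) K n (edgeE K n))
    (hN : ∀ᶠ n : ℕ in atTop, cellN X K n ω < ENNReal.ofReal ((2 : ℝ) ^ (n * (α + δ)))) :
    dimH (ZT X ω K) ≤ s := by
  classical
  let I : ℕ → Type := fun n => {p : ℕ × ℕ // p ∈ Finset.range (K * 2 ^ n + 1) ×ˢ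
    Finset.range (K * 2 ^ n + 1)}
  let t : ∀ n, I n → Set (ℝ≥0 × ℝ≥0) := fun n q =>
    {p | ω ∈ cellE X K n q.1 ∧ fl n p.1 = q.1.1 * stp n ∧ fl n p.2 = q.1.2 * stp n}
  have hdiam : ∀ n, ∀ q : I n, ediam (t n q) ≤ ENNReal.ofReal (1 / 2 ^ n) := by
    intro n q
    apply Metric.ediam_le
    rintro p ⟨_, hp1, hp2⟩ p' ⟨_, hp1', hp2'⟩
    rw [Prod.edist_eq]
    exact max_le (edist_le_of_fl_eq (hp1.trans hp1'.symm)) (edist_le_of_fl_eq (hp2.trans hp2'.symm))
  have hcover : ∀ᶠ n in atTop, ZT X ω K ⊆ ⋃ q, t n q := by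
    have hE' : ∀ᶠ n : ℕ in atTop, ∀ m, n ≤ m → ∀ c,
        EdgeBound (fun s t => X (c, s, t) ω) K m (edgeE K m) := by
      have := eventually_all.2 hE
      obtain ⟨N, hN'⟩ := eventually_atTop.1 this
      filter_upwards [eventually_ge_atTop N] with n hn m hm c
      exact hN' m (hn.trans hm) c
    filter_upwards [hE', eventually_ge_atTop K] with n hn hnK
    have hK2 : (K : ℝ≥0) ≤ 2 ^ n := by
      have : K ≤ 2 ^ n := hnK.trans (Nat.lt_two_pow_self.le)
      exact_mod_cast this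
    rintro ⟨x, y⟩ ⟨hx, hy, hx2, hy2, hz⟩
    simp only at hx hy hx2 hy2 hz
    have hfl : ∀ z : ℝ≥0, fl n z = (⌊z * 2 ^ n⌋₊ : ℝ≥0) * stp n := by
      intro z
      unfold fl stp
      rw [mul_one_div]
    have hle : ∀ z : ℝ≥0, z ≤ K → ⌊z * 2 ^ n⌋₊ < K * 2 ^ n + 1 := by
      intro z hz
      apply Nat.lt_succ_of_le
      apply Nat.floor_le_of_le
      push_cast
      gcongr
    have hflow : ∀ z : ℝ≥0, 2 ≤ (K : ℝ≥0) * z → 1 ≤ (K : ℝ≥0) * fl n z := by
      intro z hz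
      have h1 : z ≤ fl n z + stp n := le_fl_add n z
      have h2 : (K : ℝ≥0) * stp n ≤ 1 := by
        unfold stp
        rw [mul_one_div, div_le_one (by positivity)]
        exact hK2
      have h3 : (1 : ℝ≥0) + 1 ≤ K * fl n z + 1 := by
        calc (1 : ℝ≥0) + 1 = 2 := by norm_num
          _ ≤ K * z := hz
          _ ≤ K * (fl n z + stp n) := by gcongr
          _ = K * fl n z + K * stp n := by ring
          _ ≤ _ := by gcongr
      exact le_of_add_le_add_right h3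
    refine Set.mem_iUnion.2 ⟨⟨(⌊x * 2 ^ n⌋₊, ⌊y * 2 ^ n⌋₊), ?_⟩, ?_, hfl x, hfl y⟩
    · rw [Finset.mem_product, Finset.mem_range, Finset.mem_range]
      exact ⟨hle x hx, hle y hy⟩
    · unfold cellE
      simp only [Set.mem_setOf_eq]
      rw [← hfl x, ← hfl y]
      refine ⟨⟨hflow x hx2, hflow y hy2⟩, ?_⟩
      rw [pi_norm_le_iff_of_nonneg (rad_nonneg K n)]
      intro c
      have hch : |X (c, x, y) ω - X (c, fl n x, fl n y) ω| ≤ 7 * √K * (n + 4) * qq ^ n := by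
        refine chain_bound (f := fun s t => X (c, s, t) ω) (Real.sqrt_nonneg _)
          (fun m hm => ?_) hx hy ?_
        · have := hn m hm c
          unfold edgeE at this
          exact this
        · have h1 := (hcont c).tendsto (x, y)
          have h2 : Tendsto (fun m => (fl m x, fl m y)) atTop (𝓝 (x, y)) :=
            (tendsto_fl x).prodMk_nhds (tendsto_fl y)
          exact h1.comp h2
      rw [hz c, zero_sub, abs_neg] at hch
      rw [Real.norm_eq_abs]
      refine hch.trans ?_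
      unfold rad
      have := qq_pos
      gcongr
      norm_num
  have hmu : μH[(s : ℝ)] (ZT X ω K) ≤
      liminf (fun n => ∑ i, ediam (t n i) ^ (s : ℝ)) atTop := by
    refine Measure.hausdorffMeasure_le_liminf_sum _ _ (fun n : ℕ => ENNReal.ofReal (1 / 2 ^ n))
      ?_ t (Eventually.of_forall hdiam) hcover
    have : Tendsto (fun n : ℕ => (1 / 2 : ℝ) ^ n) atTop (𝓝 0) :=
      tendsto_pow_atTop_nhds_zero_of_lt_one (by norm_num) (by norm_num)
    have h2 := ENNReal.tendsto_ofReal this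
    simp only [ENNReal.ofReal_zero] at h2
    refine h2.congr fun n => ?_
    rw [div_pow, one_pow]
  have hs0' : (0 : ℝ) < s := hs0
  have hsum : ∀ᶠ n in atTop, ∑ i, ediam (t n i) ^ (s : ℝ) ≤
      ENNReal.ofReal (((2 : ℝ) ^ (-δ)) ^ n) := by
    filter_upwards [hN] with n hn
    calc ∑ i, ediam (t n i) ^ (s : ℝ)
        ≤ ∑ i : I n, (if ω ∈ cellE X K n i.1 then 1 else 0) *
            (ENNReal.ofReal (1 / 2 ^ n)) ^ (s : ℝ) := by
          refine Finset.sum_le_sum fun q _ => ?_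
          by_cases hq : ω ∈ cellE X K n q.1
          · rw [if_pos hq, one_mul]
            exact ENNReal.rpow_le_rpow (hdiam n q) hs0'.le
          · have : t n q = ∅ := by
              ext p
              simp [t, hq]
            rw [this, Metric.ediam_empty, ENNReal.zero_rpow_of_pos hs0']
            exact bot_le
      _ = cellN X K n ω * (ENNReal.ofReal (1 / 2 ^ n)) ^ (s : ℝ) := by
          unfold cellN
          rw [← Finset.sum_mul]
          congr 1
          exact (Finset.sum_coe_sort (Finset.range (K * 2 ^ n + 1) ×ˢ Finset.range (K * 2 ^ n + 1))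
            (fun p => if ω ∈ cellE X K n p then (1 : ℝ≥0∞) else 0))
      _ ≤ ENNReal.ofReal ((2 : ℝ) ^ (n * (α + δ))) *
            (ENNReal.ofReal (1 / 2 ^ n)) ^ (s : ℝ) := by
          gcongr
      _ = ENNReal.ofReal (((2 : ℝ) ^ (-δ)) ^ n) := by
          rw [ENNReal.ofReal_rpow_of_nonneg (by positivity) hs0'.le,
            ← ENNReal.ofReal_mul (by positivity)]
          congr 1
          have e1 : (1 / 2 ^ n : ℝ) = (2 : ℝ) ^ (-(n : ℝ)) := by
            rw [Real.rpow_neg (by norm_num), Real.rpow_natCast, one_div]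
          rw [e1, ← Real.rpow_mul (by norm_num), ← Real.rpow_add (by norm_num),
            ← Real.rpow_natCast ((2 : ℝ) ^ (-δ)) n, ← Real.rpow_mul (by norm_num), hs]
          congr 1
          ring
  have hlim : Tendsto (fun n : ℕ => ENNReal.ofReal (((2 : ℝ) ^ (-δ)) ^ n)) atTop (𝓝 0) := by
    have h1 : Tendsto (fun n : ℕ => ((2 : ℝ) ^ (-δ)) ^ n) atTop (𝓝 0) := by
      apply tendsto_pow_atTop_nhds_zero_of_lt_one (by positivity)
      exact Real.rpow_lt_one_of_one_lt_of_neg (by norm_num) (by linarith)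
    have h2 := ENNReal.tendsto_ofReal h1
    simpa only [ENNReal.ofReal_zero] using h2
  have hfin : liminf (fun n => ∑ i, ediam (t n i) ^ (s : ℝ)) atTop ≤ 0 := by
    have h1 : liminf (fun n => ∑ i, ediam (t n i) ^ (s : ℝ)) atTop ≤
        liminf (fun n : ℕ => ENNReal.ofReal (((2 : ℝ) ^ (-δ)) ^ n)) atTop :=
      liminf_le_liminf hsum
    rw [hlim.liminf_eq] at h1
    exact h1
  have hz : μH[(s : ℝ)] (ZT X ω K) ≠ ∞ := by
    rw [le_antisymm (hmu.trans hfin) bot_le]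
    exact ENNReal.zero_ne_top
  exact dimH_le_of_hausdorffMeasure_ne_top hz

/-- Almost surely the dimension of the zero set is at most any number above `2 - d/2`. -/
theorem IsSheet.ae_dimH_le (h : IsSheet X P)
    (hcont : ∀ᵐ ω ∂P, ∀ c, Continuous (fun p : ℝ≥0 × ℝ≥0 => X (c, p.1, p.2) ω))
    {s : ℝ≥0} (hs : 0 < s) (hα : 2 - (Fintype.card ι : ℝ) / 2 < (s : ℝ)) :
    ∀ᵐ ω ∂P, dimH (ZZ X ω) ≤ s := by
  set δ : ℝ := ((s : ℝ) - (2 - (Fintype.card ι : ℝ) / 2)) / 2 with hδdef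
  have hδ : 0 < δ := by rw [hδdef]; linarith
  have hE : ∀ᵐ ω ∂P, ∀ K : ℕ, 1 ≤ K → ∀ c, ∀ᶠ n : ℕ in atTop,
      EdgeBound (fun s t => X (c, s, t) ω) K n (edgeE K n) := by
    rw [ae_all_iff]
    intro K
    by_cases hK : 1 ≤ K
    · have : ∀ᵐ ω ∂P, ∀ c, ∀ᶠ n : ℕ in atTop,
          EdgeBound (fun s t => X (c, s, t) ω) K n (edgeE K n) := by
        rw [ae_all_iff]
        intro c
        exact h.ae_edgeBound c K hK
      filter_upwards [this] with ω hω _
      exact hω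
    · exact Eventually.of_forall fun ω h' => absurd h' hK
  have hN : ∀ᵐ ω ∂P, ∀ K : ℕ, 1 ≤ K → ∀ᶠ n : ℕ in atTop, cellN X K n ω <
      ENNReal.ofReal ((2 : ℝ) ^ (n * (2 - (Fintype.card ι : ℝ) / 2 + δ))) := by
    rw [ae_all_iff]
    intro K
    by_cases hK : 1 ≤ K
    · filter_upwards [ae_cellN h hK hδ] with ω hω _
      exact hω
    · exact Eventually.of_forall fun ω h' => absurd h' hK
  filter_upwards [hE, hN, hcont] with ω hωE hωN hωc
  have hsub : ZZ X ω ⊆ ⋃ K : ℕ, (if 1 ≤ K then ZT X ω K else ∅) := by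
    rintro ⟨x, y⟩ ⟨hx, hy, hz⟩
    obtain ⟨K₁, hK₁⟩ := exists_nat_ge x
    obtain ⟨K₂, hK₂⟩ := exists_nat_ge (2 / x)
    obtain ⟨K₃, hK₃⟩ := exists_nat_ge y
    obtain ⟨K₄, hK₄⟩ := exists_nat_ge (2 / y)
    obtain ⟨K, hKdef⟩ : ∃ K : ℕ, K = 1 + K₁ + K₂ + K₃ + K₄ := ⟨_, rfl⟩
    have hKK1 : (K₁ : ℝ≥0) ≤ K := by
      have : K₁ ≤ K := by omega
      exact_mod_cast this
    have hKK2 : (K₂ : ℝ≥0) ≤ K := by
      have : K₂ ≤ K := by omega
      exact_mod_cast this
    have hKK3 : (K₃ : ℝ≥0) ≤ K := by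
      have : K₃ ≤ K := by omega
      exact_mod_cast this
    have hKK4 : (K₄ : ℝ≥0) ≤ K := by
      have : K₄ ≤ K := by omega
      exact_mod_cast this
    have hK1 : 1 ≤ K := by omega
    refine Set.mem_iUnion.2 ⟨K, ?_⟩
    rw [if_pos hK1]
    refine ⟨hK₁.trans hKK1, hK₃.trans hKK3, ?_, ?_, hz⟩
    · have : 2 / x ≤ K := hK₂.trans hKK2
      rwa [div_le_iff₀ hx] at this
    · have : 2 / y ≤ K := hK₄.trans hKK4
      rwa [div_le_iff₀ hy] at this
  refine (dimH_mono hsub).trans ?_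
  rw [dimH_iUnion]
  refine iSup_le fun K => ?_
  split_ifs with hK1
  · refine dimH_ZT_le hK1 hs (α := 2 - (Fintype.card ι : ℝ) / 2) hδ ?_ hωc (hωE K hK1) (hωN K hK1)
    rw [hδdef]
    ring
  · rw [dimH_empty]
    exact bot_le

end Pool.Agent.Helper41
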